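import Mathlib

namespace Pool.Agent.H330


open Cardinal

universe u

/-- infinite clique -/
def EdmClique {A : Type u} (G : A → A → Prop) : Prop :=
  ∃ s : ℕ → A, Function.Injective s ∧ ∀ i j, i ≠ j → G (s i) (s j)

/-- independent set -/
def EdmIndep {A : Type u} (G : A → A → Prop) (H : Set A) : Prop :=
  ∀ x ∈ H, ∀ y ∈ H, x ≠ y → ¬ G x y

theorem edm_small {A : Type u} (G : A → A → Prop) (hG : ∀ x y, G x y → G y x)
    (hno : ¬ EdmClique G) (B : Set A) (hB : ℵ₀ ≤ #B) :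
    ∃ V ⊆ B, #V = #B ∧ ∀ x ∈ V, #{y | y ∈ V ∧ G x y} < #B := by
  by_contra hcon
  push Not at hcon
  have hcon' : ∀ V : {V : Set A // V ⊆ B ∧ #V = #B}, ∃ x, x ∈ V.1 ∧ #B ≤ #{y | y ∈ V.1 ∧ G x y} := by
    intro V
    obtain ⟨x, hx, hx'⟩ := hcon V.1 V.2.1 V.2.2
    exact ⟨x, hx, hx'⟩
  choose x hx hx' using hcon'
  have hnext : ∀ V : {V : Set A // V ⊆ B ∧ #V = #B},
      {y | y ∈ V.1 ∧ G (x V) y ∧ y ≠ x V} ⊆ B ∧ #{y | y ∈ V.1 ∧ G (x V) y ∧ y ≠ x V} = #B := by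
    intro V
    have h1 : {y | y ∈ V.1 ∧ G (x V) y ∧ y ≠ x V} ⊆ B := fun y hy => V.2.1 hy.1
    refine ⟨h1, le_antisymm (mk_le_mk_of_subset h1) ?_⟩
    by_contra hlt
    push Not at hlt
    have h2 : {y | y ∈ V.1 ∧ G (x V) y} ⊆ insert (x V) {y | y ∈ V.1 ∧ G (x V) y ∧ y ≠ x V} := by
      rintro y ⟨hy1, hy2⟩
      by_cases h : y = x V
      · exact Or.inl h
      · exact Or.inr ⟨hy1, hy2, h⟩
    have h3 := (hx' V).trans ((mk_le_mk_of_subset h2).trans mk_insert_le)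
    exact absurd h3 (not_le.2 (add_lt_of_lt hB hlt (one_lt_aleph0.trans_le hB)))
  let nx : {V : Set A // V ⊆ B ∧ #V = #B} → {V : Set A // V ⊆ B ∧ #V = #B} :=
    fun V => ⟨{y | y ∈ V.1 ∧ G (x V) y ∧ y ≠ x V}, hnext V⟩
  let U : ℕ → {V : Set A // V ⊆ B ∧ #V = #B} := fun n => nx^[n] ⟨B, subset_rfl, rfl⟩
  have hU : ∀ n, U (n + 1) = nx (U n) := fun n => Function.iterate_succ_apply' nx n _
  have hanti : ∀ n m, n ≤ m → (U m).1 ⊆ (U n).1 := by
    intro n m h
    induction h with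
    | refl => exact subset_rfl
    | step _ ih =>
      refine subset_trans ?_ ih
      rw [Nat.succ_eq_add_one, hU]
      intro y hy
      exact hy.1
  have hlt : ∀ n m, n < m → G (x (U n)) (x (U m)) ∧ x (U m) ≠ x (U n) := by
    intro n m h
    have h1 : x (U m) ∈ (U (n + 1)).1 := hanti (n + 1) m h (hx (U m))
    rw [hU] at h1
    exact h1.2
  apply hno
  refine ⟨fun n => x (U n), ?_, ?_⟩
  · intro n m h
    rcases lt_trichotomy n m with h1 | h1 | h1
    · exact absurd h.symm (hlt n m h1).2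
    · exact h1
    · exact absurd h (hlt m n h1).2
  · intro n m h
    rcases lt_or_gt_of_ne h with h1 | h1
    · exact (hlt n m h1).1
    · exact hG _ _ (hlt m n h1).1

theorem edm_reg {A : Type u} (G : A → A → Prop) (hG : ∀ x y, G x y → G y x)
    (hno : ¬ EdmClique G) (B : Set A) (hB : (#B).IsRegular) :
    ∃ I ⊆ B, #I = #B ∧ EdmIndep G I := by
  obtain ⟨V, hVB, hV, hdeg⟩ := edm_small G hG hno B hB.aleph0_le
  obtain ⟨I, hI⟩ := zorn_subset {I : Set A | I ⊆ V ∧ EdmIndep G I} (by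
    intro c hc hch
    refine ⟨⋃₀ c, ⟨Set.sUnion_subset fun s hs => (hc hs).1, ?_⟩, fun s hs => Set.subset_sUnion_of_mem hs⟩
    rintro x ⟨s, hs, hxs⟩ y ⟨t, ht, hyt⟩ hxy
    rcases hch.total hs ht with h | h
    · exact (hc ht).2 x (h hxs) y hyt hxy
    · exact (hc hs).2 x hxs y (h hyt) hxy)
  refine ⟨I, hI.prop.1.trans hVB, ?_, hI.prop.2⟩
  by_contra hne
  have hlt : #I < #B := lt_of_le_of_ne (by rw [← hV]; exact mk_le_mk_of_subset hI.prop.1) hne
  have hcov : V ⊆ I ∪ ⋃ x ∈ I, {y | y ∈ V ∧ G x y} := by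
    intro y hy
    by_cases hyI : y ∈ I
    · exact Or.inl hyI
    right
    by_contra hcon
    simp only [Set.mem_iUnion, not_exists] at hcon
    have hnG : ∀ x ∈ I, ¬ G x y := fun x hx hxy => hcon x hx ⟨hy, hxy⟩
    have h1 : insert y I ∈ {I : Set A | I ⊆ V ∧ EdmIndep G I} := by
      refine ⟨Set.insert_subset hy hI.prop.1, ?_⟩
      rintro a (rfl | ha) b (rfl | hb) hab
      · exact absurd rfl hab
      · exact fun h => hnG b hb (hG _ _ h)
      · exact hnG a ha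
      · exact hI.prop.2 a ha b hb hab
    exact hyI (hI.le_of_ge h1 (Set.subset_insert y I) (Set.mem_insert y I))
  have h2 : #(⋃ x ∈ I, {y | y ∈ V ∧ G x y} : Set A) < #B :=
    (card_biUnion_lt_iff_forall_of_isRegular (t := fun x _ => {y | y ∈ V ∧ G x y}) hB hlt).2
      fun a ha => hdeg a (hI.prop.1 ha)
  have h3 := (mk_le_mk_of_subset hcov).trans (mk_union_le _ _)
  rw [hV] at h3
  exact absurd h3 (not_le.2 (add_lt_of_lt hB.aleph0_le hlt h2))

theorem edm_cof (κ : Cardinal.{u}) (hs : κ.ord.cof < κ) :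
    ∃ (ι : Type u) (k : ι → Cardinal.{u}), #ι < κ ∧ (∀ i, k i < κ) ∧ ∀ μ < κ, ∃ i, μ ≤ k i := by
  obtain ⟨s, hs1, hs2⟩ := Order.exists_cof_eq (α := κ.ord.ToType)
  rw [Ordinal.cof_toType] at hs2
  refine ⟨s, fun i => (Ordinal.typein (α := κ.ord.ToType) (· < ·) i.1).card, by rw [hs2]; exact hs, ?_, ?_⟩
  · intro i
    exact lt_ord.1 (Ordinal.typein_lt_self i.1)
  · intro μ hμ
    obtain ⟨a, ha⟩ := Ordinal.typein_surj (α := κ.ord.ToType) (· < ·) (o := μ.ord) (by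
      rw [Ordinal.type_toType]; exact ord_lt_ord.2 hμ)
    obtain ⟨i, hi, hai⟩ := hs1 a
    refine ⟨⟨i, hi⟩, ?_⟩
    have h1 : μ.ord ≤ Ordinal.typein (α := κ.ord.ToType) (· < ·) i := by
      rw [← ha]
      exact (Ordinal.typein_le_typein (α := κ.ord.ToType) (· < ·)).2 (not_lt.2 hai)
    have h2 := Ordinal.card_le_card h1
    rwa [card_ord] at h2

theorem edm {A : Type u} (hA : ℵ₀ ≤ #A) (G : A → A → Prop) (hG : ∀ x y, G x y → G y x) :
    (∃ H : Set A, #H = #A ∧ ∀ x ∈ H, ∀ y ∈ H, x ≠ y → ¬ G x y) ∨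
    (∃ s : ℕ → A, Function.Injective s ∧ ∀ i j, i ≠ j → G (s i) (s j)) := by
  by_contra hcon
  rw [not_or] at hcon
  obtain ⟨hind, hno⟩ := hcon
  have hno' : ¬ EdmClique G := hno
  rcases isRegular_or_isSingular hA with hreg | hsing
  · obtain ⟨I, -, h1, h2⟩ := edm_reg G hG hno' Set.univ (by rw [mk_univ]; exact hreg)
    exact hind ⟨I, by rw [h1, mk_univ], h2⟩
  obtain ⟨V, -, hV, hdeg⟩ := edm_small G hG hno' Set.univ (by rw [mk_univ]; exact hA)
  rw [mk_univ] at hV hdeg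
  obtain ⟨ι, k, hι, hk, hk'⟩ := edm_cof (#A) hsing.cof_ord_lt
  set κ := #A with hκ
  -- the sets of small degree
  let W : Cardinal.{u} → Set A := fun d => {x | x ∈ V ∧ #{y | y ∈ V ∧ G x y} ≤ d}
  have hex : ∀ μ < κ, ∃ d < κ, μ ≤ #(W d) := by
    intro μ hμ
    by_contra hc
    push Not at hc
    have h1 : V ⊆ ⋃ i, W (k i) := by
      intro x hx
      obtain ⟨i, hi⟩ := hk' _ (hdeg x hx)
      exact Set.mem_iUnion.2 ⟨i, hx, hi⟩
    have h2 : #V ≤ #ι * μ := by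
      refine (mk_le_mk_of_subset h1).trans ((mk_iUnion_le _).trans ?_)
      gcongr
      exact ciSup_le' fun i => (hc (k i) (hk i)).le
    rw [hV] at h2
    exact absurd h2 (not_le.2 (mul_lt_of_lt hA hι hμ))
  let F : Cardinal.{u} → Cardinal.{u} := fun μ => sInf {d | μ ≤ #(W d)}
  have hF1 : ∀ μ < κ, μ ≤ #(W (F μ)) := by
    intro μ hμ
    obtain ⟨d, -, hd⟩ := hex μ hμ
    exact csInf_mem (s := {d | μ ≤ #(W d)}) ⟨d, hd⟩
  have hF2 : ∀ μ < κ, F μ < κ := by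
    intro μ hμ
    obtain ⟨d, hd', hd⟩ := hex μ hμ
    exact lt_of_le_of_lt (csInf_le' (show d ∈ {d | μ ≤ #(W d)} from hd)) hd'
  have hF3 : ∀ μ ν, μ ≤ ν → ν < κ → F μ ≤ F ν := by
    intro μ ν h hν
    exact csInf_le' (show F ν ∈ {d | μ ≤ #(W d)} from h.trans (hF1 ν hν))
  let Good : Set Cardinal.{u} := {ν | ∃ l, ℵ₀ ≤ l ∧ #ι ≤ l ∧ l < κ ∧ ν = Order.succ l}
  have hlim : ∀ l < κ, Order.succ l < κ := by
    intro l hl
    exact hsing.isSuccLimit.succ_lt hl
  obtain ⟨T, hT⟩ := zorn_subset {T : Set Cardinal.{u} | T ⊆ Good ∧ ∀ μ ∈ T, ∀ ν ∈ T, μ < ν → F μ < ν} (by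
    intro c hc hch
    refine ⟨⋃₀ c, ⟨Set.sUnion_subset fun s hs => (hc hs).1, ?_⟩, fun s hs => Set.subset_sUnion_of_mem hs⟩
    rintro x ⟨s, hs, hxs⟩ y ⟨t, ht, hyt⟩ hxy
    rcases hch.total hs ht with h | h
    · exact (hc ht).2 x (h hxs) y hyt hxy
    · exact (hc hs).2 x hxs y (h hyt) hxy)
  have hTcof : ∀ l < κ, ∃ ν ∈ T, l < ν := by
    intro l hl
    by_contra hc
    push Not at hc
    let m : Cardinal.{u} := max (max l (F l)) (max ℵ₀ #ι)
    have haleph : ℵ₀ < κ := by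
      refine lt_of_le_of_ne hA ?_
      intro h
      rw [← h] at hsing
      exact not_isSingular_aleph0 hsing
    have hm : m < κ := max_lt (max_lt hl (hF2 l hl)) (max_lt haleph hι)
    have h1 : insert (Order.succ m) T ∈ {T : Set Cardinal.{u} | T ⊆ Good ∧ ∀ μ ∈ T, ∀ ν ∈ T, μ < ν → F μ < ν} := by
      refine ⟨Set.insert_subset ⟨m, (le_max_left _ _).trans (le_max_right _ _),
        (le_max_right _ _).trans (le_max_right _ _), hm, rfl⟩ hT.prop.1, ?_⟩
      rintro a (rfl | ha) b (rfl | hb) hab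
      · exact absurd hab (lt_irrefl _)
      · exfalso
        have h2 : b ≤ m := (hc b hb).trans ((le_max_left _ _).trans (le_max_left _ _))
        exact absurd (hab.trans_le h2) (not_lt.2 (Order.le_succ m))
      · have h2 : F a ≤ m := (hF3 a l (hc a ha) hl).trans ((le_max_right _ _).trans (le_max_left _ _))
        exact Order.lt_succ_of_le h2
      · exact hT.prop.2 a ha b hb hab
    have h3 : Order.succ m ∈ T := hT.le_of_ge h1 (Set.subset_insert _ _) (Set.mem_insert _ _)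
    have h4 := hc _ h3
    exact absurd (Order.succ_le_iff.1 h4) (not_lt.2 ((le_max_left _ _).trans (le_max_left _ _)))
  -- independent sets
  have hI : ∀ ν : Cardinal.{u}, ν ∈ Good → ∃ I ⊆ W (F ν), #I = ν ∧ EdmIndep G I := by
    rintro ν ⟨l, hl1, hl2, hl3, rfl⟩
    have h1 : Order.succ l < κ := hlim l hl3
    obtain ⟨p, hp, hp'⟩ := le_mk_iff_exists_subset.1 (hF1 _ h1)
    obtain ⟨I, hI1, hI2, hI3⟩ := edm_reg G hG hno' p (by rw [hp']; exact isRegular_succ hl1)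
    exact ⟨I, hI1.trans hp, by rw [hI2, hp'], hI3⟩
  choose! I hI1 hI2 hI3 using hI
  choose t ht ht' using fun i => hTcof (k i) (hk i)
  have htG : ∀ i, t i ∈ Good := fun i => hT.prop.1 (ht i)
  have htκ : ∀ i, t i < κ := by
    intro i
    obtain ⟨l, -, -, hl, h⟩ := htG i
    rw [h]; exact hlim l hl
  -- neighbourhoods
  let N : Cardinal.{u} → Set A := fun ν => ⋃ x ∈ I ν, {y | y ∈ V ∧ G x y}
  have hN : ∀ ν ∈ Good, #(N ν) ≤ ν * F ν := by
    intro ν hν
    refine (mk_biUnion_le _ _).trans ?_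
    rw [hI2 ν hν]
    gcongr
    exact ciSup_le' fun x => (hI1 ν hν x.2).2
  let J : ι → Set A := fun i => I (t i) \ ⋃ j : {j : ι // t j < t i}, N (t j.1)
  have hJ : ∀ i, k i ≤ #(J i) := by
    intro i
    refine (ht' i).le.trans ?_
    obtain ⟨l, hl1, hl2, hl3, hl4⟩ := htG i
    have h1 : #(⋃ j : {j : ι // t j < t i}, N (t j.1) : Set A) < t i := by
      have h2 : #(⋃ j : {j : ι // t j < t i}, N (t j.1) : Set A) ≤ #{j : ι // t j < t i} * (l * l) := by
        refine (mk_iUnion_le _).trans ?_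
        gcongr
        refine ciSup_le' fun j => (hN _ (htG j.1)).trans ?_
        have h3 : t j.1 ≤ l := Order.lt_succ_iff.1 (lt_of_lt_of_eq j.2 hl4)
        have h4 : F (t j.1) ≤ l :=
          Order.lt_succ_iff.1 (lt_of_lt_of_eq (hT.prop.2 _ (ht j.1) _ (ht i) j.2) hl4)
        gcongr
      have h5 : #{j : ι // t j < t i} ≤ l := (mk_subtype_le _).trans hl2
      have h6 : #{j : ι // t j < t i} * (l * l) ≤ l * (l * l) := by gcongr
      rw [mul_eq_self hl1, mul_eq_self hl1] at h6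
      rw [mul_eq_self hl1] at h2
      exact lt_of_lt_of_eq (Order.lt_succ_of_le (h2.trans h6)) hl4.symm
    by_contra hc
    push Not at hc
    have h7 : I (t i) ⊆ J i ∪ ⋃ j : {j : ι // t j < t i}, N (t j.1) := by
      intro x hx
      by_cases h : x ∈ ⋃ j : {j : ι // t j < t i}, N (t j.1)
      · exact Or.inr h
      · exact Or.inl ⟨hx, h⟩
    have h8 := (mk_le_mk_of_subset h7).trans (mk_union_le _ _)
    rw [hI2 _ (htG i)] at h8
    have h9 : ℵ₀ ≤ t i := by rw [hl4]; exact hl1.trans (Order.le_succ l)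
    exact absurd h8 (not_le.2 (add_lt_of_lt h9 hc h1))
  apply hind
  refine ⟨⋃ i, J i, ?_, ?_⟩
  · refine le_antisymm (mk_set_le _) ?_
    by_contra hc
    push Not at hc
    obtain ⟨i, hi⟩ := hk' _ (hlim _ hc)
    have h1 : #(J i) ≤ #(⋃ i, J i : Set A) := mk_le_mk_of_subset (Set.subset_iUnion J i)
    exact absurd ((hi.trans (hJ i)).trans h1) (not_le.2 (Order.lt_succ _))
  · have key : ∀ i j, t i < t j → ∀ x ∈ J i, ∀ y ∈ J j, ¬ G x y := by
      intro i j hij x hx y hy hxy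
      apply hy.2
      refine Set.mem_iUnion.2 ⟨⟨i, hij⟩, ?_⟩
      refine Set.mem_iUnion₂.2 ⟨x, hx.1, ?_, hxy⟩
      exact (hI1 _ (htG j) hy.1).1
    intro x hx y hy hxy hGxy
    obtain ⟨i, hi⟩ := Set.mem_iUnion.1 hx
    obtain ⟨j, hj⟩ := Set.mem_iUnion.1 hy
    rcases lt_trichotomy (t i) (t j) with h | h | h
    · exact key i j h x hi y hj hGxy
    · have h1 : x ∈ I (t j) := by rw [← h]; exact hi.1
      exact hI3 _ (htG j) x h1 y hj.1 hxy hGxy
    · exact key j i h y hj x hi (hG _ _ hGxy)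

end Pool.Agent.H330
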