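import Mathlib
import Pool.Agent.H330.EDM

/-!
# Least-difference structures, combs and the level set of a comb
-/

open Cardinal Set

universe u

namespace Pool.Agent.H330

/-- `D x y` behaves like the first place where two binary sequences differ. -/
structure TreeDist {V L : Type u} [LinearOrder L] (D : V → V → L) : Prop where
  symm : ∀ x y, D x y = D y x
  binary : ∀ x y z, x ≠ y → x ≠ z → y ≠ z → D x y = D x z → D x y < D y z
  iso : ∀ x y z, x ≠ y → x ≠ z → y ≠ z → D x y < D x z → D y z = D x y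

variable {V L Γ : Type u} [LinearOrder V] [LinearOrder L] {D : V → V → L}

/-- In a comb the `<`-least point of every triple splits off first. -/
def Comb (D : V → V → L) (H : Set V) : Prop :=
  ∀ x ∈ H, ∀ y ∈ H, ∀ z ∈ H, x < y → y < z → D x y < D y z

open Classical in
/-- the set of levels of a finite set -/
noncomputable def lev (D : V → V → L) (e : Finset V) : Finset L :=
  e.offDiag.image (fun p => D p.1 p.2)

lemma Comb.mono {H K : Set V} (h : Comb D K) (hs : H ⊆ K) : Comb D H :=
  fun x hx y hy z hz => h x (hs hx) y (hs hy) z (hs hz)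

/-- three-point dichotomy: in a comb `D x z = D x y` for `x < y < z` -/
lemma Comb.eq_left (hD : TreeDist D) {H : Set V} (hH : Comb D H) {x y z : V}
    (hx : x ∈ H) (hy : y ∈ H) (hz : z ∈ H) (hxy : x < y) (hyz : y < z) : D x z = D x y := by
  have h1 := hH x hx y hy z hz hxy hyz
  have hne1 : x ≠ y := hxy.ne
  have hne2 : y ≠ z := hyz.ne
  have hne3 : x ≠ z := (hxy.trans hyz).ne
  have h2 : D y x < D y z := by rw [hD.symm y x]; exact h1
  have := hD.iso y x z hne1.symm hne2 hne3 h2
  rw [this, hD.symm]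

/-- in a comb the level of `x` does not depend on the later point -/
lemma Comb.indep (hD : TreeDist D) {H : Set V} (hH : Comb D H) {x y z : V}
    (hx : x ∈ H) (hy : y ∈ H) (hz : z ∈ H) (hxy : x < y) (hxz : x < z) : D x y = D x z := by
  rcases lt_trichotomy y z with h | h | h
  · exact (hH.eq_left hD hx hy hz hxy h).symm
  · rw [h]
  · exact hH.eq_left hD hx hz hy hxz h

/-- levels increase along a comb -/
lemma Comb.lt_of_lt (hD : TreeDist D) {H : Set V} (hH : Comb D H) {x y x' y' : V}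
    (hx : x ∈ H) (hy : y ∈ H) (hx' : x' ∈ H) (hy' : y' ∈ H) (hxy : x < y) (hxy' : x' < y')
    (hlt : x < x') : D x y < D x' y' := by
  rw [hH.indep hD hx hy hx' hxy hlt]
  exact hH x hx x' hx' y' hy' hlt hxy'

/-- The level set of a homogeneous comb is homogeneous. -/
theorem comb_levels (hD : TreeDist D) {H : Set V} (hH : Comb D H) (r : ℕ) (hr : 1 ≤ r)
    (f : Finset L → Γ) (ν : Γ)
    (hf : ∀ e : Finset V, e.card = r + 1 → (↑e : Set V) ⊆ H → f (lev D e) = ν) :
    ∃ Y : Set L, #H ≤ #Y + 1 ∧ (∀ d ∈ Y, ∃ x ∈ H, ∃ y ∈ H, x < y ∧ D x y = d) ∧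
      ∀ s : Finset L, s.card = r → (↑s : Set L) ⊆ Y → f s = ν := by
  classical
  refine ⟨{d | ∃ x ∈ H, ∃ y ∈ H, x < y ∧ D x y = d}, ?_, fun d hd => hd, ?_⟩
  · -- the map `x ↦ level of x` is injective on non-maximal points
    set Y : Set L := {d | ∃ x ∈ H, ∃ y ∈ H, x < y ∧ D x y = d} with hY
    set N : Set V := {x ∈ H | ∃ y ∈ H, x < y} with hN
    have h1 : #N ≤ #Y := by
      have hc : ∀ x : N, ∃ y ∈ H, x.1 < y := fun x => x.2.2
      choose g hg1 hg2 using hc
      refine Cardinal.mk_le_of_injective (f := fun x : N => (⟨D x.1 (g x),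
        ⟨x.1, x.2.1, g x, hg1 x, hg2 x, rfl⟩⟩ : Y)) ?_
      intro a b hab
      have hab' : D a.1 (g a) = D b.1 (g b) := congrArg Subtype.val hab
      rcases lt_trichotomy a.1 b.1 with h | h | h
      · exact absurd hab' (hH.lt_of_lt hD a.2.1 (hg1 a) b.2.1 (hg1 b) (hg2 a) (hg2 b) h).ne
      · exact Subtype.ext h
      · exact absurd hab' (hH.lt_of_lt hD b.2.1 (hg1 b) a.2.1 (hg1 a) (hg2 b) (hg2 a) h).ne'
    have h2 : (H \ N).Subsingleton := by
      intro a ha b hb
      rcases lt_trichotomy a b with h | h | h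
      · exact absurd ⟨ha.1, b, hb.1, h⟩ ha.2
      · exact h
      · exact absurd ⟨hb.1, a, ha.1, h⟩ hb.2
    have h3 : H ⊆ N ∪ (H \ N) := by
      intro x hx
      by_cases hxN : x ∈ N
      · exact Or.inl hxN
      · exact Or.inr ⟨hx, hxN⟩
    calc #H ≤ #(N ∪ (H \ N) : Set V) := Cardinal.mk_le_mk_of_subset h3
      _ ≤ #N + #(H \ N : Set V) := Cardinal.mk_union_le _ _
      _ ≤ #Y + 1 := by
          refine add_le_add h1 ?_
          rw [Cardinal.le_one_iff_subsingleton]
          exact ⟨fun a b => Subtype.ext (h2 a.2 b.2)⟩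
  · intro s hs hsY
    have hc : ∀ d : L, ∃ x y : V, d ∈ s → x ∈ H ∧ y ∈ H ∧ x < y ∧ D x y = d := by
      intro d
      by_cases hd : d ∈ s
      · obtain ⟨x, hx, y, hy, hxy, hxyd⟩ := hsY hd
        exact ⟨x, y, fun _ => ⟨hx, hy, hxy, hxyd⟩⟩
      · have hne : s.Nonempty := by
          rw [← Finset.card_pos, hs]; omega
        obtain ⟨d', hd'⟩ := hne
        obtain ⟨x, hx, y, hy, hxy, hxyd⟩ := hsY hd'
        exact ⟨x, y, fun h => absurd h hd⟩
    choose X Z hXZ using hc
    have hmono : ∀ d ∈ s, ∀ d' ∈ s, d < d' → X d < X d' := by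
      intro d hd d' hd' hlt
      obtain ⟨h1, h2, h3, h4⟩ := hXZ d hd
      obtain ⟨h1', h2', h3', h4'⟩ := hXZ d' hd'
      rcases lt_trichotomy (X d) (X d') with h | h | h
      · exact h
      · exfalso
        have : D (X d) (Z d) = D (X d') (Z d') := by
          rw [h] at h3 h1 ⊢
          exact hH.indep hD h1 h2 h2' h3 h3'
        rw [h4, h4'] at this
        exact hlt.ne this
      · exfalso
        have := hH.lt_of_lt hD h1' h2' h1 h2 h3' h3 h
        rw [h4, h4'] at this
        exact lt_asymm hlt this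
    have hne : s.Nonempty := by
      rw [← Finset.card_pos, hs]; omega
    set m := s.max' hne with hm
    have hms : m ∈ s := s.max'_mem hne
    have hXle : ∀ d ∈ s, X d ≤ X m := by
      intro d hd
      rcases (s.le_max' d hd).lt_or_eq with h | h
      · exact (hmono d hd m hms h).le
      · rw [h]
    have hZ : ∀ d ∈ s, X d < Z m := fun d hd => (hXle d hd).trans_lt (hXZ m hms).2.2.1
    have hinj : Set.InjOn X (s : Set L) := by
      intro a ha b hb hab
      rcases lt_trichotomy a b with h | h | h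
      · exact absurd hab (hmono a ha b hb h).ne
      · exact h
      · exact absurd hab (hmono b hb a ha h).ne'
    have hZnot : Z m ∉ s.image X := by
      intro h
      obtain ⟨d, hd, hd'⟩ := Finset.mem_image.mp h
      exact (hZ d hd).ne hd'
    have hcard : (insert (Z m) (s.image X)).card = r + 1 := by
      rw [Finset.card_insert_of_notMem hZnot, Finset.card_image_of_injOn hinj, hs]
    have hsub : (↑(insert (Z m) (s.image X)) : Set V) ⊆ H := by
      intro v hv
      rw [Finset.mem_coe, Finset.mem_insert] at hv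
      rcases hv with h | h
      · rw [h]; exact (hXZ m hms).2.1
      · obtain ⟨d, hd, hd'⟩ := Finset.mem_image.mp h
        rw [← hd']; exact (hXZ d hd).1
    have hlev : lev D (insert (Z m) (s.image X)) = s := by
      have key : ∀ d ∈ s, ∀ v ∈ insert (Z m) (s.image X), X d < v → D (X d) v = d := by
        intro d hd v hv hlt
        have hvH : v ∈ H := hsub hv
        rw [hH.indep hD (hXZ d hd).1 hvH (hXZ d hd).2.1 hlt (hXZ d hd).2.2.1]
        exact (hXZ d hd).2.2.2
      ext d
      constructor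
      · intro h
        unfold lev at h
        rw [Finset.mem_image] at h
        obtain ⟨⟨a, b⟩, hab, hd⟩ := h
        rw [Finset.mem_offDiag] at hab
        obtain ⟨ha, hb, hne'⟩ := hab
        simp only at ha hb hne' hd
        have aux : ∀ a b, a ∈ insert (Z m) (s.image X) → b ∈ insert (Z m) (s.image X) → a < b →
            D a b ∈ s := by
          intro a b ha hb hlt
          rcases Finset.mem_insert.mp ha with h | h
          · exfalso
            rcases Finset.mem_insert.mp hb with h' | h'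
            · rw [h, h'] at hlt; exact lt_irrefl _ hlt
            · obtain ⟨d, hd, hd'⟩ := Finset.mem_image.mp h'
              have := hZ d hd
              rw [hd', ← h] at this
              exact lt_asymm this hlt
          · obtain ⟨d, hd, hd'⟩ := Finset.mem_image.mp h
            rw [← hd'] at hlt ⊢
            rw [key d hd b hb hlt]
            exact hd
        rcases lt_or_gt_of_ne hne' with h | h
        · rw [← hd]; exact aux a b ha hb h
        · rw [← hd, hD.symm]; exact aux b a hb ha h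
      · intro hd
        unfold lev
        rw [Finset.mem_image]
        refine ⟨(X d, Z m), ?_, key d hd _ (Finset.mem_insert_self _ _) (hZ d hd)⟩
        rw [Finset.mem_offDiag]
        exact ⟨Finset.mem_insert_of_mem (Finset.mem_image_of_mem _ hd),
          Finset.mem_insert_self _ _, (hZ d hd).ne⟩
    rw [← hlev]
    exact hf _ hcard hsub



lemma TreeDist.tri {V L : Type u} [LinearOrder L] {D : V → V → L} (hD : TreeDist D) {x y z : V}
    (hxy : x ≠ y) (hxz : x ≠ z) (hyz : y ≠ z) :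
    (D x y = D x z ∧ D x y < D y z) ∨ (D x y = D y z ∧ D x y < D x z) ∨
      (D x z = D y z ∧ D x z < D x y) := by
  rcases lt_trichotomy (D x y) (D x z) with h | h | h
  · right; left
    exact ⟨(hD.iso x y z hxy hxz hyz h).symm, h⟩
  · left
    exact ⟨h, hD.binary x y z hxy hxz hyz h⟩
  · right; right
    refine ⟨?_, h⟩
    rw [hD.symm y z]
    exact (hD.iso x z y hxz hxy hyz.symm h).symm

/-- ultrametric inequality -/
lemma TreeDist.ultra {V L : Type u} [LinearOrder L] {D : V → V → L} (hD : TreeDist D) {x y z : V}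
    (hxy : x ≠ y) (hxz : x ≠ z) (hyz : y ≠ z) {d : L} (h1 : d < D x y) (h2 : d < D x z) :
    d < D y z := by
  rcases hD.tri hxy hxz hyz with h | h | h
  · exact h1.trans h.2
  · rw [← h.1]; exact h1
  · rw [← h.1]; exact h2

lemma TreeDist.ultra' {V L : Type u} [LinearOrder L] {D : V → V → L} (hD : TreeDist D) {x y z : V}
    (hxy : x ≠ y) (hxz : x ≠ z) (hyz : y ≠ z) {d : L} (h1 : d ≤ D x y) (h2 : d ≤ D x z) :
    d ≤ D y z := by
  rcases hD.tri hxy hxz hyz with h | h | h
  · exact h1.trans h.2.le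
  · rw [← h.1]; exact h1
  · rw [← h.1]; exact h2

/-- the cone of `x` above level `d` inside `H` -/
def cone {V L : Type u} [LinearOrder L] (D : V → V → L) (H : Set V) (x : V) (d : L) : Set V :=
  {z | z ∈ H ∧ (z = x ∨ d < D x z)}

lemma cone_eq {V L : Type u} [LinearOrder L] {D : V → V → L} (hD : TreeDist D) {H : Set V}
    {x y : V} {d : L} (hxy : x ≠ y) (h : d < D x y) : cone D H y d = cone D H x d := by
  have aux : ∀ x y : V, x ≠ y → d < D x y → cone D H y d ⊆ cone D H x d := by
    intro x y hxy h z hz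
    refine ⟨hz.1, ?_⟩
    by_cases hzx : z = x
    · exact Or.inl hzx
    · right
      by_cases hzy : z = y
      · rw [hzy]; exact h
      · rcases hz.2 with h' | h'
        · exact absurd h' hzy
        · exact hD.ultra hxy.symm (Ne.symm hzy) (Ne.symm hzx) (by rw [hD.symm]; exact h) h'
  exact Subset.antisymm (aux x y hxy h) (aux y x hxy.symm (by rw [hD.symm]; exact h))

/-- The branching level function: `H` infinite, every split has a small side. -/
theorem levels {V L : Type u} [LinearOrder L] [WellFoundedLT L] {D : V → V → L} (hD : TreeDist D)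
    {H : Set V} (θ : Cardinal.{u}) (hθ : ℵ₀ ≤ θ)
    (hside : ∀ x ∈ H, ∀ y ∈ H, x ≠ y →
      #(cone D H x (D x y)) < θ ∨ #(cone D H y (D x y)) < θ) :
    ∃ (H1 : Set V) (l : V → L), H1 ⊆ H ∧ (H \ H1).Subsingleton ∧
      (∀ x ∈ H1, ∀ y ∈ H1, l x < l y → D x y = l x) ∧
      (∀ x ∈ H1, ∀ y ∈ H1, x ≠ y → l x = l y → l x ≤ D x y) ∧
      (∀ x ∈ H1, #{y | y ∈ H1 ∧ l y = l x} < θ) := by
  classical
  let P : V → L → Prop := fun x d => #(cone D H x d) < θ
  let l : V → L := fun x => if h : ∃ d, P x d then wellFounded_lt.min {d | P x d} h else D x x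
  have hl1 : ∀ x, (∃ d, P x d) → P x (l x) := by
    intro x h
    have : l x = wellFounded_lt.min {d | P x d} h := dif_pos h
    rw [this]
    exact wellFounded_lt.min_mem {d | P x d} h
  have hl2 : ∀ x d, P x d → l x ≤ d := by
    intro x d hd
    have h : ∃ d, P x d := ⟨d, hd⟩
    have : l x = wellFounded_lt.min {d | P x d} h := dif_pos h
    rw [this]
    exact not_lt.mp (wellFounded_lt.not_lt_min {d | P x d} hd)
  refine ⟨{x ∈ H | ∃ d, P x d}, l, fun x hx => hx.1, ?_, ?_, ?_, ?_⟩
  · intro x hx y hy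
    by_contra hne
    rcases hside x hx.1 y hy.1 hne with h | h
    · exact hx.2 ⟨hx.1, _, h⟩
    · exact hy.2 ⟨hy.1, _, h⟩
  · intro x hx y hy hlt
    have hne : x ≠ y := fun h => by rw [h] at hlt; exact lt_irrefl _ hlt
    have h1 : D x y ≤ l x := by
      by_contra hcon
      push Not at hcon
      have h2 : P y (l x) := by
        show #(cone D H y (l x)) < θ
        rw [cone_eq hD hne hcon]
        exact hl1 x hx.2
      exact absurd (hl2 y _ h2) (not_le.mpr hlt)
    rcases hside x hx.1 y hy.1 hne with h | h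
    · exact le_antisymm h1 (hl2 x _ h)
    · exact absurd ((hl2 y _ h).trans h1) (not_le.mpr hlt)
  · intro x hx y hy hne heq
    rcases hside x hx.1 y hy.1 hne with h | h
    · exact hl2 x _ h
    · rw [heq]; exact hl2 y _ h
  · intro x hx
    have h3 : ∀ y ∈ {x ∈ H | ∃ d, P x d}, x ≠ y → l x = l y → l x ≤ D x y := by
      intro y hy hne heq
      rcases hside x hx.1 y hy.1 hne with h | h
      · exact hl2 x _ h
      · rw [heq]; exact hl2 y _ h
    by_cases hall : ∀ y ∈ {x ∈ H | ∃ d, P x d}, l y = l x → y = x ∨ l x < D x y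
    · refine lt_of_le_of_lt (Cardinal.mk_le_mk_of_subset ?_) (hl1 x hx.2)
      intro y hy
      exact ⟨hy.1.1, hall y hy.1 hy.2⟩
    · push Not at hall
      obtain ⟨y0, hy0, hl0, hne0, hle0⟩ := hall
      have hD0 : D x y0 = l x := le_antisymm hle0 (h3 y0 hy0 hne0.symm hl0.symm)
      have hsub : {y | y ∈ {x ∈ H | ∃ d, P x d} ∧ l y = l x} ⊆
          cone D H x (l x) ∪ cone D H y0 (l y0) := by
        intro y hy
        by_cases hyx : y = x
        · left; exact ⟨hy.1.1, Or.inl hyx⟩
        · by_cases hyy : y = y0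
          · right; exact ⟨hy.1.1, Or.inl hyy⟩
          · have h4 := h3 y hy.1 (Ne.symm hyx) hy.2.symm
            rcases h4.lt_or_eq with h5 | h5
            · left; exact ⟨hy.1.1, Or.inr h5⟩
            · right
              refine ⟨hy.1.1, Or.inr ?_⟩
              rw [hl0]
              have h6 : D x y0 = D x y := by rw [hD0, h5]
              have h7 := hD.binary x y0 y hne0.symm (Ne.symm hyx) (Ne.symm hyy) h6
              rw [hD0] at h7
              exact h7
      refine lt_of_le_of_lt (Cardinal.mk_le_mk_of_subset hsub) ?_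
      refine lt_of_le_of_lt (Cardinal.mk_union_le _ _) ?_
      exact Cardinal.add_lt_of_lt hθ (hl1 x hx.2) (hl1 y0 hy0.2)

/-- Two well-orders agree on a subset of full cardinality. -/
theorem mono_subset {A B : Type u} [LinearOrder A] [WellFoundedLT A] [LinearOrder B]
    [WellFoundedLT B] (φ : A → B) (hφ : Function.Injective φ) (hA : ℵ₀ ≤ #A) :
    ∃ S : Set A, #S = #A ∧ StrictMonoOn φ S := by
  rcases edm hA (fun x y => (x < y ∧ φ y < φ x) ∨ (y < x ∧ φ x < φ y))
    (fun x y h => h.symm) with ⟨S, hS, hind⟩ | ⟨s, hs, hcl⟩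
  · refine ⟨S, hS, ?_⟩
    intro x hx y hy hxy
    have h1 := hind x hx y hy hxy.ne
    push Not at h1
    exact lt_of_le_of_ne (h1.1 hxy) (fun h => hxy.ne (hφ h))
  · exfalso
    obtain ⟨g, hg | hg⟩ := exists_increasing_or_nonincreasing_subseq (· < ·) s
    · have : StrictAnti (fun n => φ (s (g n))) := by
        intro m n hmn
        have h1 := hg m n hmn
        rcases hcl (g m) (g n) (fun h => by rw [h] at h1; exact lt_irrefl _ h1) with h | h
        · exact h.2
        · exact absurd h1 h.1.asymm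
      exact not_strictAnti_of_wellFoundedLT _ this
    · have : StrictAnti (fun n => s (g n)) := by
        intro m n hmn
        have h1 := hg m n hmn
        have hne : s (g m) ≠ s (g n) := fun h => hmn.ne (g.injective (hs h))
        exact lt_of_le_of_ne (not_lt.mp h1) hne.symm
      exact not_strictAnti_of_wellFoundedLT _ this

/-- many branching levels give a large comb -/
theorem comb_of_levels [WellFoundedLT V] [WellFoundedLT L] {H1 : Set V} (l : V → L)
    (h1 : ∀ x ∈ H1, ∀ y ∈ H1, l x < l y → D x y = l x) (hinf : ℵ₀ ≤ #(l '' H1)) :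
    ∃ H' ⊆ H1, #H' = #(l '' H1) ∧ Comb D H' := by
  classical
  have hc : ∀ a : (l '' H1 : Set L), ∃ x ∈ H1, l x = a.1 := fun a => a.2
  choose rep hrep1 hrep2 using hc
  have hinj : Function.Injective rep := by
    intro a b hab
    apply Subtype.ext
    rw [← hrep2 a, ← hrep2 b, hab]
  obtain ⟨S, hS, hmono⟩ := mono_subset rep hinj hinf
  refine ⟨rep '' S, ?_, ?_, ?_⟩
  · rintro _ ⟨a, _, rfl⟩; exact hrep1 a
  · rw [Cardinal.mk_image_eq hinj, hS]
  · rintro _ ⟨a, ha, rfl⟩ _ ⟨b, hb, rfl⟩ _ ⟨c, hc, rfl⟩ hab hbc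
    have h2 : a < b := (hmono.lt_iff_lt ha hb).mp hab
    have h3 : b < c := (hmono.lt_iff_lt hb hc).mp hbc
    have h2' : l (rep a) < l (rep b) := by rw [hrep2, hrep2]; exact h2
    have h3' : l (rep b) < l (rep c) := by rw [hrep2, hrep2]; exact h3
    rw [h1 _ (hrep1 a) _ (hrep1 b) h2', h1 _ (hrep1 b) _ (hrep1 c) h3']
    exact h2'

lemma mk_diff_subsingleton {V : Type u} {H H1 : Set V} (hs : H1 ⊆ H) (hH : ℵ₀ ≤ #H)
    (h : (H \ H1).Subsingleton) : #H1 = #H := by
  have h1 : #H ≤ #H1 + 1 := by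
    have : H ⊆ H1 ∪ (H \ H1) := fun x hx => by
      by_cases hx1 : x ∈ H1
      · exact Or.inl hx1
      · exact Or.inr ⟨hx, hx1⟩
    refine (Cardinal.mk_le_mk_of_subset this).trans ((Cardinal.mk_union_le _ _).trans ?_)
    gcongr
    rw [Cardinal.le_one_iff_subsingleton]
    exact ⟨fun a b => Subtype.ext (h a.2 b.2)⟩
  refine le_antisymm (Cardinal.mk_le_mk_of_subset hs) ?_
  have h2 : ℵ₀ ≤ #H1 := by
    by_contra hcon
    push Not at hcon
    have : #H1 + 1 < ℵ₀ := Cardinal.add_lt_aleph0 hcon Cardinal.one_lt_aleph0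
    exact absurd (hH.trans h1) (not_le.mpr this)
  rwa [Cardinal.add_one_eq h2] at h1

/-- EXTRACTION: if every split of `H` has a side of size `< θ`, `θ` regular, `θ ≤ #H`, then `H`
contains a comb of full size. -/
theorem extract [WellFoundedLT V] [WellFoundedLT L] (hD : TreeDist D) {H : Set V}
    (θ : Cardinal.{u}) (hθ : θ.IsRegular) (hθH : θ ≤ #H)
    (hside : ∀ x ∈ H, ∀ y ∈ H, x ≠ y →
      #(cone D H x (D x y)) < θ ∨ #(cone D H y (D x y)) < θ) :
    ∃ H' ⊆ H, #H' = #H ∧ Comb D H' := by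
  obtain ⟨H1, l, hsub, hss, h1, _, h3⟩ := levels hD θ hθ.aleph0_le hside
  have hH : ℵ₀ ≤ #H := hθ.aleph0_le.trans hθH
  have hH1 : #H1 = #H := mk_diff_subsingleton hsub hH hss
  let F : H1 → (l '' H1 : Set L) := fun x => ⟨l x, x, x.2, rfl⟩
  have hfib : ∀ a, #(F ⁻¹' {a}) < θ := by
    intro a
    obtain ⟨x, hx, hxa⟩ := a.2
    refine lt_of_le_of_lt ?_ (h3 x hx)
    refine Cardinal.mk_le_of_injective (f := fun z : (F ⁻¹' {a}) =>
      (⟨z.1.1, z.1.2, ?_⟩ : {y | y ∈ H1 ∧ l y = l x})) ?_
    · have := congrArg Subtype.val z.2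
      exact this.trans hxa.symm
    · intro z w hzw
      have := congrArg Subtype.val hzw
      exact Subtype.ext (Subtype.ext this)
  have hle : #(l '' H1) ≤ #H := (Cardinal.mk_image_le).trans hH1.le
  have hcard : #(l '' H1) = #H := by
    by_contra hne
    have hlt : #(l '' H1) < #H := lt_of_le_of_ne hle hne
    rcases lt_or_ge #(l '' H1) θ with hA | hA
    · obtain ⟨a, ha⟩ := Cardinal.infinite_pigeonhole_card F θ (by rw [hH1]; exact hθH)
        hθ.aleph0_le (by rw [hθ.cof_ord]; exact hA)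
      exact absurd (hfib a) (not_lt.mpr ha)
    · have h5 : #H1 ≤ #(l '' H1) * θ :=
        Cardinal.mk_le_mk_mul_of_mk_preimage_le F (fun a => (hfib a).le)
      have h6 : #(l '' H1) * θ ≤ #(l '' H1) := by
        rw [Cardinal.mul_eq_left (hθ.aleph0_le.trans hA) hA hθ.ne_zero]
      rw [hH1] at h5
      exact absurd (h5.trans h6) (not_le.mpr hlt)
  obtain ⟨H', hs', hc', hcomb⟩ := comb_of_levels (D := D) l h1 (by rw [hcard]; exact hH)
  exact ⟨H', hs'.trans hsub, hc'.trans hcard, hcomb⟩


/-! ### Negative partition relations on a type -/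

/-- `f` witnesses `#L ↛ (lam ν)^r_ν` on the type `L` -/
def NA (lam : Γ → Cardinal.{u}) (r : ℕ) (f : Finset L → Γ) : Prop :=
  ∀ (ν : Γ) (Y : Set L), #Y = lam ν → ∃ s : Finset L, s.card = r ∧ (↑s : Set L) ⊆ Y ∧ f s ≠ ν

lemma NA.of_le {L Γ : Type u} {lam : Γ → Cardinal.{u}} {r : ℕ} {f : Finset L → Γ} (hf : NA lam r f) {ν : Γ} {Y : Set L}
    (hY : lam ν ≤ #Y) : ∃ s : Finset L, s.card = r ∧ (↑s : Set L) ⊆ Y ∧ f s ≠ ν := by
  obtain ⟨Z, hZY, hZ⟩ := Cardinal.le_mk_iff_exists_subset.mp hY
  obtain ⟨s, h1, h2, h3⟩ := hf ν Z hZ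
  exact ⟨s, h1, h2.trans hZY, h3⟩

/-- smaller entries: a stronger negative relation -/
lemma NA.mono {L Γ : Type u} {lam lam' : Γ → Cardinal.{u}} {r : ℕ} {f : Finset L → Γ} (hf : NA lam r f)
    (h : ∀ ν, lam ν ≤ lam' ν) : NA lam' r f := by
  intro ν Y hY
  exact hf.of_le (by rw [hY]; exact h ν)

lemma exists_finset_card {V : Type u} {H : Set V} {n : ℕ} (hn : (n : Cardinal) ≤ #H) :
    ∃ E : Finset V, (↑E : Set V) ⊆ H ∧ E.card = n := by
  classical
  obtain ⟨p, hp, hc⟩ := Cardinal.le_mk_iff_exists_subset.mp hn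
  obtain ⟨t, ht1, ht2⟩ := Cardinal.mk_set_eq_nat_iff_finset.mp hc
  exact ⟨t, by rw [ht1]; exact hp, ht2⟩

lemma ext_set {V : Type u} {H : Set V} {t : Finset V} (ht : (↑t : Set V) ⊆ H) {n : ℕ}
    (htn : t.card ≤ n) (hn : (n : Cardinal) ≤ #H) :
    ∃ e : Finset V, t ⊆ e ∧ (↑e : Set V) ⊆ H ∧ e.card = n := by
  classical
  obtain ⟨E, hE, hEn⟩ := exists_finset_card hn
  obtain ⟨u, hu1, hu2, hu3⟩ := Finset.exists_subsuperset_card_eq
    (Finset.subset_union_left : t ⊆ t ∪ E) htn
    (by rw [← hEn]; exact Finset.card_le_card Finset.subset_union_right)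
  refine ⟨u, hu1, ?_, hu3⟩
  intro x hx
  rcases Finset.mem_union.mp (hu2 hx) with h | h
  · exact ht h
  · exact hE h

/-- if all `(r+1)`-subsets of `H` are combs then so is `H` (`r ≥ 2`) -/
lemma all_comb {H : Set V} {r : ℕ} (hr : 2 ≤ r) (hH : ((r + 1 : ℕ) : Cardinal) ≤ #H)
    (h : ∀ e : Finset V, e.card = r + 1 → (↑e : Set V) ⊆ H → Comb D (↑e : Set V)) : Comb D H := by
  classical
  intro x hx y hy z hz hxy hyz
  have ht : (↑({x, y, z} : Finset V) : Set V) ⊆ H := by
    intro v hv
    simp only [Finset.coe_insert, Finset.coe_singleton, Set.mem_insert_iff,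
      Set.mem_singleton_iff] at hv
    rcases hv with h | h | h <;> rw [h] <;> assumption
  obtain ⟨e, he1, he2, he3⟩ := ext_set ht (n := r + 1)
    (by refine (Finset.card_le_three).trans (by omega)) hH
  exact h e he3 he2 x (he1 (by simp)) y (he1 (by simp)) z (he1 (by simp)) hxy hyz

lemma NA.comb_false (hD : TreeDist D) {lam : Γ → Cardinal.{u}} {r : ℕ} (hr : 1 ≤ r)
    {f : Finset L → Γ} (hf : NA lam r f) {ν : Γ} {H : Set V} (hH : Comb D H)
    (hcard : lam ν + 1 ≤ #H)
    (hhom : ∀ e : Finset V, e.card = r + 1 → (↑e : Set V) ⊆ H → f (lev D e) = ν) : False := by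
  obtain ⟨Y, hY, _, hYf⟩ := comb_levels hD hH r hr f ν hhom
  have h1 : lam ν ≤ #Y := by
    have := hcard.trans hY
    exact Cardinal.add_one_le_add_one_iff.mp this
  obtain ⟨s, hs1, hs2, hs3⟩ := hf.of_le h1
  exact hs3 (hYf s hs1 hs2)

open Classical in
/-- the colouring of the `(r+1)`-sets of `V`: combs get the colour of their levels, the other sets
are coloured by `h` -/
noncomputable def gcol (D : V → V → L) (f : Finset L → Γ) (h : Finset V → Γ) (e : Finset V) : Γ :=
  if Comb D (↑e : Set V) then f (lev D e) else h e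

theorem assemble (hD : TreeDist D) {lam : Γ → Cardinal.{u}} {r : ℕ} (hr : 1 ≤ r)
    {f : Finset L → Γ} (hf : NA lam r f) (h : Finset V → Γ)
    (hcomb : ∀ (ν : Γ) (H : Set V), #H = lam ν + 1 →
      (∀ e : Finset V, e.card = r + 1 → (↑e : Set V) ⊆ H → gcol D f h e = ν) →
      ∃ H' ⊆ H, #H' = #H ∧ Comb D H') :
    NA (fun ν => lam ν + 1) (r + 1) (gcol D f h) := by
  intro ν H hH
  by_contra hcon
  push Not at hcon
  obtain ⟨H', hs, hc, hcb⟩ := hcomb ν H hH hcon
  refine NA.comb_false hD hr hf hcb (by rw [hc, hH]) ?_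
  intro e he heH
  have h1 := hcon e he (heH.trans hs)
  have h2 : Comb D (↑e : Set V) := hcb.mono heH
  rw [gcol, if_pos h2] at h1
  exact h1

/-- two points below a third one, splitting from it earlier: not a comb -/
lemma not_comb (hD : TreeDist D) {e : Set V} {p1 p2 q : V} (h1 : p1 ∈ e) (h2 : p2 ∈ e)
    (hq : q ∈ e) (hne : p1 ≠ p2) (h1q : p1 < q) (h2q : p2 < q) (hd1 : D p1 q < D p1 p2)
    (hd2 : D p2 q < D p1 p2) : ¬ Comb D e := by
  intro hc
  rcases lt_or_gt_of_ne hne with h | h
  · exact absurd (hc p1 h1 p2 h2 q hq h h2q) (not_lt.mpr hd2.le)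
  · have := hc p2 h2 p1 h1 q hq h h1q
    rw [hD.symm p2 p1] at this
    exact absurd this (not_lt.mpr hd1.le)

/-- elements of the two cones of a split -/
lemma cross_eq {V L : Type u} [LinearOrder L] {D : V → V → L} (hD : TreeDist D) {H : Set V}
    {x y a b : V} (hxy : x ≠ y)
    (ha : a ∈ cone D H x (D x y)) (hb : b ∈ cone D H y (D x y)) : a ≠ b ∧ D a b = D x y := by
  have hay : a ≠ y := by
    intro h
    rcases ha.2 with h' | h'
    · exact hxy (h'.symm.trans h)
    · rw [h] at h'; exact lt_irrefl _ h'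
  have hay' : D a y = D x y := by
    rcases ha.2 with h' | h'
    · rw [h']
    · by_cases hax : a = x
      · rw [hax]
      · have := hD.iso x y a hxy (Ne.symm hax) (Ne.symm hay) h'
        rw [hD.symm a y]; exact this
  rcases hb.2 with h' | h'
  · rw [h']; exact ⟨hay, hay'⟩
  · have hab : a ≠ b := by
      intro h
      rw [← h, hD.symm y a, hay'] at h'
      exact lt_irrefl _ h'
    refine ⟨hab, ?_⟩
    by_cases hby : b = y
    · rw [hby]; exact hay'
    · have h1 : D y a < D y b := by rw [hD.symm y a, hay']; exact h'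
      have := hD.iso y a b (Ne.symm hay) (Ne.symm hby) hab h1
      rw [this, hD.symm y a, hay']

lemma cone_within {V L : Type u} [LinearOrder L] {D : V → V → L} (hD : TreeDist D) {H : Set V}
    {x a a' : V} {d : L} (ha : a ∈ cone D H x d) (ha' : a' ∈ cone D H x d) (hne : a ≠ a') :
    d < D a a' := by
  rcases ha.2 with h | h
  · rcases ha'.2 with h' | h'
    · exact absurd (h.trans h'.symm) hne
    · rw [h]; exact h'
  · rcases ha'.2 with h' | h'
    · rw [h', hD.symm]; exact h
    · by_cases h1 : x = a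
      · rw [← h1]; exact h'
      · by_cases h2 : x = a'
        · rw [← h2, hD.symm]; exact h
        · exact hD.ultra h1 h2 hne h h'

lemma mem_cone_self {V L : Type u} [LinearOrder L] {D : V → V → L} {H : Set V} {x : V} {d : L}
    (hx : x ∈ H) : x ∈ cone D H x d := ⟨hx, Or.inl rfl⟩

lemma mem_cone_self' {V L : Type u} [LinearOrder L] {D : V → V → L} {H : Set V} {x : V} {d : L}
    (hx : x ∈ H) : x ∈ cone D H x d := ⟨hx, Or.inl rfl⟩

lemma exists_strictMono_seq {V : Type u} [LinearOrder V] [WellFoundedLT V] {A : Set V}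
    (hA : A.Infinite) : ∃ s : ℕ → V, StrictMono s ∧ ∀ n, s n ∈ A := by
  obtain ⟨g, hg | hg⟩ := exists_increasing_or_nonincreasing_subseq (· < ·)
    (fun n => ((hA.natEmbedding A n : A) : V))
  · exact ⟨fun n => ((hA.natEmbedding A (g n) : A) : V), fun m n hmn => hg m n hmn,
      fun n => (hA.natEmbedding A (g n)).2⟩
  · exfalso
    have : StrictAnti (fun n => ((hA.natEmbedding A (g n) : A) : V)) := by
      intro m n hmn
      have h1 := hg m n hmn
      have hne : ((hA.natEmbedding A (g m) : A) : V) ≠ ((hA.natEmbedding A (g n) : A) : V) :=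
        fun h => hmn.ne (g.injective ((hA.natEmbedding A).injective (Subtype.ext h)))
      exact lt_of_le_of_ne (not_lt.mp h1) hne.symm
    exact not_strictAnti_of_wellFoundedLT _ this

/-- pass to a subset of order type the initial ordinal -/
lemma shrink {V : Type u} [LinearOrder V] [WellFoundedLT V] (H : Set V) :
    ∃ H' ⊆ H, #H' = #H ∧ ∀ x ∈ H', #{z | z ∈ H' ∧ z < x} < #H := by
  classical
  by_cases hall : ∀ x ∈ H, #{z | z ∈ H ∧ z < x} < #H
  · exact ⟨H, Subset.rfl, rfl, hall⟩
  · push Not at hall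
    have hne : {x | x ∈ H ∧ #H ≤ #{z | z ∈ H ∧ z < x}}.Nonempty := by
      obtain ⟨x, hx, hx'⟩ := hall; exact ⟨x, hx, hx'⟩
    set m := wellFounded_lt.min {x | x ∈ H ∧ #H ≤ #{z | z ∈ H ∧ z < x}} hne with hm
    have hmem : m ∈ {x | x ∈ H ∧ #H ≤ #{z | z ∈ H ∧ z < x}} := wellFounded_lt.min_mem _ hne
    refine ⟨{z | z ∈ H ∧ z < m}, fun z hz => hz.1, ?_, ?_⟩
    · exact le_antisymm (Cardinal.mk_le_mk_of_subset fun z hz => hz.1) hmem.2
    · intro x hx
      have h1 : ¬ (x ∈ {x | x ∈ H ∧ #H ≤ #{z | z ∈ H ∧ z < x}}) := fun h =>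
        wellFounded_lt.not_lt_min _ h hx.2
      have h2 : #{z | z ∈ H ∧ z < x} < #H := by
        by_contra h; exact h1 ⟨hx.1, not_lt.mp h⟩
      refine lt_of_le_of_lt (Cardinal.mk_le_mk_of_subset ?_) h2
      intro z hz
      exact ⟨hz.1.1, hz.2⟩

/-- a subset of full cardinality of a shrunk set is cofinal -/
lemma cofinal_of_shrink {V : Type u} [LinearOrder V] {H A : Set V} (hinf : ℵ₀ ≤ #H)
    (hsh : ∀ x ∈ H, #{z | z ∈ H ∧ z < x} < #H) (hA : A ⊆ H) (hAc : #A = #H) {v : V} (hv : v ∈ H) :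
    ∃ a ∈ A, v < a := by
  by_contra hcon
  push Not at hcon
  have h1 : A ⊆ {z | z ∈ H ∧ z < v} ∪ {v} := by
    intro a ha
    rcases (hcon a ha).lt_or_eq with h | h
    · exact Or.inl ⟨hA ha, h⟩
    · exact Or.inr h
  have h2 : #A < #H := by
    refine lt_of_le_of_lt (Cardinal.mk_le_mk_of_subset h1) ?_
    refine lt_of_le_of_lt (Cardinal.mk_union_le _ _) ?_
    refine Cardinal.add_lt_of_lt hinf (hsh v hv) ?_
    rw [Cardinal.mk_singleton]
    exact Cardinal.one_lt_aleph0.trans_le hinf
  exact h2.ne hAc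



/-- Regular dichotomy: a set of regular size contains a comb of full size or an alternating
balanced quadruple. -/
theorem regular_dichotomy [WellFoundedLT V] [WellFoundedLT L] (hD : TreeDist D) {H : Set V}
    (hreg : (#H).IsRegular) :
    (∃ H' ⊆ H, #H' = #H ∧ Comb D H') ∨
    (∃ a ∈ H, ∃ b ∈ H, ∃ c ∈ H, ∃ d ∈ H, a < b ∧ b < c ∧ c < d ∧
      D a b < D a c ∧ D a b < D b d ∧ D b c = D a b ∧ D a d = D a b ∧ D c d = D a b) := by
  obtain ⟨H', hs, hc, hsh⟩ := shrink H
  have hinf : ℵ₀ ≤ #H' := by rw [hc]; exact hreg.aleph0_le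
  rw [← hc] at hsh
  by_cases hside : ∀ x ∈ H', ∀ y ∈ H', x ≠ y →
      #(cone D H' x (D x y)) < #H' ∨ #(cone D H' y (D x y)) < #H'
  · left
    obtain ⟨K, hK1, hK2, hK3⟩ := extract hD #H' (by rw [hc]; exact hreg) le_rfl hside
    exact ⟨K, hK1.trans hs, hK2.trans hc, hK3⟩
  · right
    push Not at hside
    obtain ⟨x, hx, y, hy, hxy, h1, h2⟩ := hside
    have hA : cone D H' x (D x y) ⊆ H' := fun z hz => hz.1
    have hB : cone D H' y (D x y) ⊆ H' := fun z hz => hz.1
    have hAc := le_antisymm (Cardinal.mk_le_mk_of_subset hA) h1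
    have hBc := le_antisymm (Cardinal.mk_le_mk_of_subset hB) h2
    obtain ⟨b, hb, hab⟩ := cofinal_of_shrink hinf hsh hB hBc hx
    obtain ⟨c, hc', hbc⟩ := cofinal_of_shrink hinf hsh hA hAc (hB hb)
    obtain ⟨d, hd, hcd⟩ := cofinal_of_shrink hinf hsh hB hBc (hA hc')
    have hxA : x ∈ cone D H' x (D x y) := mem_cone_self hx
    have e1 := (cross_eq hD hxy hxA hb).2
    have e2 := (cross_eq hD hxy hxA hd).2
    have e3 := (cross_eq hD hxy hc' hb).2
    have e4 := (cross_eq hD hxy hc' hd).2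
    have e5 := cone_within hD hxA hc' (hab.trans hbc).ne
    have e6 := cone_within hD hb hd (hbc.trans hcd).ne
    refine ⟨x, hs hx, b, hs (hB hb), c, hs (hA hc'), d, hs (hB hd), hab, hbc, hcd, ?_, ?_, ?_, ?_,
      ?_⟩
    · rw [e1]; exact e5
    · rw [e1]; exact e6
    · rw [hD.symm, e3, e1]
    · rw [e2, e1]
    · rw [e4, e1]

/-- In a set of regular size larger than the number of levels there is a triple whose middle
point splits off first. -/
theorem odd_mid_exists [WellFoundedLT V] [WellFoundedLT L] (hD : TreeDist D) {H : Set V}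
    (hreg : (#H).IsRegular) (hL : #L < #H) :
    ∃ a ∈ H, ∃ b ∈ H, ∃ c ∈ H, a < b ∧ b < c ∧ D b c = D a b ∧ D a b < D a c := by
  rcases regular_dichotomy hD hreg with ⟨H', _, hc, hcomb⟩ | ⟨a, ha, b, hb, c, hc, d, hd, h⟩
  · exfalso
    obtain ⟨Y, hY, _, _⟩ := comb_levels hD hcomb 1 le_rfl (fun _ => (0 : ULift ℕ)) 0 (fun _ _ _ => rfl)
    have h1 : #Y ≤ #L := Cardinal.mk_set_le Y
    have h2 : #H ≤ #L + 1 := by rw [← hc]; exact hY.trans (by gcongr)
    have h3 : #L + 1 < #H := Cardinal.add_lt_of_lt hreg.aleph0_le hL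
      (Cardinal.one_lt_aleph0.trans_le hreg.aleph0_le)
    exact absurd h2 (not_le.mpr h3)
  · exact ⟨a, ha, b, hb, c, hc, h.1, h.2.1, h.2.2.2.2.2.1, h.2.2.2.1⟩

end Pool.Agent.H330
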