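import Mathlib
import Pool.Agent.H330.Tree
open Cardinal Set
universe u
namespace Pool.Agent.H330
variable {V L Γ : Type u} [LinearOrder V] [LinearOrder L] {D : V → V → L}

/-- alternating balanced quadruple -/
def Alt (D : V → V → L) (a b c d : V) : Prop :=
  a < b ∧ b < c ∧ c < d ∧ D a b < D a c ∧ D a b < D b d ∧ D b c = D a b ∧ D a d = D a b ∧
    D c d = D a b

/-- parallel balanced quadruple, whose upper part branches in a later block -/
def Par {Θ : Type u} [LinearOrder Θ] (bl : L → Θ) (D : V → V → L) (a b c d : V) : Prop :=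
  a < b ∧ b < c ∧ c < d ∧ D a c < D a b ∧ D a c < D c d ∧ D b c = D a c ∧ D a d = D a c ∧
    D b d = D a c ∧ bl (D a c) < bl (D c d)

open Classical in
/-- the sets coloured `c1` -/
def BT {Θ : Type u} [LinearOrder Θ] (bl : L → Θ) (D : V → V → L) (e : Finset V) : Prop :=
  ∃ a b c d, e = {a, b, c, d} ∧ (Alt D a b c d ∨ Par bl D a b c d)

lemma BT.nc (hD : TreeDist D) {Θ : Type u} [LinearOrder Θ] {bl : L → Θ} {e : Finset V}
    (he : BT bl D e) {s : V} (hs : s ∈ e) :
    ∃ u ∈ e, ∃ v ∈ e, u ≠ s ∧ v ≠ s ∧ D s u ≠ D s v := by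
  classical
  obtain ⟨a, b, c, d, rfl, h⟩ := he
  have hmem : s = a ∨ s = b ∨ s = c ∨ s = d := by simpa using hs
  rcases h with ⟨hab, hbc, hcd, h1, h2, h3, h4, h5⟩ | ⟨hab, hbc, hcd, h1, h2, h3, h4, h5, h6⟩
  · rcases hmem with rfl | rfl | rfl | rfl
    · exact ⟨b, by simp, c, by simp, hab.ne', (hab.trans hbc).ne', h1.ne⟩
    · exact ⟨a, by simp, d, by simp, hab.ne, (hbc.trans hcd).ne', by
        rw [hD.symm]; exact h2.ne⟩
    · refine ⟨a, by simp, b, by simp, (hab.trans hbc).ne, hbc.ne, ?_⟩
      rw [hD.symm s a, hD.symm s b, h3]; exact h1.ne'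
    · refine ⟨b, by simp, a, by simp, (hbc.trans hcd).ne, (hab.trans (hbc.trans hcd)).ne, ?_⟩
      rw [hD.symm s a, hD.symm s b, h4]; exact h2.ne'
  · rcases hmem with rfl | rfl | rfl | rfl
    · exact ⟨b, by simp, c, by simp, hab.ne', (hab.trans hbc).ne', h1.ne'⟩
    · exact ⟨a, by simp, c, by simp, hab.ne, hbc.ne', by
        rw [hD.symm, h3]; exact h1.ne'⟩
    · refine ⟨d, by simp, a, by simp, hcd.ne', (hab.trans hbc).ne, ?_⟩
      rw [hD.symm s a]; exact h2.ne'
    · refine ⟨c, by simp, a, by simp, hcd.ne, (hab.trans (hbc.trans hcd)).ne, ?_⟩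
      rw [hD.symm s a, hD.symm s c, h4]; exact h2.ne'

lemma Alt.not_comb (hD : TreeDist D) {a b c d : V} (h : Alt D a b c d) {e : Set V} (ha : a ∈ e)
    (hb : b ∈ e) (hc : c ∈ e) : ¬ Comb D e := by
  intro hcb
  have := hcb a ha b hb c hc h.1 h.2.1
  rw [h.2.2.2.2.2.1] at this
  exact lt_irrefl _ this

lemma Par.not_comb (hD : TreeDist D) {Θ : Type u} [LinearOrder Θ] {bl : L → Θ} {a b c d : V}
    (h : Par bl D a b c d) {e : Set V} (ha : a ∈ e)
    (hb : b ∈ e) (hc : c ∈ e) : ¬ Comb D e := by
  intro hcb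
  have h1 := hcb a ha b hb c hc h.1 h.2.1
  rw [h.2.2.2.2.2.1] at h1
  exact lt_asymm h1 h.2.2.2.1

lemma BT.not_comb (hD : TreeDist D) {Θ : Type u} [LinearOrder Θ] {bl : L → Θ} {e : Finset V}
    (he : BT bl D e) : ¬ Comb D (↑e : Set V) := by
  classical
  obtain ⟨a, b, c, d, rfl, h⟩ := he
  rcases h with h | h
  · exact h.not_comb hD (by simp) (by simp) (by simp)
  · exact h.not_comb hD (by simp) (by simp) (by simp)

/-- uniqueness of the sorted form of a quadruple -/
lemma sorted_unique {a b c d a' b' c' d' : V} (h1 : a < b) (h2 : b < c) (h3 : c < d)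
    (h1' : a' < b') (h2' : b' < c') (h3' : c' < d')
    (h : ∀ v, (v = a ∨ v = b ∨ v = c ∨ v = d) ↔ (v = a' ∨ v = b' ∨ v = c' ∨ v = d')) :
    a = a' ∧ b = b' ∧ c = c' ∧ d = d' := by
  have ha := (h a).mp (Or.inl rfl)
  have hb := (h b).mp (Or.inr (Or.inl rfl))
  have hc := (h c).mp (Or.inr (Or.inr (Or.inl rfl)))
  have hd := (h d).mp (Or.inr (Or.inr (Or.inr rfl)))
  have ha' := (h a').mpr (Or.inl rfl)
  have hb' := (h b').mpr (Or.inr (Or.inl rfl))
  have hc' := (h c').mpr (Or.inr (Or.inr (Or.inl rfl)))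
  have hd' := (h d').mpr (Or.inr (Or.inr (Or.inr rfl)))
  have e1 : a = a' := by
    apply le_antisymm
    · rcases ha' with r | r | r | r <;> rw [r]
      · exact h1.le
      · exact (h1.trans h2).le
      · exact (h1.trans (h2.trans h3)).le
    · rcases ha with r | r | r | r <;> rw [r]
      · exact h1'.le
      · exact (h1'.trans h2').le
      · exact (h1'.trans (h2'.trans h3')).le
  have e4 : d = d' := by
    apply le_antisymm
    · rcases hd with r | r | r | r <;> rw [r]
      · exact (h1'.trans (h2'.trans h3')).le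
      · exact (h2'.trans h3').le
      · exact h3'.le
    · rcases hd' with r | r | r | r <;> rw [r]
      · exact (h1.trans (h2.trans h3)).le
      · exact (h2.trans h3).le
      · exact h3.le
  have e2 : b = b' := by
    apply le_antisymm
    · rcases hb' with r | r | r | r
      · exact absurd (r.trans e1) h1'.ne'
      · rw [r]
      · rw [r]; exact h2.le
      · exact absurd (r.trans e4) (h2'.trans h3').ne
    · rcases hb with r | r | r | r
      · exact absurd (r.trans e1.symm) h1.ne'
      · rw [r]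
      · rw [r]; exact h2'.le
      · exact absurd (r.trans e4.symm) (h2.trans h3).ne
  have e3 : c = c' := by
    rcases hc' with r | r | r | r
    · exact absurd (r.trans e1) (h1'.trans h2').ne'
    · exact absurd (r.trans e2) h2'.ne'
    · exact r.symm
    · exact absurd (r.trans e4) h3'.ne
  exact ⟨e1, e2, e3, e4⟩

lemma BT.sorted {Θ : Type u} [LinearOrder Θ] {bl : L → Θ} [DecidableEq V] {a b c d : V}
    (h1 : a < b) (h2 : b < c)
    (h3 : c < d) (h : BT bl D ({a, b, c, d} : Finset V)) : Alt D a b c d ∨ Par bl D a b c d := by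
  classical
  obtain ⟨a', b', c', d', he, h'⟩ := h
  have hs : a' < b' ∧ b' < c' ∧ c' < d' := by
    rcases h' with h' | h'
    · exact ⟨h'.1, h'.2.1, h'.2.2.1⟩
    · exact ⟨h'.1, h'.2.1, h'.2.2.1⟩
  have hh : ∀ v, (v = a ∨ v = b ∨ v = c ∨ v = d) ↔ (v = a' ∨ v = b' ∨ v = c' ∨ v = d') := by
    intro v
    have := congrArg (fun s : Finset V => v ∈ s) he
    simpa using this
  obtain ⟨rfl, rfl, rfl, rfl⟩ := sorted_unique h1 h2 h3 hs.1 hs.2.1 hs.2.2 hh
  exact h'


/-- `gcol` on a set of four given points -/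
lemma gcol_eq_of_not_comb {f : Finset L → Γ} {h : Finset V → Γ} {e : Finset V}
    (he : ¬ Comb D (↑e : Set V)) : gcol D f h e = h e := if_neg he

lemma gcol_eq_of_comb {f : Finset L → Γ} {h : Finset V → Γ} {e : Finset V}
    (he : Comb D (↑e : Set V)) : gcol D f h e = f (lev D e) := if_pos he

open Classical in
/-- the levels of a sorted comb quadruple -/
lemma lev_comb4 (hD : TreeDist D) {a b c d : V} (h1 : a < b) (h2 : b < c) (h3 : c < d)
    (hc : Comb D (↑({a, b, c, d} : Finset V) : Set V)) :
    lev D ({a, b, c, d} : Finset V) = {D a b, D b c, D c d} := by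
  have ma : a ∈ (↑({a, b, c, d} : Finset V) : Set V) := by simp
  have mb : b ∈ (↑({a, b, c, d} : Finset V) : Set V) := by simp
  have mc : c ∈ (↑({a, b, c, d} : Finset V) : Set V) := by simp
  have md : d ∈ (↑({a, b, c, d} : Finset V) : Set V) := by simp
  have e1 : D a c = D a b := hc.eq_left hD ma mb mc h1 h2
  have e2 : D a d = D a b := hc.eq_left hD ma mb md h1 (h2.trans h3)
  have e3 : D b d = D b c := hc.eq_left hD mb mc md h2 h3
  ext l
  unfold lev
  simp only [Finset.mem_image, Finset.mem_offDiag, Finset.mem_insert, Finset.mem_singleton,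
    Prod.exists]
  constructor
  · rintro ⟨u, v, ⟨hu, hv, huv⟩, rfl⟩
    rcases hu with rfl | rfl | rfl | rfl <;> rcases hv with rfl | rfl | rfl | rfl <;>
      first
      | exact absurd rfl huv
      | (simp only [e1, e2, e3, true_or, or_true])
      | (rw [hD.symm]; simp only [e1, e2, e3, true_or, or_true])
  · rintro (rfl | rfl | rfl)
    · exact ⟨a, b, ⟨by simp, by simp, h1.ne⟩, rfl⟩
    · exact ⟨b, c, ⟨by simp, by simp, h2.ne⟩, rfl⟩
    · exact ⟨c, d, ⟨by simp, by simp, h3.ne⟩, rfl⟩

/-- The colour `c1` part of the block theorem: no `BT`-set in a `c1`-homogeneous set with at least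
five points. -/
lemma block_c1 (hD : TreeDist D) {c0 c1 : Γ} (hne : c1 ≠ c0) {Θ : Type u} [LinearOrder Θ]
    (bl : L → Θ) {f : Finset L → Γ}
    (hf1 : ∀ (a b c : L) (s : Finset L), a < b → b < c → (∀ x, x ∈ s ↔ x = a ∨ x = b ∨ x = c) →
      f s = c1 → bl a = bl b)
    {h : Finset V → Γ} (hh : ∀ e, ¬ BT bl D e → h e = c0) {H : Set V}
    (hhom : ∀ e : Finset V, e.card = 4 → (↑e : Set V) ⊆ H → gcol D f h e = c1)
    (h5 : ((5 : ℕ) : Cardinal) ≤ #H) (e : Finset V) (he4 : e.card = 4) (heH : (↑e : Set V) ⊆ H) :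
    Comb D (↑e : Set V) := by
  classical
  -- every quadruple is a comb or BT
  have key : ∀ e : Finset V, e.card = 4 → (↑e : Set V) ⊆ H → ¬ BT bl D e → Comb D (↑e : Set V) := by
    intro e h4 hH hn
    by_contra hc
    have := hhom e h4 hH
    rw [gcol_eq_of_not_comb hc, hh e hn] at this
    exact hne this.symm
  -- quadruples with a constant point are combs
  have key2 : ∀ s p q r : V, s ∈ H → p ∈ H → q ∈ H → r ∈ H → s ≠ p → s ≠ q → s ≠ r → p ≠ q →
      p ≠ r → q ≠ r → D s p = D s q → D s p = D s r →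
      Comb D (↑({s, p, q, r} : Finset V) : Set V) := by
    intro s p q r hs hp hq hr h1 h2 h3 h4 h5 h6 e1 e2
    refine key _ ?_ ?_ ?_
    · rw [Finset.card_insert_of_notMem (by simp [h1, h2, h3]),
        Finset.card_insert_of_notMem (by simp [h4, h5]), Finset.card_insert_of_notMem (by simp [h6]),
        Finset.card_singleton]
    · intro v hv
      simp only [Finset.coe_insert, Finset.coe_singleton, Set.mem_insert_iff,
        Set.mem_singleton_iff] at hv
      rcases hv with rfl | rfl | rfl | rfl <;> assumption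
    · intro hBT
      obtain ⟨u, hu, v, hv, hus, hvs, huv⟩ := hBT.nc hD (s := s) (by simp)
      have hu' : u = p ∨ u = q ∨ u = r := by
        have : u = s ∨ u = p ∨ u = q ∨ u = r := by simpa using hu
        tauto
      have hv' : v = p ∨ v = q ∨ v = r := by
        have : v = s ∨ v = p ∨ v = q ∨ v = r := by simpa using hv
        tauto
      apply huv
      have e3 : D s u = D s p := by
        rcases hu' with rfl | rfl | rfl
        · rfl
        · exact e1.symm
        · exact e2.symm
      have e4 : D s v = D s p := by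
        rcases hv' with rfl | rfl | rfl
        · rfl
        · exact e1.symm
        · exact e2.symm
      rw [e3, e4]
  by_contra hncomb
  have hBT : BT bl D e := by
    by_contra hn
    exact hncomb (key e he4 heH hn)
  -- a fifth point
  obtain ⟨s, hsH, hse⟩ : ∃ s ∈ H, s ∉ e := by
    by_contra hcon
    push Not at hcon
    have h1 : #H ≤ #(↑e : Set V) := Cardinal.mk_le_mk_of_subset (fun x hx => hcon x hx)
    have h2 : #(↑e : Set V) = ((4 : ℕ) : Cardinal) := by
      rw [← he4]; exact Cardinal.mk_coe_finset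
    have h3 : ((5 : ℕ) : Cardinal) ≤ ((4 : ℕ) : Cardinal) := h5.trans (h1.trans h2.le)
    exact absurd (Nat.cast_le.mp h3) (by norm_num)
  obtain ⟨a, b, c, d, rfl, hT⟩ := hBT
  have haH : a ∈ H := heH (by simp)
  have hbH : b ∈ H := heH (by simp)
  have hcH : c ∈ H := heH (by simp)
  have hdH : d ∈ H := heH (by simp)
  have hs : s ≠ a ∧ s ≠ b ∧ s ≠ c ∧ s ≠ d := by
    refine ⟨?_, ?_, ?_, ?_⟩ <;> · rintro rfl; exact hse (by simp)
  obtain ⟨hsa, hsb, hsc, hsd⟩ := hs
  rcases hT with hA | hP
  · obtain ⟨hab, hbc, hcd, h1, h2, h3, h4, h6⟩ := hA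
    have hac : a < c := hab.trans hbc
    have hbd : b < d := hbc.trans hcd
    rcases hD.tri hsa hsb hab.ne with ⟨h7, h8⟩ | ⟨h7, h8⟩ | ⟨h7, h8⟩
    · -- s outside
      have e1 : D s c = D s a := by
        have : D a s < D a c := by rw [hD.symm a s]; exact h8.trans h1
        exact (hD.iso a s c hsa.symm hac.ne hsc this).trans (hD.symm a s)
      have hcb := key2 s a b c hsH haH hbH hcH hsa hsb hsc hab.ne hac.ne hbc.ne h7 e1.symm
      have := hcb a (by simp) b (by simp) c (by simp) hab hbc
      rw [h3] at this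
      exact lt_irrefl _ this
    · -- a odd: s joins {b,d}
      have e1 : D c s = D a b := by
        have : D a s < D a c := by rw [hD.symm a s, h7]; exact h1
        have := hD.iso a s c hsa.symm hac.ne hsc this
        rw [hD.symm c s, this, hD.symm a s, h7]
      have e2 : D c b = D a b := by rw [hD.symm]; exact h3
      have hcb := key2 c b d s hcH hbH hdH hsH hbc.ne' hcd.ne hsc.symm hbd.ne hsb.symm hsd.symm
        (by rw [e2, h6]) (by rw [e2, e1])
      have := hcb b (by simp) c (by simp) d (by simp) hbc hcd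
      rw [h3, h6] at this
      exact lt_irrefl _ this
    · -- b odd: s joins {a,c}
      have e1 : D b s = D a b := by rw [hD.symm b s, h7]
      have e2 : D b a = D a b := hD.symm _ _
      have hcb := key2 b a c s hbH haH hcH hsH hab.ne' hbc.ne hsb.symm hac.ne hsa.symm hsc.symm
        (by rw [e2, h3]) (by rw [e2, e1])
      have := hcb a (by simp) b (by simp) c (by simp) hab hbc
      rw [h3] at this
      exact lt_irrefl _ this
  · obtain ⟨hab, hbc, hcd, h1, h2, h3, h4, h6, h9⟩ := hP
    have hac : a < c := hab.trans hbc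
    have hbd : b < d := hbc.trans hcd
    have had : a < d := hab.trans hbd
    -- the key configuration
    have conf : ∀ q1 q2 q3 : V, q1 ∈ H → q2 ∈ H → q3 ∈ H → b < q1 → q1 < q2 → q2 < q3 →
        D a q1 = D a c → D a q2 = D a c → D a q3 = D a c → D b q1 = D a c →
        D a c < D q1 q2 → False := by
      intro q1 q2 q3 hq1 hq2 hq3 hb1 h12 h23 g1 g2 g3 g4 g5
      have ha1 : a < q1 := hab.trans hb1
      have hcb := key2 a q1 q2 q3 haH hq1 hq2 hq3 ha1.ne (ha1.trans h12).ne
        (ha1.trans (h12.trans h23)).ne h12.ne (h12.trans h23).ne h23.ne (by rw [g1, g2])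
        (by rw [g1, g3])
      have hcard : ({a, q1, q2, q3} : Finset V).card = 4 := by
        rw [Finset.card_insert_of_notMem (by
            simp [ha1.ne, (ha1.trans h12).ne, (ha1.trans (h12.trans h23)).ne]),
          Finset.card_insert_of_notMem (by simp [h12.ne, (h12.trans h23).ne]),
          Finset.card_insert_of_notMem (by simp [h23.ne]), Finset.card_singleton]
      have hsub : (↑({a, q1, q2, q3} : Finset V) : Set V) ⊆ H := by
        intro v hv
        simp only [Finset.coe_insert, Finset.coe_singleton, Set.mem_insert_iff,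
          Set.mem_singleton_iff] at hv
        rcases hv with rfl | rfl | rfl | rfl <;> assumption
      have hcol := hhom _ hcard hsub
      rw [gcol_eq_of_comb hcb, lev_comb4 hD ha1 h12 h23 hcb] at hcol
      have hlt1 : D a q1 < D q1 q2 := by rw [g1]; exact g5
      have hlt2 : D q1 q2 < D q2 q3 := hcb q1 (by simp) q2 (by simp) q3 (by simp) h12 h23
      have hbl := hf1 (D a q1) (D q1 q2) (D q2 q3) _ hlt1 hlt2 (by
        intro x; simp) hcol
      -- now the quadruple a b q1 q2
      have hcard' : ({a, b, q1, q2} : Finset V).card = 4 := by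
        rw [Finset.card_insert_of_notMem (by simp [hab.ne, ha1.ne, (ha1.trans h12).ne]),
          Finset.card_insert_of_notMem (by simp [hb1.ne, (hb1.trans h12).ne]),
          Finset.card_insert_of_notMem (by simp [h12.ne]), Finset.card_singleton]
      have hsub' : (↑({a, b, q1, q2} : Finset V) : Set V) ⊆ H := by
        intro v hv
        simp only [Finset.coe_insert, Finset.coe_singleton, Set.mem_insert_iff,
          Set.mem_singleton_iff] at hv
        rcases hv with rfl | rfl | rfl | rfl <;> assumption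
      have hnc : ¬ Comb D (↑({a, b, q1, q2} : Finset V) : Set V) := by
        intro hc'
        have := hc' a (by simp) b (by simp) q1 (by simp) hab hb1
        rw [g4] at this
        exact lt_asymm this h1
      have hBT' : BT bl D ({a, b, q1, q2} : Finset V) := by
        by_contra hn
        exact hnc (key _ hcard' hsub' hn)
      rcases hBT'.sorted hab hb1 h12 with hA | hP
      · have := hA.2.2.2.1
        rw [g1] at this
        exact lt_asymm this h1
      · have := hP.2.2.2.2.2.2.2.2
        rw [hbl] at this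
        exact lt_irrefl _ this
    rcases hD.tri hsa hsc hac.ne with ⟨h7, h8⟩ | ⟨h7, h8⟩ | ⟨h7, h8⟩
    · -- s outside
      have e1 : D s b = D s a := by
        have : D a s < D a b := by rw [hD.symm a s]; exact h8.trans h1
        exact (hD.iso a s b hsa.symm hab.ne hsb this).trans (hD.symm a s)
      have hcb := key2 s a b c hsH haH hbH hcH hsa hsb hsc hab.ne hac.ne hbc.ne e1.symm h7
      have := hcb a (by simp) b (by simp) c (by simp) hab hbc
      rw [h3] at this
      exact lt_asymm this h1
    · -- a odd (D s a = D a c < D s c): s joins {c,d}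
      have e1 : D a s = D a c := by rw [hD.symm a s, h7]
      have e2 : D b s = D a c := by
        have : D a s < D a b := by rw [e1]; exact h1
        have := hD.iso a s b hsa.symm hab.ne hsb this
        rw [hD.symm b s, this, e1]
      have hcs : D a c < D c s := by rw [hD.symm c s, ← h7]; exact h8
      have hds : D a c < D d s := hD.ultra hcd.ne hsc.symm hsd.symm h2 hcs
      -- {a,c,d,s} is a comb, so a < s
      have hcb := key2 a c d s haH hcH hdH hsH hac.ne had.ne hsa.symm hcd.ne hsc.symm hsd.symm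
        (by rw [h4]) (by rw [e1])
      have has : a < s := by
        rcases lt_or_gt_of_ne hsa with h | h
        · exfalso
          have := hcb s (by simp) a (by simp) c (by simp) h hac
          rw [hD.symm s a, e1] at this
          exact lt_irrefl _ this
        · exact h
      have hcb' := key2 b c d s hbH hcH hdH hsH hbc.ne hbd.ne hsb.symm hcd.ne hsc.symm hsd.symm
        (by rw [h3, h6]) (by rw [h3, e2])
      have hbs : b < s := by
        rcases lt_or_gt_of_ne hsb with h | h
        · exfalso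
          have := hcb' s (by simp) b (by simp) c (by simp) h hbc
          rw [hD.symm s b, e2, h3] at this
          exact lt_irrefl _ this
        · exact h
      rcases lt_or_gt_of_ne hsc with h | h
      · -- s < c < d
        exact conf s c d hsH hcH hdH hbs h hcd e1 rfl h4 e2 (by rw [hD.symm s c]; exact hcs)
      · rcases lt_or_gt_of_ne hsd with h' | h'
        · -- c < s < d
          exact conf c s d hcH hsH hdH hbc h h' rfl e1 h4 h3 hcs
        · exact conf c d s hcH hdH hsH hbc hcd h' rfl h4 e1 h3 h2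
    · -- c odd (D s c = D a c < D s a): s joins {a,b}
      have e1 : D c s = D a c := by rw [hD.symm c s, h7]
      have e2 : D c a = D a c := hD.symm _ _
      have e3 : D c b = D a c := by rw [hD.symm c b, h3]
      have hcb := key2 c a b s hcH haH hbH hsH hac.ne' hbc.ne' hsc.symm hab.ne hsa.symm hsb.symm
        (by rw [e2, e3]) (by rw [e2, e1])
      have := hcb a (by simp) b (by simp) c (by simp) hab hbc
      rw [h3] at this
      exact lt_asymm this h1


/-- The colour `c0` part of the block theorem. -/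
lemma block_c0 [WellFoundedLT V] [WellFoundedLT L] (hD : TreeDist D) {Θ : Type u} [LinearOrder Θ]
    (bl : L → Θ) (hbl : Monotone bl) {H : Set V} (hinf : ℵ₀ ≤ #H)
    (hno : ∀ a ∈ H, ∀ b ∈ H, ∀ c ∈ H, ∀ d ∈ H, ¬ Alt D a b c d ∧ ¬ Par bl D a b c d)
    (hthird : ∀ (Z : Set V) (k : Θ), Z ⊆ H → #Z = #H →
      (∀ z ∈ Z, ∀ w ∈ Z, z ≠ w → bl (D z w) = k) → False) :
    ∃ H' ⊆ H, #H' = #H ∧ Comb D H' := by
  classical
  obtain ⟨K, hKs, hKc, hsh⟩ := shrink H
  have hKinf : ℵ₀ ≤ #K := by rw [hKc]; exact hinf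
  rw [← hKc] at hsh
  -- every split has a side of size < #K
  have hside : ∀ x ∈ K, ∀ y ∈ K, x ≠ y →
      #(cone D K x (D x y)) < #K ∨ #(cone D K y (D x y)) < #K := by
    by_contra hcon
    push Not at hcon
    obtain ⟨x, hx, y, hy, hxy, h1, h2⟩ := hcon
    have hA : cone D K x (D x y) ⊆ K := fun z hz => hz.1
    have hB : cone D K y (D x y) ⊆ K := fun z hz => hz.1
    have hAc := le_antisymm (Cardinal.mk_le_mk_of_subset hA) h1
    have hBc := le_antisymm (Cardinal.mk_le_mk_of_subset hB) h2
    obtain ⟨b, hb, hab⟩ := cofinal_of_shrink hKinf hsh hB hBc hx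
    obtain ⟨c, hc', hbc⟩ := cofinal_of_shrink hKinf hsh hA hAc (hB hb)
    obtain ⟨d, hd, hcd⟩ := cofinal_of_shrink hKinf hsh hB hBc (hA hc')
    have hxA : x ∈ cone D K x (D x y) := mem_cone_self hx
    have e1 := (cross_eq hD hxy hxA hb).2
    have e2 := (cross_eq hD hxy hxA hd).2
    have e3 := (cross_eq hD hxy hc' hb).2
    have e4 := (cross_eq hD hxy hc' hd).2
    have e5 := cone_within hD hxA hc' (hab.trans hbc).ne
    have e6 := cone_within hD hb hd (hbc.trans hcd).ne
    refine (hno x (hKs hx) b (hKs (hB hb)) c (hKs (hA hc')) d (hKs (hB hd))).1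
      ⟨hab, hbc, hcd, ?_, ?_, ?_, ?_, ?_⟩
    · rw [e1]; exact e5
    · rw [e1]; exact e6
    · rw [hD.symm, e3, e1]
    · rw [e2, e1]
    · rw [e4, e1]
  obtain ⟨H1, l, hsub, hss, h1, h2, h3⟩ := levels hD #K hKinf hside
  have hH1 : #H1 = #K := mk_diff_subsingleton hsub hKinf hss
  have hle : #(l '' H1) ≤ #K := (Cardinal.mk_image_le).trans hH1.le
  by_cases hcard : #(l '' H1) = #K
  · obtain ⟨H', hs', hc', hcomb⟩ := comb_of_levels (D := D) l h1 (by rw [hcard]; exact hKinf)
    exact ⟨H', (hs'.trans hsub).trans hKs, (hc'.trans hcard).trans hKc, hcomb⟩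
  exfalso
  have hlt : #(l '' H1) < #K := lt_of_le_of_ne hle hcard
  -- a set of points whose fibres have at most two elements is small
  have small : ∀ S : Set V, S ⊆ H1 → (∀ x ∈ S, ∀ y ∈ S, x ≠ y → l x = l y → D x y = l x) →
      #S < #K := by
    intro S hS hS2
    let F : S → (l '' H1 : Set L) := fun x => ⟨l x, x, hS x.2, rfl⟩
    have hfib : ∀ a, #(F ⁻¹' {a}) ≤ ((2 : ℕ) : Cardinal) := by
      intro a
      by_contra hcon
      push Not at hcon
      have h3le : ((3 : ℕ) : Cardinal) ≤ #(F ⁻¹' {a}) := by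
        have := Order.succ_le_of_lt hcon
        rw [Cardinal.succ_natCast] at this
        exact_mod_cast this
      obtain ⟨E, hE, hE3⟩ := exists_finset_card h3le
      obtain ⟨x, y, z, hxy, hxz, hyz, rfl⟩ := Finset.card_eq_three.mp hE3
      have hx := hE (show x ∈ (↑({x, y, z} : Finset S) : Set S) by simp)
      have hy := hE (show y ∈ (↑({x, y, z} : Finset S) : Set S) by simp)
      have hz := hE (show z ∈ (↑({x, y, z} : Finset S) : Set S) by simp)
      have ex : l x.1 = a.1 := congrArg Subtype.val hx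
      have ey : l y.1 = a.1 := congrArg Subtype.val hy
      have ez : l z.1 = a.1 := congrArg Subtype.val hz
      have nxy : x.1 ≠ y.1 := fun h => hxy (Subtype.ext h)
      have nxz : x.1 ≠ z.1 := fun h => hxz (Subtype.ext h)
      have nyz : y.1 ≠ z.1 := fun h => hyz (Subtype.ext h)
      have q1 := hS2 x.1 x.2 y.1 y.2 nxy (by rw [ex, ey])
      have q2 := hS2 x.1 x.2 z.1 z.2 nxz (by rw [ex, ez])
      have q3 := hS2 y.1 y.2 z.1 z.2 nyz (by rw [ey, ez])
      have := hD.binary x.1 y.1 z.1 nxy nxz nyz (by rw [q1, q2])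
      rw [q1, q3, ex, ey] at this
      exact lt_irrefl _ this
    have h5 : #S ≤ #(l '' H1) * ((2 : ℕ) : Cardinal) :=
      Cardinal.mk_le_mk_mul_of_mk_preimage_le F hfib
    refine lt_of_le_of_lt h5 ?_
    exact Cardinal.mul_lt_of_lt hKinf hlt ((Cardinal.natCast_lt_aleph0 (n := 2)).trans_le hKinf)
  -- levels with two points on the same side
  let P : Set L := {d | ∃ x ∈ H1, ∃ y ∈ H1, x < y ∧ l x = d ∧ l y = d ∧ d < D x y}
  have hP : P.Nonempty := by
    by_contra hemp
    rw [Set.not_nonempty_iff_eq_empty] at hemp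
    have := small H1 Subset.rfl (by
      intro x hx y hy hxy hl
      have h4 := h2 x hx y hy hxy hl
      rcases h4.lt_or_eq with h5 | h5
      · exfalso
        rcases lt_or_gt_of_ne hxy with h6 | h6
        · have : l x ∈ P := ⟨x, hx, y, hy, h6, rfl, hl.symm, h5⟩
          rw [hemp] at this; exact this
        · have : l x ∈ P := ⟨y, hy, x, hx, h6, hl.symm, rfl, by rw [hD.symm]; exact h5⟩
          rw [hemp] at this; exact this
      · exact h5.symm)
    rw [hH1] at this
    exact lt_irrefl _ this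
  set d0 := wellFounded_lt.min P hP with hd0
  have hd0P : d0 ∈ P := wellFounded_lt.min_mem P hP
  obtain ⟨x, hx, y, hy, hxy, hlx, hly, hxyd⟩ := hd0P
  -- points above
  let Z0 : Set V := {z | z ∈ H1 ∧ d0 < l z}
  have hZ0 : #Z0 = #K := by
    by_contra hne
    have hZlt : #Z0 < #K := lt_of_le_of_ne
      ((Cardinal.mk_le_mk_of_subset (fun z hz => hz.1)).trans hH1.le) hne
    have hlow : #({z | z ∈ H1 ∧ l z < d0} : Set V) < #K := by
      apply small _ (fun z hz => hz.1)
      intro u hu v hv huv hl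
      have h4 := h2 u hu.1 v hv.1 huv hl
      rcases h4.lt_or_eq with h5 | h5
      · exfalso
        rcases lt_or_gt_of_ne huv with h6 | h6
        · exact wellFounded_lt.not_lt_min P
            (show l u ∈ P from ⟨u, hu.1, v, hv.1, h6, rfl, hl.symm, h5⟩) hu.2
        · exact wellFounded_lt.not_lt_min P
            (show l u ∈ P from ⟨v, hv.1, u, hu.1, h6, hl.symm, rfl, by rw [hD.symm]; exact h5⟩)
            hu.2
      · exact h5.symm
    have hmid : #({z | z ∈ H1 ∧ l z = l x} : Set V) < #K := h3 x hx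
    have hcov : H1 ⊆ ({z | z ∈ H1 ∧ l z < d0} ∪ {z | z ∈ H1 ∧ l z = l x}) ∪ Z0 := by
      intro z hz
      rcases lt_trichotomy (l z) d0 with h | h | h
      · exact Or.inl (Or.inl ⟨hz, h⟩)
      · exact Or.inl (Or.inr ⟨hz, by rw [h, hlx]⟩)
      · exact Or.inr ⟨hz, h⟩
    have : #H1 < #K := by
      refine lt_of_le_of_lt (Cardinal.mk_le_mk_of_subset hcov) ?_
      refine lt_of_le_of_lt (Cardinal.mk_union_le _ _) ?_
      refine Cardinal.add_lt_of_lt hKinf ?_ hZlt
      refine lt_of_le_of_lt (Cardinal.mk_union_le _ _) ?_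
      exact Cardinal.add_lt_of_lt hKinf hlow hmid
    exact this.ne hH1
  let Z : Set V := {z | z ∈ Z0 ∧ y < z}
  have hZ : #Z = #K := by
    by_contra hne
    have hZs : Z ⊆ K := fun z hz => hsub hz.1.1
    have hZlt : #Z < #K := lt_of_le_of_ne (Cardinal.mk_le_mk_of_subset hZs) hne
    have hcov : Z0 ⊆ ({z | z ∈ K ∧ z < y} ∪ {y}) ∪ Z := by
      intro z hz
      rcases lt_trichotomy z y with h | h | h
      · exact Or.inl (Or.inl ⟨hsub hz.1, h⟩)
      · exact Or.inl (Or.inr h)
      · exact Or.inr ⟨hz, h⟩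
    have : #Z0 < #K := by
      refine lt_of_le_of_lt (Cardinal.mk_le_mk_of_subset hcov) ?_
      refine lt_of_le_of_lt (Cardinal.mk_union_le _ _) ?_
      refine Cardinal.add_lt_of_lt hKinf ?_ hZlt
      refine lt_of_le_of_lt (Cardinal.mk_union_le _ _) ?_
      refine Cardinal.add_lt_of_lt hKinf (hsh y (hsub hy)) ?_
      rw [Cardinal.mk_singleton]
      exact Cardinal.one_lt_aleph0.trans_le hKinf
    exact this.ne hZ0
  refine hthird Z (bl d0) (fun z hz => hKs (hsub hz.1.1)) (hZ.trans hKc) ?_
  -- all distances in `Z` are in the block of `d0`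
  have main : ∀ z ∈ Z, ∀ w ∈ Z, z < w → bl (D z w) = bl d0 := by
    intro z hz w hw hzw
    have e1 : D x z = d0 := by rw [h1 x hx z hz.1.1 (by rw [hlx]; exact hz.1.2), hlx]
    have e2 : D x w = d0 := by rw [h1 x hx w hw.1.1 (by rw [hlx]; exact hw.1.2), hlx]
    have e3 : D y z = d0 := by rw [h1 y hy z hz.1.1 (by rw [hly]; exact hz.1.2), hly]
    have e4 : D y w = d0 := by rw [h1 y hy w hw.1.1 (by rw [hly]; exact hw.1.2), hly]
    have e5 : d0 < D z w := by
      rcases lt_trichotomy (l z) (l w) with h | h | h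
      · rw [h1 z hz.1.1 w hw.1.1 h]; exact hz.1.2
      · exact hz.1.2.trans_le (h2 z hz.1.1 w hw.1.1 hzw.ne h)
      · rw [hD.symm, h1 w hw.1.1 z hz.1.1 h]; exact hw.1.2
    have hnp := (hno x (hKs (hsub hx)) y (hKs (hsub hy)) z (hKs (hsub hz.1.1)) w
      (hKs (hsub hw.1.1))).2
    have h7 : ¬ bl d0 < bl (D z w) := by
      intro h
      exact hnp ⟨hxy, hz.2, hzw, by rw [e1]; exact hxyd, by rw [e1]; exact e5, by rw [e3, e1],
        by rw [e2, e1], by rw [e4, e1], by rw [e1]; exact h⟩
    exact le_antisymm (not_lt.mp h7) (hbl e5.le)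
  intro z hz w hw hzw
  rcases lt_or_gt_of_ne hzw with h | h
  · exact main z hz w hw h
  · rw [hD.symm]; exact main w hw z hz h


/-- The block theorem for `r = 3`. -/
theorem step_three_block [WellFoundedLT V] [WellFoundedLT L] (hD : TreeDist D)
    {lam : Γ → Cardinal.{u}} (hlam : ∀ ν, (3 : Cardinal) ≤ lam ν) {c0 c1 : Γ} (hne : c1 ≠ c0)
    (hc0 : ℵ₀ ≤ lam c0) (hc1 : (3 : Cardinal) < lam c1) {Θ : Type u} [LinearOrder Θ]
    (bl : L → Θ) (hbl : Monotone bl) {f : Finset L → Γ} (hf : NA lam 3 f)
    (hf1 : ∀ (a b c : L) (s : Finset L), a < b → b < c → (∀ x, x ∈ s ↔ x = a ∨ x = b ∨ x = c) →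
      f s = c1 → bl a = bl b)
    (hthird : ∀ (Z : Set V) (k : Θ), #Z = lam c0 →
      (∀ z ∈ Z, ∀ w ∈ Z, z ≠ w → bl (D z w) = k) →
      (∀ a ∈ Z, ∀ b ∈ Z, ∀ c ∈ Z, ∀ d ∈ Z, ¬ Alt D a b c d) →
      (∀ e : Finset V, e.card = 4 → (↑e : Set V) ⊆ Z → Comb D (↑e : Set V) → f (lev D e) = c0) →
      False) :
    ∃ g : Finset V → Γ, NA (fun ν => lam ν + 1) 4 g := by
  classical
  let h : Finset V → Γ := fun e => if BT bl D e then c1 else c0
  refine ⟨gcol D f h, assemble hD (r := 3) (by norm_num) hf h ?_⟩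
  intro ν H hH hhom
  have h4H : ((3 + 1 : ℕ) : Cardinal) ≤ #H := by
    rw [hH]
    calc ((3 + 1 : ℕ) : Cardinal) = (3 : Cardinal) + 1 := by norm_num
      _ ≤ lam ν + 1 := add_le_add (hlam ν) le_rfl
  by_cases hν1 : ν = c1
  · subst hν1
    refine ⟨H, Subset.rfl, rfl, all_comb (r := 3) (by norm_num) h4H ?_⟩
    intro e he heH
    refine block_c1 hD hne bl hf1 (h := h) (fun e he => if_neg he) hhom ?_ e he heH
    rw [hH]
    have h3 : ((4 : ℕ) : Cardinal) ≤ lam ν := by
      have h1' : ((3 : ℕ) : Cardinal) < lam ν := by exact_mod_cast hc1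
      have := Order.succ_le_of_lt h1'
      rw [Cardinal.succ_natCast] at this
      exact_mod_cast this
    calc ((5 : ℕ) : Cardinal) = ((4 : ℕ) : Cardinal) + 1 := by norm_num
      _ ≤ lam ν + 1 := by gcongr
  · by_cases hν0 : ν = c0
    · subst hν0
      have hHinf : ℵ₀ ≤ #H := by rw [hH]; exact hc0.trans (self_le_add_right _ _)
      have hHc : #H = lam ν := by rw [hH, Cardinal.add_one_eq hc0]
      have hno : ∀ a ∈ H, ∀ b ∈ H, ∀ c ∈ H, ∀ d ∈ H, ¬ Alt D a b c d ∧ ¬ Par bl D a b c d := by
        intro a ha b hb c hc d hd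
        have key : ¬ (a < b ∧ b < c ∧ c < d ∧ (Alt D a b c d ∨ Par bl D a b c d)) := by
          rintro ⟨hab, hbc, hcd, hT⟩
          have hcard : ({a, b, c, d} : Finset V).card = 4 := by
            rw [Finset.card_insert_of_notMem (by
                simp [hab.ne, (hab.trans hbc).ne, (hab.trans (hbc.trans hcd)).ne]),
              Finset.card_insert_of_notMem (by simp [hbc.ne, (hbc.trans hcd).ne]),
              Finset.card_insert_of_notMem (by simp [hcd.ne]), Finset.card_singleton]
          have hsub : (↑({a, b, c, d} : Finset V) : Set V) ⊆ H := by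
            intro v hv
            simp only [Finset.coe_insert, Finset.coe_singleton, Set.mem_insert_iff,
              Set.mem_singleton_iff] at hv
            rcases hv with rfl | rfl | rfl | rfl <;> assumption
          have hBT : BT bl D ({a, b, c, d} : Finset V) := ⟨a, b, c, d, rfl, hT⟩
          have := hhom _ hcard hsub
          rw [gcol_eq_of_not_comb (hBT.not_comb hD)] at this
          have h2 : h ({a, b, c, d} : Finset V) = c1 := if_pos hBT
          rw [h2] at this
          exact hne this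
        constructor
        · intro hA; exact key ⟨hA.1, hA.2.1, hA.2.2.1, Or.inl hA⟩
        · intro hP; exact key ⟨hP.1, hP.2.1, hP.2.2.1, Or.inr hP⟩
      refine block_c0 hD bl hbl hHinf hno ?_
      intro Z k hZH hZc hZk
      refine hthird Z k (hZc.trans hHc) hZk
        (fun a ha b hb c hc d hd => (hno a (hZH ha) b (hZH hb) c (hZH hc) d (hZH hd)).1) ?_
      intro e he heZ hcomb
      have := hhom e he (heZ.trans hZH)
      rwa [gcol_eq_of_comb hcomb] at this
    · refine ⟨H, Subset.rfl, rfl, all_comb (r := 3) (by norm_num) h4H ?_⟩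
      intro e he heH
      by_contra hc
      have := hhom e he heH
      rw [gcol_eq_of_not_comb hc] at this
      by_cases hBT : BT bl D e
      · rw [show h e = c1 from if_pos hBT] at this
        exact hν1 this.symm
      · rw [show h e = c0 from if_neg hBT] at this
        exact hν0 this.symm

end Pool.Agent.H330
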