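import Mathlib
open Cardinal Set
universe u
namespace Pool.Agent.H330

/-- an element of `μ.ord.ToType` with a given number of predecessors -/
lemma exists_mk_Iio {μ ρ : Cardinal.{u}} (h : ρ < μ) : ∃ x : μ.ord.ToType, #(Iio x) = ρ := by
  have h1 : ρ.ord < μ.ord := Cardinal.ord_lt_ord.mpr h
  have h2 : ρ.ord < Ordinal.type (fun x1 x2 : μ.ord.ToType => x1 < x2) := by
    rw [Ordinal.type_toType]; exact h1
  refine ⟨Ordinal.enum (fun x1 x2 : μ.ord.ToType => x1 < x2) ⟨ρ.ord, h2⟩, ?_⟩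
  have h3 := Ordinal.typein_enum (fun x1 x2 : μ.ord.ToType => x1 < x2) h2
  have h4 := congrArg Ordinal.card h3
  rw [Cardinal.card_ord] at h4
  exact Eq.trans rfl h4

lemma cofmap (μ : Cardinal.{u}) : ∃ m : μ.ord.cof.ord.ToType → Cardinal.{u},
    Monotone m ∧ (∀ i, m i < μ) ∧ ∀ ρ < μ, ∃ i, ρ ≤ m i := by
  obtain ⟨s, hs, hty⟩ := Ordinal.exists_ord_cof_eq μ.ord.ToType
  have h1 : Order.cof μ.ord.ToType = μ.ord.cof := by
    rw [Ordinal.cof_toType]
  rw [h1] at hty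
  have h2 : Ordinal.type (fun x1 x2 : μ.ord.cof.ord.ToType => x1 < x2) =
      Ordinal.type (fun x1 x2 : s => x1 < x2) := by
    rw [Ordinal.type_toType]; exact hty.symm
  obtain ⟨φ⟩ := Ordinal.type_eq.mp h2
  refine ⟨fun i => #(Iio ((φ i : s) : μ.ord.ToType)), ?_, ?_, ?_⟩
  · intro i j hij
    refine Cardinal.mk_le_mk_of_subset ?_
    apply Iio_subset_Iio
    rcases hij.lt_or_eq with h | h
    · exact (Subtype.coe_lt_coe.mpr (φ.map_rel_iff.mpr h)).le
    · rw [h]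
  · intro i
    exact Cardinal.mk_Iio_toType_ord_lt _
  · intro ρ hρ
    obtain ⟨x, hx⟩ := exists_mk_Iio hρ
    obtain ⟨y, hy, hxy⟩ := hs x
    refine ⟨φ.symm ⟨y, hy⟩, ?_⟩
    rw [← hx]
    refine Cardinal.mk_le_mk_of_subset ?_
    simp only [RelIso.apply_symm_apply]
    exact Iio_subset_Iio hxy
end Pool.Agent.H330
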