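import Mathlib

namespace Pool.Agent.H330


open Cardinal

universe u

section
variable {A W Γ : Type u} [LinearOrder W] [WellFoundedLT W] [DecidableEq A]

/-- candidates for the next point -/
def ehCand (f : Finset A → Γ) (p : A) (w : W) (ih : ∀ v, v < w → A) : Set A :=
  {a | (∀ v (hv : v < w), a ≠ ih v hv) ∧ ∀ s : Finset (Set.Iio w),
    f (insert a (s.image (fun v => ih v.1 v.2))) = f (insert p (s.image (fun v => ih v.1 v.2)))}

open Classical in
/-- the sequence of a point -/
noncomputable def ehSeq (f : Finset A → Γ) (p : A) : W → A :=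
  WellFounded.fix (wellFounded_lt (α := W)) (fun w ih =>
    if h : (ehCand f p w ih).Nonempty then h.some else p)

theorem ehSeq_eq (f : Finset A → Γ) (p : A) (w : W)
    (h : (ehCand f p w (fun v _ => ehSeq f p v)).Nonempty) :
    ehSeq f p w = h.some := by
  classical
  unfold ehSeq
  rw [WellFounded.fix_eq]
  exact dif_pos h

theorem ehCand_mem (f : Finset A → Γ) (p : A) (w : W) (h : ∀ v < w, ehSeq f p v ≠ p) :
    p ∈ ehCand f p w (fun v _ => ehSeq f p v) :=
  ⟨fun v hv => (h v hv).symm, fun _ => rfl⟩

theorem ehSeq_mem (f : Finset A → Γ) (p : A) (w : W) (h : ∀ v < w, ehSeq f p v ≠ p) :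
    ehSeq f p w ∈ ehCand f p w (fun v _ => ehSeq f p v) := by
  have hne : (ehCand f p w (fun v _ => ehSeq f p v)).Nonempty := ⟨p, ehCand_mem f p w h⟩
  rw [ehSeq_eq f p w hne]
  exact hne.some_mem

omit [WellFoundedLT W] in
theorem eh_image (x : W → A) (w : W) (s : Finset W) (hs : ∀ v ∈ s, v < w) :
    ∃ s' : Finset (Set.Iio w), s'.image (fun v => x v.1) = s.image x := by
  classical
  refine ⟨s.attach.image (fun v => ⟨v.1, hs v.1 v.2⟩), ?_⟩
  rw [Finset.image_image]
  ext a
  simp only [Finset.mem_image, Finset.mem_attach, true_and, Function.comp_apply, Subtype.exists]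
  constructor
  · rintro ⟨v, hv, rfl⟩; exact ⟨v, hv, rfl⟩
  · rintro ⟨v, hv, rfl⟩; exact ⟨v, hv, rfl⟩

end

/-- End-homogeneous sequences (Erdős–Rado tree argument, without trees): if `#A` is larger than the
number of all types over initial segments of the well-order `W`, then there is a point `p` and an
injective sequence `x : W → A` such that `x w` and `p` have the same `f`-type over
`{x v : v < w}` for every `w`. -/
theorem end_homog {A W Γ : Type u} [LinearOrder W] [WellFoundedLT W] [DecidableEq A]
    (f : Finset A → Γ)
    (hcard : Cardinal.sum (fun w : W => #(Finset (Set.Iio w) → Γ)) < #A) :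
    ∃ (p : A) (x : W → A), Function.Injective x ∧ p ∉ Set.range x ∧
      ∀ (w : W) (s : Finset W), (∀ v ∈ s, v < w) →
        f (insert (x w) (s.image x)) = f (insert p (s.image x)) := by
  classical
  by_cases hcase : ∃ p : A, ∀ w : W, ehSeq f p w ≠ p
  · obtain ⟨p, hp⟩ := hcase
    have hmem : ∀ w : W, ehSeq f p w ∈ ehCand f p w (fun v _ => ehSeq f p v) :=
      fun w => ehSeq_mem f p w (fun v _ => hp v)
    refine ⟨p, ehSeq f p, ?_, ?_, ?_⟩
    · intro v w hvw
      rcases lt_trichotomy v w with h | h | h
      · exact absurd hvw.symm ((hmem w).1 v h)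
      · exact h
      · exact absurd hvw ((hmem v).1 w h)
    · rintro ⟨w, hw⟩
      exact hp w hw
    · intro w s hs
      obtain ⟨s', hs'⟩ := eh_image (ehSeq f p) w s hs
      have := (hmem w).2 s'
      rw [hs'] at this
      exact this
  · exfalso
    push Not at hcase
    have hmin : ∀ p : A, ∃ w : W, ehSeq f p w = p ∧ ∀ v < w, ehSeq f p v ≠ p := by
      intro p
      have hne : {w : W | ehSeq f p w = p}.Nonempty := hcase p
      refine ⟨(wellFounded_lt (α := W)).min _ hne, (wellFounded_lt (α := W)).min_mem _ hne,
        fun v hv hvp => ?_⟩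
      exact (wellFounded_lt (α := W)).not_lt_min {w : W | ehSeq f p w = p} hvp hv
    choose wf hw1 hw2 using hmin
    let T : A → (w : W) → (Finset (Set.Iio w) → Γ) := fun p w s =>
      f (insert p (s.image (fun v => ehSeq f p v.1)))
    have hinj : Function.Injective (fun p : A => (⟨wf p, T p (wf p)⟩ :
        Σ w : W, (Finset (Set.Iio w) → Γ))) := by
      intro p q hpq
      obtain ⟨h1, h2⟩ := Sigma.mk.inj_iff.mp hpq
      rw [← h1] at h2
      have h3 : T p (wf p) = T q (wf p) := eq_of_heq h2
      have key : ∀ v : W, v ≤ wf p → ehSeq f p v = ehSeq f q v := by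
        intro v
        induction v using (wellFounded_lt (α := W)).induction with
        | _ v ih =>
          intro hv
          have hp : ∀ u < v, ehSeq f p u ≠ p := fun u hu => hw2 p u (hu.trans_le hv)
          have hq : ∀ u < v, ehSeq f q u ≠ q := fun u hu => hw2 q u (by
            rw [← h1]; exact hu.trans_le hv)
          have hpq' : ∀ u < v, ehSeq f p u = ehSeq f q u := fun u hu => ih u hu (hu.le.trans hv)
          have himg : ∀ s : Finset (Set.Iio v), s.image (fun u => ehSeq f p u.1) =
              s.image (fun u => ehSeq f q u.1) := by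
            intro s
            exact Finset.image_congr fun u _ => hpq' u.1 u.2
          have htype : ∀ s : Finset (Set.Iio v), f (insert p (s.image (fun u => ehSeq f p u.1))) =
              f (insert q (s.image (fun u => ehSeq f q u.1))) := by
            intro s
            have h4 := congrFun h3 (s.image (fun u => ⟨u.1, lt_of_lt_of_le u.2 hv⟩))
            simp only [T, Finset.image_image] at h4
            exact h4
          have hC : ehCand f p v (fun u _ => ehSeq f p u) =
              ehCand f q v (fun u _ => ehSeq f q u) := by
            ext a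
            constructor
            · rintro ⟨ha1, ha2⟩
              refine ⟨fun u hu => by show a ≠ ehSeq f q u; rw [← hpq' u hu]; exact ha1 u hu, fun s => ?_⟩
              have := ha2 s
              rw [htype s, himg s] at this
              exact this
            · rintro ⟨ha1, ha2⟩
              refine ⟨fun u hu => by show a ≠ ehSeq f p u; rw [hpq' u hu]; exact ha1 u hu, fun s => ?_⟩
              have := ha2 s
              rw [← htype s, ← himg s] at this
              exact this
          have hnep : (ehCand f p v (fun u _ => ehSeq f p u)).Nonempty := ⟨p, ehCand_mem f p v hp⟩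
          have hneq : (ehCand f q v (fun u _ => ehSeq f q u)).Nonempty := ⟨q, ehCand_mem f q v hq⟩
          rw [ehSeq_eq f p v hnep, ehSeq_eq f q v hneq]
          congr 1
      have h5 := key (wf p) le_rfl
      rw [hw1 p] at h5
      rw [h1, hw1 q] at h5
      exact h5
    have := Cardinal.mk_le_of_injective hinj
    rw [Cardinal.mk_sigma] at this
    exact absurd hcard (not_lt.mpr this)

end Pool.Agent.H330
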