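import Mathlib
import Pool.Agent.H330.Tree

open Cardinal Set

universe u v

namespace Pool.Agent.H330

variable {V L Γ : Type u} [LinearOrder V] [LinearOrder L] {D : V → V → L}

section FinJob

set_option linter.unusedSectionVars false

open Classical in
noncomputable def fin_ty (D : V → V → L) (a b c : V) : Fin 3 :=
  if D a b < D b c then 0 else if D b c < D a b then 1 else 2

lemma fin_ty_zero {a b c : V} : fin_ty D a b c = 0 ↔ D a b < D b c := by
  unfold fin_ty
  split_ifs with h1 h2
  · simp [h1]
  · simp [h1]
  · simp [h1]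

lemma fin_ty_one {a b c : V} : fin_ty D a b c = 1 ↔ D b c < D a b := by
  unfold fin_ty
  split_ifs with h1 h2
  · simp [not_lt.2 h1.le]
  · simp [h2]
  · simp [h2]

lemma fin_ty_two {a b c : V} : fin_ty D a b c = 2 ↔ D a b = D b c := by
  unfold fin_ty
  split_ifs with h1 h2
  · simp [h1.ne]
  · simp [h2.ne']
  · simp [le_antisymm (not_lt.1 h2) (not_lt.1 h1)]

/-- types of the consecutive triples -/
noncomputable def fin_tl (D : V → V → L) : List V → List (Fin 3)
  | a :: b :: c :: l => fin_ty D a b c :: fin_tl D (b :: c :: l)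
  | _ => []

lemma fin_tl_length (l : List V) : (fin_tl D l).length = l.length - 2 := by
  induction l with
  | nil => rfl
  | cons a l ih =>
    rcases l with _ | ⟨b, l⟩
    · rfl
    rcases l with _ | ⟨c, l⟩
    · rfl
    simp only [fin_tl, List.length_cons] at ih ⊢
    omega

lemma fin_tl_tail (l : List V) : fin_tl D l.tail = (fin_tl D l).tail := by
  rcases l with _ | ⟨a, _ | ⟨b, _ | ⟨c, l⟩⟩⟩
  · rfl
  · rfl
  · rfl
  · rfl

lemma fin_tl_take (l : List V) : ∀ n, fin_tl D (l.take (n + 2)) = (fin_tl D l).take n := by
  induction l with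
  | nil => intro n; simp [fin_tl]
  | cons a l ih =>
    intro n
    rcases l with _ | ⟨b, l⟩
    · simp [fin_tl]
    rcases l with _ | ⟨c, l⟩
    · simp [fin_tl]
    rcases n with _ | n
    · simp [fin_tl]
    have := ih n
    simp only [List.take_succ_cons, fin_tl] at this ⊢
    rw [this]

lemma fin_tail_take {α : Type*} (X : List α) (n : ℕ) : (X.take (n + 1)).tail = X.tail.take n := by
  cases X <;> simp

lemma fin_dropLast_take {α : Type*} (X : List α) (n : ℕ) (h : n + 1 ≤ X.length) :
    (X.take (n + 1)).dropLast = X.take n := by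
  rw [List.dropLast_eq_take, List.length_take, List.take_take]
  congr 1
  omega

lemma fin_const {X : List (Fin 3)} (h : X.dropLast = X.tail) : ∃ t, ∀ x ∈ X, x = t := by
  induction X with
  | nil => exact ⟨0, by simp⟩
  | cons a Y ih =>
    rcases Y with _ | ⟨b, Z⟩
    · exact ⟨a, by simp⟩
    rw [List.dropLast_cons_cons, List.tail_cons, List.cons.injEq] at h
    obtain ⟨t, ht⟩ := ih h.2
    refine ⟨t, ?_⟩
    intro x hx
    rcases List.mem_cons.1 hx with rfl | hx
    · rw [h.1]; exact ht b (by simp)
    · exact ht x hx

/-- sorted list with all consecutive triples of type `F` is a comb -/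
lemma fin_comb (hD : TreeDist D) : ∀ l : List V, l.Pairwise (· < ·) →
    (∀ t ∈ fin_tl D l, t = 0) → Comb D {x | x ∈ l} := by
  intro l
  induction l with
  | nil => intro _ _ x hx; simp at hx
  | cons a l ih =>
    intro hs ht
    rcases l with _ | ⟨b, l⟩
    · intro x hx y hy z hz hxy hyz
      simp only [Set.mem_ofPred_eq, List.mem_singleton] at hx hy
      exact absurd hxy (by rw [hx, hy]; exact lt_irrefl _)
    have hs' := List.pairwise_cons.1 hs
    have htail : ∀ t ∈ fin_tl D (b :: l), t = 0 := by
      rcases l with _ | ⟨c, l⟩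
      · simp [fin_tl]
      · intro t h; exact ht t (by simp only [fin_tl]; exact List.mem_cons_of_mem _ h)
    have IH := ih hs'.2 htail
    have hs2 := List.pairwise_cons.1 hs'.2
    -- D a b < D b z for all later z
    have hb : ∀ z ∈ l, D a b < D b z := by
      rcases l with _ | ⟨c, l⟩
      · simp
      intro z hz
      have h0 : D a b < D b c := fin_ty_zero.1 (ht _ (by simp [fin_tl]))
      have hbc : b < c := hs2.1 c (by simp)
      have hbz : b < z := hs2.1 z hz
      have : D b c = D b z := IH.indep hD (x := b) (y := c) (z := z) (by simp) (by simp)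
        (by simp only [Set.mem_ofPred_eq]; exact List.mem_cons_of_mem _ hz) hbc hbz
      rw [← this]; exact h0
    have hay : ∀ y ∈ l, D a y = D a b := by
      intro y hy
      have h1 : D b a < D b y := by rw [hD.symm b a]; exact hb y hy
      have hba : b ≠ a := (hs'.1 b (by simp)).ne'
      have hby : b ≠ y := (hs2.1 y hy).ne
      have hay : a ≠ y := (hs'.1 y (by simp [hy])).ne
      rw [hD.iso b a y hba hby hay h1, hD.symm]
    intro x hx y hy z hz hxy hyz
    simp only [Set.mem_ofPred_eq] at hx hy hz
    rcases List.mem_cons.1 hx with rfl | hx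
    · -- x = a
      have hy' : y ∈ b :: l := by
        rcases List.mem_cons.1 hy with rfl | h
        · exact absurd hxy (lt_irrefl _)
        · exact h
      have hz' : z ∈ b :: l := by
        rcases List.mem_cons.1 hz with rfl | h
        · exact absurd (hxy.trans hyz) (lt_irrefl _)
        · exact h
      rcases List.mem_cons.1 hy' with rfl | hy''
      · rcases List.mem_cons.1 hz' with rfl | hz''
        · exact absurd hyz (lt_irrefl _)
        · exact hb z hz''
      · have hz'' : z ∈ l := by
          rcases List.mem_cons.1 hz' with rfl | h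
          · exact absurd hyz (not_lt.2 (hs2.1 y hy'').le)
          · exact h
        rw [hay y hy'']
        refine (hb y hy'').trans ?_
        exact IH b (by simp) y (by simp [hy'']) z (by simp [hz'']) (hs2.1 y hy'') hyz
    · have hxa : a < x := hs'.1 x hx
      have hy' : y ∈ b :: l := by
        rcases List.mem_cons.1 hy with rfl | h
        · exact absurd hxy (not_lt.2 hxa.le)
        · exact h
      have hz' : z ∈ b :: l := by
        rcases List.mem_cons.1 hz with rfl | h
        · exact absurd (hxy.trans hyz) (not_lt.2 hxa.le)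
        · exact h
      exact IH x hx y hy' z hz' hxy hyz

/-- sorted list with all consecutive triples of type `L` is a reversed comb -/
lemma fin_rcomb (hD : TreeDist D) : ∀ l : List V, l.Pairwise (· < ·) →
    (∀ t ∈ fin_tl D l, t = 1) →
    ∀ x ∈ l, ∀ y ∈ l, ∀ z ∈ l, x < y → y < z → D y z < D x y := by
  intro l
  induction l with
  | nil => intro _ _ x hx; simp at hx
  | cons a l ih =>
    intro hs ht
    rcases l with _ | ⟨b, l⟩
    · intro x hx y hy z hz hxy hyz
      simp only [List.mem_singleton] at hx hy
      exact absurd hxy (by rw [hx, hy]; exact lt_irrefl _)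
    have hs' := List.pairwise_cons.1 hs
    have htail : ∀ t ∈ fin_tl D (b :: l), t = 1 := by
      rcases l with _ | ⟨c, l⟩
      · simp [fin_tl]
      · intro t h; exact ht t (by simp only [fin_tl]; exact List.mem_cons_of_mem _ h)
    have IH := ih hs'.2 htail
    have hs2 := List.pairwise_cons.1 hs'.2
    -- D b z < D a b for all later z
    have hb : ∀ z ∈ l, D b z < D a b := by
      rcases l with _ | ⟨c, l⟩
      · simp
      intro z hz
      have h0 : D b c < D a b := fin_ty_one.1 (ht _ (by simp [fin_tl]))
      rcases List.mem_cons.1 hz with rfl | hz'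
      · exact h0
      have hbc : b < c := hs2.1 c (by simp)
      have hbz : b < z := hs2.1 z hz
      have hcz : c < z := (List.pairwise_cons.1 hs2.2).1 z hz'
      have h1 : D c z < D b c := IH b (by simp) c (by simp) z (by simp [hz']) hbc hcz
      have h2 : D z b = D c z := hD.iso c z b hcz.ne hbc.ne' hbz.ne' (by rw [hD.symm c b]; exact h1)
      rw [hD.symm b z, h2]
      exact h1.trans h0
    have hay : ∀ y ∈ l, D a y = D b y := by
      intro y hy
      have h1 : D b y < D b a := by rw [hD.symm b a]; exact hb y hy
      have hba : b ≠ a := (hs'.1 b (by simp)).ne'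
      have hby : b ≠ y := (hs2.1 y hy).ne
      have hya : y ≠ a := (hs'.1 y (by simp [hy])).ne'
      rw [hD.symm a y]
      exact hD.iso b y a hby hba hya h1
    intro x hx y hy z hz hxy hyz
    rcases List.mem_cons.1 hx with rfl | hx
    · -- x = a
      have hy' : y ∈ b :: l := by
        rcases List.mem_cons.1 hy with rfl | h
        · exact absurd hxy (lt_irrefl _)
        · exact h
      have hz' : z ∈ b :: l := by
        rcases List.mem_cons.1 hz with rfl | h
        · exact absurd (hxy.trans hyz) (lt_irrefl _)
        · exact h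
      rcases List.mem_cons.1 hy' with rfl | hy''
      · rcases List.mem_cons.1 hz' with rfl | hz''
        · exact absurd hyz (lt_irrefl _)
        · exact hb z hz''
      · have hz'' : z ∈ l := by
          rcases List.mem_cons.1 hz' with rfl | h
          · exact absurd hyz (not_lt.2 (hs2.1 y hy'').le)
          · exact h
        rw [hay y hy'']
        exact IH b (by simp) y (by simp [hy'']) z (by simp [hz'']) (hs2.1 y hy'') hyz
    · have hxa : a < x := hs'.1 x hx
      have hy' : y ∈ b :: l := by
        rcases List.mem_cons.1 hy with rfl | h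
        · exact absurd hxy (not_lt.2 hxa.le)
        · exact h
      have hz' : z ∈ b :: l := by
        rcases List.mem_cons.1 hz with rfl | h
        · exact absurd (hxy.trans hyz) (not_lt.2 hxa.le)
        · exact h
      exact IH x hx y hy' z hz' hxy hyz

/-- windows: the consecutive types of `l` all agree -/
lemma fin_window {m : ℕ} (hm : 2 ≤ m) : ∀ X : List (Fin 3), m ≤ X.length →
    (∀ Y : List (Fin 3), Y <:+: X → Y.length = m → (∀ t ∈ Y, t = 0) ∨ (∀ t ∈ Y, t = 1)) →
    (∀ t ∈ X, t = 0) ∨ (∀ t ∈ X, t = 1) := by
  intro X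
  induction X with
  | nil => intro h; simp at h; omega
  | cons a X ih =>
    intro hl hw
    rcases Nat.lt_or_ge X.length m with h | h
    · exact hw (a :: X) (List.infix_refl _) (by simp only [List.length_cons] at hl ⊢; omega)
    have IH := ih h (fun Y hY hYm => hw Y (hY.trans (List.suffix_cons a X).isInfix) hYm)
    rcases X with _ | ⟨b, X⟩
    · simp at h; omega
    have h2 := hw ((a :: b :: X).take m) (List.take_prefix _ _).isInfix (by
      rw [List.length_take]; simp only [List.length_cons] at h ⊢; omega)
    obtain ⟨m, rfl⟩ : ∃ k, m = k + 2 := ⟨m - 2, by omega⟩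
    rw [List.take_succ_cons, List.take_succ_cons] at h2
    rcases IH with IH | IH <;> rcases h2 with h2 | h2
    · left
      intro t ht
      rcases List.mem_cons.1 ht with rfl | ht
      · exact h2 _ (by simp)
      · exact IH t ht
    · exact absurd ((IH b (by simp)).symm.trans (h2 b (by simp))) (by decide)
    · exact absurd ((IH b (by simp)).symm.trans (h2 b (by simp))) (by decide)
    · right
      intro t ht
      rcases List.mem_cons.1 ht with rfl | ht
      · exact h2 _ (by simp)
      · exact IH t ht

/-- freed colours -/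
lemma fin_freed {lam : Γ → Cardinal.{u}} {r : ℕ} 
    (hinf : {ν : Γ | (r : Cardinal) < lam ν}.Infinite) :
    ∃ (p : Γ → Γ) (c : ℕ → Γ), Function.Injective p ∧ (∀ ν, lam ν ≤ lam (p ν)) ∧
      Function.Injective c ∧ (∀ i, (r : Cardinal) < lam (c i)) ∧ ∀ i ν, p ν ≠ c i := by
  classical
  let t := hinf.natEmbedding
  obtain ⟨g, hg⟩ : ∃ g : ℕ ↪o ℕ, ∀ m n : ℕ, m < n → lam (t (g m)) ≤ lam (t (g n)) := by
    obtain ⟨g, h1 | h2⟩ := exists_increasing_or_nonincreasing_subseq
      (fun a b : Cardinal.{u} => a ≤ b) (fun k => lam (t k : Γ))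
    · exact ⟨g, h1⟩
    · exfalso
      have h3 : StrictAnti (fun k => lam (t (g k) : Γ)) := by
        intro m n hmn
        exact not_le.1 (h2 m n hmn)
      exact not_strictAnti_of_wellFoundedLT _ h3
  let s : ℕ → Γ := fun k => (t (g k) : Γ)
  have hs : Function.Injective s := by
    intro a b h
    exact g.injective (t.injective (Subtype.ext h))
  have hsr : ∀ k, (r : Cardinal) < lam (s k) := fun k => (t (g k)).2
  have hmono : ∀ m n, m ≤ n → lam (s m) ≤ lam (s n) := by
    intro m n h
    rcases h.eq_or_lt with rfl | h
    · exact le_rfl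
    · exact hg m n h
  let p : Γ → Γ := Function.extend s (fun k => s (2 * k + 1)) id
  have hp1 : ∀ k, p (s k) = s (2 * k + 1) := fun k => hs.extend_apply _ _ k
  have hp2 : ∀ ν, (¬ ∃ k, s k = ν) → p ν = ν := fun ν h => by
    simp only [p]
    rw [Function.extend_apply' _ _ _ h]; rfl
  refine ⟨p, fun k => s (2 * k), ?_, ?_, ?_, fun i => hsr _, ?_⟩
  · intro a b hab
    by_cases ha : ∃ k, s k = a
    · obtain ⟨k, rfl⟩ := ha
      by_cases hb : ∃ k, s k = b
      · obtain ⟨k', rfl⟩ := hb
        rw [hp1, hp1] at hab
        have := hs hab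
        congr 1; omega
      · rw [hp1, hp2 b hb] at hab
        exact absurd ⟨_, hab⟩ hb
    · by_cases hb : ∃ k, s k = b
      · obtain ⟨k', rfl⟩ := hb
        rw [hp1, hp2 a ha] at hab
        exact absurd ⟨_, hab.symm⟩ ha
      · rw [hp2 a ha, hp2 b hb] at hab
        exact hab
  · intro ν
    by_cases h : ∃ k, s k = ν
    · obtain ⟨k, rfl⟩ := h
      rw [hp1]; exact hmono _ _ (by omega)
    · rw [hp2 ν h]
  · intro a b h
    have := hs h
    omega
  · intro i ν h
    by_cases hν : ∃ k, s k = ν
    · obtain ⟨k, rfl⟩ := hν
      rw [hp1] at h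
      have := hs h
      omega
    · rw [hp2 ν hν] at h
      exact hν ⟨_, h.symm⟩

def fin_cond (X : List (Fin 3)) : Prop := (∀ t ∈ X, t = 0) ∨ (∀ t ∈ X, t = 1)

open Classical in
noncomputable def fin_g (D : V → V → L) (f : Finset L → Γ) (p : Γ → Γ) (c : ℕ → Γ)
    (e : Finset V) : Γ :=
  if fin_cond (fin_tl D e.sort) then p (f (lev D e)) else c (Encodable.encode (fin_tl D e.sort))

open Classical in
lemma fin_g_list {f : Finset L → Γ} {p : Γ → Γ} {c : ℕ → Γ}
    {l : List V} (hl : l.Pairwise (· < ·)) :
    fin_g D f p c l.toFinset = if fin_cond (fin_tl D l) then p (f (lev D l.toFinset))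
      else c (Encodable.encode (fin_tl D l)) := by
  have : l.toFinset.sort (· ≤ ·) = l := by
    rw [List.toFinset_sort (r := (· ≤ ·)) (hl.imp fun h => h.ne)]
    exact hl.imp fun h => h.le
  unfold fin_g
  rw [this]

/-- JOB: all entries finite, `r ≥ 3`, infinitely many entries `> r`. -/
theorem step_finite (hD : TreeDist D) {lam : Γ → Cardinal.{u}} {r : ℕ} (hr : 3 ≤ r)
    {f : Finset L → Γ} (hf : NA lam r f) (hfin : ∀ ν, lam ν < ℵ₀)
    (hlam : ∀ ν, (r : Cardinal) ≤ lam ν)
    (hinf : {ν : Γ | (r : Cardinal) < lam ν}.Infinite) :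
    ∃ g : Finset V → Γ, NA (fun ν => lam ν + 1) (r + 1) g := by
  classical
  obtain ⟨p, c, hp, hlp, hc, hcr, hpc⟩ := fin_freed hinf
  refine ⟨fin_g D f p c, ?_⟩
  intro ν H hH
  by_contra hcon
  push Not at hcon
  obtain ⟨N, hN⟩ := Cardinal.lt_aleph0.1 (hfin ν)
  have hH' : #H = lam ν + 1 := hH
  have hHN : #H = ((N + 1 : ℕ) : Cardinal) := by rw [hH', hN]; push_cast; rfl
  obtain ⟨E, hE, hEc⟩ := Cardinal.mk_set_eq_nat_iff_finset.mp hHN
  have hrN : r ≤ N := by
    have := hlam ν
    rw [hN] at this
    exact_mod_cast this
  have hls : E.sort.Pairwise (· < ·) := (Finset.sortedLT_sort E).pairwise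
  have hlen : E.sort.length = N + 1 := by rw [Finset.length_sort, hEc]
  have hmem : ∀ x, x ∈ E.sort ↔ x ∈ H := by
    intro x
    rw [Finset.mem_sort, ← hE, Finset.mem_coe]
  generalize E.sort = l at hls hlen hmem
  have hkey : ∀ l' : List V, l'.Sublist l → l'.length = r + 1 →
      (if fin_cond (fin_tl D l') then p (f (lev D l'.toFinset))
        else c (Encodable.encode (fin_tl D l'))) = ν := by
    intro l' h1 h2
    have hs' : l'.Pairwise (· < ·) := hls.sublist h1
    rw [← fin_g_list hs']
    refine hcon _ ?_ ?_
    · rw [List.toFinset_card_of_nodup (hs'.imp fun h => h.ne), h2]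
    · intro x hx
      rw [Finset.mem_coe, List.mem_toFinset] at hx
      exact (hmem x).1 (h1.subset hx)
  by_cases hν : ∃ ν0, p ν0 = ν
  · obtain ⟨ν0, rfl⟩ := hν
    have hcond : ∀ l' : List V, l'.Sublist l → l'.length = r + 1 → fin_cond (fin_tl D l') := by
      intro l' h1 h2
      by_contra h3
      have := hkey l' h1 h2
      rw [if_neg h3] at this
      exact hpc _ _ this.symm
    -- all windows
    have hall : fin_cond (fin_tl D l) := by
      refine fin_window (m := r - 1) (by omega) _ (by rw [fin_tl_length, hlen]; omega) ?_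
      rintro Y ⟨s, u, hY⟩ hYm
      have h1 : Y = fin_tl D ((l.drop s.length).take (r + 1)) := by
        have h2 : ∀ (k : ℕ) (l : List V), fin_tl D (l.drop k) = (fin_tl D l).drop k := by
          intro k
          induction k with
          | zero => intro l; simp
          | succ k ih =>
            intro l
            rw [← List.tail_drop, fin_tl_tail, ih, List.tail_drop]
        have h3 : r + 1 = (r - 1) + 2 := by omega
        rw [h3, fin_tl_take, h2, ← hY, List.append_assoc, List.drop_left', ← hYm, List.take_left']
        · rfl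
        · rfl
      rw [h1]
      refine hcond _ ((List.take_sublist _ _).trans (List.drop_sublist _ _)) ?_
      have h4 : s.length + Y.length ≤ (fin_tl D l).length := by
        rw [← hY]; simp only [List.length_append]; omega
      rw [fin_tl_length, hlen, hYm] at h4
      rw [List.length_take, List.length_drop, hlen]
      omega
    have hff : ∀ e : Finset V, e.card = r + 1 → (↑e : Set V) ⊆ H → f (lev D e) = ν0 := by
      intro e he heH
      have hsub : (e.sort).Sublist l := by
        refine List.sublist_of_subperm_of_pairwise (r := (· < ·)) ?_ (Finset.sortedLT_sort e).pairwise hls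
        refine List.subperm_of_subset (Finset.sort_nodup _ _) ?_
        intro x hx
        rw [hmem]
        exact heH ((Finset.mem_sort _).1 hx)
      have h1 := hkey _ hsub (by rw [Finset.length_sort, he])
      rw [if_pos (hcond _ hsub (by rw [Finset.length_sort, he])), Finset.sort_toFinset] at h1
      exact hp h1
    have hcard : lam ν0 + 1 ≤ #H := by
      rw [hH']; gcongr; exact hlp ν0
    rcases hall with hall | hall
    · have hC : Comb D H := by
        have := fin_comb hD l hls hall
        have hset : {x | x ∈ l} = H := Set.ext hmem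
        rwa [hset] at this
      exact NA.comb_false hD (by omega) hf hC hcard hff
    · -- reversed comb
      have hC : Comb (V := Vᵒᵈ) (L := L) D H := by
        have := fin_rcomb hD l hls hall
        intro x hx y hy z hz hxy hyz
        have h1 := this z ((hmem z).2 hz) y ((hmem y).2 hy) x ((hmem x).2 hx) hyz hxy
        rw [hD.symm x y, hD.symm y z]
        exact h1
      have hD' : TreeDist (V := Vᵒᵈ) (L := L) D := ⟨hD.symm, hD.binary, hD.iso⟩
      exact NA.comb_false (V := Vᵒᵈ) (D := D) hD' (by omega) hf hC hcard hff
  · have hcond : ∀ l' : List V, l'.Sublist l → l'.length = r + 1 →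
        ¬ fin_cond (fin_tl D l') ∧ c (Encodable.encode (fin_tl D l')) = ν := by
      intro l' h1 h2
      have h4 := hkey l' h1 h2
      by_cases h3 : fin_cond (fin_tl D l')
      · rw [if_pos h3] at h4
        exact absurd ⟨_, h4⟩ hν
      · rw [if_neg h3] at h4
        exact ⟨h3, h4⟩
    have hrN' : r + 1 ≤ N := by
      have h1 := (hcond (l.take (r + 1)) (List.take_sublist _ _)
        (by rw [List.length_take, hlen]; omega)).2
      have h2 := hcr (Encodable.encode (fin_tl D (l.take (r + 1))))
      rw [h1, hN] at h2
      have h3 : r < N := by exact_mod_cast h2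
      omega
    obtain ⟨a, b, x, d, l', rfl⟩ : ∃ a b x d l', l = a :: b :: x :: d :: l' := by
      rcases l with _ | ⟨a, _ | ⟨b, _ | ⟨x, _ | ⟨d, l'⟩⟩⟩⟩
      · simp at hlen
      · simp at hlen; omega
      · simp at hlen; omega
      · simp at hlen; omega
      · exact ⟨a, b, x, d, l', rfl⟩
    set l := a :: b :: x :: d :: l' with hl
    have hl'len : l'.length + 4 = N + 1 := by rw [← hlen, hl]; simp
    obtain ⟨q, rfl⟩ : ∃ q, r = q + 3 := ⟨r - 3, by omega⟩
    have e1 := hcond (l.take (q + 3 + 1)) (List.take_sublist _ _)
      (by rw [List.length_take, hlen]; omega)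
    have e2 := hcond (l.tail.take (q + 3 + 1)) ((List.take_sublist _ _).trans (List.tail_sublist _))
      (by rw [List.length_take, List.length_tail, hlen]; omega)
    have e3 := hcond (a :: x :: d :: l'.take (q + 1))
      (by
        rw [hl]
        refine List.Sublist.cons_cons a (List.Sublist.cons b (List.Sublist.cons_cons x
          (List.Sublist.cons_cons d (List.take_sublist _ _)))))
      (by simp only [List.length_cons, List.length_take]; omega)
    have h12 : fin_tl D (l.take (q + 3 + 1)) = fin_tl D (l.tail.take (q + 3 + 1)) :=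
      Encodable.encode_injective (hc (e1.2.trans e2.2.symm))
    have h13 : fin_tl D (l.take (q + 3 + 1)) = fin_tl D (a :: x :: d :: l'.take (q + 1)) :=
      Encodable.encode_injective (hc (e1.2.trans e3.2.symm))
    have e1' := e1.1
    rw [show q + 3 + 1 = (q + 2) + 2 by omega, fin_tl_take] at h12 e1' h13
    rw [fin_tl_take, fin_tl_tail] at h12
    have hX : ((fin_tl D l).take (q + 3)).dropLast = ((fin_tl D l).take (q + 3)).tail := by
      rw [show q + 3 = (q + 2) + 1 by omega, fin_tail_take, fin_dropLast_take, h12]
      rw [fin_tl_length, hlen]; omega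
    obtain ⟨t, ht⟩ := fin_const hX
    have ht0 : ∀ y ∈ (fin_tl D l).take (q + 2), y = t := fun y hy =>
      ht y ((List.take_subset_take_left _ (by omega : q + 2 ≤ q + 3)) hy)
    have hfl : fin_tl D l = fin_ty D a b x :: fin_ty D b x d :: fin_tl D (x :: d :: l') := rfl
    have hta : fin_ty D a b x = t := ht0 _ (by rw [hfl]; simp)
    have htb : fin_ty D b x d = t := ht0 _ (by rw [hfl]; simp)
    have htc : fin_ty D a x d = t := by
      rw [hfl, List.take_succ_cons] at h13
      have h5 : fin_tl D (a :: x :: d :: l'.take (q + 1)) =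
        fin_ty D a x d :: fin_tl D (x :: d :: l'.take (q + 1)) := rfl
      rw [h5, List.cons.injEq] at h13
      rw [← h13.1, hta]
    have ht2 : t = 2 := by
      fin_cases t
      · exact absurd (Or.inl ht0) e1'
      · exact absurd (Or.inr ht0) e1'
      · rfl
    rw [ht2] at hta htb htc
    rw [fin_ty_two] at hta htb htc
    have hpw := List.pairwise_cons.1 hls
    have hpw2 := List.pairwise_cons.1 hpw.2
    have hab : a < b := hpw.1 b (by simp)
    have hax : a < x := hpw.1 x (by simp)
    have hbx : b < x := hpw2.1 x (by simp)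
    have h6 := hD.binary b a x hab.ne' hbx.ne hax.ne (by rw [hD.symm b a]; exact hta)
    rw [htc, ← htb, ← hta, hD.symm a b] at h6
    exact lt_irrefl _ h6

end FinJob

end Pool.Agent.H330
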