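import Mathlib
import Pool.Agent.H330.Tree

open Cardinal Set

universe u v

namespace Pool.Agent.H330

variable {V L Γ : Type u} [LinearOrder V] [LinearOrder L] {D : V → V → L}

/-- the exceptional sets: `r - 1` points splitting from two later points -/
def ge4_T {V L : Type u} [LinearOrder V] [LinearOrder L] (D : V → V → L) (r : ℕ)
    (e : Finset V) : Prop :=
  ∃ (d : L) (P Q : Finset V), (∀ x, x ∈ e ↔ x ∈ P ∨ x ∈ Q) ∧ P.card = r - 1 ∧ Q.card = 2 ∧
    (∀ p ∈ P, ∀ q ∈ Q, p < q ∧ D p q = d) ∧ (∀ p ∈ P, ∀ p' ∈ P, p ≠ p' → d < D p p') ∧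
    (∀ q ∈ Q, ∀ q' ∈ Q, q ≠ q' → d < D q q')

lemma ge4_two {V : Type u} {S : Finset V} (h : 2 ≤ S.card) :
    ∃ a ∈ S, ∃ b ∈ S, a ≠ b := by
  obtain ⟨a, ha, b, hb, hab⟩ := Finset.one_lt_card.1 h
  exact ⟨a, ha, b, hb, hab⟩

lemma ge4_not_comb (hD : TreeDist D) {r : ℕ} (hr : 4 ≤ r) {e : Finset V} (h : ge4_T D r e) :
    ¬ Comb D (↑e : Set V) := by
  obtain ⟨d, P, Q, he, hP, hQ, hPQ, hPP, hQQ⟩ := h
  obtain ⟨p1, hp1, p2, hp2, h12⟩ := ge4_two (S := P) (by omega)
  obtain ⟨q, hq, -⟩ := ge4_two (S := Q) (by omega)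
  refine not_comb hD (e := (↑e : Set V)) (p1 := p1) (p2 := p2) (q := q) ?_ ?_ ?_ h12
    (hPQ p1 hp1 q hq).1 (hPQ p2 hp2 q hq).1 ?_ ?_
  · exact Finset.mem_coe.2 ((he _).2 (Or.inl hp1))
  · exact Finset.mem_coe.2 ((he _).2 (Or.inl hp2))
  · exact Finset.mem_coe.2 ((he _).2 (Or.inr hq))
  · rw [(hPQ p1 hp1 q hq).2]; exact hPP p1 hp1 p2 hp2 h12
  · rw [(hPQ p2 hp2 q hq).2]; exact hPP p1 hp1 p2 hp2 h12

lemma ge4_split (hD : TreeDist D) {r : ℕ} (hr : 4 ≤ r) {e : Finset V} (h : ge4_T D r e) {s : V}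
    (hs : s ∈ e) : ∃ u ∈ e, ∃ v ∈ e, u ≠ s ∧ v ≠ s ∧ D s u ≠ D s v := by
  classical
  obtain ⟨d, P, Q, he, hP, hQ, hPQ, hPP, hQQ⟩ := h
  rcases (he s).1 hs with hsP | hsQ
  · obtain ⟨p', hp', hps⟩ := Finset.exists_mem_ne (s := P) (by omega) s
    obtain ⟨q, hq, -⟩ := ge4_two (S := Q) (by omega)
    refine ⟨p', (he _).2 (Or.inl hp'), q, (he _).2 (Or.inr hq), hps, ?_, ?_⟩
    · exact (hPQ s hsP q hq).1.ne'
    · rw [(hPQ s hsP q hq).2]
      exact (hPP s hsP p' hp' hps.symm).ne'
  · obtain ⟨q', hq', hqs⟩ := Finset.exists_mem_ne (s := Q) (by omega) s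
    obtain ⟨p, hp, -⟩ := ge4_two (S := P) (by omega)
    refine ⟨q', (he _).2 (Or.inr hq'), p, (he _).2 (Or.inl hp), hqs, ?_, ?_⟩
    · exact (hPQ p hp s hsQ).1.ne
    · rw [hD.symm s p, (hPQ p hp s hsQ).2]
      exact (hQQ s hsQ q' hq' hqs.symm).ne'

/-- two interleaved sequences on the two sides of a split give an exceptional set -/
lemma ge4_seq (hD : TreeDist D) {r : ℕ} (hr : 4 ≤ r) {H : Set V} {d : L} (a b : ℕ → V)
    (ha : StrictMono a) (hb : StrictMono b) (haH : ∀ i, a i ∈ H) (hbH : ∀ i, b i ∈ H)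
    (hab : ∀ i j, D (a i) (b j) = d) (haa : ∀ i j, i ≠ j → d < D (a i) (a j))
    (hbb : ∀ i j, i ≠ j → d < D (b i) (b j)) (hle : a (r - 1) ≤ b (r - 1)) :
    ∃ e : Finset V, e.card = r + 1 ∧ (↑e : Set V) ⊆ H ∧ ge4_T D r e := by
  classical
  set P : Finset V := (Finset.range (r - 1)).image a with hP
  set Q : Finset V := {b (r - 1), b r} with hQ
  have hPc : P.card = r - 1 := by
    rw [hP, Finset.card_image_of_injective _ ha.injective, Finset.card_range]
  have hbr : b (r - 1) < b r := hb (by omega)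
  have hQc : Q.card = 2 := Finset.card_pair hbr.ne
  have hPmem : ∀ p, p ∈ P ↔ ∃ i < r - 1, a i = p := by
    intro p
    rw [hP, Finset.mem_image]
    simp
  have hQmem : ∀ q, q ∈ Q ↔ q = b (r - 1) ∨ q = b r := by
    intro q
    rw [hQ, Finset.mem_insert, Finset.mem_singleton]
  have hPQ : ∀ p ∈ P, ∀ q ∈ Q, p < q ∧ D p q = d := by
    intro p hp q hq
    obtain ⟨i, hi, rfl⟩ := (hPmem p).1 hp
    have h1 : a i < b (r - 1) := (ha hi).trans_le hle
    rcases (hQmem q).1 hq with rfl | rfl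
    · exact ⟨h1, hab _ _⟩
    · exact ⟨h1.trans hbr, hab _ _⟩
  have hdisj : Disjoint P Q := by
    rw [Finset.disjoint_left]
    intro x hx hx'
    exact lt_irrefl _ (hPQ x hx x hx').1
  refine ⟨P ∪ Q, ?_, ?_, d, P, Q, fun x => Finset.mem_union, hPc, hQc, hPQ, ?_, ?_⟩
  · rw [Finset.card_union_of_disjoint hdisj, hPc, hQc]
    omega
  · intro x hx
    rcases Finset.mem_union.1 (Finset.mem_coe.1 hx) with h | h
    · obtain ⟨i, -, rfl⟩ := (hPmem x).1 h
      exact haH i
    · rcases (hQmem x).1 h with rfl | rfl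
      · exact hbH _
      · exact hbH _
  · intro p hp p' hp' hne
    obtain ⟨i, -, rfl⟩ := (hPmem p).1 hp
    obtain ⟨j, -, rfl⟩ := (hPmem p').1 hp'
    exact haa i j (fun h => hne (by rw [h]))
  · intro q hq q' hq' hne
    rcases (hQmem q).1 hq with rfl | rfl
    · rcases (hQmem q').1 hq' with rfl | rfl
      · exact absurd rfl hne
      · exact hbb _ _ (by omega)
    · rcases (hQmem q').1 hq' with rfl | rfl
      · exact hbb _ _ (by omega)
      · exact absurd rfl hne

/-- an exceptional set inside a set with one more point: some set is neither a comb nor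
exceptional -/
lemma ge4_replace (hD : TreeDist D) {r : ℕ} (hr : 4 ≤ r) {H : Set V} {e : Finset V}
    (hec : e.card = r + 1) (heH : (↑e : Set V) ⊆ H) (hT : ge4_T D r e) {s : V} (hsH : s ∈ H)
    (hse : s ∉ e) :
    ∃ e' : Finset V, e'.card = r + 1 ∧ (↑e' : Set V) ⊆ H ∧ ¬ Comb D (↑e' : Set V) ∧
      ¬ ge4_T D r e' := by
  classical
  obtain ⟨d, P, Q, he, hP, hQ, hPQ, hPP, hQQ⟩ := hT
  obtain ⟨p0, hp0, -⟩ := ge4_two (S := P) (by omega)
  obtain ⟨q0, hq0, -⟩ := ge4_two (S := Q) (by omega)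
  have hPe : ∀ p ∈ P, p ∈ e := fun p hp => (he p).2 (Or.inl hp)
  have hQe : ∀ q ∈ Q, q ∈ e := fun q hq => (he q).2 (Or.inr hq)
  have hsne : ∀ x ∈ e, s ≠ x := fun x hx h => hse (h ▸ hx)
  have hsp0 := hsne p0 (hPe p0 hp0)
  have hsq0 := hsne q0 (hQe q0 hq0)
  have hpq0 : p0 ≠ q0 := (hPQ p0 hp0 q0 hq0).1.ne
  have hd0 := (hPQ p0 hp0 q0 hq0).2
  have hcard : ∀ x ∈ e, (insert s (e.erase x)).card = r + 1 := by
    intro x hx
    rw [Finset.card_insert_of_notMem (fun h => hse (Finset.mem_of_mem_erase h)),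
      Finset.card_erase_of_mem hx, hec]
    rfl
  have hsub : ∀ x, (↑(insert s (e.erase x)) : Set V) ⊆ H := by
    intro x y hy
    rcases Finset.mem_insert.1 (Finset.mem_coe.1 hy) with h | h
    · rw [h]; exact hsH
    · exact heH (Finset.mem_coe.2 (Finset.mem_of_mem_erase h))
  -- two further points of `P`
  obtain ⟨p1, hp1', p2, hp2', hp12⟩ := ge4_two (S := P.erase p0) (by
    rw [Finset.card_erase_of_mem hp0, hP]; omega)
  have hp1 := Finset.mem_of_mem_erase hp1'
  have hp2 := Finset.mem_of_mem_erase hp2'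
  have hp10 := Finset.ne_of_mem_erase hp1'
  have hp20 := Finset.ne_of_mem_erase hp2'
  have hncomb0 : ¬ Comb D (↑(insert s (e.erase p0)) : Set V) := by
    refine not_comb hD (p1 := p1) (p2 := p2) (q := q0) ?_ ?_ ?_ hp12
      (hPQ p1 hp1 q0 hq0).1 (hPQ p2 hp2 q0 hq0).1 ?_ ?_
    · exact Finset.mem_coe.2 (Finset.mem_insert_of_mem (Finset.mem_erase.2 ⟨hp10, hPe _ hp1⟩))
    · exact Finset.mem_coe.2 (Finset.mem_insert_of_mem (Finset.mem_erase.2 ⟨hp20, hPe _ hp2⟩))
    · exact Finset.mem_coe.2 (Finset.mem_insert_of_mem (Finset.mem_erase.2 ⟨hpq0.symm, hQe _ hq0⟩))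
    · rw [(hPQ p1 hp1 q0 hq0).2]; exact hPP p1 hp1 p2 hp2 hp12
    · rw [(hPQ p2 hp2 q0 hq0).2]; exact hPP p1 hp1 p2 hp2 hp12
  rcases hD.tri hsp0 hsq0 hpq0 with ⟨h1, h2⟩ | ⟨h1, h2⟩ | ⟨h1, h2⟩
  · -- `s` splits off below `d`
    rw [hd0] at h2
    have hall : ∀ x ∈ e, D s x = D s p0 := by
      intro x hx
      by_cases hx0 : x = p0
      · rw [hx0]
      · have h3 : d ≤ D p0 x := by
          rcases (he x).1 hx with hx' | hx'
          · exact (hPP p0 hp0 x hx' (Ne.symm hx0)).le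
          · rw [(hPQ p0 hp0 x hx').2]
        have h4 := hD.iso p0 s x hsp0.symm (Ne.symm hx0) (hsne x hx)
          (by rw [hD.symm p0 s]; exact h2.trans_le h3)
        rw [h4, hD.symm]
    refine ⟨insert s (e.erase p0), hcard p0 (hPe p0 hp0), hsub p0, hncomb0, ?_⟩
    intro hT'
    obtain ⟨u, hu, v, hv, hus, hvs, huv⟩ := ge4_split hD hr hT' (Finset.mem_insert_self _ _)
    have hu' : u ∈ e := by
      rcases Finset.mem_insert.1 hu with h | h
      · exact absurd h hus
      · exact Finset.mem_of_mem_erase h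
    have hv' : v ∈ e := by
      rcases Finset.mem_insert.1 hv with h | h
      · exact absurd h hvs
      · exact Finset.mem_of_mem_erase h
    exact huv (by rw [hall u hu', hall v hv'])
  · -- `s` joins `Q`
    have hsp0d : D s p0 = d := by rw [h1, hd0]
    rw [hsp0d] at h2
    have hsP : ∀ p ∈ P, D s p = d := by
      intro p hp
      have h3 : D q0 p = d := by rw [hD.symm]; exact (hPQ p hp q0 hq0).2
      have h4 := hD.iso q0 p s (hPQ p hp q0 hq0).1.ne' hsq0.symm (hsne p (hPe p hp)).symm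
        (by rw [h3, hD.symm q0 s]; exact h2)
      rw [hD.symm, h4, h3]
    have hsQ : ∀ q ∈ Q, d < D s q := by
      intro q hq
      by_cases hqq : q = q0
      · rw [hqq]; exact h2
      · exact hD.ultra (x := q0) hsq0.symm (Ne.symm hqq) (hsne q (hQe q hq))
          (by rw [hD.symm]; exact h2) (hQQ q0 hq0 q hq (Ne.symm hqq))
    refine ⟨insert s (e.erase p0), hcard p0 (hPe p0 hp0), hsub p0, hncomb0, ?_⟩
    rintro ⟨d', P', Q', he', hP', hQ', hPQ', hPP', hQQ'⟩
    have hmem : ∀ x, x ∈ insert s (e.erase p0) → x = s ∨ (x ∈ P ∧ x ≠ p0) ∨ x ∈ Q := by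
      intro x hx
      rcases Finset.mem_insert.1 hx with h | h
      · exact Or.inl h
      · rcases (he x).1 (Finset.mem_of_mem_erase h) with h' | h'
        · exact Or.inr (Or.inl ⟨h', Finset.ne_of_mem_erase h⟩)
        · exact Or.inr (Or.inr h')
    have hge : ∀ x ∈ insert s (e.erase p0), ∀ y ∈ insert s (e.erase p0), x ≠ y → d ≤ D x y := by
      intro x hx y hy hxy
      rcases hmem x hx with rfl | ⟨hx', -⟩ | hx'
      · rcases hmem y hy with rfl | ⟨hy', -⟩ | hy'
        · exact absurd rfl hxy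
        · rw [hsP y hy']
        · exact (hsQ y hy').le
      · rcases hmem y hy with rfl | ⟨hy', -⟩ | hy'
        · rw [hD.symm, hsP x hx']
        · exact (hPP x hx' y hy' hxy).le
        · rw [(hPQ x hx' y hy').2]
      · rcases hmem y hy with rfl | ⟨hy', -⟩ | hy'
        · rw [hD.symm]; exact (hsQ x hx').le
        · rw [hD.symm, (hPQ y hy' x hx').2]
        · exact (hQQ x hx' y hy' hxy).le
    have hge' : ∀ x ∈ insert s (e.erase p0), ∀ y ∈ insert s (e.erase p0), x ≠ y → d' ≤ D x y := by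
      intro x hx y hy hxy
      rcases (he' x).1 hx with hx' | hx'
      · rcases (he' y).1 hy with hy' | hy'
        · exact (hPP' x hx' y hy' hxy).le
        · rw [(hPQ' x hx' y hy').2]
      · rcases (he' y).1 hy with hy' | hy'
        · rw [hD.symm, (hPQ' y hy' x hx').2]
        · exact (hQQ' x hx' y hy' hxy).le
    have hp1e : p1 ∈ insert s (e.erase p0) :=
      Finset.mem_insert_of_mem (Finset.mem_erase.2 ⟨hp10, hPe _ hp1⟩)
    have hQmem : ∀ q ∈ Q, q ∈ insert s (e.erase p0) := fun q hq =>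
      Finset.mem_insert_of_mem (Finset.mem_erase.2 ⟨(hPQ p0 hp0 q hq).1.ne', hQe _ hq⟩)
    have hdd : d' = d := by
      apply le_antisymm
      · have := hge' p1 hp1e q0 (hQmem q0 hq0) (hPQ p1 hp1 q0 hq0).1.ne
        rwa [(hPQ p1 hp1 q0 hq0).2] at this
      · obtain ⟨x, hx, -⟩ := ge4_two (S := P') (by omega)
        obtain ⟨y, hy, -⟩ := ge4_two (S := Q') (by omega)
        have := hge x ((he' x).2 (Or.inl hx)) y ((he' y).2 (Or.inr hy)) (hPQ' x hx y hy).1.ne
        rwa [(hPQ' x hx y hy).2] at this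
    subst hdd
    rcases (he' p1).1 hp1e with h3 | h3
    · have hsub3 : insert s Q ⊆ Q' := by
        intro x hx
        have hxe : x ∈ insert s (e.erase p0) := by
          rcases Finset.mem_insert.1 hx with h | h
          · rw [h]; exact Finset.mem_insert_self _ _
          · exact hQmem x h
        have hDx : D p1 x = d' := by
          rcases Finset.mem_insert.1 hx with h | h
          · rw [h, hD.symm]; exact hsP p1 hp1
          · exact (hPQ p1 hp1 x h).2
        have hxp : p1 ≠ x := by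
          rcases Finset.mem_insert.1 hx with h | h
          · rw [h]; exact (hsne p1 (hPe p1 hp1)).symm
          · exact (hPQ p1 hp1 x h).1.ne
        rcases (he' x).1 hxe with h4 | h4
        · have := hPP' p1 h3 x h4 hxp
          rw [hDx] at this
          exact absurd this (lt_irrefl _)
        · exact h4
      have hc := Finset.card_le_card hsub3
      rw [Finset.card_insert_of_notMem (fun h => hse (hQe s h)), hQ, hQ'] at hc
      omega
    · rcases (he' q0).1 (hQmem q0 hq0) with h4 | h4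
      · exact lt_asymm (hPQ' q0 h4 p1 h3).1 (hPQ p1 hp1 q0 hq0).1
      · have := hQQ' p1 h3 q0 h4 (hPQ p1 hp1 q0 hq0).1.ne
        rw [(hPQ p1 hp1 q0 hq0).2] at this
        exact lt_irrefl _ this
  · -- `s` joins `P`
    have hsq0d : D s q0 = d := by rw [h1, hd0]
    rw [hsq0d] at h2
    have hsQ : ∀ q ∈ Q, D q s = d := by
      intro q hq
      have h3 : D p0 q = d := (hPQ p0 hp0 q hq).2
      have h4 := hD.iso p0 q s (hPQ p0 hp0 q hq).1.ne hsp0.symm (hsne q (hQe q hq)).symm
        (by rw [h3, hD.symm p0 s]; exact h2)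
      rw [h4, h3]
    obtain ⟨q1, hq1, hq10⟩ := Finset.exists_mem_ne (s := Q) (by omega) q0
    refine ⟨insert s (e.erase q0), hcard q0 (hQe q0 hq0), hsub q0, ?_, ?_⟩
    · refine not_comb hD (p1 := p1) (p2 := p2) (q := q1) ?_ ?_ ?_ hp12
        (hPQ p1 hp1 q1 hq1).1 (hPQ p2 hp2 q1 hq1).1 ?_ ?_
      · exact Finset.mem_coe.2 (Finset.mem_insert_of_mem
          (Finset.mem_erase.2 ⟨(hPQ p1 hp1 q0 hq0).1.ne, hPe _ hp1⟩))
      · exact Finset.mem_coe.2 (Finset.mem_insert_of_mem
          (Finset.mem_erase.2 ⟨(hPQ p2 hp2 q0 hq0).1.ne, hPe _ hp2⟩))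
      · exact Finset.mem_coe.2 (Finset.mem_insert_of_mem
          (Finset.mem_erase.2 ⟨hq10, hQe _ hq1⟩))
      · rw [(hPQ p1 hp1 q1 hq1).2]; exact hPP p1 hp1 p2 hp2 hp12
      · rw [(hPQ p2 hp2 q1 hq1).2]; exact hPP p1 hp1 p2 hp2 hp12
    · intro hT'
      have hq1e : q1 ∈ insert s (e.erase q0) :=
        Finset.mem_insert_of_mem (Finset.mem_erase.2 ⟨hq10, hQe _ hq1⟩)
      obtain ⟨u, hu, v, hv, hus, hvs, huv⟩ := ge4_split hD hr hT' hq1e
      have hQ2 : ∀ q ∈ Q, q = q0 ∨ q = q1 := by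
        intro q hq
        by_contra hcon
        push Not at hcon
        have hsub3 : ({q, q0, q1} : Finset V) ⊆ Q := by
          intro x hx
          simp only [Finset.mem_insert, Finset.mem_singleton] at hx
          rcases hx with rfl | rfl | rfl <;> assumption
        have hc := Finset.card_le_card hsub3
        rw [Finset.card_eq_three.2 ⟨q, q0, q1, hcon.1, hcon.2, hq10.symm, rfl⟩, hQ] at hc
        omega
      have hall : ∀ x ∈ insert s (e.erase q0), x ≠ q1 → D q1 x = d := by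
        intro x hx hxq
        rcases Finset.mem_insert.1 hx with h | h
        · rw [h]; exact hsQ q1 hq1
        · rcases (he x).1 (Finset.mem_of_mem_erase h) with h' | h'
          · rw [hD.symm]; exact (hPQ x h' q1 hq1).2
          · rcases hQ2 x h' with h'' | h''
            · exact absurd h'' (Finset.ne_of_mem_erase h)
            · exact absurd h'' hxq
      exact huv (by rw [hall u hu hus, hall v hv hvs])

/-- JOB: `r ≥ 4`, some entry `lam c0` infinite, another entry `lam c1 > r`. -/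
theorem step_ge4 [WellFoundedLT V] [WellFoundedLT L] (hD : TreeDist D) {lam : Γ → Cardinal.{u}}
    {r : ℕ} (hr : 4 ≤ r) {f : Finset L → Γ} (hf : NA lam r f)
    (hlam : ∀ ν, (r : Cardinal) ≤ lam ν) {c0 c1 : Γ} (hne : c1 ≠ c0) (hc0 : ℵ₀ ≤ lam c0)
    (hc1 : (r : Cardinal) < lam c1) :
    ∃ g : Finset V → Γ, NA (fun ν => lam ν + 1) (r + 1) g := by
  classical
  set h : Finset V → Γ := fun e => if ge4_T D r e then c1 else c0 with hh
  refine ⟨gcol D f h, assemble hD (by omega) hf h ?_⟩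
  intro ν H hH hhom
  have hcardH : ((r + 1 : ℕ) : Cardinal) ≤ #H := by
    rw [hH]
    push_cast
    gcongr
    exact hlam ν
  have hnc : ∀ e : Finset V, ¬ Comb D (↑e : Set V) → gcol D f h e = h e := by
    intro e he
    rw [gcol, if_neg he]
  by_cases hν0 : ν = c0
  · subst hν0
    have hnoT : ∀ e : Finset V, e.card = r + 1 → (↑e : Set V) ⊆ H → ¬ ge4_T D r e := by
      intro e he heH hT
      have h1 := hhom e he heH
      rw [hnc e (ge4_not_comb hD hr hT)] at h1
      simp only [hh, if_pos hT] at h1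
      exact hne h1
    have hinf : ℵ₀ ≤ #H := by
      rw [hH]
      exact hc0.trans (self_le_add_right _ _)
    refine extract hD ℵ₀ Cardinal.isRegular_aleph0 hinf ?_
    intro x hx y hy hxy
    by_contra hcon
    push Not at hcon
    obtain ⟨hA, hB⟩ := hcon
    have hA' : (cone D H x (D x y)).Infinite := by
      rw [← Set.infinite_coe_iff, Cardinal.infinite_iff]
      exact hA
    have hB' : (cone D H y (D x y)).Infinite := by
      rw [← Set.infinite_coe_iff, Cardinal.infinite_iff]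
      exact hB
    obtain ⟨a, ha, haA⟩ := exists_strictMono_seq hA'
    obtain ⟨b, hb, hbB⟩ := exists_strictMono_seq hB'
    have hab : ∀ i j, D (a i) (b j) = D x y := fun i j => (cross_eq hD hxy (haA i) (hbB j)).2
    have haa : ∀ i j, i ≠ j → D x y < D (a i) (a j) := fun i j hij =>
      cone_within hD (haA i) (haA j) (fun h => hij (ha.injective h))
    have hbb : ∀ i j, i ≠ j → D x y < D (b i) (b j) := fun i j hij =>
      cone_within hD (hbB i) (hbB j) (fun h => hij (hb.injective h))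
    rcases le_total (a (r - 1)) (b (r - 1)) with hle | hle
    · obtain ⟨e, he1, he2, he3⟩ := ge4_seq hD hr a b ha hb (fun i => (haA i).1)
        (fun i => (hbB i).1) hab haa hbb hle
      exact hnoT e he1 he2 he3
    · obtain ⟨e, he1, he2, he3⟩ := ge4_seq hD hr b a hb ha (fun i => (hbB i).1)
        (fun i => (haA i).1) (fun i j => by rw [hD.symm]; exact hab j i) hbb haa hle
      exact hnoT e he1 he2 he3
  · refine ⟨H, Subset.rfl, rfl, all_comb (by omega) hcardH ?_⟩
    intro e he heH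
    by_contra hcomb
    have h1 := hhom e he heH
    rw [hnc e hcomb] at h1
    by_cases hT : ge4_T D r e
    · simp only [hh, if_pos hT] at h1
      subst h1
      have hcardH2 : ((r + 2 : ℕ) : Cardinal) ≤ #H := by
        rw [hH]
        have h2 : ((r + 1 : ℕ) : Cardinal) ≤ lam c1 := by
          have := Order.succ_le_of_lt hc1
          rwa [← Cardinal.nat_succ] at this
        have h3 : ((r + 2 : ℕ) : Cardinal) = ((r + 1 : ℕ) : Cardinal) + 1 := by
          push_cast
          ring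
        rw [h3]
        gcongr
      obtain ⟨e2, he2, he2H, he2c⟩ := ext_set heH (n := r + 2) (by omega) hcardH2
      obtain ⟨s, hs, hse⟩ := Finset.exists_mem_notMem_of_card_lt_card
        (s := e) (t := e2) (by omega)
      obtain ⟨e', h4, h5, h6, h7⟩ := ge4_replace hD hr he heH hT (he2H (Finset.mem_coe.2 hs)) hse
      have h8 := hhom e' h4 h5
      rw [hnc e' h6] at h8
      simp only [hh, if_neg h7] at h8
      exact hne h8.symm
    · simp only [hh, if_neg hT] at h1
      exact hν0 h1.symm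

end Pool.Agent.H330
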