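import Mathlib
import Pool.Agent.H330.Tree

open Cardinal Set

universe u

namespace Pool.Agent.H330

/-- JOB 1: the least-difference function of an injection into binary sequences. -/
theorem exists_treeDist (L V : Type u) [LinearOrder L] [WellFoundedLT L] [Nonempty L]
    (hV : #V ≤ 2 ^ #L) :
    ∃ (D : V → V → L) (φ : V → L → Bool), TreeDist D ∧ ∀ x y, x ≠ y → φ x (D x y) ≠ φ y (D x y) := by
  classical
  have h1 : #V ≤ #(L → Bool) := by
    have : #(L → Bool) = 2 ^ #L := by simp
    rw [this]; exact hV
  obtain ⟨φ, hφ⟩ := h1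
  have hwf : WellFounded ((· < ·) : L → L → Prop) := wellFounded_lt
  have hex : ∀ x y : V, ∃ d : L, x ≠ y → (φ x d ≠ φ y d ∧ ∀ l, l < d → φ x l = φ y l) := by
    intro x y
    by_cases h : x = y
    · exact ⟨Classical.arbitrary L, fun h' => absurd h h'⟩
    · have hne : ({l | φ x l ≠ φ y l} : Set L).Nonempty := by
        by_contra hcon
        rw [Set.not_nonempty_iff_eq_empty] at hcon
        apply h
        apply hφ
        funext l
        by_contra hl
        have : l ∈ ({l | φ x l ≠ φ y l} : Set L) := hl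
        rw [hcon] at this
        exact this
      refine ⟨hwf.min _ hne, fun _ => ⟨hwf.min_mem _ hne, fun l hl => ?_⟩⟩
      by_contra hl2
      exact hwf.not_lt_min _ hl2 hl
  choose D hD using hex
  have huniq : ∀ x y d d', (φ x d ≠ φ y d ∧ ∀ l, l < d → φ x l = φ y l) →
      (φ x d' ≠ φ y d' ∧ ∀ l, l < d' → φ x l = φ y l) → d = d' := by
    intro x y d d' h h'
    rcases lt_trichotomy d d' with hlt | heq | hlt
    · exact absurd (h'.2 d hlt) h.1
    · exact heq
    · exact absurd (h.2 d' hlt) h'.1
  have hsymm : ∀ x y, D x y = D y x := by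
    intro x y
    by_cases h : x = y
    · rw [h]
    · refine huniq x y _ _ (hD x y h) ?_
      have := hD y x (Ne.symm h)
      exact ⟨fun e => this.1 e.symm, fun l hl => (this.2 l hl).symm⟩
  refine ⟨D, φ, ⟨hsymm, ?_, ?_⟩, fun x y h => (hD x y h).1⟩
  · intro x y z hxy hxz hyz he
    have a := hD x y hxy
    have b := hD x z hxz
    have c := hD y z hyz
    rw [← he] at b
    rcases lt_trichotomy (D x y) (D y z) with hlt | heq | hlt
    · exact hlt
    · exfalso
      rw [← heq] at c
      have a1 := a.1
      have b1 := b.1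
      have c1 := c.1
      clear * - a1 b1 c1
      revert a1 b1 c1
      generalize φ x (D x y) = p
      generalize φ y (D x y) = q
      generalize φ z (D x y) = r
      revert p q r
      decide
    · exfalso
      apply c.1
      rw [← a.2 _ hlt, ← b.2 _ hlt]
  · intro x y z hxy hxz hyz hlt
    have a := hD x y hxy
    have b := hD x z hxz
    refine huniq y z _ _ (hD y z hyz) ⟨?_, ?_⟩
    · rw [← b.2 _ hlt]
      exact fun e => a.1 e.symm
    · intro l hl
      rw [← a.2 _ hl, ← b.2 _ (hl.trans hlt)]

/-- JOB 2: colours can be freed. -/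
theorem freed {Γ : Type u} (lam : Γ → Cardinal.{u}) (r : ℕ)
    (hinf : {ν : Γ | (r : Cardinal) < lam ν ∧ lam ν < ℵ₀}.Infinite) :
    ∃ (π : Γ → Γ) (c : Γ), Function.Injective π ∧ (∀ ν, lam ν ≤ lam (π ν)) ∧ c ∉ Set.range π ∧
      (r : Cardinal) < lam c ∧ lam c < ℵ₀ ∧ ∀ ν, ℵ₀ ≤ lam ν → π ν = ν := by
  classical
  set F : Set Γ := {ν : Γ | (r : Cardinal) < lam ν ∧ lam ν < ℵ₀} with hF
  set t : ℕ ↪ F := hinf.natEmbedding with ht
  have hn : ∀ k, ∃ n : ℕ, lam (t k) = n := fun k => Cardinal.lt_aleph0.1 (t k).2.2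
  choose n hn using hn
  obtain ⟨g, hg⟩ := exists_increasing_or_nonincreasing_subseq (· ≤ ·) n
  have hmono : ∀ i j : ℕ, i < j → n (g i) ≤ n (g j) := by
    rcases hg with hg | hg
    · exact hg
    · exfalso
      -- strictly decreasing sequence
      have hdec : ∀ i j : ℕ, i < j → n (g j) < n (g i) := fun i j hij => not_le.1 (hg i j hij)
      have : ∀ i : ℕ, n (g i) + i ≤ n (g 0) := by
        intro i
        induction i with
        | zero => simp
        | succ i ih =>
          have := hdec i (i+1) (Nat.lt_succ_self i)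
          omega
      have := this (n (g 0) + 1)
      omega
  set s : ℕ → Γ := fun i => (t (g i) : Γ) with hs
  have hsinj : Function.Injective s := by
    intro i j hij
    exact g.injective (t.injective (Subtype.ext hij))
  have hsmono : ∀ i, lam (s i) ≤ lam (s (i+1)) := by
    intro i
    simp only [hs, hn]
    exact_mod_cast hmono i (i+1) (Nat.lt_succ_self i)
  have hsF : ∀ i, s i ∈ F := fun i => (t (g i)).2
  set π : Γ → Γ := fun ν => if h : ∃ i, s i = ν then s (h.choose + 1) else ν with hπ
  have hπs : ∀ i, π (s i) = s (i+1) := by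
    intro i
    have h : ∃ j, s j = s i := ⟨i, rfl⟩
    have h2 : h.choose = i := hsinj h.choose_spec
    simp only [hπ]
    rw [dif_pos h, h2]
  have hπn : ∀ ν, (∀ i, s i ≠ ν) → π ν = ν := by
    intro ν h
    simp only [hπ]
    rw [dif_neg]
    rintro ⟨i, hi⟩
    exact h i hi
  refine ⟨π, s 0, ?_, ?_, ?_, (hsF 0).1, (hsF 0).2, ?_⟩
  · intro a b hab
    by_cases ha : ∃ i, s i = a
    · obtain ⟨i, rfl⟩ := ha
      by_cases hb : ∃ j, s j = b
      · obtain ⟨j, rfl⟩ := hb
        rw [hπs, hπs] at hab
        have := hsinj hab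
        have : i = j := by omega
        rw [this]
      · push Not at hb
        rw [hπs, hπn b hb] at hab
        exact absurd hab (hb _)
    · push Not at ha
      by_cases hb : ∃ j, s j = b
      · obtain ⟨j, rfl⟩ := hb
        rw [hπs, hπn a ha] at hab
        exact absurd hab.symm (ha _)
      · push Not at hb
        rwa [hπn a ha, hπn b hb] at hab
  · intro ν
    by_cases ha : ∃ i, s i = ν
    · obtain ⟨i, rfl⟩ := ha
      rw [hπs]; exact hsmono i
    · push Not at ha
      rw [hπn ν ha]
  · rintro ⟨ν, hν⟩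
    by_cases ha : ∃ i, s i = ν
    · obtain ⟨i, rfl⟩ := ha
      rw [hπs] at hν
      have := hsinj hν
      omega
    · push Not at ha
      rw [hπn ν ha] at hν
      exact ha 0 hν.symm
  · intro ν hν
    apply hπn
    intro i hi
    have := (hsF i).2
    rw [hi] at this
    exact absurd this (not_lt.2 hν)

end Pool.Agent.H330
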