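import Mathlib
import Pool.Agent.H330.Tree
import Pool.Agent.H330.Block
import Pool.Agent.H330.Cof
import Pool.Agent.H330.TreeEx

open Cardinal Set

universe u v

namespace Pool.Agent.H330

variable {V L Γ : Type u} [LinearOrder V] [LinearOrder L] {D : V → V → L}

/-- uniqueness of the sorted form of a triple -/
lemma limit_sorted3 {L : Type u} [LinearOrder L] {a b c a' b' c' : L} (h1 : a < b) (h2 : b < c)
    (h1' : a' < b') (h2' : b' < c')
    (h : ∀ v, (v = a ∨ v = b ∨ v = c) ↔ (v = a' ∨ v = b' ∨ v = c')) :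
    a = a' ∧ b = b' ∧ c = c' := by
  have ha := (h a).mp (Or.inl rfl)
  have hb := (h b).mp (Or.inr (Or.inl rfl))
  have hc := (h c).mp (Or.inr (Or.inr rfl))
  have ha' := (h a').mpr (Or.inl rfl)
  have hb' := (h b').mpr (Or.inr (Or.inl rfl))
  have hc' := (h c').mpr (Or.inr (Or.inr rfl))
  have e1 : a = a' := by
    apply le_antisymm
    · rcases ha' with e | e | e
      · rw [e]
      · rw [e]; exact h1.le
      · rw [e]; exact (h1.trans h2).le
    · rcases ha with e | e | e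
      · rw [e]
      · rw [e]; exact h1'.le
      · rw [e]; exact (h1'.trans h2').le
  have e3 : c = c' := by
    apply le_antisymm
    · rcases hc with e | e | e
      · rw [e]; exact (h1'.trans h2').le
      · rw [e]; exact h2'.le
      · rw [e]
    · rcases hc' with e | e | e
      · rw [e]; exact (h1.trans h2).le
      · rw [e]; exact h2.le
      · rw [e]
  refine ⟨e1, ?_, e3⟩
  rcases hb with e | e | e
  · rw [e, ← e1] at h1; exact absurd h1 (lt_irrefl _)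
  · exact e
  · rw [e, ← e3] at h2; exact absurd h2 (lt_irrefl _)

/-- the structure put on one block -/
lemma limit_block {L : Type u} [LinearOrder L] [WellFoundedLT L] (B : Set L) (R : Cardinal.{u})
    (hR : ℵ₀ ≤ R) (hB : #B ≤ 2 ^ R) :
    ∃ (OM : L → L → L → Prop) (c : L → L → Bool),
      (∀ x ∈ B, ∀ y ∈ B, ∀ z ∈ B, x < y → y < z → OM x y z → c x y ≠ c y z) ∧
      (∀ x ∈ B, ∀ y ∈ B, ∀ z ∈ B, ∀ w ∈ B, x < y → y < z → z < w →
        OM x y z → OM y z w → OM x y w → False) ∧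
      (∀ Y : Set L, Y ⊆ B → (∀ x ∈ Y, ∀ y ∈ Y, ∀ z ∈ Y, x < y → y < z → ¬ OM x y z) → #Y ≤ R) := by
  classical
  have hR0 : R ≠ 0 := fun h => by rw [h] at hR; exact absurd hR (not_le.mpr Cardinal.aleph0_pos)
  have hne : Nonempty R.ord.ToType := by
    rw [← Cardinal.mk_ne_zero_iff, Cardinal.mk_ord_toType]; exact hR0
  obtain ⟨E, φ, hE, hφ⟩ := exists_treeDist R.ord.ToType B (by rw [Cardinal.mk_ord_toType]; exact hB)
  refine ⟨fun x y z => ∃ (hx : x ∈ B) (hy : y ∈ B) (hz : z ∈ B),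
      E ⟨y, hy⟩ ⟨z, hz⟩ = E ⟨x, hx⟩ ⟨y, hy⟩ ∧ E ⟨x, hx⟩ ⟨y, hy⟩ < E ⟨x, hx⟩ ⟨z, hz⟩,
    fun x y => if h : x ∈ B ∧ y ∈ B then φ ⟨x, h.1⟩ (E ⟨x, h.1⟩ ⟨y, h.2⟩) else false, ?_, ?_, ?_⟩
  · rintro x hx y hy z hz hxy hyz ⟨_, _, _, h1, h2⟩
    simp only [hx, hy, hz, and_self, dif_pos]
    have hxy' : (⟨x, hx⟩ : B) ≠ ⟨y, hy⟩ := fun h => hxy.ne (congrArg Subtype.val h)
    have := hφ ⟨x, hx⟩ ⟨y, hy⟩ hxy'
    rw [h1]
    exact this
  · rintro x hx y hy z hz w hw hxy hyz hzw ⟨_, _, _, h1, h2⟩ ⟨_, _, _, h3, h4⟩ ⟨_, _, _, h5, h6⟩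
    rw [h5, h1] at h4
    exact lt_irrefl _ h4
  · intro Y hYB hY
    by_contra hcon
    push Not at hcon
    have h1 : Order.succ R ≤ #Y := Order.succ_le_of_lt hcon
    obtain ⟨Z, hZY, hZ⟩ := Cardinal.le_mk_iff_exists_subset.mp h1
    have hZB : Z ⊆ B := hZY.trans hYB
    set H : Set B := {x | x.1 ∈ Z} with hH
    have hHc : #H = Order.succ R := by
      rw [← hZ]
      refine Cardinal.mk_congr ⟨fun x => ⟨x.1.1, x.2⟩, fun z => ⟨⟨z.1, hZB z.2⟩, z.2⟩, ?_, ?_⟩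
      · intro x; rfl
      · intro z; rfl
    obtain ⟨a, ha, b, hb, c, hc, hab, hbc, h2, h3⟩ := odd_mid_exists hE (H := H)
      (by rw [hHc]; exact Cardinal.isRegular_succ hR)
      (by rw [hHc, Cardinal.mk_ord_toType]; exact Order.lt_succ R)
    exact hY a.1 (hZY ha) b.1 (hZY hb) c.1 (hZY hc) hab hbc ⟨a.2, b.2, c.2, h2, h3⟩

/-- the block function -/
lemma limit_blocks {κ μ : Cardinal.{u}} (hμ : ℵ₀ ≤ μ) (hsing : μ.ord.cof < μ) (hκ : κ ≤ 2 ^< μ)
    (hlt : ∀ ρ < μ, (2 : Cardinal.{u}) ^ ρ < κ) :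
    ∃ (bl : κ.ord.ToType → μ.ord.cof.ord.ToType) (R : μ.ord.cof.ord.ToType → Cardinal.{u}),
      Monotone bl ∧ (∀ k, ℵ₀ ≤ R k) ∧ (∀ k, R k < μ) ∧ ∀ k, #{l | bl l = k} ≤ 2 ^ (R k) := by
  classical
  obtain ⟨m, hm1, hm2, hm3⟩ := cofmap μ
  have hpow : ∀ x : Cardinal.{u}, x < κ → ∃ ρ < μ, x < 2 ^ ρ := by
    intro x hx
    by_contra hcon
    push Not at hcon
    exact absurd (hx.trans_le (hκ.trans (Cardinal.powerlt_le.mpr hcon))) (lt_irrefl _)
  have hex : ∀ l : κ.ord.ToType, ({i | #(Iio l) ≤ 2 ^ (m i)} : Set μ.ord.cof.ord.ToType).Nonempty := by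
    intro l
    obtain ⟨ρ, hρ, hl⟩ := hpow _ (Cardinal.mk_Iio_toType_ord_lt l)
    obtain ⟨i, hi⟩ := hm3 ρ hρ
    exact ⟨i, hl.le.trans (Cardinal.power_le_power_left two_ne_zero hi)⟩
  set bl : κ.ord.ToType → μ.ord.cof.ord.ToType := fun l => wellFounded_lt.min _ (hex l) with hbl
  have hmem : ∀ l, #(Iio l) ≤ 2 ^ (m (bl l)) := fun l => wellFounded_lt.min_mem _ (hex l)
  have haleph : ℵ₀ < μ := by
    refine lt_of_le_of_lt ?_ hsing
    exact Ordinal.aleph0_le_cof.mpr (Cardinal.isSuccLimit_ord hμ)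
  have hR : ∀ k : μ.ord.cof.ord.ToType, ∃ R : Cardinal.{u}, ℵ₀ ≤ R ∧ R < μ ∧
      #{l | bl l = k} ≤ 2 ^ R := by
    intro k
    obtain ⟨ρ, hρ, h1⟩ := hpow _ (hlt (m k) (hm2 k))
    refine ⟨max ρ ℵ₀, le_max_right _ _, max_lt hρ haleph, ?_⟩
    have h2 : Order.succ ((2 : Cardinal.{u}) ^ (m k)) ≤ 2 ^ ρ := Order.succ_le_of_lt h1
    obtain ⟨l0, hl0⟩ := exists_mk_Iio (μ := κ) (h2.trans_lt (hlt ρ hρ))
    have h3 : {l | bl l = k} ⊆ Iio l0 := by
      intro l hl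
      by_contra hcon
      have h4 : l0 ≤ l := not_lt.mp hcon
      have h5 : #(Iio l0) ≤ #(Iio l) := Cardinal.mk_le_mk_of_subset (Iio_subset_Iio h4)
      have h6 := hmem l
      rw [show bl l = k from hl] at h6
      rw [hl0] at h5
      exact absurd (h5.trans h6) (not_le.mpr (Order.lt_succ _))
    calc #{l | bl l = k} ≤ #(Iio l0) := Cardinal.mk_le_mk_of_subset h3
      _ = Order.succ ((2 : Cardinal.{u}) ^ (m k)) := hl0
      _ ≤ 2 ^ ρ := h2
      _ ≤ 2 ^ (max ρ ℵ₀) := Cardinal.power_le_power_left two_ne_zero (le_max_left _ _)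
  choose R h1 h2 h3 using hR
  refine ⟨bl, R, ?_, h1, h2, h3⟩
  intro l l' hll
  refine not_lt.mp fun hcon => ?_
  refine wellFounded_lt.not_lt_min _ (x := bl l') ?_ hcon
  exact (Cardinal.mk_le_mk_of_subset (Iio_subset_Iio hll)).trans (hmem l')

/-- the triples coloured `c1` -/
def LimP {L Θ : Type u} [LinearOrder L] [LinearOrder Θ] (bl : L → Θ) (OM : Θ → L → L → L → Prop)
    (cc : Θ → L → L → Bool) (e : Θ → Θ → Bool) (s : Finset L) : Prop :=
  ∃ a b c, a < b ∧ b < c ∧ (∀ x, x ∈ s ↔ x = a ∨ x = b ∨ x = c) ∧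
    ((bl a = bl b ∧ bl b = bl c ∧ OM (bl a) a b c) ∨
     (bl a = bl b ∧ bl b < bl c ∧ cc (bl a) a b = e (bl a) (bl c)))

lemma LimP.sorted {L Θ : Type u} [LinearOrder L] [LinearOrder Θ] {bl : L → Θ}
    {OM : Θ → L → L → L → Prop} {cc : Θ → L → L → Bool} {e : Θ → Θ → Bool} {s : Finset L}
    (h : LimP bl OM cc e s) {a b c : L} (hab : a < b) (hbc : b < c)
    (hs : ∀ x, x ∈ s ↔ x = a ∨ x = b ∨ x = c) :
    (bl a = bl b ∧ bl b = bl c ∧ OM (bl a) a b c) ∨
     (bl a = bl b ∧ bl b < bl c ∧ cc (bl a) a b = e (bl a) (bl c)) := by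
  obtain ⟨a', b', c', h1, h2, h3, h4⟩ := h
  obtain ⟨rfl, rfl, rfl⟩ := limit_sorted3 hab hbc h1 h2 (fun v => (hs v).symm.trans (h3 v))
  exact h4

lemma limit_mem3 {L : Type u} [LinearOrder L] (a b c : L) :
    ∀ x, x ∈ ({a, b, c} : Finset L) ↔ x = a ∨ x = b ∨ x = c := by
  intro x; simp

lemma limit_card3 {L : Type u} [LinearOrder L] {a b c : L} (hab : a < b) (hbc : b < c) :
    ({a, b, c} : Finset L).card = 3 := by
  rw [Finset.card_insert_of_notMem (by simp [hab.ne, (hab.trans hbc).ne]),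
    Finset.card_insert_of_notMem (by simp [hbc.ne]), Finset.card_singleton]

lemma limit_sub3 {L : Type u} [LinearOrder L] {a b c : L} {Y : Set L} (ha : a ∈ Y) (hb : b ∈ Y)
    (hc : c ∈ Y) : (↑({a, b, c} : Finset L) : Set L) ⊆ Y := by
  intro v hv
  simp only [Finset.coe_insert, Finset.coe_singleton, Set.mem_insert_iff,
    Set.mem_singleton_iff] at hv
  rcases hv with rfl | rfl | rfl <;> assumption

lemma limit_four {L : Type u} [LinearOrder L] {Y : Set L} (hY : ((4 : ℕ) : Cardinal) ≤ #Y) :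
    ∃ a ∈ Y, ∃ b ∈ Y, ∃ c ∈ Y, ∃ d ∈ Y, a < b ∧ b < c ∧ c < d := by
  classical
  obtain ⟨E, hE, hEn⟩ := exists_finset_card hY
  set g := E.orderEmbOfFin hEn
  have hg : ∀ i, g i ∈ Y := fun i => hE (E.orderEmbOfFin_mem hEn i)
  exact ⟨g 0, hg 0, g 1, hg 1, g 2, hg 2, g 3, hg 3, g.strictMono (by decide),
    g.strictMono (by decide), g.strictMono (by decide)⟩

/-- counting: a set of size `μ` meeting each block in a small set has two points in many blocks -/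
lemma limit_count {L Θ : Type u} [LinearOrder L] {μ : Cardinal.{u}} (hμ : ℵ₀ ≤ μ)
    (hΘ : #Θ = μ.ord.cof) (hsing : μ.ord.cof < μ) (bl : L → Θ) (Y : Set L) (hY : #Y = μ)
    (hsmall : ∀ k, #{y | y ∈ Y ∧ bl y = k} < μ) :
    #Θ ≤ #{k | ∃ a ∈ Y, ∃ b ∈ Y, a < b ∧ bl a = k ∧ bl b = k} := by
  classical
  set I : Set Θ := {k | ∃ a ∈ Y, ∃ b ∈ Y, a < b ∧ bl a = k ∧ bl b = k} with hI
  by_contra hcon
  push Not at hcon
  rw [hΘ] at hcon
  have h1 : Y ⊆ (⋃ k ∈ I, {y | y ∈ Y ∧ bl y = k}) ∪ {y | y ∈ Y ∧ bl y ∉ I} := by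
    intro y hy
    by_cases hyI : bl y ∈ I
    · left
      exact Set.mem_biUnion hyI ⟨hy, rfl⟩
    · right; exact ⟨hy, hyI⟩
  have h2 : #{y | y ∈ Y ∧ bl y ∉ I} ≤ #Θ := by
    refine Cardinal.mk_le_of_injective (f := fun y => bl y.1) ?_
    intro x y hxy
    by_contra hne
    have hne' : x.1 ≠ y.1 := fun h => hne (Subtype.ext h)
    rcases lt_or_gt_of_ne hne' with h | h
    · exact x.2.2 ⟨x.1, x.2.1, y.1, y.2.1, h, rfl, hxy.symm⟩
    · exact x.2.2 ⟨y.1, y.2.1, x.1, x.2.1, h, hxy.symm, rfl⟩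
  have h3 : #(⋃ k ∈ I, {y | y ∈ Y ∧ bl y = k} : Set L) < μ := by
    refine (Cardinal.mk_biUnion_le _ _).trans_lt ?_
    refine Cardinal.mul_lt_of_lt hμ (hcon.trans hsing) ?_
    exact Cardinal.iSup_lt_of_lt_cof_ord hcon (fun i => hsmall i.1)
  have h4 : #Y < μ := by
    refine (Cardinal.mk_le_mk_of_subset h1).trans_lt ?_
    refine (Cardinal.mk_union_le _ _).trans_lt ?_
    exact Cardinal.add_lt_of_lt hμ h3 (h2.trans_lt (by rw [hΘ]; exact hsing))
  exact h4.ne hY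

/-- no homogeneous set of colour `c1` with four points -/
lemma limit_c1 {L Θ : Type u} [LinearOrder L] [LinearOrder Θ]
    (bl : L → Θ) (OM : Θ → L → L → L → Prop) (cc : Θ → L → L → Bool) (e : Θ → Θ → Bool)
    (hP1 : ∀ k a b c, bl a = k → bl b = k → bl c = k → a < b → b < c → OM k a b c →
      cc k a b ≠ cc k b c)
    (hP2 : ∀ k a b c d, bl a = k → bl b = k → bl c = k → bl d = k → a < b → b < c → c < d →
      OM k a b c → OM k b c d → OM k a b d → False)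
    {a b c d : L} (hab : a < b) (hbc : b < c) (hcd : c < d)
    (h1 : LimP bl OM cc e {a, b, c}) (h2 : LimP bl OM cc e {b, c, d})
    (h3 : LimP bl OM cc e {a, b, d}) : False := by
  have g1 := h1.sorted hab hbc (limit_mem3 a b c)
  have g2 := h2.sorted hbc hcd (limit_mem3 b c d)
  have g3 := h3.sorted hab (hbc.trans hcd) (limit_mem3 a b d)
  have hbc' : bl b = bl c := by
    rcases g2 with g | g
    · exact g.1
    · exact g.1
  rcases g1 with g1 | g1
  · have hne := hP1 (bl a) a b c rfl g1.1.symm (g1.2.1.symm.trans g1.1.symm) hab hbc g1.2.2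
    rcases g2 with g2 | g2
    · rcases g3 with g3 | g3
      · refine hP2 (bl a) a b c d rfl g1.1.symm (g1.2.1.symm.trans g1.1.symm)
          (g3.2.1.symm.trans g3.1.symm) hab hbc hcd g1.2.2 ?_ g3.2.2
        rw [g1.1]; exact g2.2.2
      · have := g3.2.1
        rw [g2.1, g2.2.1] at this
        exact lt_irrefl _ this
    · rcases g3 with g3 | g3
      · have := g2.2.1
        rw [← g2.1, g3.2.1] at this
        exact lt_irrefl _ this
      · apply hne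
        rw [g3.2.2, g1.1]
        exact g2.2.2.symm
  · have := g1.2.1
    rw [hbc'] at this
    exact lt_irrefl _ this

/-- no homogeneous set of size `μ` without `c1` -/
lemma limit_c0 {L Θ : Type u} [LinearOrder L] [LinearOrder Θ] {μ : Cardinal.{u}} (hμ : ℵ₀ ≤ μ)
    (hΘ : #Θ = μ.ord.cof) (hΘi : ℵ₀ ≤ #Θ) (hsing : μ.ord.cof < μ)
    (bl : L → Θ) (hbl : Monotone bl) (R : Θ → Cardinal.{u}) (hR : ∀ k, R k < μ)
    (OM : Θ → L → L → L → Prop) (cc : Θ → L → L → Bool) (e : Θ → Θ → Bool)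
    (hP3 : ∀ k, ∀ Y : Set L, (∀ y ∈ Y, bl y = k) →
      (∀ x ∈ Y, ∀ y ∈ Y, ∀ z ∈ Y, x < y → y < z → ¬ OM k x y z) → #Y ≤ R k)
    (he : ∀ (H : Set Θ) (b : Bool), #H = #Θ → ∃ x ∈ H, ∃ y ∈ H, x < y ∧ e x y ≠ b)
    (Y : Set L) (hY : #Y = μ)
    (hno : ∀ a ∈ Y, ∀ b ∈ Y, ∀ c ∈ Y, a < b → b < c → ¬ LimP bl OM cc e {a, b, c}) : False := by
  classical
  have hsmall : ∀ k, #{y | y ∈ Y ∧ bl y = k} < μ := by
    intro k
    refine (hP3 k _ (fun y hy => hy.2) ?_).trans_lt (hR k)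
    intro x hx y hy z hz hxy hyz hOM
    refine hno x hx.1 y hy.1 z hz.1 hxy hyz ⟨x, y, z, hxy, hyz, limit_mem3 x y z, Or.inl ?_⟩
    refine ⟨hx.2.trans hy.2.symm, hy.2.trans hz.2.symm, ?_⟩
    rw [hx.2]; exact hOM
  have hI := limit_count hμ hΘ hsing bl Y hY hsmall
  set I : Set Θ := {k | ∃ a ∈ Y, ∃ b ∈ Y, a < b ∧ bl a = k ∧ bl b = k} with hIdef
  have hex : ∀ k : Θ, ∃ v : Bool, k ∈ I → ∀ l ∈ I, k < l → e k l ≠ v := by
    intro k
    by_cases hk : k ∈ I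
    · obtain ⟨a, ha, b, hb, hab, hka, hkb⟩ := hk
      refine ⟨cc k a b, fun _ l hl hkl heq => ?_⟩
      obtain ⟨c, hc, _, _, _, hlc, _⟩ := hl
      have hbc : b < c := by
        by_contra hcon
        have := hbl (not_lt.mp hcon)
        rw [hlc, hkb] at this
        exact absurd hkl (not_lt.mpr this)
      refine hno a ha b hb c hc hab hbc ⟨a, b, c, hab, hbc, limit_mem3 a b c, Or.inr ?_⟩
      refine ⟨hka.trans hkb.symm, by rw [hkb, hlc]; exact hkl, ?_⟩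
      rw [hka, hlc]; exact heq.symm
    · exact ⟨false, fun h => absurd h hk⟩
  choose v hv using hex
  have hIc : #I = #Θ := le_antisymm (Cardinal.mk_set_le _) hI
  have hsplit : I ⊆ {k | k ∈ I ∧ v k = true} ∪ {k | k ∈ I ∧ v k = false} := by
    intro k hk
    cases h : v k
    · right; exact ⟨hk, h⟩
    · left; exact ⟨hk, h⟩
  have hfull : ∃ b : Bool, #{k | k ∈ I ∧ v k = b} = #Θ := by
    by_contra hcon
    push Not at hcon
    have h1 : #{k | k ∈ I ∧ v k = true} < #Θ :=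
      lt_of_le_of_ne (Cardinal.mk_set_le _) (hcon true)
    have h2 : #{k | k ∈ I ∧ v k = false} < #Θ :=
      lt_of_le_of_ne (Cardinal.mk_set_le _) (hcon false)
    have h3 : #I < #Θ := by
      refine (Cardinal.mk_le_mk_of_subset hsplit).trans_lt ?_
      refine (Cardinal.mk_union_le _ _).trans_lt ?_
      exact Cardinal.add_lt_of_lt hΘi h1 h2
    exact h3.ne hIc
  obtain ⟨b, hb⟩ := hfull
  obtain ⟨x, hx, y, hy, hxy, hne⟩ := he _ (!b) hb
  have h1 := hv x hx.1 y hy.1 hxy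
  rw [hx.2] at h1
  cases b <;> cases h : e x y <;> simp_all

/-- JOB: `r = 3`, `κ ≤ 2^{<μ}` where `μ = lam c0` is singular, `2^ρ < κ` for `ρ < μ`, and the
cofinality `θ` of `μ` satisfies `θ ↛ (θ)²₂` (witness `e`). -/
theorem step_three_limit [WellFoundedLT V] {κ μ : Cardinal.{u}}
    {D : V → V → κ.ord.ToType} (hD : TreeDist D) {lam : Γ → Cardinal.{u}}
    (hlam : ∀ ν, (3 : Cardinal) ≤ lam ν) {c0 c1 : Γ} (hne : c1 ≠ c0) (hc0 : lam c0 = μ)
    (hμ : ℵ₀ ≤ μ) (hsing : μ.ord.cof < μ) (hκ : κ ≤ 2 ^< μ)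
    (hlt : ∀ ρ < μ, (2 : Cardinal.{u}) ^ ρ < κ)
    (e : μ.ord.cof.ord.ToType → μ.ord.cof.ord.ToType → Bool)
    (he : ∀ (H : Set μ.ord.cof.ord.ToType) (b : Bool), #H = μ.ord.cof →
      ∃ x ∈ H, ∃ y ∈ H, x < y ∧ e x y ≠ b)
    (hc1 : (3 : Cardinal) < lam c1) :
    ∃ g : Finset V → Γ, NA (fun ν => lam ν + 1) 4 g := by
  classical
  obtain ⟨bl, R, hbl, hR0, hRμ, hRB⟩ := limit_blocks hμ hsing hκ hlt
  have hbk : ∀ k, ∃ (OM : κ.ord.ToType → κ.ord.ToType → κ.ord.ToType → Prop)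
      (c : κ.ord.ToType → κ.ord.ToType → Bool),
      (∀ x ∈ {l | bl l = k}, ∀ y ∈ {l | bl l = k}, ∀ z ∈ {l | bl l = k}, x < y → y < z →
        OM x y z → c x y ≠ c y z) ∧
      (∀ x ∈ {l | bl l = k}, ∀ y ∈ {l | bl l = k}, ∀ z ∈ {l | bl l = k}, ∀ w ∈ {l | bl l = k},
        x < y → y < z → z < w → OM x y z → OM y z w → OM x y w → False) ∧
      (∀ Y : Set κ.ord.ToType, Y ⊆ {l | bl l = k} →
        (∀ x ∈ Y, ∀ y ∈ Y, ∀ z ∈ Y, x < y → y < z → ¬ OM x y z) → #Y ≤ R k) :=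
    fun k => limit_block _ (R k) (hR0 k) (hRB k)
  choose OM cc hP1 hP2 hP3 using hbk
  have hΘ : #μ.ord.cof.ord.ToType = μ.ord.cof := Cardinal.mk_ord_toType _
  have hcof : ℵ₀ ≤ μ.ord.cof := Ordinal.aleph0_le_cof.mpr (Cardinal.isSuccLimit_ord hμ)
  have hP1' : ∀ k a b c, bl a = k → bl b = k → bl c = k → a < b → b < c → OM k a b c →
      cc k a b ≠ cc k b c := fun k a b c ha hb hc hab hbc h => hP1 k a ha b hb c hc hab hbc h
  have hP2' : ∀ k a b c d, bl a = k → bl b = k → bl c = k → bl d = k → a < b → b < c → c < d →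
      OM k a b c → OM k b c d → OM k a b d → False :=
    fun k a b c d ha hb hc hd hab hbc hcd h1 h2 h3 =>
      hP2 k a ha b hb c hc d hd hab hbc hcd h1 h2 h3
  have hP3' : ∀ k, ∀ Y : Set κ.ord.ToType, (∀ y ∈ Y, bl y = k) →
      (∀ x ∈ Y, ∀ y ∈ Y, ∀ z ∈ Y, x < y → y < z → ¬ OM k x y z) → #Y ≤ R k :=
    fun k Y hY h => hP3 k Y hY h
  set f : Finset κ.ord.ToType → Γ := fun s => if LimP bl OM cc e s then c1 else c0 with hf
  have hfc1 : ∀ s, f s = c1 → LimP bl OM cc e s := by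
    intro s hs
    by_contra hcon
    rw [hf] at hs
    simp only [if_neg hcon] at hs
    exact hne hs.symm
  have hfc0 : ∀ s, f s = c0 → ¬ LimP bl OM cc e s := by
    intro s hs hcon
    rw [hf] at hs
    simp only [if_pos hcon] at hs
    exact hne hs
  have hNA : NA lam 3 f := by
    intro ν Y hY
    by_contra hcon
    push Not at hcon
    by_cases hν1 : ν = c1
    · subst hν1
      have h4 : ((4 : ℕ) : Cardinal) ≤ #Y := by
        rw [hY]
        have h1' : ((3 : ℕ) : Cardinal) < lam ν := by exact_mod_cast hc1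
        have := Order.succ_le_of_lt h1'
        rw [Cardinal.succ_natCast] at this
        exact_mod_cast this
      obtain ⟨a, ha, b, hb, c, hc, d, hd, hab, hbc, hcd⟩ := limit_four h4
      exact limit_c1 bl OM cc e hP1' hP2' hab hbc hcd
        (hfc1 _ (hcon _ (limit_card3 hab hbc) (limit_sub3 ha hb hc)))
        (hfc1 _ (hcon _ (limit_card3 hbc hcd) (limit_sub3 hb hc hd)))
        (hfc1 _ (hcon _ (limit_card3 hab (hbc.trans hcd)) (limit_sub3 ha hb hd)))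
    · by_cases hν0 : ν = c0
      · subst hν0
        refine limit_c0 hμ hΘ (by rw [hΘ]; exact hcof) hsing bl hbl R hRμ OM cc e hP3'
          (fun H b hH => he H b (hH.trans hΘ)) Y (hY.trans hc0) ?_
        intro a ha b hb c hc hab hbc
        exact hfc0 _ (hcon _ (limit_card3 hab hbc) (limit_sub3 ha hb hc))
      · have h3 : ((3 : ℕ) : Cardinal) ≤ #Y := by
          rw [hY]; exact_mod_cast hlam ν
        obtain ⟨s, hs, hs3⟩ := exists_finset_card h3
        have h5 := hcon s hs3 hs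
        rw [hf] at h5
        by_cases hP : LimP bl OM cc e s
        · simp only [if_pos hP] at h5; exact hν1 h5.symm
        · simp only [if_neg hP] at h5; exact hν0 h5.symm
  refine step_three_block hD hlam hne (by rw [hc0]; exact hμ) hc1 bl hbl hNA ?_ ?_
  · intro a b c s hab hbc hs hsc
    rcases (hfc1 s hsc).sorted hab hbc hs with h | h
    · exact h.1
    · exact h.1
  · intro Z k hZ hZk hAlt hcomb
    have hRs : Order.succ (R k) < μ := by
      rcases (Order.succ_le_of_lt (hRμ k)).lt_or_eq with h | h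
      · exact h
      · exfalso
        have hreg := Cardinal.isRegular_succ (hR0 k)
        rw [h] at hreg
        have := hreg.cof_ord
        rw [this] at hsing
        exact lt_irrefl _ hsing
    have hle : Order.succ (R k) ≤ #Z := by rw [hZ, hc0]; exact hRs.le
    obtain ⟨Z', hZ'Z, hZ'⟩ := Cardinal.le_mk_iff_exists_subset.mp hle
    rcases regular_dichotomy hD (H := Z') (by rw [hZ']; exact Cardinal.isRegular_succ (hR0 k)) with
      ⟨H', hH', hH'c, hH'comb⟩ | ⟨a, ha, b, hb, c, hc, d, hd, h⟩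
    · obtain ⟨Y, hY1, hY2, hY3⟩ := comb_levels hD hH'comb 3 (by norm_num) f c0 (by
        intro e' he' he'H
        exact hcomb e' he' (he'H.trans (hH'.trans hZ'Z)) (hH'comb.mono he'H))
      have hYk : ∀ y ∈ Y, bl y = k := by
        intro y hy
        obtain ⟨x, hx, w, hw, hxw, rfl⟩ := hY2 y hy
        exact hZk x (hZ'Z (hH' hx)) w (hZ'Z (hH' hw)) hxw.ne
      have hYR : #Y ≤ R k := by
        refine hP3' k Y hYk ?_
        intro x hx y hy z hz hxy hyz hOM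
        refine hfc0 _ (hY3 _ (limit_card3 hxy hyz) (limit_sub3 hx hy hz))
          ⟨x, y, z, hxy, hyz, limit_mem3 x y z, Or.inl ?_⟩
        refine ⟨(hYk x hx).trans (hYk y hy).symm, (hYk y hy).trans (hYk z hz).symm, ?_⟩
        rw [hYk x hx]; exact hOM
      have h1 : Order.succ (R k) ≤ #Y + 1 := by rw [← hZ', ← hH'c]; exact hY1
      have h2 : #Y + 1 ≤ R k := by
        calc #Y + 1 ≤ R k + 1 := by gcongr
          _ = R k := Cardinal.add_one_eq (hR0 k)
      exact absurd (h1.trans h2) (not_le.mpr (Order.lt_succ _))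
    · exact hAlt a (hZ'Z ha) b (hZ'Z hb) c (hZ'Z hc) d (hZ'Z hd) h

end Pool.Agent.H330
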