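import Mathlib
import Pool.Agent.H330.Tree
import Pool.Agent.H330.Ramsey
import Pool.Agent.H330.EndHom

open Cardinal Set

universe u v

namespace Pool.Agent.H330

theorem pos_common {L Γ : Type u} {lam : Γ → Cardinal.{u}} {r : ℕ} {f : Finset L → Γ}
    (hf : NA lam r f) (hlam : ∀ ν, (r : Cardinal) ≤ lam ν) (s : Finset L) (hs : s.card = r) :
    (r : Cardinal) < lam (f s) := by
  refine lt_of_le_of_ne (hlam _) ?_
  intro h
  obtain ⟨s', h1, h2, h3⟩ := hf (f s) (s : Set L) (by rw [← h]; simp [hs])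
  have : s' = s := Finset.eq_of_subset_of_card_le (by exact_mod_cast h2) (by omega)
  rw [this] at h3
  exact h3 rfl

theorem pos_color {L Γ : Type u} {lam : Γ → Cardinal.{u}} {r : ℕ} {f : Finset L → Γ}
    (hf : NA lam r f) (hlam : ∀ ν, (r : Cardinal) ≤ lam ν) (hL : ℵ₀ ≤ #L) :
    ∃ f' : Finset L → {ν : Γ | (r : Cardinal) < lam ν},
      ∀ s : Finset L, s.card = r → (f' s).1 = f s := by
  classical
  have : Infinite L := Cardinal.infinite_iff.2 hL
  obtain ⟨t, ht⟩ := Infinite.exists_subset_card_eq L r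
  refine ⟨fun s => if h : s.card = r then ⟨f s, pos_common hf hlam s h⟩
    else ⟨f t, pos_common hf hlam t ht⟩, fun s hs => ?_⟩
  simp [hs]

theorem pos_hom {L Γ : Type u} {lam : Γ → Cardinal.{u}} {r : ℕ} {f : Finset L → Γ}
    (hf : NA lam r f) {ν : Γ} {Y : Set L} (hY : lam ν ≤ #Y)
    (h : ∀ s : Finset L, s.card = r → (↑s : Set L) ⊆ Y → f s = ν) : False := by
  obtain ⟨s, h1, h2, h3⟩ := hf.of_le hY
  exact h3 (h s h1 h2)

theorem pos_img_aux {L Γ : Type u} {A : Type v} [DecidableEq L] {lam : Γ → Cardinal.{u}} {r : ℕ}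
    {f : Finset L → Γ}
    (hf : NA lam r f) {σ : A → L} (hσ : Function.Injective σ) {ν : Γ} {S : Set A}
    (hY : lam ν ≤ #(σ '' S : Set L))
    (h : ∀ t : Finset A, t.card = r → (↑t : Set A) ⊆ S → f (t.image σ) = ν) : False := by
  refine pos_hom hf hY fun s hs hsub => ?_
  obtain ⟨t, ht, rfl⟩ := Finset.subset_set_image_iff.1 hsub
  rw [Finset.card_image_of_injective _ hσ] at hs
  exact h t hs ht

theorem pos_img {L Γ : Type u} {A : Type u} [DecidableEq L] {lam : Γ → Cardinal.{u}} {r : ℕ}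
    {f : Finset L → Γ}
    (hf : NA lam r f) {σ : A → L} (hσ : Function.Injective σ) {ν : Γ} {S : Set A}
    (hY : lam ν ≤ #S)
    (h : ∀ t : Finset A, t.card = r → (↑t : Set A) ⊆ S → f (t.image σ) = ν) : False :=
  pos_img_aux hf hσ (by rw [Cardinal.mk_image_eq hσ]; exact hY) h

theorem pos_img_inf {L Γ : Type u} {A : Type v} [DecidableEq L] {lam : Γ → Cardinal.{u}} {r : ℕ}
    {f : Finset L → Γ}
    (hf : NA lam r f) {σ : A → L} (hσ : Function.Injective σ) {ν : Γ} {S : Set A}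
    (hν : lam ν < ℵ₀) (hS : S.Infinite)
    (h : ∀ t : Finset A, t.card = r → (↑t : Set A) ⊆ S → f (t.image σ) = ν) : False := by
  refine pos_img_aux hf hσ (hν.le.trans ?_) h
  have : (σ '' S).Infinite := hS.image hσ.injOn
  exact Cardinal.infinite_iff.1 this.to_subtype

/-- end-homogeneity for full sets -/
theorem pos_end {L Γ W : Type u} [LinearOrder W] [DecidableEq L] {r : ℕ} {f : Finset L → Γ}
    {E : Set Γ} {f' : Finset L → E} (hff : ∀ s : Finset L, s.card = r + 1 → (f' s).1 = f s)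
    {p : L} {x : W → L} (hx : Function.Injective x) (hp : p ∉ Set.range x)
    (h : ∀ (w : W) (s : Finset W), (∀ v ∈ s, v < w) →
        f' (insert (x w) (s.image x)) = f' (insert p (s.image x)))
    (t : Finset W) (ht : t.card = r + 1) :
    ∃ s : Finset W, s ⊆ t ∧ s.card = r ∧ f (t.image x) = f (insert p (s.image x)) := by
  classical
  have hne : t.Nonempty := by
    rw [← Finset.card_pos, ht]; omega
  refine ⟨t.erase (t.max' hne), Finset.erase_subset _ _, ?_, ?_⟩
  · rw [Finset.card_erase_of_mem (t.max'_mem hne), ht]; rfl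
  · have h1 := h (t.max' hne) (t.erase (t.max' hne)) (by
      intro v hv
      rw [Finset.mem_erase] at hv
      exact lt_of_le_of_ne (t.le_max' v hv.2) hv.1)
    have h2 : insert (x (t.max' hne)) ((t.erase (t.max' hne)).image x) = t.image x := by
      rw [← Finset.image_insert, Finset.insert_erase (t.max'_mem hne)]
    rw [h2] at h1
    have h3 := congrArg Subtype.val h1
    rw [hff _ (by rw [Finset.card_image_of_injective _ hx, ht])] at h3
    rw [h3, hff]
    rw [Finset.card_insert_of_notMem, Finset.card_image_of_injective _ hx,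
      Finset.card_erase_of_mem (t.max'_mem hne), ht]
    · rfl
    · intro hcon
      obtain ⟨v, -, hv⟩ := Finset.mem_image.1 hcon
      exact hp ⟨v, hv⟩

/-- JOB 1 -/
theorem pos_finite {L Γ : Type u} {lam : Γ → Cardinal.{u}} {r : ℕ} {f : Finset L → Γ}
    (hf : NA lam r f) (hlam : ∀ ν, (r : Cardinal) ≤ lam ν) (hfin : ∀ ν, lam ν < ℵ₀)
    (hL : ℵ₀ ≤ #L) : {ν : Γ | (r : Cardinal) < lam ν}.Infinite := by
  intro hE
  obtain ⟨f', hf'⟩ := pos_color hf hlam hL
  have : Infinite L := Cardinal.infinite_iff.2 hL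
  have : Finite {ν : Γ | (r : Cardinal) < lam ν} := hE.to_subtype
  obtain ⟨H, c, hH, hc⟩ := infinite_ramsey r f'
  refine pos_hom hf (ν := c.1) (Y := H) ((hfin _).le.trans (Cardinal.infinite_iff.1 hH.to_subtype)) ?_
  intro s hs hsub
  rw [← hf' s hs, hc s hs hsub]

/-- JOB 2 -/
theorem pos_two_finite {L Γ : Type u} {lam : Γ → Cardinal.{u}} {f : Finset L → Γ}
    (hf : NA lam 2 f) (hlam : ∀ ν, (2 : Cardinal) ≤ lam ν) (hfin : ∀ ν, lam ν < ℵ₀)
    (hL : ℵ₀ ≤ #L) : #L ≤ 2 ^ #{ν : Γ | (2 : Cardinal) < lam ν} := by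
  classical
  have hlam' : ∀ ν, ((2 : ℕ) : Cardinal) ≤ lam ν := by exact_mod_cast hlam
  have hEinf : ℵ₀ ≤ #{ν : Γ | ((2 : ℕ) : Cardinal) < lam ν} :=
    Cardinal.infinite_iff.1 (pos_finite hf hlam' hfin hL).to_subtype
  have hEeq : {ν : Γ | (2 : Cardinal) < lam ν} = {ν : Γ | ((2 : ℕ) : Cardinal) < lam ν} := by
    ext ν; simp
  rw [hEeq]
  set E : Set Γ := {ν : Γ | ((2 : ℕ) : Cardinal) < lam ν} with hE
  obtain ⟨f', hf'⟩ : ∃ f' : Finset L → E, ∀ s : Finset L, s.card = 2 → (f' s).1 = f s :=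
    pos_color hf hlam' hL
  set g := #E with hg
  by_contra hcon
  push Not at hcon
  have hWcard : #((Order.succ g).ord.ToType) = Order.succ g := by simp
  have hinit : ∀ w : (Order.succ g).ord.ToType, #(Finset (Set.Iio w)) ≤ g := by
    intro w
    have h1 : #(Set.Iio w) ≤ g := Order.lt_succ_iff.1 (Cardinal.mk_Iio_toType_ord_lt w)
    rcases finite_or_infinite (Set.Iio w) with hfi | hinf
    · exact (Cardinal.lt_aleph0_of_finite _).le.trans hEinf
    · rw [Cardinal.mk_finset_of_infinite]; exact h1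
  have hsum : Cardinal.sum (fun w : (Order.succ g).ord.ToType => #(Finset (Set.Iio w) → E)) < #L := by
    refine lt_of_le_of_lt ?_ hcon
    have h1 : ∀ w : (Order.succ g).ord.ToType, #(Finset (Set.Iio w) → E) ≤ 2 ^ g := by
      intro w
      rw [← Cardinal.power_def, ← Cardinal.power_self_eq hEinf]
      exact Cardinal.power_le_power_left (by
        intro h0
        rw [← hg] at h0
        rw [h0] at hEinf
        exact absurd hEinf (not_le.2 Cardinal.aleph0_pos)) (hinit w)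
    refine (Cardinal.sum_le_sum _ (fun _ => 2 ^ g) h1).trans ?_
    rw [Cardinal.sum_const', hWcard]
    have h2 : Order.succ g ≤ 2 ^ g := Order.succ_le_of_lt (Cardinal.cantor g)
    have h3 : ℵ₀ ≤ 2 ^ g := hEinf.trans (Cardinal.cantor g).le
    calc Order.succ g * 2 ^ g ≤ 2 ^ g * 2 ^ g := by gcongr
      _ = 2 ^ g := Cardinal.mul_eq_self h3
  obtain ⟨p, x, hx, hp, hxp⟩ := end_homog f' hsum
  obtain ⟨c, hc⟩ := Cardinal.infinite_pigeonhole_card_lt
    (fun w : (Order.succ g).ord.ToType => f' (insert p (({w} : Finset _).image x)))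
    (by rw [hWcard]; exact Order.lt_succ g) (by rw [hWcard]; exact hEinf.trans (Order.le_succ g))
  refine pos_img hf hx (ν := c.1) (S := (fun w : (Order.succ g).ord.ToType =>
    f' (insert p (({w} : Finset _).image x))) ⁻¹' {c}) ?_ ?_
  · exact (hfin _).le.trans (hEinf.trans hc.le)
  · intro t ht hsub
    obtain ⟨s, hs1, hs2, hs3⟩ := pos_end (r := 1) hf' hx hp hxp t ht
    rw [hs3]
    obtain ⟨v, rfl⟩ := Finset.card_eq_one.1 hs2
    have hv : v ∈ t := hs1 (Finset.mem_singleton_self v)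
    have h1 := hsub (Finset.mem_coe.2 hv)
    rw [Set.mem_preimage, Set.mem_singleton_iff] at h1
    rw [← h1, hf']
    rw [Finset.card_insert_of_notMem, Finset.card_image_of_injective _ hx, Finset.card_singleton]
    intro hcon'
    obtain ⟨v, -, hv⟩ := Finset.mem_image.1 hcon'
    exact hp ⟨v, hv⟩

/-- JOB 3 -/
theorem pos_two_edm {L Γ : Type u} {lam : Γ → Cardinal.{u}} {f : Finset L → Γ}
    (hf : NA lam 2 f) (hlam : ∀ ν, (2 : Cardinal) ≤ lam ν) {c0 : Γ} (hc0 : ℵ₀ ≤ lam c0)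
    (hc0L : lam c0 ≤ #L) (hfin : ∀ ν, ν ≠ c0 → lam ν < ℵ₀) :
    {ν : Γ | (2 : Cardinal) < lam ν ∧ lam ν < ℵ₀}.Infinite := by
  classical
  intro hE
  have hlam' : ∀ ν, ((2 : ℕ) : Cardinal) ≤ lam ν := by exact_mod_cast hlam
  obtain ⟨Y0, hY0⟩ := Cardinal.le_mk_iff_exists_set.1 hc0L
  have hsymm : ∀ v w : Y0, (v ≠ w ∧ f (({v, w} : Finset Y0).image Subtype.val) ≠ c0) →
      (w ≠ v ∧ f (({w, v} : Finset Y0).image Subtype.val) ≠ c0) := by
    rintro v w ⟨h1, h2⟩
    refine ⟨h1.symm, ?_⟩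
    rw [Finset.pair_comm]
    exact h2
  rcases edm (A := Y0) (by rw [hY0]; exact hc0)
    (fun v w => v ≠ w ∧ f (({v, w} : Finset Y0).image Subtype.val) ≠ c0) hsymm with
    ⟨H, hH, hind⟩ | ⟨s, hs, hcl⟩
  · refine pos_img hf Subtype.val_injective (ν := c0) (S := H) (by rw [hH, hY0]) ?_
    intro t ht hsub
    obtain ⟨a, b, hab, rfl⟩ := Finset.card_eq_two.1 ht
    have h1 := hind a (hsub (by simp)) b (hsub (by simp)) hab
    by_contra h2
    exact h1 ⟨hab, h2⟩
  · have hσ : Function.Injective (fun n => (s n).1) := fun a b h => hs (Subtype.ext h)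
    have hmem : ∀ t : Finset ℕ, t.card = 2 → f (t.image (fun n => (s n).1)) ∈
        {ν : Γ | (2 : Cardinal) < lam ν ∧ lam ν < ℵ₀} := by
      intro t ht
      have h1 := pos_common hf hlam' (t.image (fun n => (s n).1)) (by
        rw [Finset.card_image_of_injective _ hσ, ht])
      refine ⟨by exact_mod_cast h1, hfin _ ?_⟩
      obtain ⟨a, b, hab, rfl⟩ := Finset.card_eq_two.1 ht
      have h2 := (hcl a b hab).2
      rw [Finset.image_insert, Finset.image_singleton] at h2 ⊢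
      exact h2
    have : Finite {ν : Γ | (2 : Cardinal) < lam ν ∧ lam ν < ℵ₀} := hE.to_subtype
    obtain ⟨H, c, hH, hc⟩ := infinite_ramsey (A := ℕ) 2 (fun t : Finset ℕ =>
      if h : t.card = 2 then (⟨f (t.image (fun n => (s n).1)), hmem t h⟩ :
        {ν : Γ | (2 : Cardinal) < lam ν ∧ lam ν < ℵ₀}) else ⟨f (({0, 1} : Finset ℕ).image
          (fun n => (s n).1)), hmem {0, 1} (by simp)⟩)
    refine pos_img_inf hf hσ (ν := c.1) (S := H) c.2.2 hH ?_
    intro t ht hsub
    have h1 := hc t ht hsub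
    rw [dif_pos ht] at h1
    exact congrArg Subtype.val h1

/-- JOB 4 -/
theorem pos_three {L Γ : Type u} {lam : Γ → Cardinal.{u}} {f : Finset L → Γ}
    (hf : NA lam 3 f) (hlam : ∀ ν, (3 : Cardinal) ≤ lam ν) {c0 : Γ} (hc0 : ℵ₀ ≤ lam c0)
    (hfin : ∀ ν, ν ≠ c0 → lam ν < ℵ₀)
    (hE : {ν : Γ | (3 : Cardinal) < lam ν ∧ lam ν < ℵ₀}.Finite) :
    #L ≤ 2 ^< lam c0 := by
  classical
  have hlam' : ∀ ν, ((3 : ℕ) : Cardinal) ≤ lam ν := by exact_mod_cast hlam
  by_contra hcon
  push Not at hcon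
  set μ := lam c0 with hμ
  have hμ2 : μ ≤ 2 ^< μ := by
    by_contra h
    push Not at h
    exact absurd (Cardinal.le_powerlt 2 h) (not_le.2 (Cardinal.cantor _))
  have hinf2 : ℵ₀ ≤ (2 : Cardinal.{u}) ^< μ := hc0.trans hμ2
  have hL : ℵ₀ ≤ #L := hinf2.trans hcon.le
  have hEf : {ν : Γ | ((3 : ℕ) : Cardinal) < lam ν}.Finite := by
    refine (hE.insert c0).subset ?_
    intro ν hν
    by_cases h : ν = c0
    · exact Or.inl h
    · exact Or.inr ⟨by exact_mod_cast hν, hfin ν h⟩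
  set E : Set Γ := {ν : Γ | ((3 : ℕ) : Cardinal) < lam ν} with hEdef
  obtain ⟨f', hf'⟩ : ∃ f' : Finset L → E, ∀ s : Finset L, s.card = 3 → (f' s).1 = f s :=
    pos_color hf hlam' hL
  have : Finite E := hEf.to_subtype
  have hEne : #E ≠ 0 := by
    rw [Cardinal.mk_ne_zero_iff]
    exact ⟨f' ∅⟩
  have hWcard : #(μ.ord.ToType) = μ := by simp
  have hsum : Cardinal.sum (fun w : μ.ord.ToType => #(Finset (Set.Iio w) → E)) < #L := by
    refine lt_of_le_of_lt ?_ hcon
    have h1 : ∀ w : μ.ord.ToType, #(Finset (Set.Iio w) → E) ≤ 2 ^< μ := by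
      intro w
      have h1 : #(Set.Iio w) < μ := Cardinal.mk_Iio_toType_ord_lt w
      rcases finite_or_infinite (Set.Iio w) with hfi | hinf
      · exact (Cardinal.lt_aleph0_of_finite _).le.trans hinf2
      · rw [← Cardinal.power_def, Cardinal.mk_finset_of_infinite]
        have h3 : ℵ₀ ≤ #(Set.Iio w) := Cardinal.infinite_iff.1 hinf
        calc #E ^ #(Set.Iio w) ≤ #(Set.Iio w) ^ #(Set.Iio w) :=
              Cardinal.power_le_power_right ((Cardinal.lt_aleph0_of_finite _).le.trans h3)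
          _ = 2 ^ #(Set.Iio w) := Cardinal.power_self_eq h3
          _ ≤ 2 ^< μ := Cardinal.le_powerlt 2 h1
    refine (Cardinal.sum_le_sum _ (fun _ => 2 ^< μ) h1).trans ?_
    rw [Cardinal.sum_const', hWcard]
    calc μ * 2 ^< μ ≤ 2 ^< μ * 2 ^< μ := by gcongr
      _ = 2 ^< μ := Cardinal.mul_eq_self hinf2
  obtain ⟨p, x, hx, hp, hxp⟩ := end_homog f' hsum
  have hpx : ∀ s : Finset μ.ord.ToType, (insert p (s.image x)).card = s.card + 1 := by
    intro s
    rw [Finset.card_insert_of_notMem, Finset.card_image_of_injective _ hx]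
    intro hcon'
    obtain ⟨v, -, hv⟩ := Finset.mem_image.1 hcon'
    exact hp ⟨v, hv⟩
  have hsymm : ∀ v w : μ.ord.ToType, (v ≠ w ∧ f (insert p (({v, w} : Finset _).image x)) ≠ c0) →
      (w ≠ v ∧ f (insert p (({w, v} : Finset _).image x)) ≠ c0) := by
    rintro v w ⟨h1, h2⟩
    refine ⟨h1.symm, ?_⟩
    rw [Finset.pair_comm]
    exact h2
  rcases edm (A := μ.ord.ToType) (by rw [hWcard]; exact hc0)
    (fun v w => v ≠ w ∧ f (insert p (({v, w} : Finset _).image x)) ≠ c0) hsymm with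
    ⟨H, hH, hind⟩ | ⟨s, hs, hcl⟩
  · refine pos_img hf hx (ν := c0) (S := H) (by rw [hH, hWcard]) ?_
    intro t ht hsub
    obtain ⟨s, hs1, hs2, hs3⟩ := pos_end (r := 2) hf' hx hp hxp t ht
    rw [hs3]
    obtain ⟨a, b, hab, rfl⟩ := Finset.card_eq_two.1 hs2
    have h1 := hind a (hsub (hs1 (by simp))) b (hsub (hs1 (by simp))) hab
    by_contra h2
    exact h1 ⟨hab, h2⟩
  · have hmem : ∀ t : Finset ℕ, t.card = 2 → f (insert p ((t.image s).image x)) ∈
        {ν : Γ | (3 : Cardinal) < lam ν ∧ lam ν < ℵ₀} := by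
      intro t ht
      have h1 := pos_common hf hlam' (insert p ((t.image s).image x)) (by
        rw [hpx, Finset.card_image_of_injective _ hs, ht])
      refine ⟨by exact_mod_cast h1, hfin _ ?_⟩
      obtain ⟨a, b, hab, rfl⟩ := Finset.card_eq_two.1 ht
      have h2 := (hcl a b hab).2
      rw [Finset.image_insert, Finset.image_singleton]
      exact h2
    have : Finite {ν : Γ | (3 : Cardinal) < lam ν ∧ lam ν < ℵ₀} := hE.to_subtype
    obtain ⟨H, c, hH, hc⟩ := infinite_ramsey (A := ℕ) 2 (fun t : Finset ℕ =>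
      if h : t.card = 2 then (⟨f (insert p ((t.image s).image x)), hmem t h⟩ :
        {ν : Γ | (3 : Cardinal) < lam ν ∧ lam ν < ℵ₀}) else
          ⟨f (insert p ((({0, 1} : Finset ℕ).image s).image x)), hmem {0, 1} (by simp)⟩)
    refine pos_img_inf hf hx (ν := c.1) (S := s '' H) c.2.2 (hH.image hs.injOn) ?_
    intro t ht hsub
    obtain ⟨q, hq1, hq2, hq3⟩ := pos_end (r := 2) hf' hx hp hxp t ht
    rw [hq3]
    have hqsub : (↑q : Set μ.ord.ToType) ⊆ s '' H := fun v hv => hsub (hq1 hv)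
    obtain ⟨t', ht', rfl⟩ := Finset.subset_set_image_iff.1 hqsub
    rw [Finset.card_image_of_injective _ hs] at hq2
    have h1 := hc t' hq2 ht'
    rw [dif_pos hq2] at h1
    exact congrArg Subtype.val h1

end Pool.Agent.H330
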