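import Mathlib
import Pool.Agent.H330.Tree

open Cardinal Set

universe u v

namespace Pool.Agent.H330

variable {V L Γ : Type u} [LinearOrder V] [LinearOrder L] {D : V → V → L}

/-- balanced quadruple -/
def three_Bal {V L : Type u} [LinearOrder L] (D : V → V → L) (x y z w : V) : Prop :=
  x ≠ y ∧ x ≠ z ∧ x ≠ w ∧ y ≠ z ∧ y ≠ w ∧ z ≠ w ∧ D x z < D x y ∧ D x z < D z w

lemma three_cross {V L : Type u} [LinearOrder L] {D : V → V → L} (hD : TreeDist D) {x y z w : V}
    (h : three_Bal D x y z w) : D y z = D x z ∧ D x w = D x z ∧ D y w = D x z := by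
  obtain ⟨hxy, hxz, hxw, hyz, hyw, hzw, h1, h2⟩ := h
  have e1 : D y z = D x z := by
    have := hD.iso x z y hxz hxy hyz.symm h1
    rw [hD.symm y z, this]
  have e2 : D x w = D x z := by
    have h3 : D z x < D z w := by rw [hD.symm z x]; exact h2
    have := hD.iso z x w hxz.symm hzw hxw h3
    rw [this, hD.symm]
  have e3 : D y w = D x z := by
    have h3 : D z y < D z w := by rw [hD.symm z y, e1]; exact h2
    have := hD.iso z y w hyz.symm hzw hyw h3
    rw [this, hD.symm, e1]
  exact ⟨e1, e2, e3⟩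

/-- sets of the form `{x,y,z,w}` with a balanced quadruple -/
def three_T {V L : Type u} [LinearOrder L] (D : V → V → L) (e : Set V) : Prop :=
  ∃ x y z w, e = {x, y, z, w} ∧ three_Bal D x y z w

lemma three_nc {V L : Type u} [LinearOrder L] {D : V → V → L} (hD : TreeDist D) {e : Set V}
    (h : three_T D e) {s : V} (hs : s ∈ e) (d : L) (hd : ∀ u ∈ e, u ≠ s → D s u = d) : False := by
  obtain ⟨x, y, z, w, he, hb⟩ := h
  obtain ⟨e1, e2, e3⟩ := three_cross hD hb
  obtain ⟨hxy, hxz, hxw, hyz, hyw, hzw, h1, h2⟩ := hb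
  have hx : x ∈ e := by rw [he]; simp
  have hy : y ∈ e := by rw [he]; simp
  have hz : z ∈ e := by rw [he]; simp
  have hw : w ∈ e := by rw [he]; simp
  rw [he] at hs
  rcases hs with h | h | h | h
  · subst h
    have a1 := hd y hy hxy.symm
    have a2 := hd z hz hxz.symm
    rw [a1, a2] at h1
    exact lt_irrefl _ h1
  · subst h
    have a1 := hd x hx hxy
    have a2 := hd z hz hyz.symm
    rw [hD.symm x s, a1, ← e1, a2] at h1
    exact lt_irrefl _ h1
  · subst h
    have a1 := hd w hw hzw.symm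
    have a2 := hd x hx hxz
    rw [hD.symm x s, a1, a2] at h2
    exact lt_irrefl _ h2
  · have hsw : s = w := h
    subst hsw
    have a1 := hd z hz hzw
    have a2 := hd x hx hxw
    rw [← e2, hD.symm x s, hD.symm z s, a1, a2] at h2
    exact lt_irrefl _ h2

lemma three_not_comb (hD : TreeDist D) {e : Set V} (h : three_T D e) : ¬ Comb D e := by
  obtain ⟨x, y, z, w, he, hb⟩ := h
  obtain ⟨e1, e2, e3⟩ := three_cross hD hb
  obtain ⟨hxy, hxz, hxw, hyz, hyw, hzw, h1, h2⟩ := hb
  have hx : x ∈ e := by rw [he]; simp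
  have hy : y ∈ e := by rw [he]; simp
  have hz : z ∈ e := by rw [he]; simp
  have hw : w ∈ e := by rw [he]; simp
  -- is there a point of `{z, w}` above both `x` and `y`?
  by_cases hA : x < z ∧ y < z
  · exact not_comb hD hx hy hz hxy hA.1 hA.2 h1 (by rw [e1]; exact h1)
  by_cases hB : x < w ∧ y < w
  · exact not_comb hD hx hy hw hxy hB.1 hB.2 (by rw [e2]; exact h1) (by rw [e3]; exact h1)
  by_cases hC : z < x ∧ w < x
  · exact not_comb hD hz hw hx hzw hC.1 hC.2 (by rw [hD.symm z x]; exact h2)
      (by rw [hD.symm w x, e2]; exact h2)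
  by_cases hE : z < y ∧ w < y
  · exact not_comb hD hz hw hy hzw hE.1 hE.2 (by rw [hD.symm z y, e1]; exact h2)
      (by rw [hD.symm w y, e3]; exact h2)
  exfalso
  have t1 := lt_or_gt_of_ne hxz
  have t2 := lt_or_gt_of_ne hxw
  have t3 := lt_or_gt_of_ne hyz
  have t4 := lt_or_gt_of_ne hyw
  have t5 := lt_or_gt_of_ne hxy
  have t6 := lt_or_gt_of_ne hzw
  rcases t1 with t1 | t1 <;> rcases t2 with t2 | t2 <;> rcases t3 with t3 | t3 <;>
    rcases t4 with t4 | t4 <;> first
      | exact hA ⟨t1, t3⟩
      | exact hB ⟨t2, t4⟩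
      | exact hC ⟨t1, t2⟩
      | exact hE ⟨t3, t4⟩
      | exact absurd (t1.trans t4) (by
          rcases t5 with t5 | t5 <;> rcases t6 with t6 | t6 <;> order)
      | (exfalso; rcases t5 with t5 | t5 <;> rcases t6 with t6 | t6 <;> order)

/-- in a comb a point splitting off before a pair is below the pair -/
lemma three_lt (hD : TreeDist D) {e : Set V} (hc : Comb D e) {x x1 y : V} (hx : x ∈ e)
    (hx1 : x1 ∈ e) (hy : y ∈ e) (hxx1 : x ≠ x1) (hxy : x ≠ y) (hx1y : x1 ≠ y)
    (h1 : D x1 y = D x y) (h2 : D x y < D x x1) : y < x := by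
  rcases lt_or_gt_of_ne hxy with h | h
  · exfalso
    rcases lt_or_gt_of_ne hx1y with h' | h'
    · exact not_comb hD hx hx1 hy hxx1 h h' h2 (by rw [h1]; exact h2) hc
    · have := hc x hx y hy x1 hx1 h h'
      rw [hD.symm y x1, h1] at this
      exact lt_irrefl _ this
  · exact h

lemma three_card {lam : Cardinal.{u}} (h : (3 : Cardinal) < lam) : ((5 : ℕ) : Cardinal) ≤ lam + 1 := by
  have h1 : Order.succ ((3 : ℕ) : Cardinal.{u}) ≤ lam := Order.succ_le_of_lt (by exact_mod_cast h)
  rw [Cardinal.succ_natCast] at h1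
  have h2 : ((3 : ℕ) : Cardinal.{u}) + 1 + 1 ≤ lam + 1 := by gcongr
  have h3 : ((5 : ℕ) : Cardinal.{u}) = ((3 : ℕ) : Cardinal.{u}) + 1 + 1 := by norm_num
  rw [h3]; exact h2

lemma three_card4 {lam : Cardinal.{u}} (h : (3 : Cardinal) ≤ lam) : ((3 + 1 : ℕ) : Cardinal) ≤ lam + 1 := by
  have h3 : ((3 + 1 : ℕ) : Cardinal.{u}) = (3 : Cardinal.{u}) + 1 := by norm_num
  rw [h3]; gcongr

open Classical in
/-- the colouring of the non-combs -/
noncomputable def three_h {V Γ : Type u} (T : Set V → Prop) (c0 c1 : Γ) (e : Finset V) : Γ :=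
  if T (↑e : Set V) then c1 else c0

lemma three_other (hD : TreeDist D) {f : Finset L → Γ} {T : Set V → Prop} {c0 c1 ν : Γ}
    (h0 : ν ≠ c0) (h1 : ν ≠ c1) {e : Finset V} (h : gcol D f (three_h T c0 c1) e = ν) :
    Comb D (↑e : Set V) := by
  by_contra hc
  rw [gcol, if_neg hc, three_h] at h
  split_ifs at h
  · exact h1 h.symm
  · exact h0 h.symm

lemma three_four {V : Type u} {x y z w : V} (hxy : x ≠ y) (hxz : x ≠ z) (hxw : x ≠ w)
    (hyz : y ≠ z) (hyw : y ≠ w) (hzw : z ≠ w) :
    ∃ e : Finset V, e.card = 4 ∧ (↑e : Set V) = {x, y, z, w} := by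
  classical
  refine ⟨{x, y, z, w}, ?_, by simp⟩
  rw [Finset.card_insert_of_notMem, Finset.card_insert_of_notMem, Finset.card_insert_of_notMem,
    Finset.card_singleton]
  · simpa using hzw
  · simp [hyz, hyw]
  · simp [hxy, hxz, hxw]

theorem three_infinite [WellFoundedLT V] [WellFoundedLT L] (hD : TreeDist D) {H : Set V}
    (hH : ℵ₀ ≤ #H)
    (hno : ∀ x y x' y', x ≠ y → x' ∈ cone D H x (D x y) → y' ∈ cone D H y (D x y) →
      x' ≠ x → y' ≠ y → x ∈ H → y ∈ H → ℵ₀ ≤ #(cone D H x (D x y)) →
      ℵ₀ ≤ #(cone D H y (D x y)) → False) :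
    ∃ H' ⊆ H, #H' = #H ∧ Comb D H' := by
  classical
  refine extract hD ℵ₀ Cardinal.isRegular_aleph0 hH ?_
  intro x hx y hy hxy
  by_contra hcon
  push Not at hcon
  have pick : ∀ (A : Set V) (a : V), ℵ₀ ≤ #A → ∃ a' ∈ A, a' ≠ a := by
    intro A a hA
    have hinf : A.Infinite := Cardinal.aleph0_le_mk_iff.mp hA |> Set.infinite_coe_iff.mp
    obtain ⟨a', ha', hne⟩ := (hinf.sdiff (Set.finite_singleton a)).nonempty
    exact ⟨a', ha', hne⟩
  obtain ⟨x', hx', hx'ne⟩ := pick _ x hcon.1
  obtain ⟨y', hy', hy'ne⟩ := pick _ y hcon.2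
  exact hno x y x' y' hxy hx' hy' hx'ne hy'ne hx hy hcon.1 hcon.2

lemma three_pick {V : Type u} (A : Set V) (a b : V) (hA : ℵ₀ ≤ #A) : ∃ a' ∈ A, a' ≠ a ∧ a' ≠ b := by
  have hinf : A.Infinite := Cardinal.aleph0_le_mk_iff.mp hA |> Set.infinite_coe_iff.mp
  obtain ⟨a', ha', hne⟩ := (hinf.sdiff ((Set.finite_singleton b).insert a)).nonempty
  simp only [Set.mem_insert_iff, Set.mem_singleton_iff, not_or] at hne
  exact ⟨a', ha', hne⟩

lemma three_bal_of_cones {V L : Type u} [LinearOrder L] {D : V → V → L} (hD : TreeDist D)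
    {H : Set V} {x y x' y' : V} (hxy : x ≠ y)
    (hx : x ∈ H) (hy : y ∈ H) (hx' : x' ∈ cone D H x (D x y)) (hy' : y' ∈ cone D H y (D x y))
    (hx'ne : x' ≠ x) (hy'ne : y' ≠ y) : three_Bal D x x' y y' := by
  have hxA : x ∈ cone D H x (D x y) := mem_cone_self hx
  have hyB : y ∈ cone D H y (D x y) := mem_cone_self hy
  refine ⟨hx'ne.symm, hxy, (cross_eq hD hxy hxA hy').1, (cross_eq hD hxy hx' hyB).1,
    (cross_eq hD hxy hx' hy').1, hy'ne.symm, cone_within hD hxA hx' hx'ne.symm,
    cone_within hD hyB hy' hy'ne.symm⟩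

/-- JOB: `r = 3`, `lam c0` infinite and `lam c1` infinite, or `lam c1 > 3` and the colour `c1` is
not used by `f`. -/
theorem step_three_free [WellFoundedLT V] [WellFoundedLT L] (hD : TreeDist D)
    {lam : Γ → Cardinal.{u}} {f : Finset L → Γ} (hf : NA lam 3 f)
    (hlam : ∀ ν, (3 : Cardinal) ≤ lam ν) {c0 c1 : Γ} (hne : c1 ≠ c0) (hc0 : ℵ₀ ≤ lam c0)
    (hc1 : ℵ₀ ≤ lam c1 ∨ ((3 : Cardinal) < lam c1 ∧ ∀ s, f s ≠ c1)) :
    ∃ g : Finset V → Γ, NA (fun ν => lam ν + 1) 4 g := by
  classical
  refine ⟨gcol D f (three_h (three_T D) c0 c1), ?_⟩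
  refine assemble hD (by norm_num) hf _ ?_
  intro ν H hH hhom
  by_cases h0 : ν = c0
  · subst h0
    have hinf : ℵ₀ ≤ #H := by rw [hH]; exact hc0.trans le_self_add
    refine three_infinite hD hinf ?_
    intro x y x' y' hxy hx' hy' hx'ne hy'ne hx hy _ _
    have hb := three_bal_of_cones hD hxy hx hy hx' hy' hx'ne hy'ne
    have hb' := hb
    obtain ⟨a1, a2, a3, a4, a5, a6, -⟩ := hb'
    obtain ⟨e, he1, he2⟩ := three_four a1 a2 a3 a4 a5 a6
    have hT : three_T D (↑e : Set V) := ⟨x, x', y, y', he2, hb⟩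
    have hsub : (↑e : Set V) ⊆ H := by
      rw [he2]
      rintro v (h | h | h | h)
      · rw [h]; exact hx
      · rw [h]; exact hx'.1
      · rw [h]; exact hy
      · have h' : v = y' := h
        rw [h']; exact hy'.1
    have h1 := hhom e he1 hsub
    rw [gcol, if_neg (three_not_comb hD hT), three_h, if_pos hT] at h1
    exact hne h1
  by_cases h1 : ν = c1
  · subst h1
    have hdich : ∀ e : Finset V, e.card = 4 → (↑e : Set V) ⊆ H → 
        Comb D (↑e : Set V) ∨ three_T D (↑e : Set V) := by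
      intro e he1 he2
      by_contra hcon
      push Not at hcon
      have h1 := hhom e he1 he2
      rw [gcol, if_neg hcon.1, three_h, if_neg hcon.2] at h1
      exact h0 h1.symm
    rcases hc1 with hc1 | ⟨hc1, hun⟩
    · have hinf : ℵ₀ ≤ #H := by rw [hH]; exact hc1.trans le_self_add
      refine three_infinite hD hinf ?_
      intro x y x1 y1 hxy hx1 hy1 hx1ne hy1ne hx hy hAinf hBinf
      obtain ⟨x2, hx2, hx2ne, hx2ne'⟩ := three_pick _ x x1 hAinf
      obtain ⟨y2, hy2, hy2ne, hy2ne'⟩ := three_pick _ y y1 hBinf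
      have hxA : x ∈ cone D H x (D x y) := mem_cone_self hx
      have hyB : y ∈ cone D H y (D x y) := mem_cone_self hy
      have key1 : y < x := by
        obtain ⟨e, he1, he2⟩ := three_four hx1ne.symm hx2ne.symm hxy hx2ne'.symm
          (cross_eq hD hxy hx1 hyB).1 (cross_eq hD hxy hx2 hyB).1
        have hsub : (↑e : Set V) ⊆ H := by
          rw [he2]
          rintro v (h | h | h | h)
          · rw [h]; exact hx
          · rw [h]; exact hx1.1
          · rw [h]; exact hx2.1
          · have h' : v = y := h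
            rw [h']; exact hy
        rcases hdich e he1 hsub with hcm | hT
        · refine three_lt hD hcm (x1 := x1) ?_ ?_ ?_ hx1ne.symm hxy (cross_eq hD hxy hx1 hyB).1
            (cross_eq hD hxy hx1 hyB).2 (cone_within hD hxA hx1 hx1ne.symm) <;> rw [he2] <;> simp
        · exfalso
          refine three_nc hD hT (s := y) (by rw [he2]; simp) (D x y) ?_
          intro u hu huy
          rw [he2] at hu
          rcases hu with h | h | h | h
          · rw [h, hD.symm]
          · rw [h, hD.symm]; exact (cross_eq hD hxy hx1 hyB).2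
          · rw [h, hD.symm]; exact (cross_eq hD hxy hx2 hyB).2
          · exact absurd h huy
      have key2 : x < y := by
        obtain ⟨e, he1, he2⟩ := three_four hy1ne.symm hy2ne.symm hxy.symm hy2ne'.symm
          (cross_eq hD hxy hxA hy1).1.symm (cross_eq hD hxy hxA hy2).1.symm
        have hsub : (↑e : Set V) ⊆ H := by
          rw [he2]
          rintro v (h | h | h | h)
          · rw [h]; exact hy
          · rw [h]; exact hy1.1
          · rw [h]; exact hy2.1
          · have h' : v = x := h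
            rw [h']; exact hx
        rcases hdich e he1 hsub with hcm | hT
        · refine three_lt hD hcm (x1 := y1) ?_ ?_ ?_ hy1ne.symm hxy.symm
            (cross_eq hD hxy hxA hy1).1.symm ?_ ?_
          · rw [he2]; simp
          · rw [he2]; simp
          · rw [he2]; simp
          · rw [hD.symm y1 x, hD.symm y x]; exact (cross_eq hD hxy hxA hy1).2
          · rw [hD.symm y x]; exact cone_within hD hyB hy1 hy1ne.symm
        · exfalso
          refine three_nc hD hT (s := x) (by rw [he2]; simp) (D x y) ?_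
          intro u hu huy
          rw [he2] at hu
          rcases hu with h | h | h | h
          · rw [h]
          · rw [h]; exact (cross_eq hD hxy hxA hy1).2
          · rw [h]; exact (cross_eq hD hxy hxA hy2).2
          · exact absurd h huy
      exact lt_asymm key1 key2
    · exfalso
      have hall : ∀ e : Finset V, e.card = 4 → (↑e : Set V) ⊆ H → three_T D (↑e : Set V) := by
        intro e he1 he2
        rcases hdich e he1 he2 with hcm | hT
        · exfalso
          have h1 := hhom e he1 he2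
          rw [gcol, if_pos hcm] at h1
          exact hun _ h1
        · exact hT
      have h5 : ((5 : ℕ) : Cardinal) ≤ #H := by rw [hH]; exact three_card hc1
      have h4 : ((4 : ℕ) : Cardinal) ≤ #H := le_trans (by norm_num) h5
      obtain ⟨E, hE, hE4⟩ := exists_finset_card h4
      obtain ⟨x, y, z, w, heq, hb⟩ := hall E hE4 hE
      obtain ⟨E', hE', hE'H, hE'5⟩ := ext_set hE (n := 5) (by omega) h5
      obtain ⟨s, hs', hs⟩ : ∃ s ∈ E', s ∉ E := by
        by_contra hcon
        push Not at hcon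
        have := Finset.card_le_card (show E' ⊆ E from hcon)
        omega
      have hsH : s ∈ H := hE'H hs'
      have hsE : s ∉ (↑E : Set V) := hs
      rw [heq] at hsE hE
      simp only [Set.mem_insert_iff, Set.mem_singleton_iff, not_or] at hsE
      obtain ⟨hsx, hsy, hsz, hsw⟩ := hsE
      have hxH : x ∈ H := hE (by simp)
      have hyH : y ∈ H := hE (by simp)
      have hzH : z ∈ H := hE (by simp)
      have hwH : w ∈ H := hE (by simp)
      obtain ⟨e1, e2, e3⟩ := three_cross hD hb
      obtain ⟨hxy, hxz, hxw, hyz, hyw, hzw, b1, b2⟩ := hb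
      have fin : ∀ s x y z : V, s ∈ H → x ∈ H → y ∈ H → z ∈ H → s ≠ x → s ≠ y → s ≠ z →
          x ≠ y → x ≠ z → y ≠ z → ∀ d, D s x = d → D s y = d → D s z = d → False := by
        intro s x y z hs hx hy hz h1 h2 h3 h4 h5 h6 d d1 d2 d3
        obtain ⟨e, he1, he2⟩ := three_four h1 h2 h3 h4 h5 h6
        have hsub : (↑e : Set V) ⊆ H := by
          rw [he2]
          rintro v (h | h | h | h)
          · rw [h]; exact hs
          · rw [h]; exact hx
          · rw [h]; exact hy
          · have h' : v = z := h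
            rw [h']; exact hz
        refine three_nc hD (hall e he1 hsub) (s := s) (by rw [he2]; simp) d ?_
        intro u hu huy
        rw [he2] at hu
        rcases hu with h | h | h | h
        · exact absurd h huy
        · rw [h]; exact d1
        · rw [h]; exact d2
        · have h' : u = z := h
          rw [h']; exact d3
      rcases hD.tri hsx hsz hxz with ⟨t1, t2⟩ | ⟨t1, t2⟩ | ⟨t1, t2⟩
      · -- s odd
        have h7 : D s y = D s x := by
          have := hD.iso x s y (Ne.symm hsx) hxy hsy (by rw [hD.symm x s]; exact t2.trans b1)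
          rw [this, hD.symm]
        exact fin s x y z hsH hxH hyH hzH hsx hsy hsz hxy hxz hyz (D s x) rfl h7 t1.symm
      · -- x odd
        exact fin x s z w hxH hsH hzH hwH (Ne.symm hsx) hxz hxw hsz hsw hzw (D x z)
          (by rw [hD.symm]; exact t1) rfl e2
      · -- z odd
        exact fin z x y s hzH hxH hyH hsH hxz.symm hyz.symm (Ne.symm hsz) hxy (Ne.symm hsx)
          (Ne.symm hsy) (D x z) (by rw [hD.symm]) (by rw [hD.symm]; exact e1)
          (by rw [hD.symm]; exact t1)
  · refine ⟨H, Subset.rfl, rfl, ?_⟩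
    refine all_comb (r := 3) (by norm_num) (by rw [hH]; exact three_card4 (hlam ν)) ?_
    intro e he1 he2
    exact three_other hD h0 h1 (hhom e he1 he2)

/-- alternating balanced sets -/
def three_T2 {V L : Type u} [LinearOrder V] [LinearOrder L] (D : V → V → L) (e : Set V) : Prop :=
  ∃ a b c d, a < b ∧ b < c ∧ c < d ∧ e = {a, b, c, d} ∧ D a b < D a c ∧ D a b < D b d ∧
    D b c = D a b ∧ D a d = D a b ∧ D c d = D a b

lemma three_T_of_T2 {e : Set V} (h : three_T2 D e) : three_T D e := by
  obtain ⟨a, b, c, d, hab, hbc, hcd, he, h1, h2, h3, h4, h5⟩ := h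
  refine ⟨a, c, b, d, ?_, (hab.trans hbc).ne, hab.ne, (hab.trans (hbc.trans hcd)).ne, hbc.ne',
    hcd.ne, (hbc.trans hcd).ne, h1, h2⟩
  rw [he]
  ext v
  simp only [Set.mem_insert_iff, Set.mem_singleton_iff]
  tauto

/-- JOB: `r = 3`, `lam c0` infinite regular, `lam c1 > 3`. -/
theorem step_three_regular [WellFoundedLT V] [WellFoundedLT L] (hD : TreeDist D)
    {lam : Γ → Cardinal.{u}} {f : Finset L → Γ} (hf : NA lam 3 f)
    (hlam : ∀ ν, (3 : Cardinal) ≤ lam ν) {c0 c1 : Γ} (hne : c1 ≠ c0)
    (hc0 : (lam c0).IsRegular) (hc1 : (3 : Cardinal) < lam c1) :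
    ∃ g : Finset V → Γ, NA (fun ν => lam ν + 1) 4 g := by
  classical
  refine ⟨gcol D f (three_h (three_T2 D) c0 c1), ?_⟩
  refine assemble hD (by norm_num) hf _ ?_
  intro ν H hH hhom
  by_cases h0 : ν = c0
  · subst h0
    have hH' : #H = lam ν := by
      rw [hH]; exact Cardinal.add_one_eq hc0.aleph0_le
    rcases regular_dichotomy hD (H := H) (by rw [hH']; exact hc0) with h | h
    · exact h
    exfalso
    obtain ⟨a, ha, b, hb, c, hc, d, hd, hab, hbc, hcd, h1, h2, h3, h4, h5⟩ := h
    obtain ⟨e, he1, he2⟩ := three_four hab.ne (hab.trans hbc).ne (hab.trans (hbc.trans hcd)).ne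
      hbc.ne (hbc.trans hcd).ne hcd.ne
    have hT : three_T2 D (↑e : Set V) := ⟨a, b, c, d, hab, hbc, hcd, he2, h1, h2, h3, h4, h5⟩
    have hsub : (↑e : Set V) ⊆ H := by
      rw [he2]
      rintro v (h | h | h | h)
      · rw [h]; exact ha
      · rw [h]; exact hb
      · rw [h]; exact hc
      · have h' : v = d := h
        rw [h']; exact hd
    have h1 := hhom e he1 hsub
    rw [gcol, if_neg (three_not_comb hD (three_T_of_T2 hT)), three_h, if_pos hT] at h1
    exact hne h1
  by_cases h1 : ν = c1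
  · subst h1
    refine ⟨H, Subset.rfl, rfl, ?_⟩
    have hdich : ∀ e : Finset V, e.card = 4 → (↑e : Set V) ⊆ H → 
        Comb D (↑e : Set V) ∨ three_T2 D (↑e : Set V) := by
      intro e he1 he2
      by_contra hcon
      push Not at hcon
      have h1 := hhom e he1 he2
      rw [gcol, if_neg hcon.1, three_h, if_neg hcon.2] at h1
      exact h0 h1.symm
    refine all_comb (r := 3) (by norm_num) (by rw [hH]; exact three_card4 (hlam ν)) ?_
    intro E hE4 hE
    rcases hdich E hE4 hE with hcm | hT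
    · exact hcm
    exfalso
    obtain ⟨a, b, c, d, hab, hbc, hcd, heq, t1, t2, t3, t4, t5⟩ := hT
    have h5 : ((5 : ℕ) : Cardinal) ≤ #H := by rw [hH]; exact three_card hc1
    obtain ⟨E', hE', hE'H, hE'5⟩ := ext_set hE (n := 5) (by omega) h5
    obtain ⟨s, hs', hs⟩ : ∃ s ∈ E', s ∉ E := by
      by_contra hcon
      push Not at hcon
      have := Finset.card_le_card (show E' ⊆ E from hcon)
      omega
    have hsH : s ∈ H := hE'H hs'
    have hsE : s ∉ (↑E : Set V) := hs
    rw [heq] at hsE hE
    simp only [Set.mem_insert_iff, Set.mem_singleton_iff, not_or] at hsE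
    obtain ⟨hsa, hsb, hsc, hsd⟩ := hsE
    have haH : a ∈ H := hE (by simp)
    have hbH : b ∈ H := hE (by simp)
    have hcH : c ∈ H := hE (by simp)
    have hdH : d ∈ H := hE (by simp)
    have fin : ∀ s x y z : V, s ∈ H → x ∈ H → y ∈ H → z ∈ H → s ≠ x → s ≠ y → s ≠ z →
        x ≠ y → x ≠ z → y ≠ z → ∀ d, D s x = d → D s y = d → D s z = d →
        ∀ p q r : V, p ∈ ({s, x, y, z} : Set V) → q ∈ ({s, x, y, z} : Set V) →
        r ∈ ({s, x, y, z} : Set V) → p < q → q < r → D q r = D p q → False := by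
      intro s x y z hs hx hy hz h1 h2 h3 h4 h5 h6 d d1 d2 d3 p q r hp hq hr hpq hqr hd
      obtain ⟨e, he1, he2⟩ := three_four h1 h2 h3 h4 h5 h6
      have hsub : (↑e : Set V) ⊆ H := by
        rw [he2]
        rintro v (h | h | h | h)
        · rw [h]; exact hs
        · rw [h]; exact hx
        · rw [h]; exact hy
        · have h' : v = z := h
          rw [h']; exact hz
      rcases hdich e he1 hsub with hcm | hT
      · rw [he2] at hcm
        have := hcm p hp q hq r hr hpq hqr
        rw [hd] at this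
        exact lt_irrefl _ this
      · refine three_nc hD (three_T_of_T2 hT) (s := s) (by rw [he2]; simp) d ?_
        intro u hu huy
        rw [he2] at hu
        rcases hu with h | h | h | h
        · exact absurd h huy
        · rw [h]; exact d1
        · rw [h]; exact d2
        · have h' : u = z := h
          rw [h']; exact d3
    have hac : a ≠ c := (hab.trans hbc).ne
    rcases hD.tri hsa hsb hab.ne with ⟨u1, u2⟩ | ⟨u1, u2⟩ | ⟨u1, u2⟩
    · -- s odd
      have h7 : D s c = D s a := by
        have := hD.iso a s c (Ne.symm hsa) hac hsc (by rw [hD.symm a s]; exact u2.trans t1)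
        rw [this, hD.symm]
      exact fin s a b c hsH haH hbH hcH hsa hsb hsc hab.ne hac hbc.ne (D s a) rfl u1.symm h7
        a b c (by simp) (by simp) (by simp) hab hbc t3
    · -- a odd, s joins b
      have h7 : D c s = D a b := by
        have h8 : D b c < D b s := by rw [t3, hD.symm b s, ← u1]; exact u2
        have := hD.iso b c s hbc.ne (Ne.symm hsb) (Ne.symm hsc) h8
        rw [this, t3]
      exact fin c b d s hcH hbH hdH hsH hbc.ne' hcd.ne (Ne.symm hsc) (hbc.trans hcd).ne
        (Ne.symm hsb) (Ne.symm hsd) (D a b) (by rw [hD.symm]; exact t3) t5 h7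
        b c d (by simp) (by simp) (by simp) hbc hcd (by rw [t5, t3])
    · -- b odd, s joins a
      exact fin b a c s hbH haH hcH hsH hab.ne' hbc.ne (Ne.symm hsb) hac (Ne.symm hsa)
        (Ne.symm hsc) (D a b) (by rw [hD.symm]) t3 (by rw [hD.symm]; exact u1)
        a b c (by simp) (by simp) (by simp) hab hbc t3
  · refine ⟨H, Subset.rfl, rfl, ?_⟩
    refine all_comb (r := 3) (by norm_num) (by rw [hH]; exact three_card4 (hlam ν)) ?_
    intro e he1 he2
    exact three_other hD h0 h1 (hhom e he1 he2)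

end Pool.Agent.H330
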