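import Mathlib
import Pool.Agent.H330.Three
import Pool.Agent.H330.TreeEx
import Pool.Agent.H330.Block

open Cardinal Set

universe u

namespace Pool.Agent.H330

variable {V L Γ : Type u} [LinearOrder V] [LinearOrder L] {D : V → V → L}

/-- uniqueness of the sorted form of a triple -/
lemma sorted_unique3 {a b c a' b' c' : L} (h1 : a < b) (h2 : b < c)
    (h1' : a' < b') (h2' : b' < c')
    (h : ∀ v, (v = a ∨ v = b ∨ v = c) ↔ (v = a' ∨ v = b' ∨ v = c')) :
    a = a' ∧ b = b' ∧ c = c' := by
  have ha := (h a).mp (Or.inl rfl)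
  have hb := (h b).mp (Or.inr (Or.inl rfl))
  have hc := (h c).mp (Or.inr (Or.inr rfl))
  have ha' := (h a').mpr (Or.inl rfl)
  have hb' := (h b').mpr (Or.inr (Or.inl rfl))
  have hc' := (h c').mpr (Or.inr (Or.inr rfl))
  have e1 : a = a' := by
    apply le_antisymm
    · rcases ha' with r | r | r <;> rw [r]
      · exact h1.le
      · exact (h1.trans h2).le
    · rcases ha with r | r | r <;> rw [r]
      · exact h1'.le
      · exact (h1'.trans h2').le
  have e3 : c = c' := by
    apply le_antisymm
    · rcases hc with r | r | r <;> rw [r]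
      · exact (h1'.trans h2').le
      · exact h2'.le
    · rcases hc' with r | r | r <;> rw [r]
      · exact (h1.trans h2).le
      · exact h2.le
  have e2 : b = b' := by
    rcases hb' with r | r | r
    · exact absurd (r.trans e1) h1'.ne'
    · exact r.symm
    · exact absurd (r.trans e3) h2'.ne
  exact ⟨e1, e2, e3⟩

/-- `r = 3`, `#L ≤ 2^ρ` with `ρ < lam c0`. -/
theorem step_three_small [WellFoundedLT V] [WellFoundedLT L] (hD : TreeDist D)
    {lam : Γ → Cardinal.{u}} (hlam : ∀ ν, (3 : Cardinal) ≤ lam ν) {c0 c1 : Γ} (hne : c1 ≠ c0)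
    (hc1 : (3 : Cardinal) < lam c1) (hL : ℵ₀ ≤ #L) {ρ : Cardinal.{u}}
    (hρ : ρ < lam c0) (hLρ : #L ≤ 2 ^ ρ) :
    ∃ g : Finset V → Γ, NA (fun ν => lam ν + 1) 4 g := by
  classical
  have hρinf : ℵ₀ ≤ ρ := by
    by_contra hcon
    push Not at hcon
    have h1 : (2 : Cardinal.{u}) ^ ρ < ℵ₀ := Cardinal.power_lt_aleph0
      (by exact_mod_cast Cardinal.natCast_lt_aleph0 (n := 2)) hcon
    exact absurd (hL.trans hLρ) (not_le.mpr h1)
  have hRne : Nonempty ρ.ord.ToType := by
    rw [← Cardinal.mk_ne_zero_iff, Cardinal.mk_ord_toType]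
    exact (Cardinal.aleph0_pos.trans_le hρinf).ne'
  obtain ⟨D', φ, hD', hφ⟩ := exists_treeDist ρ.ord.ToType L (by
    rw [Cardinal.mk_ord_toType]; exact hLρ)
  let Q : Finset L → Prop := fun s => ∃ a b c, a < b ∧ b < c ∧ (∀ x, x ∈ s ↔ x = a ∨ x = b ∨ x = c)
    ∧ D' b c = D' a b ∧ D' a b < D' a c
  let f : Finset L → Γ := fun s => if Q s then c1 else c0
  have hfQ : ∀ s, Q s → f s = c1 := fun s hs => if_pos hs
  have hfnQ : ∀ s, ¬ Q s → f s = c0 := fun s hs => if_neg hs
  let lam' : Γ → Cardinal.{u} := Function.update lam c0 (Order.succ ρ)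
  have hl0 : lam' c0 = Order.succ ρ := Function.update_self _ _ _
  have hl1 : ∀ ν, ν ≠ c0 → lam' ν = lam ν := fun ν h => Function.update_of_ne h _ _
  have hreg : (Order.succ ρ).IsRegular := Cardinal.isRegular_succ hρinf
  have hNA : NA lam' 3 f := by
    intro ν Y hY
    by_cases h0 : ν = c0
    · subst h0
      rw [hl0] at hY
      obtain ⟨a, ha, b, hb, c, hc, hab, hbc, h1, h2⟩ := odd_mid_exists hD' (H := Y)
        (by rw [hY]; exact hreg) (by rw [hY, Cardinal.mk_ord_toType]; exact Order.lt_succ ρ)
      refine ⟨{a, b, c}, ?_, ?_, ?_⟩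
      · rw [Finset.card_insert_of_notMem (by simp [hab.ne, (hab.trans hbc).ne]),
          Finset.card_insert_of_notMem (by simp [hbc.ne]), Finset.card_singleton]
      · intro v hv
        simp only [Finset.coe_insert, Finset.coe_singleton, Set.mem_insert_iff,
          Set.mem_singleton_iff] at hv
        rcases hv with rfl | rfl | rfl <;> assumption
      · rw [hfQ _ ⟨a, b, c, hab, hbc, by intro x; simp, h1, h2⟩]
        exact hne
    · rw [hl1 ν h0] at hY
      by_cases h1 : ν = c1
      · subst h1
        by_contra hcon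
        push Not at hcon
        -- four points
        have h4 : ((4 : ℕ) : Cardinal) ≤ #Y := by
          rw [hY]
          have h1' : ((3 : ℕ) : Cardinal) < lam ν := by exact_mod_cast hc1
          have := Order.succ_le_of_lt h1'
          rw [Cardinal.succ_natCast] at this
          exact_mod_cast this
        obtain ⟨E, hE, hE4⟩ := exists_finset_card h4
        let o := E.orderEmbOfFin hE4
        have hlt : ∀ i j : Fin 4, i < j → o i < o j := fun i j h => o.strictMono h
        have hmem : ∀ i, o i ∈ Y := fun i => hE (E.orderEmbOfFin_mem hE4 i)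
        have key : ∀ i j k : Fin 4, i < j → j < k →
            D' (o j) (o k) = D' (o i) (o j) ∧ D' (o i) (o j) < D' (o i) (o k) := by
          intro i j k hij hjk
          have hcol : f {o i, o j, o k} = ν := by
            apply hcon
            · rw [Finset.card_insert_of_notMem (by
                  simp [(hlt i j hij).ne, (hlt i k (hij.trans hjk)).ne]),
                Finset.card_insert_of_notMem (by simp [(hlt j k hjk).ne]), Finset.card_singleton]
            · intro v hv
              simp only [Finset.coe_insert, Finset.coe_singleton, Set.mem_insert_iff,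
                Set.mem_singleton_iff] at hv
              rcases hv with rfl | rfl | rfl
              · exact hmem i
              · exact hmem j
              · exact hmem k
          by_cases hQ : Q {o i, o j, o k}
          · obtain ⟨a, b, c, hab, hbc, hs, q1, q2⟩ := hQ
            obtain ⟨rfl, rfl, rfl⟩ := sorted_unique3 (hlt i j hij) (hlt j k hjk) hab hbc (by
              intro v
              have := hs v
              simpa using this)
            exact ⟨q1, q2⟩
          · rw [hfnQ _ hQ] at hcol
            exact absurd hcol.symm hne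
        have k1 := key 0 1 2 (by decide) (by decide)
        have k2 := key 1 2 3 (by decide) (by decide)
        have k3 := key 0 1 3 (by decide) (by decide)
        -- D'12 = D'01, D'23 = D'12 < D'13, D'13 = D'01
        have : D' (o 1) (o 2) < D' (o 1) (o 3) := k2.2
        rw [k3.1, k1.1] at this
        exact lt_irrefl _ this
      · have h3 : ((3 : ℕ) : Cardinal) ≤ #Y := by rw [hY]; exact_mod_cast hlam ν
        obtain ⟨E, hE, hE3⟩ := exists_finset_card h3
        refine ⟨E, hE3, hE, ?_⟩
        by_cases hQ : Q E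
        · rw [hfQ _ hQ]; exact Ne.symm h1
        · rw [hfnQ _ hQ]; exact Ne.symm h0
  have hlam' : ∀ ν, (3 : Cardinal) ≤ lam' ν := by
    intro ν
    by_cases h0 : ν = c0
    · rw [h0, hl0]
      have : ((3 : ℕ) : Cardinal.{u}) < ℵ₀ := Cardinal.natCast_lt_aleph0
      exact_mod_cast (this.le.trans hρinf).trans (Order.le_succ ρ)
    · rw [hl1 ν h0]; exact hlam ν
  obtain ⟨g, hg⟩ := step_three_regular hD hNA hlam' hne (by rw [hl0]; exact hreg)
    (by rw [hl1 c1 hne]; exact hc1)
  refine ⟨g, hg.mono ?_⟩
  intro ν
  refine add_le_add ?_ le_rfl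
  by_cases h0 : ν = c0
  · rw [h0, hl0]; exact Order.succ_le_of_lt hρ
  · rw [hl1 ν h0]

end Pool.Agent.H330
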