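import Mathlib
import Pool.Agent.H330.Tree
import Pool.Agent.H330.Block
import Pool.Agent.H330.Cof
import Pool.Agent.H330.TreeEx

open Cardinal Set

universe u v

namespace Pool.Agent.H330

variable {V L Γ : Type u} [LinearOrder V] [LinearOrder L] {D : V → V → L}

lemma strong_sorted3 {L : Type u} [LinearOrder L] {a b c a' b' c' : L} (h1 : a < b) (h2 : b < c)
    (h1' : a' < b') (h2' : b' < c') (h : ∀ x, (x = a ∨ x = b ∨ x = c) ↔ (x = a' ∨ x = b' ∨ x = c')) :
    a = a' ∧ b = b' ∧ c = c' := by
  have ha := (h a).1 (Or.inl rfl)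
  have hb := (h b).1 (Or.inr (Or.inl rfl))
  have hc := (h c).1 (Or.inr (Or.inr rfl))
  have ha' := (h a').2 (Or.inl rfl)
  have hb' := (h b').2 (Or.inr (Or.inl rfl))
  have hc' := (h c').2 (Or.inr (Or.inr rfl))
  have e1 : a = a' := by
    rcases ha with ha | ha | ha
    · exact ha
    · rcases ha' with k | k | k
      · exact k.symm
      · exfalso
        have : a < a' := by rw [k]; exact h1
        rw [ha] at this
        exact lt_asymm this h1'
      · exfalso
        have : a < a' := by rw [k]; exact h1.trans h2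
        rw [ha] at this
        exact lt_asymm this h1'
    · rcases ha' with k | k | k
      · exact k.symm
      · exfalso
        have : a < a' := by rw [k]; exact h1
        rw [ha] at this
        exact lt_asymm this (h1'.trans h2')
      · exfalso
        have : a < a' := by rw [k]; exact h1.trans h2
        rw [ha] at this
        exact lt_asymm this (h1'.trans h2')
  have e3 : c = c' := by
    rcases hc with hc | hc | hc
    · exfalso
      rw [← e1] at hc
      rw [hc] at h2
      exact lt_asymm h1 h2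
    · rcases hc' with k | k | k
      · exfalso; rw [e1] at k; rw [k] at h2'; exact lt_asymm h1' h2'
      · exfalso
        have h5 : c < c := by
          calc c = b' := hc
            _ < c' := h2'
            _ = b := k
            _ < c := h2
        exact lt_irrefl _ h5
      · exact k.symm
    · exact hc
  have e2 : b = b' := by
    rcases hb with hb | hb | hb
    · exfalso; rw [← e1] at hb; rw [hb] at h1; exact lt_irrefl _ h1
    · exact hb
    · exfalso; rw [← e3] at hb; rw [hb] at h2; exact lt_irrefl _ h2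
  exact ⟨e1, e2, e3⟩

/-- the explicit colouring -/
def strong_P {L Θ : Type u} [LinearOrder L] [LinearOrder Θ] (bl : L → Θ) (s : Finset L) : Prop :=
  ∃ a b c, a < b ∧ b < c ∧ (∀ x, x ∈ s ↔ x = a ∨ x = b ∨ x = c) ∧ bl a = bl b ∧ bl b < bl c

lemma strong_P_sorted {L Θ : Type u} [LinearOrder L] [LinearOrder Θ] {bl : L → Θ} {s : Finset L}
    (h : strong_P bl s) {a b c : L} (h1 : a < b) (h2 : b < c)
    (hs : ∀ x, x ∈ s ↔ x = a ∨ x = b ∨ x = c) : bl a = bl b ∧ bl b < bl c := by
  obtain ⟨a', b', c', h1', h2', hs', e1, e2⟩ := h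
  obtain ⟨r1, r2, r3⟩ := strong_sorted3 h1 h2 h1' h2' (fun x => (hs x).symm.trans (hs' x))
  subst r1 r2 r3
  exact ⟨e1, e2⟩

/-- JOB: `r = 3`, the infinite entry `lam c0 = κ` is a singular strong limit. -/
theorem step_three_strong [WellFoundedLT V] {κ : Cardinal.{u}}
    {D : V → V → κ.ord.ToType} (hD : TreeDist D) (φ : V → κ.ord.ToType → Bool)
    (hφ : ∀ x y, x ≠ y → φ x (D x y) ≠ φ y (D x y)) {lam : Γ → Cardinal.{u}}
    (hlam : ∀ ν, (3 : Cardinal) ≤ lam ν) {c0 c1 : Γ} (hne : c1 ≠ c0) (hc0 : lam c0 = κ)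
    (hκ : ℵ₀ ≤ κ) (hsing : κ.ord.cof < κ) (hstrong : ∀ ρ < κ, (2 : Cardinal.{u}) ^ ρ < κ)
    (hc1 : (3 : Cardinal) < lam c1) :
    ∃ g : Finset V → Γ, NA (fun ν => lam ν + 1) 4 g := by
  classical
  obtain ⟨m, hm1, hm2, hm3⟩ := cofmap κ
  have hsucc : ∀ ρ < κ, Order.succ ρ < κ := fun ρ hρ =>
    lt_of_le_of_lt (Order.succ_le_of_lt (Cardinal.cantor ρ)) (hstrong ρ hρ)
  have hex : ∀ l : κ.ord.ToType, ({i | #(Iio l) ≤ m i} : Set κ.ord.cof.ord.ToType).Nonempty := by
    intro l
    obtain ⟨i, hi⟩ := hm3 _ (Cardinal.mk_Iio_toType_ord_lt l)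
    exact ⟨i, hi⟩
  let bl : κ.ord.ToType → κ.ord.cof.ord.ToType := fun l => wellFounded_lt.min _ (hex l)
  have hbl0 : ∀ l, #(Iio l) ≤ m (bl l) := fun l => wellFounded_lt.min_mem _ (hex l)
  have hbl : Monotone bl := by
    intro l l' hll
    by_contra hc
    push Not at hc
    have h1 : #(Iio l) ≤ m (bl l') :=
      (Cardinal.mk_le_mk_of_subset (Iio_subset_Iio hll)).trans (hbl0 l')
    exact wellFounded_lt.not_lt_min _ (show bl l' ∈ {i | #(Iio l) ≤ m i} from h1) hc
  have hsmall : ∀ k, #({l | bl l ≤ k} : Set κ.ord.ToType) ≤ Order.succ (m k) := by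
    intro k
    obtain ⟨l0, hl0⟩ := exists_mk_Iio (hsucc _ (hm2 k))
    rw [← hl0]
    refine Cardinal.mk_le_mk_of_subset ?_
    intro l hl
    by_contra hc
    have h1 : l0 ≤ l := not_lt.mp hc
    have h2 : #(Iio l0) ≤ #(Iio l) := Cardinal.mk_le_mk_of_subset (Iio_subset_Iio h1)
    have h3 : #(Iio l) ≤ m k := (hbl0 l).trans (hm1 hl)
    rw [hl0] at h2
    exact absurd (h2.trans h3) (not_le.2 (Order.lt_succ _))
  have hsmall' : ∀ k, #({l | bl l ≤ k} : Set κ.ord.ToType) < κ := fun k =>
    lt_of_le_of_lt (hsmall k) (hsucc _ (hm2 k))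
  let f : Finset κ.ord.ToType → Γ := fun s => if strong_P bl s then c1 else c0
  have hmemf : ∀ a b c : κ.ord.ToType, ∀ x, x ∈ ({a, b, c} : Finset κ.ord.ToType) ↔ x = a ∨ x = b ∨ x = c := by
    intro a b c x; simp
  have hcard3 : ∀ a b c : κ.ord.ToType, a < b → b < c → ({a, b, c} : Finset κ.ord.ToType).card = 3 := by
    intro a b c h1 h2
    rw [Finset.card_insert_of_notMem (by simp [h1.ne, (h1.trans h2).ne]),
      Finset.card_insert_of_notMem (by simp [h2.ne]), Finset.card_singleton]
  have hf : NA lam 3 f := by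
    intro ν Y hY
    by_contra hcon
    push Not at hcon
    have hsub3 : ∀ a ∈ Y, ∀ b ∈ Y, ∀ c ∈ Y, a < b → b < c → f {a, b, c} = ν := by
      intro a ha b hb c hc h1 h2
      apply hcon _ (hcard3 a b c h1 h2)
      intro x hx
      rcases (hmemf a b c x).1 (by simpa using hx) with rfl | rfl | rfl <;> assumption
    by_cases h0 : ν = c0
    · subst h0
      rw [hc0] at hY
      have hinf : ℵ₀ ≤ #Y := by rw [hY]; exact hκ
      have hinj : ∀ a ∈ Y, ∀ b ∈ Y, a < b → bl a ≠ bl b := by
        intro a ha b hb hab heq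
        have hsub : Y ⊆ {l | bl l ≤ bl b} := by
          intro c hc
          rcases lt_or_ge b c with h | h
          · show bl c ≤ bl b
            by_contra hlt
            push Not at hlt
            have h1 := hsub3 a ha b hb c hc hab h
            have h2 : strong_P bl {a, b, c} := ⟨a, b, c, hab, h, hmemf a b c, heq, hlt⟩
            have h3 : f {a, b, c} = c1 := if_pos h2
            exact hne (h3.symm.trans h1)
          · exact hbl h
        have := lt_of_le_of_lt (Cardinal.mk_le_mk_of_subset hsub) (hsmall' (bl b))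
        exact this.ne hY
      have h1 : #Y ≤ #κ.ord.cof.ord.ToType := by
        refine Cardinal.mk_le_of_injective (f := fun y : Y => bl y.1) ?_
        intro x y hxy
        rcases lt_trichotomy x.1 y.1 with h | h | h
        · exact absurd hxy (hinj _ x.2 _ y.2 h)
        · exact Subtype.ext h
        · exact absurd hxy.symm (hinj _ y.2 _ x.2 h)
      rw [Cardinal.mk_toType, Cardinal.card_ord, hY] at h1
      exact absurd h1 (not_le.2 hsing)
    · by_cases h1 : ν = c1
      · subst h1
        have h4 : ((4 : ℕ) : Cardinal) ≤ #Y := by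
          rw [hY]
          have h1' : ((3 : ℕ) : Cardinal) < lam ν := by exact_mod_cast hc1
          have := Order.succ_le_of_lt h1'
          rw [Cardinal.succ_natCast] at this
          exact_mod_cast this
        obtain ⟨E, hE, hE4⟩ := exists_finset_card h4
        let e := E.orderEmbOfFin hE4
        have hmem : ∀ i, e i ∈ Y := fun i => hE (E.orderEmbOfFin_mem hE4 i)
        have l01 : e 0 < e 1 := e.strictMono (by decide)
        have l12 : e 1 < e 2 := e.strictMono (by decide)
        have l23 : e 2 < e 3 := e.strictMono (by decide)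
        have q1 := hsub3 _ (hmem 0) _ (hmem 1) _ (hmem 2) l01 l12
        have q2 := hsub3 _ (hmem 1) _ (hmem 2) _ (hmem 3) l12 l23
        have s1 : strong_P bl {e 0, e 1, e 2} := by
          by_contra hc
          have : f {e 0, e 1, e 2} = c0 := if_neg hc
          exact h0 (q1.symm.trans this)
        have s2 : strong_P bl {e 1, e 2, e 3} := by
          by_contra hc
          have : f {e 1, e 2, e 3} = c0 := if_neg hc
          exact h0 (q2.symm.trans this)
        have t1 := (strong_P_sorted s1 l01 l12 (hmemf _ _ _)).2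
        have t2 := (strong_P_sorted s2 l12 l23 (hmemf _ _ _)).1
        rw [t2] at t1
        exact lt_irrefl _ t1
      · have h3 : ((3 : ℕ) : Cardinal) ≤ #Y := by rw [hY]; exact_mod_cast hlam ν
        obtain ⟨E, hE, hE3⟩ := exists_finset_card h3
        have := hcon E hE3 hE
        by_cases hS : strong_P bl E
        · exact h1 (this.symm.trans (if_pos hS))
        · exact h0 (this.symm.trans (if_neg hS))
  refine step_three_block hD hlam hne (by rw [hc0]; exact hκ) hc1 bl hbl hf ?_ ?_
  · intro a b c s h1 h2 hs hfs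
    have hS : strong_P bl s := by
      by_contra hc
      have : f s = c0 := if_neg hc
      exact hne (hfs.symm.trans this)
    exact (strong_P_sorted hS h1 h2 hs).1
  · intro Z k hZ hZk _ _
    rw [hc0] at hZ
    have h1 : #Z ≤ #(({l | bl l ≤ k} : Set κ.ord.ToType) → Bool) := by
      refine Cardinal.mk_le_of_injective (f := fun z : Z => fun l : ({l | bl l ≤ k} : Set κ.ord.ToType) => φ z.1 l.1) ?_
      intro x y hxy
      by_contra hc
      have hxy' : x.1 ≠ y.1 := fun h => hc (Subtype.ext h)
      have hk := hZk x.1 x.2 y.1 y.2 hxy'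
      have := congrFun hxy ⟨D x.1 y.1, hk.le⟩
      exact hφ x.1 y.1 hxy' this
    have h2 : #(({l | bl l ≤ k} : Set κ.ord.ToType) → Bool) < κ := by
      rw [Cardinal.mk_arrow, Cardinal.mk_bool]
      simpa using hstrong _ (hsmall' k)
    exact absurd (hZ.symm.le.trans h1) (not_le.2 h2)
end Pool.Agent.H330
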