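import Mathlib
import Pool.Agent.H330.Tree

open Cardinal Set

universe u v

namespace Pool.Agent.H330

variable {V L Γ : Type u} [LinearOrder V] [LinearOrder L] {D : V → V → L}

/-! ### triples -/

/-- `a < b < c` is the increasing enumeration of `e` -/
def TwoSort (e : Finset V) (a b c : V) : Prop :=
  a < b ∧ b < c ∧ ∀ x, x ∈ e ↔ x = a ∨ x = b ∨ x = c

lemma two_exists {e : Finset V} (he : e.card = 3) : ∃ a b c, TwoSort e a b c := by
  refine ⟨e.orderEmbOfFin he 0, e.orderEmbOfFin he 1, e.orderEmbOfFin he 2, ?_, ?_, ?_⟩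
  · exact (e.orderEmbOfFin he).strictMono (by decide)
  · exact (e.orderEmbOfFin he).strictMono (by decide)
  · intro x
    have h1 : x ∈ e ↔ ∃ i, e.orderEmbOfFin he i = x := by
      have := e.range_orderEmbOfFin he
      rw [← Finset.mem_coe, ← this]
      rfl
    rw [h1]
    constructor
    · rintro ⟨i, rfl⟩
      fin_cases i
      · left; rfl
      · right; left; rfl
      · right; right; rfl
    · rintro (h | h | h)
      exacts [⟨0, h.symm⟩, ⟨1, h.symm⟩, ⟨2, h.symm⟩]

lemma two_unique {e : Finset V} {a b c a' b' c' : V} (h : TwoSort e a b c)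
    (h' : TwoSort e a' b' c') : a = a' ∧ b = b' ∧ c = c' := by
  obtain ⟨h1, h2, h3⟩ := h
  obtain ⟨h1', h2', h3'⟩ := h'
  have ha : a = a' := by
    apply le_antisymm
    · have := (h3 a').1 ((h3' a').2 (Or.inl rfl))
      rcases this with h | h | h
      · exact h.ge
      · rw [h]; exact h1.le
      · rw [h]; exact (h1.trans h2).le
    · have := (h3' a).1 ((h3 a).2 (Or.inl rfl))
      rcases this with h | h | h
      · exact h.ge
      · rw [h]; exact h1'.le
      · rw [h]; exact (h1'.trans h2').le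
  have hc : c = c' := by
    apply le_antisymm
    · have := (h3' c).1 ((h3 c).2 (Or.inr (Or.inr rfl)))
      rcases this with h | h | h
      · rw [h]; exact (h1'.trans h2').le
      · rw [h]; exact h2'.le
      · exact h.le
    · have := (h3 c').1 ((h3' c').2 (Or.inr (Or.inr rfl)))
      rcases this with h | h | h
      · rw [h]; exact (h1.trans h2).le
      · rw [h]; exact h2.le
      · exact h.le
  refine ⟨ha, ?_, hc⟩
  rcases (h3' b).1 ((h3 b).2 (Or.inr (Or.inl rfl))) with h | h | h
  · exfalso
    rw [← ha] at h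
    exact h1.ne' h
  · exact h
  · exfalso
    rw [← hc] at h
    exact h2.ne h

/-- the triple of three increasing points -/
lemma two_triple {a b c : V} (h1 : a < b) (h2 : b < c) :
    ∃ e : Finset V, e.card = 3 ∧ TwoSort e a b c := by
  classical
  refine ⟨{a, b, c}, ?_, h1, h2, fun x => by simp⟩
  rw [Finset.card_eq_three]
  exact ⟨a, b, c, h1.ne, (h1.trans h2).ne, h2.ne, rfl⟩

lemma TwoSort.sub {e : Finset V} {a b c : V} (h : TwoSort e a b c) {H : Set V} (ha : a ∈ H)
    (hb : b ∈ H) (hc : c ∈ H) : (↑e : Set V) ⊆ H := by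
  intro x hx
  rcases (h.2.2 x).1 hx with h | h | h <;> rw [h] <;> assumption

lemma TwoSort.comb_iff {e : Finset V} {a b c : V} (h : TwoSort e a b c) :
    Comb D (↑e : Set V) ↔ D a b < D b c := by
  constructor
  · intro hc
    exact hc a ((h.2.2 a).2 (Or.inl rfl)) b ((h.2.2 b).2 (Or.inr (Or.inl rfl))) c
      ((h.2.2 c).2 (Or.inr (Or.inr rfl))) h.1 h.2.1
  · intro hlt x hx y hy z hz hxy hyz
    have hs : TwoSort e x y z := by
      refine ⟨hxy, hyz, fun w => ?_⟩
      have hx' := (h.2.2 x).1 hx
      have hy' := (h.2.2 y).1 hy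
      have hz' := (h.2.2 z).1 hz
      have hab := h.1
      have hbc := h.2.1
      have hxz := hxy.trans hyz
      have hac := hab.trans hbc
      have e1 : x = a ∧ y = b ∧ z = c := by
        rcases hx' with rfl | rfl | rfl
        · rcases hy' with rfl | rfl | rfl
          · exact absurd hxy (lt_irrefl _)
          · rcases hz' with rfl | rfl | rfl
            · exact absurd hxz (lt_irrefl _)
            · exact absurd hyz (lt_irrefl _)
            · exact ⟨rfl, rfl, rfl⟩
          · rcases hz' with rfl | rfl | rfl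
            · exact absurd hxz (lt_irrefl _)
            · exact absurd hyz (lt_asymm hbc)
            · exact absurd hyz (lt_irrefl _)
        · rcases hy' with rfl | rfl | rfl
          · exact absurd hxy (lt_asymm hab)
          · exact absurd hxy (lt_irrefl _)
          · rcases hz' with rfl | rfl | rfl
            · exact absurd hyz (lt_asymm hac)
            · exact absurd hyz (lt_asymm hbc)
            · exact absurd hyz (lt_irrefl _)
        · rcases hy' with rfl | rfl | rfl
          · exact absurd hxy (lt_asymm hac)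
          · exact absurd hxy (lt_asymm hbc)
          · exact absurd hxy (lt_irrefl _)
      rw [e1.1, e1.2.1, e1.2.2]
      exact h.2.2 w
    obtain ⟨rfl, rfl, rfl⟩ := two_unique h hs
    exact hlt

/-- the triple has its middle point odd -/
def TwoT (D : V → V → L) (e : Finset V) : Prop :=
  ∃ a b c, TwoSort e a b c ∧ D a b = D b c ∧ D a b < D a c

lemma TwoSort.t_iff {e : Finset V} {a b c : V} (h : TwoSort e a b c) :
    TwoT D e ↔ (D a b = D b c ∧ D a b < D a c) := by
  constructor
  · rintro ⟨x, y, z, hs, h1, h2⟩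
    obtain ⟨rfl, rfl, rfl⟩ := two_unique h hs
    exact ⟨h1, h2⟩
  · intro h'
    exact ⟨a, b, c, h, h'⟩

/-- four increasing points of a set -/
lemma two_four {H : Set V} (hH : ((4 : ℕ) : Cardinal) ≤ #H) :
    ∃ a ∈ H, ∃ b ∈ H, ∃ c ∈ H, ∃ d ∈ H, a < b ∧ b < c ∧ c < d := by
  obtain ⟨E, hE, hc⟩ := exists_finset_card hH
  have hm : ∀ i, E.orderEmbOfFin hc i ∈ H := fun i => hE (E.orderEmbOfFin_mem hc i)
  exact ⟨_, hm 0, _, hm 1, _, hm 2, _, hm 3, (E.orderEmbOfFin hc).strictMono (by decide),
    (E.orderEmbOfFin hc).strictMono (by decide), (E.orderEmbOfFin hc).strictMono (by decide)⟩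

lemma two_four_card {H : Set V} {κ : Cardinal.{u}} (hκ : (2 : Cardinal) < κ) (hH : #H = κ + 1) :
    ((4 : ℕ) : Cardinal) ≤ #H := by
  have h3 : ((3 : ℕ) : Cardinal) ≤ κ := by
    rcases lt_or_ge κ ℵ₀ with h | h
    · obtain ⟨n, rfl⟩ := Cardinal.lt_aleph0.1 h
      have h2 : 2 < n := by exact_mod_cast hκ
      exact_mod_cast h2
    · exact Cardinal.natCast_lt_aleph0.le.trans h
  rw [hH]
  have e : ((4 : ℕ) : Cardinal.{u}) = ((3 : ℕ) : Cardinal) + 1 := by norm_num
  rw [e]
  gcongr

open Classical in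
/-- the auxiliary colouring -/
noncomputable def twoh (D : V → V → L) (c0 c1 : Γ) (e : Finset V) : Γ :=
  if TwoT D e then c1 else c0

/-- JOB: `r = 2`, `lam c0` infinite regular; `lam c1` infinite, or `lam c1 > 2` and the colour `c1`
is not used by `f`. -/
theorem step_two_regular [WellFoundedLT V] [WellFoundedLT L] (hD : TreeDist D)
    {lam : Γ → Cardinal.{u}} {f : Finset L → Γ} (hf : NA lam 2 f)
    (hlam : ∀ ν, (2 : Cardinal) ≤ lam ν) {c0 c1 : Γ} (hne : c1 ≠ c0)
    (hc0 : (lam c0).IsRegular) (hc1 : ℵ₀ ≤ lam c1 ∨ ((2 : Cardinal) < lam c1 ∧ ∀ s, f s ≠ c1)) :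
    ∃ g : Finset V → Γ, NA (fun ν => lam ν + 1) 3 g := by
  classical
  refine ⟨gcol D f (twoh D c0 c1), assemble hD (by norm_num) hf (twoh D c0 c1) ?_⟩
  intro ν H hH hom
  have hcolT : ∀ e : Finset V, ¬ Comb D (↑e : Set V) → TwoT D e →
      gcol D f (twoh D c0 c1) e = c1 := by
    intro e h1 h2
    rw [gcol, if_neg h1, twoh, if_pos h2]
  have hcolN : ∀ e : Finset V, ¬ Comb D (↑e : Set V) → ¬ TwoT D e →
      gcol D f (twoh D c0 c1) e = c0 := by
    intro e h1 h2
    rw [gcol, if_neg h1, twoh, if_neg h2]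
  by_cases hν0 : ν = c0
  · subst hν0
    have hreg : (#H).IsRegular := by
      rw [hH, Cardinal.add_one_eq hc0.aleph0_le]
      exact hc0
    rcases regular_dichotomy hD hreg with h | ⟨a, ha, b, hb, c, hc, d, hd, h1, h2, h3, h4, h5, h6, h7⟩
    · exact h
    · exfalso
      obtain ⟨e, he, hs⟩ := two_triple h1 h2
      have h8 := hom e he (hs.sub ha hb hc)
      rw [hcolT e (fun h => by rw [hs.comb_iff, h6] at h; exact lt_irrefl _ h)
        (hs.t_iff.2 ⟨h6.symm, h4⟩)] at h8
      exact hne h8
  by_cases hν1 : ν = c1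
  · subst hν1
    rcases hc1 with hinf | ⟨hgt, hfc⟩
    · have hno : ∀ x ∈ H, ∀ y ∈ H, ∀ z ∈ H, x < y → y < z → D x z = D y z → D y z < D x y →
          False := by
        intro x hx y hy z hz hxy hyz h1 h2
        obtain ⟨e, he, hs⟩ := two_triple hxy hyz
        have h8 := hom e he (hs.sub hx hy hz)
        rw [hcolN e (fun h => by rw [hs.comb_iff] at h; exact lt_asymm h h2)
          (fun h => by rw [hs.t_iff] at h; exact h2.ne' h.1)] at h8
        exact hne h8.symm
      refine extract hD ℵ₀ Cardinal.isRegular_aleph0 ?_ ?_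
      · rw [hH]
        exact hinf.trans (self_le_add_right _ _)
      · intro x hx y hy hxy
        by_contra hcon
        rw [not_or, not_lt, not_lt] at hcon
        have hA : (cone D H x (D x y)).Infinite := by
          rw [← Set.infinite_coe_iff, Cardinal.infinite_iff]; exact hcon.1
        have hB : (cone D H y (D x y)).Infinite := by
          rw [← Set.infinite_coe_iff, Cardinal.infinite_iff]; exact hcon.2
        obtain ⟨s, hs, hsA⟩ := exists_strictMono_seq hA
        obtain ⟨t, ht, htB⟩ := exists_strictMono_seq hB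
        have key1 : ¬ s 1 < t 2 := by
          intro hlt
          have e1 := cross_eq hD hxy (hsA 0) (htB 2)
          have e2 := cross_eq hD hxy (hsA 1) (htB 2)
          have e3 := cone_within hD (hsA 0) (hsA 1) (hs (by norm_num : (0 : ℕ) < 1)).ne
          exact hno (s 0) (hsA 0).1 (s 1) (hsA 1).1 (t 2) (htB 2).1 (hs (by norm_num)) hlt
            (by rw [e1.2, e2.2]) (by rw [e2.2]; exact e3)
        have key2 : ¬ t 1 < s 2 := by
          intro hlt
          have e1 := cross_eq hD hxy (hsA 2) (htB 0)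
          have e2 := cross_eq hD hxy (hsA 2) (htB 1)
          have e3 := cone_within hD (htB 0) (htB 1) (ht (by norm_num : (0 : ℕ) < 1)).ne
          exact hno (t 0) (htB 0).1 (t 1) (htB 1).1 (s 2) (hsA 2).1 (ht (by norm_num)) hlt
            (by rw [hD.symm (t 0), hD.symm (t 1), e1.2, e2.2])
            (by rw [hD.symm (t 1), e2.2]; exact e3)
        have h1 : s 1 < s 2 := hs (by norm_num)
        have h2 : t 1 < t 2 := ht (by norm_num)
        have h3 := not_lt.1 key1
        have h4 := not_lt.1 key2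
        exact absurd (h1.trans_le (h4.trans (h2.le.trans h3))) (lt_irrefl _)
    · exfalso
      have hT : ∀ x ∈ H, ∀ y ∈ H, ∀ z ∈ H, x < y → y < z → D x y = D y z ∧ D x y < D x z := by
        intro x hx y hy z hz hxy hyz
        obtain ⟨e, he, hs⟩ := two_triple hxy hyz
        have h8 := hom e he (hs.sub hx hy hz)
        by_cases hcb : Comb D (↑e : Set V)
        · rw [gcol, if_pos hcb] at h8
          exact absurd h8 (hfc _)
        · by_cases hTT : TwoT D e
          · exact hs.t_iff.1 hTT
          · rw [hcolN e hcb hTT] at h8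
            exact absurd h8.symm hne
      obtain ⟨a, ha, b, hb, c, hc, d, hd, hab, hbc, hcd⟩ := two_four (two_four_card hgt hH)
      have t1 := hT a ha b hb c hc hab hbc
      have t2 := hT b hb c hc d hd hbc hcd
      have t3 := hT a ha b hb d hd hab (hbc.trans hcd)
      have h9 := t2.2
      rw [← t1.1, t3.1] at h9
      exact lt_irrefl _ h9
  · refine ⟨H, Subset.rfl, rfl, all_comb (r := 2) le_rfl ?_ ?_⟩
    · rw [hH]
      have e : (((2 : ℕ) + 1 : ℕ) : Cardinal.{u}) = 2 + 1 := by norm_num
      rw [e]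
      gcongr
      exact hlam ν
    · intro e he heH
      by_contra hcb
      have h8 := hom e he heH
      by_cases hTT : TwoT D e
      · rw [hcolT e hcb hTT] at h8
        exact hν1 h8.symm
      · rw [hcolN e hcb hTT] at h8
        exact hν0 h8.symm

section small

variable {E : Type u}

open Classical in
/-- the code of the triple `a < b < c` -/
noncomputable def twocode (D : V → V → L) (δ : L → L → E) (a b c : V) : E ⊕ (E ⊕ PUnit.{u + 1}) :=
  if D a b < D b c then Sum.inl (δ (D a b) (D b c))
  else if D b c < D a b then Sum.inr (Sum.inl (δ (D a b) (D b c))) else Sum.inr (Sum.inr PUnit.unit)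

open Classical in
/-- the colouring of the triples by their codes -/
noncomputable def twog (D : V → V → L) (δ : L → L → E) (j : E ⊕ (E ⊕ PUnit.{u + 1}) → Γ)
    (e : Finset V) : Γ :=
  if h : ∃ p : V × V × V, TwoSort e p.1 p.2.1 p.2.2 then
    j (twocode D δ (Classical.choose h).1 (Classical.choose h).2.1 (Classical.choose h).2.2)
  else j (Sum.inr (Sum.inr PUnit.unit))

lemma twog_eq (D : V → V → L) (δ : L → L → E) (j : E ⊕ (E ⊕ PUnit.{u + 1}) → Γ)
    {e : Finset V} {a b c : V} (h : TwoSort e a b c) : twog D δ j e = j (twocode D δ a b c) := by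
  have hex : ∃ p : V × V × V, TwoSort e p.1 p.2.1 p.2.2 := ⟨(a, b, c), h⟩
  rw [twog, dif_pos hex]
  obtain ⟨h1, h2, h3⟩ := two_unique h (Classical.choose_spec hex)
  have h4 : Classical.choose hex = (a, b, c) := Prod.ext h1.symm (Prod.ext h2.symm h3.symm)
  rw [h4]

lemma two_core (hD : TreeDist D) (δ : L → L → E)
    (key : ∀ a b c : L, a ≠ b → a ≠ c → b ≠ c → ¬ (δ a b = δ b c ∧ δ a b = δ a c))
    {a b c d : V} (hab : a < b) (hbc : b < c) (hcd : c < d)
    (h1 : twocode D δ a b c = twocode D δ b c d) (h2 : twocode D δ a b c = twocode D δ a b d)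
    (h3 : twocode D δ a b c = twocode D δ a c d) : False := by
  have hac := hab.trans hbc
  have hbd := hbc.trans hcd
  have had := hab.trans hbd
  rcases lt_trichotomy (D a b) (D b c) with h | h | h
  · -- first point odd
    have e1 : twocode D δ a b c = Sum.inl (δ (D a b) (D b c)) := by rw [twocode, if_pos h]
    have h4 : D b c < D c d ∧ δ (D a b) (D b c) = δ (D b c) (D c d) := by
      rw [e1, twocode] at h1
      split_ifs at h1 with h5 h6
      exact ⟨h5, Sum.inl.inj h1⟩
    have h5 : D a c < D c d ∧ δ (D a b) (D b c) = δ (D a c) (D c d) := by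
      rw [e1, twocode] at h3
      split_ifs at h3 with h5 h6
      exact ⟨h5, Sum.inl.inj h3⟩
    have h6 : D a c = D a b := by
      rcases hD.tri hab.ne hac.ne hbc.ne with h' | h' | h'
      · exact h'.1.symm
      · exact absurd h'.1 h.ne
      · rw [h'.1] at h'
        exact absurd h'.2 (lt_asymm h)
    rw [h6] at h5
    refine key (D a b) (D b c) (D c d) h.ne (h.trans h4.1).ne h4.1.ne ⟨h4.2, h5.2⟩
  · -- middle point odd
    have hn1 : ¬ D a b < D b c := by rw [h]; exact lt_irrefl _
    have hn2 : ¬ D b c < D a b := by rw [h]; exact lt_irrefl _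
    have e1 : twocode D δ a b c = Sum.inr (Sum.inr PUnit.unit) := by
      rw [twocode, if_neg hn1, if_neg hn2]
    have h4 : D b c = D c d := by
      rw [e1, twocode] at h1
      split_ifs at h1 with h5 h6
      · exact absurd (Sum.inr.inj h1) (by simp)
      · exact le_antisymm (not_lt.1 h6) (not_lt.1 h5)
    have h5 : D a b = D b d := by
      rw [e1, twocode] at h2
      split_ifs at h2 with h5 h6
      · exact absurd (Sum.inr.inj h2) (by simp)
      · exact le_antisymm (not_lt.1 h6) (not_lt.1 h5)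
    rcases hD.tri hbc.ne hbd.ne hcd.ne with h' | h' | h'
    · rw [h4] at h'
      exact lt_irrefl _ h'.2
    · rw [← h5, h] at h'
      exact lt_irrefl _ h'.2
    · rw [← h5, h] at h'
      exact lt_irrefl _ h'.2
  · -- last point odd
    have hn1 : ¬ D a b < D b c := lt_asymm h
    have e1 : twocode D δ a b c = Sum.inr (Sum.inl (δ (D a b) (D b c))) := by
      rw [twocode, if_neg hn1, if_pos h]
    have h4 : D c d < D b c ∧ δ (D a b) (D b c) = δ (D b c) (D c d) := by
      rw [e1, twocode] at h1
      split_ifs at h1 with h5 h6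
      · exact ⟨h6, Sum.inl.inj (Sum.inr.inj h1)⟩
      · exact absurd (Sum.inr.inj h1) (by simp)
    have h5 : D b d < D a b ∧ δ (D a b) (D b c) = δ (D a b) (D b d) := by
      rw [e1, twocode] at h2
      split_ifs at h2 with h5 h6
      · exact ⟨h6, Sum.inl.inj (Sum.inr.inj h2)⟩
      · exact absurd (Sum.inr.inj h2) (by simp)
    have h6 : D b d = D c d := by
      rcases hD.tri hbc.ne hbd.ne hcd.ne with h' | h' | h'
      · exact absurd h'.2 (lt_asymm h4.1)
      · exact absurd h'.1 h4.1.ne'
      · exact h'.1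
    rw [h6] at h5
    refine key (D a b) (D b c) (D c d) h.ne' (h4.1.trans h).ne' h4.1.ne' ⟨h4.2, h5.2⟩

end small

/-- JOB: `r = 2` and `#L ≤ 2 ^ (number of entries > 2)`. -/
theorem step_two_small (hD : TreeDist D) {lam : Γ → Cardinal.{u}}
    (hlam : ∀ ν, (2 : Cardinal) ≤ lam ν) (hE : ℵ₀ ≤ #{ν : Γ | (2 : Cardinal) < lam ν})
    (hL : #L ≤ 2 ^ #{ν : Γ | (2 : Cardinal) < lam ν}) :
    ∃ g : Finset V → Γ, NA (fun ν => lam ν + 1) 3 g := by
  classical
  -- the injection of codes
  obtain ⟨j⟩ : Nonempty ((↥{ν : Γ | (2 : Cardinal) < lam ν} ⊕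
      (↥{ν : Γ | (2 : Cardinal) < lam ν} ⊕ PUnit.{u + 1})) ↪ ↥{ν : Γ | (2 : Cardinal) < lam ν}) := by
    rw [← Cardinal.le_def]
    simp only [Cardinal.mk_sum, Cardinal.lift_id, Cardinal.mk_punit]
    rw [Cardinal.add_one_eq hE, Cardinal.add_eq_self hE]
  obtain ⟨φ⟩ : Nonempty (L ↪ Set ↥{ν : Γ | (2 : Cardinal) < lam ν}) := by
    rw [← Cardinal.le_def, Cardinal.mk_set]
    exact hL
  have hEne : Nonempty ↥{ν : Γ | (2 : Cardinal) < lam ν} := by
    rw [← Cardinal.mk_ne_zero_iff]
    intro h
    rw [h] at hE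
    exact absurd hE (not_le.2 Cardinal.aleph0_pos)
  have hdiff : ∀ a b : L, ∃ x : ↥{ν : Γ | (2 : Cardinal) < lam ν}, a ≠ b → ¬ (x ∈ φ a ↔ x ∈ φ b) := by
    intro a b
    by_cases hab : a = b
    · exact ⟨Classical.choice hEne, fun h => absurd hab h⟩
    · by_contra hcon
      push Not at hcon
      apply hab
      apply φ.injective
      ext x
      exact (hcon x).2
  choose δ hδ using hdiff
  have key : ∀ a b c : L, a ≠ b → a ≠ c → b ≠ c → ¬ (δ a b = δ b c ∧ δ a b = δ a c) := by
    rintro a b c hab hac hbc ⟨h1, h2⟩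
    have e1 := hδ a b hab
    have e2 := hδ b c hbc
    have e3 := hδ a c hac
    rw [← h1] at e2
    rw [← h2] at e3
    tauto
  refine ⟨twog D δ (fun x => (j x).1), ?_⟩
  intro ν H hH
  by_contra hcon
  push Not at hcon
  have hcode : ∀ x ∈ H, ∀ y ∈ H, ∀ z ∈ H, x < y → y < z → ((j (twocode D δ x y z)).1 : Γ) = ν := by
    intro x hx y hy z hz hxy hyz
    obtain ⟨e, he, hs⟩ := two_triple hxy hyz
    have h8 := hcon e he (hs.sub hx hy hz)
    rw [twog_eq D δ _ hs] at h8
    exact h8
  by_cases hν : (2 : Cardinal) < lam ν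
  · obtain ⟨a, ha, b, hb, c, hc, d, hd, hab, hbc, hcd⟩ := two_four (two_four_card hν hH)
    have t1 := hcode a ha b hb c hc hab hbc
    have t2 := hcode b hb c hc d hd hbc hcd
    have t3 := hcode a ha b hb d hd hab (hbc.trans hcd)
    have t4 := hcode a ha c hc d hd (hab.trans hbc) hcd
    exact two_core hD δ key hab hbc hcd (j.injective (Subtype.ext (t1.trans t2.symm)))
      (j.injective (Subtype.ext (t1.trans t3.symm))) (j.injective (Subtype.ext (t1.trans t4.symm)))
  · have h2 : lam ν = 2 := le_antisymm (not_lt.1 hν) (hlam ν)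
    have h3 : ((3 : ℕ) : Cardinal) ≤ #H := by
      have hH' : #H = lam ν + 1 := hH
      rw [hH', h2]
      norm_num
    obtain ⟨e, he1, he2⟩ := exists_finset_card h3
    obtain ⟨x, y, z, hs⟩ := two_exists he2
    have h4 := hcon e he2 he1
    rw [twog_eq D δ _ hs] at h4
    apply hν
    rw [← h4]
    exact (j (twocode D δ x y z)).2

end Pool.Agent.H330
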