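import Mathlib
import Pool.Agent.H330.Ge4
import Pool.Agent.H330.Three
import Pool.Agent.H330.Two
import Pool.Agent.H330.Fin
import Pool.Agent.H330.Pos
import Pool.Agent.H330.TreeEx
import Pool.Agent.H330.Block
import Pool.Agent.H330.Cof
import Pool.Agent.H330.Small
import Pool.Agent.H330.Strong
import Pool.Agent.H330.Limit

/-!
# Assembly of the cases
-/

open Cardinal Set

universe u

namespace Pool.Agent.H330

/-- recolouring by an injection of colours that does not decrease the entries -/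
lemma NA.comp {L Γ : Type u} {lam : Γ → Cardinal.{u}} {r : ℕ} {f : Finset L → Γ} (hf : NA lam r f)
    (hlam : ∀ ν, (r : Cardinal) ≤ lam ν) {π : Γ → Γ} (hπ : Function.Injective π)
    (hle : ∀ ν, lam ν ≤ lam (π ν)) : NA lam r (fun s => π (f s)) := by
  intro ν Y hY
  by_cases h : ∃ ν', π ν' = ν
  · obtain ⟨ν', rfl⟩ := h
    obtain ⟨s, h1, h2, h3⟩ := hf.of_le (ν := ν') (Y := Y) (by rw [hY]; exact hle ν')
    exact ⟨s, h1, h2, fun h => h3 (hπ h)⟩
  · obtain ⟨s, h1, h2⟩ := exists_finset_card (H := Y) (n := r) (by rw [hY]; exact hlam ν)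
    exact ⟨s, h2, h1, fun h' => h ⟨_, h'⟩⟩

/-- a used colour different from `c0` -/
lemma exists_c1 {L Γ : Type u} {lam : Γ → Cardinal.{u}} {r : ℕ} {f : Finset L → Γ} (hf : NA lam r f)
    (hlam : ∀ ν, (r : Cardinal) ≤ lam ν) {c0 : Γ} (hc0 : lam c0 ≤ #L) :
    ∃ c1, c1 ≠ c0 ∧ (r : Cardinal) < lam c1 := by
  obtain ⟨Y, hY⟩ := Cardinal.le_mk_iff_exists_set.mp hc0
  obtain ⟨s, h1, h2, h3⟩ := hf c0 Y hY
  refine ⟨f s, h3, ?_⟩
  by_contra hcon
  have hle : lam (f s) = (r : Cardinal) := le_antisymm (not_lt.mp hcon) (hlam _)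
  have hs : #(↑s : Set L) = lam (f s) := by
    rw [hle, ← h1]; exact Cardinal.mk_coe_finset
  obtain ⟨s', h1', h2', h3'⟩ := hf (f s) (↑s) hs
  have : s' = s := Finset.eq_of_subset_of_card_le (Finset.coe_subset.mp h2') (by rw [h1, h1'])
  rw [this] at h3'
  exact h3' rfl

lemma nonempty_ordToType {c : Cardinal.{u}} (h : ℵ₀ ≤ c) : Nonempty c.ord.ToType := by
  rw [← Cardinal.mk_ne_zero_iff, Cardinal.mk_ord_toType]
  exact (Cardinal.aleph0_pos.trans_le h).ne'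

/-- `r ≥ 4` -/
theorem main_ge4 {κ : Cardinal.{u}} (hκ : ℵ₀ ≤ κ) {Γ : Type u} {lam : Γ → Cardinal.{u}} {r : ℕ}
    (hr : 4 ≤ r) (hlam : ∀ ν, (r : Cardinal) ≤ lam ν ∧ lam ν ≤ κ)
    {f : Finset κ.ord.ToType → Γ} (hf : NA lam r f) :
    ∃ g : Finset ((2 : Cardinal.{u}) ^ κ).ord.ToType → Γ, NA (fun ν => lam ν + 1) (r + 1) g := by
  haveI := nonempty_ordToType hκ
  obtain ⟨D, φ, hD, hφ⟩ := exists_treeDist κ.ord.ToType ((2 : Cardinal.{u}) ^ κ).ord.ToType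
    (by rw [Cardinal.mk_ord_toType, Cardinal.mk_ord_toType])
  by_cases hfin : ∀ ν, lam ν < ℵ₀
  · exact step_finite hD (by omega) hf hfin (fun ν => (hlam ν).1)
      (pos_finite hf (fun ν => (hlam ν).1) hfin (by rw [Cardinal.mk_ord_toType]; exact hκ))
  · push Not at hfin
    obtain ⟨c0, hc0⟩ := hfin
    obtain ⟨c1, hne, hc1⟩ := exists_c1 hf (fun ν => (hlam ν).1)
      (c0 := c0) (by rw [Cardinal.mk_ord_toType]; exact (hlam c0).2)
    exact step_ge4 hD hr hf (fun ν => (hlam ν).1) hne hc0 hc1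

/-- `r = 3` -/
theorem main_three {κ : Cardinal.{u}} (hκ : ℵ₀ ≤ κ) {Γ : Type u} {lam : Γ → Cardinal.{u}}
    (hlam : ∀ ν, (3 : Cardinal) ≤ lam ν ∧ lam ν ≤ κ)
    {f : Finset κ.ord.ToType → Γ} (hf : NA lam 3 f)
    (hexc : ∀ c0, (∀ ν, ν ≠ c0 → lam ν < ℵ₀) →
      {ν : Γ | (3 : Cardinal) < lam ν ∧ lam ν < ℵ₀}.Finite →
      ℵ₀ ≤ lam c0 → ¬ (lam c0).IsRegular → lam c0 < κ → κ ≤ 2 ^< lam c0 →
      (∀ ρ < lam c0, (2 : Cardinal.{u}) ^ ((2 : Cardinal.{u}) ^ ρ) < 2 ^ κ) →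
      ∃ e : (lam c0).ord.cof.ord.ToType → (lam c0).ord.cof.ord.ToType → Bool,
        ∀ (H : Set (lam c0).ord.cof.ord.ToType) (b : Bool), #H = (lam c0).ord.cof →
          ∃ x ∈ H, ∃ y ∈ H, x < y ∧ e x y ≠ b) :
    ∃ g : Finset ((2 : Cardinal.{u}) ^ κ).ord.ToType → Γ, NA (fun ν => lam ν + 1) 4 g := by
  haveI := nonempty_ordToType hκ
  obtain ⟨D, φ, hD, hφ⟩ := exists_treeDist κ.ord.ToType ((2 : Cardinal.{u}) ^ κ).ord.ToType
    (by rw [Cardinal.mk_ord_toType, Cardinal.mk_ord_toType])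
  have hlam3 : ∀ ν, (3 : Cardinal) ≤ lam ν := fun ν => (hlam ν).1
  have hlam3' : ∀ ν, ((3 : ℕ) : Cardinal) ≤ lam ν := fun ν => by exact_mod_cast (hlam ν).1
  have hL : ℵ₀ ≤ #κ.ord.ToType := by rw [Cardinal.mk_ord_toType]; exact hκ
  by_cases hfin : ∀ ν, lam ν < ℵ₀
  · exact step_finite hD (r := 3) le_rfl hf hfin hlam3' (pos_finite hf hlam3' hfin hL)
  push Not at hfin
  obtain ⟨c0, hc0⟩ := hfin
  by_cases h2 : ∃ c1, c1 ≠ c0 ∧ ℵ₀ ≤ lam c1
  · obtain ⟨c1, hne, hc1⟩ := h2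
    exact step_three_free hD hf hlam3 hne hc0 (Or.inl hc1)
  have hothers : ∀ ν, ν ≠ c0 → lam ν < ℵ₀ := by
    intro ν hν
    by_contra hcon
    exact h2 ⟨ν, hν, not_lt.mp hcon⟩
  by_cases hE : {ν : Γ | ((3 : ℕ) : Cardinal) < lam ν ∧ lam ν < ℵ₀}.Infinite
  · obtain ⟨π, c, hπ, hle, hc, hc3, hcfin, _⟩ := freed lam 3 hE
    have hne : c ≠ c0 := by
      rintro rfl
      exact absurd hc0 (not_le.mpr hcfin)
    exact step_three_free hD (hf.comp hlam3' hπ hle) hlam3 hne hc0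
      (Or.inr ⟨by exact_mod_cast hc3, fun s h => hc ⟨_, h⟩⟩)
  have hE' : {ν : Γ | (3 : Cardinal) < lam ν ∧ lam ν < ℵ₀}.Finite := by
    have := Set.not_infinite.mp hE
    exact_mod_cast this
  obtain ⟨c1, hne, hc1⟩ := exists_c1 hf hlam3'
      (c0 := c0) (by rw [Cardinal.mk_ord_toType]; exact (hlam c0).2)
  have hc1' : (3 : Cardinal) < lam c1 := by exact_mod_cast hc1
  by_cases hreg : (lam c0).IsRegular
  · exact step_three_regular hD hf hlam3 hne hreg hc1'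
  have hsing : (lam c0).ord.cof < lam c0 := by
    by_contra hcon
    exact hreg ⟨hc0, not_lt.mp hcon⟩
  have hcofinf : ℵ₀ ≤ (lam c0).ord.cof := by
    have := Cardinal.isSuccLimit_ord hc0
    rw [Ordinal.aleph0_le_cof]
    exact this
  have h0 : ℵ₀ < lam c0 := hcofinf.trans_lt hsing
  by_cases hsmall : ∃ ρ < lam c0, (2 : Cardinal.{u}) ^ κ ≤ 2 ^ ((2 : Cardinal.{u}) ^ ρ)
  · obtain ⟨ρ, hρ, hle⟩ := hsmall
    set ρ' := max ρ ℵ₀ with hρ'
    have hρ'lt : ρ' < lam c0 := max_lt hρ h0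
    have h2ρ : ℵ₀ ≤ (2 : Cardinal.{u}) ^ ρ' :=
      (le_max_right _ _).trans (Cardinal.cantor ρ').le
    haveI := nonempty_ordToType h2ρ
    obtain ⟨D', φ', hD', _⟩ := exists_treeDist ((2 : Cardinal.{u}) ^ ρ').ord.ToType
      ((2 : Cardinal.{u}) ^ κ).ord.ToType (by
        rw [Cardinal.mk_ord_toType, Cardinal.mk_ord_toType]
        refine hle.trans ?_
        exact Cardinal.power_le_power_left two_ne_zero
          (Cardinal.power_le_power_left two_ne_zero (le_max_left _ _)))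
    exact step_three_small hD' hlam3 hne hc1' (by rw [Cardinal.mk_ord_toType]; exact h2ρ) hρ'lt
      (by rw [Cardinal.mk_ord_toType])
  push Not at hsmall
  have hlt : ∀ ρ < lam c0, (2 : Cardinal.{u}) ^ ρ < κ := by
    intro ρ hρ
    by_contra hcon
    exact absurd (Cardinal.power_le_power_left two_ne_zero (not_lt.mp hcon))
      (not_le.mpr (hsmall ρ hρ))
  have hκle : κ ≤ 2 ^< lam c0 := by
    have := pos_three hf hlam3 hc0 hothers hE'
    rwa [Cardinal.mk_ord_toType] at this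
  rcases (hlam c0).2.lt_or_eq with hlt' | heq
  · obtain ⟨e, he⟩ := hexc c0 hothers hE' hc0 hreg hlt' hκle hsmall
    exact step_three_limit hD hlam3 hne rfl hc0 hsing hκle hlt e he hc1'
  · exact step_three_strong hD φ hφ hlam3 hne heq hκ (by rw [← heq]; exact hsing)
      (fun ρ hρ => by
        have := hlt ρ (by rw [heq]; exact hρ)
        exact this) hc1'

/-- `r = 2` -/
theorem main_two {κ : Cardinal.{u}} (hκ : ℵ₀ ≤ κ) {Γ : Type u} {lam : Γ → Cardinal.{u}}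
    (hlam : ∀ ν, (2 : Cardinal) ≤ lam ν ∧ lam ν ≤ κ)
    {f : Finset κ.ord.ToType → Γ} (hf : NA lam 2 f)
    (hexc : (∀ ν, lam ν < ℵ₀) ∨ (∃ ν, (lam ν).IsRegular) ∨
      (2 : Cardinal.{u}) ^ κ ≤ 2 ^ ((2 : Cardinal.{u}) ^ #{ν : Γ | (2 : Cardinal) < lam ν})) :
    ∃ g : Finset ((2 : Cardinal.{u}) ^ κ).ord.ToType → Γ, NA (fun ν => lam ν + 1) 3 g := by
  haveI := nonempty_ordToType hκ
  obtain ⟨D, φ, hD, hφ⟩ := exists_treeDist κ.ord.ToType ((2 : Cardinal.{u}) ^ κ).ord.ToType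
    (by rw [Cardinal.mk_ord_toType, Cardinal.mk_ord_toType])
  have hlam2 : ∀ ν, (2 : Cardinal) ≤ lam ν := fun ν => (hlam ν).1
  have hlam2' : ∀ ν, ((2 : ℕ) : Cardinal) ≤ lam ν := fun ν => by exact_mod_cast (hlam ν).1
  have hL : ℵ₀ ≤ #κ.ord.ToType := by rw [Cardinal.mk_ord_toType]; exact hκ
  rcases hexc with hfin | ⟨c0, hreg⟩ | hsmall
  · have h1 := pos_finite hf hlam2' hfin hL
    have h2 := pos_two_finite hf hlam2 hfin hL
    refine step_two_small hD hlam2 ?_ h2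
    have h1' : {ν : Γ | (2 : Cardinal) < lam ν}.Infinite := by exact_mod_cast h1
    exact Cardinal.aleph0_le_mk_iff.mpr h1'.to_subtype
  · by_cases h2 : ∃ c1, c1 ≠ c0 ∧ ℵ₀ ≤ lam c1
    · obtain ⟨c1, hne, hc1⟩ := h2
      exact step_two_regular hD hf hlam2 hne hreg (Or.inl hc1)
    have hothers : ∀ ν, ν ≠ c0 → lam ν < ℵ₀ := by
      intro ν hν
      by_contra hcon
      exact h2 ⟨ν, hν, not_lt.mp hcon⟩
    have hE := pos_two_edm hf hlam2 hreg.aleph0_le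
      (by rw [Cardinal.mk_ord_toType]; exact (hlam c0).2) hothers
    have hE' : {ν : Γ | ((2 : ℕ) : Cardinal) < lam ν ∧ lam ν < ℵ₀}.Infinite := by
      exact_mod_cast hE
    obtain ⟨π, c, hπ, hle, hc, hc3, hcfin, _⟩ := freed lam 2 hE'
    have hne : c ≠ c0 := by
      rintro rfl
      exact absurd hreg.aleph0_le (not_le.mpr hcfin)
    exact step_two_regular hD (hf.comp hlam2' hπ hle) hlam2 hne hreg
      (Or.inr ⟨by exact_mod_cast hc3, fun s h => hc ⟨_, h⟩⟩)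
  · have hE : ℵ₀ ≤ #{ν : Γ | (2 : Cardinal) < lam ν} := by
      by_contra hcon
      push Not at hcon
      have h2 : (2 : Cardinal.{u}) < ℵ₀ := by exact_mod_cast Cardinal.natCast_lt_aleph0 (n := 2)
      have h3 := Cardinal.power_lt_aleph0 h2 (Cardinal.power_lt_aleph0 h2 hcon)
      exact absurd ((hκ.trans (Cardinal.cantor κ).le).trans hsmall) (not_le.mpr h3)
    have h2ρ : ℵ₀ ≤ (2 : Cardinal.{u}) ^ #{ν : Γ | (2 : Cardinal) < lam ν} :=
      hE.trans (Cardinal.cantor _).le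
    haveI := nonempty_ordToType h2ρ
    obtain ⟨D', φ', hD', _⟩ := exists_treeDist
      ((2 : Cardinal.{u}) ^ #{ν : Γ | (2 : Cardinal) < lam ν}).ord.ToType
      ((2 : Cardinal.{u}) ^ κ).ord.ToType (by
        rw [Cardinal.mk_ord_toType, Cardinal.mk_ord_toType]
        exact hsmall)
    exact step_two_small hD' hlam2 hE (by rw [Cardinal.mk_ord_toType])

end Pool.Agent.H330
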