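import Mathlib
import Pool.Agent.H330.Tree
import Pool.Agent.H330.EndHom

open Cardinal Set

universe u

namespace Pool.Agent.H330

/-- the sizes of the colour classes of an end-homogeneous sequence -/
theorem eh_classes {A Γ : Type u} {μ B : Cardinal.{u}} (hμ : ℵ₀ ≤ μ) (hμB : μ ≤ B)
    (hpow : ∀ x < μ, #Γ ^ x ≤ B) (hB : B < #A) {lam : Γ → Cardinal.{u}} {f : Finset A → Γ}
    (hf : NA lam 2 f) : ∃ g : μ.ord.ToType → Γ, ∀ ν, #{w | g w = ν} < lam ν := by
  classical
  have hcard : Cardinal.sum (fun w : μ.ord.ToType => #(Finset (Set.Iio w) → Γ)) < #A := by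
    refine lt_of_le_of_lt ?_ hB
    have h1 : ∀ w : μ.ord.ToType, #(Finset (Set.Iio w) → Γ) ≤ B := by
      intro w
      rw [← Cardinal.power_def]
      refine hpow _ ?_
      rcases lt_or_ge #(Set.Iio w) ℵ₀ with h | h
      · have : Finite (Set.Iio w) := Cardinal.lt_aleph0_iff_finite.mp h
        exact (Cardinal.lt_aleph0_of_finite _).trans_le hμ
      · have : Infinite (Set.Iio w) := Cardinal.infinite_iff.mpr h
        rw [Cardinal.mk_finset_of_infinite]
        exact Cardinal.mk_Iio_toType_ord_lt _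
    refine (Cardinal.sum_le_sum _ _ h1).trans ?_
    rw [Cardinal.sum_const', Cardinal.mk_ord_toType]
    calc μ * B ≤ B * B := mul_le_mul_left hμB B
      _ = B := Cardinal.mul_eq_self (hμ.trans hμB)
  obtain ⟨p, x, hx, hp, h⟩ := end_homog (W := μ.ord.ToType) f hcard
  refine ⟨fun w => f {x w, p}, fun ν => ?_⟩
  by_contra hcon
  push Not at hcon
  have hY : lam ν ≤ #(x '' {w | f {x w, p} = ν} : Set A) := by
    rw [Cardinal.mk_image_eq hx]; exact hcon
  obtain ⟨s, h1, h2, h3⟩ := hf.of_le hY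
  apply h3
  obtain ⟨a, b, hab, rfl⟩ := Finset.card_eq_two.mp h1
  have ha : a ∈ x '' {w | f {x w, p} = ν} := h2 (by simp)
  have hb : b ∈ x '' {w | f {x w, p} = ν} := h2 (by simp)
  obtain ⟨v, hv, rfl⟩ := ha
  obtain ⟨w, hw, rfl⟩ := hb
  have hvw : v ≠ w := fun h => hab (by rw [h])
  have key : ∀ v w : μ.ord.ToType, v < w → f {x v, x w} = f {x v, p} := by
    intro v w hlt
    have := h w {v} (by simpa using hlt)
    rw [Finset.image_singleton] at this
    have e1 : (insert (x w) {x v} : Finset A) = {x v, x w} := Finset.pair_comm _ _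
    have e2 : (insert p {x v} : Finset A) = {x v, p} := Finset.pair_comm _ _
    rw [← e1, ← e2]; exact this
  rcases lt_or_gt_of_ne hvw with hlt | hlt
  · rw [key v w hlt]; exact hv
  · have e3 : ({x v, x w} : Finset A) = {x w, x v} := Finset.pair_comm _ _
    rw [e3, key w v hlt]; exact hw

theorem sum_fibres {Γ : Type u} {μ : Cardinal.{u}} (g : μ.ord.ToType → Γ) :
    μ ≤ Cardinal.sum (fun c : Γ => #{w | g w = c}) := by
  rw [← Cardinal.mk_sigma]
  have h := (Equiv.sigmaFiberEquiv g).cardinal_eq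
  rw [Cardinal.mk_ord_toType] at h
  exact h.ge

/-- Erdős–Rado: no negative relation with small entries above `2 ^ ν` -/
theorem er_false {A Γ : Type u} {ν : Cardinal.{u}} (hν : ℵ₀ ≤ ν) (hA : 2 ^ ν < #A) (hΓ : #Γ ≤ ν)
    {lam : Γ → Cardinal.{u}} (hlam : ∀ c, lam c ≤ Order.succ ν) {f : Finset A → Γ}
    (hf : NA lam 2 f) : False := by
  have hpow : ∀ x < Order.succ ν, #Γ ^ x ≤ 2 ^ ν := by
    intro x hx
    have hxν : x ≤ ν := Order.lt_succ_iff.mp hx
    calc #Γ ^ x ≤ ν ^ x := Cardinal.power_le_power_right hΓ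
      _ ≤ ν ^ ν := Cardinal.power_le_power_left (Cardinal.aleph0_pos.trans_le hν).ne' hxν
      _ = 2 ^ ν := Cardinal.power_self_eq hν
  obtain ⟨g, hg⟩ := eh_classes (μ := Order.succ ν) (B := 2 ^ ν) (hν.trans (Order.le_succ ν))
    (Order.succ_le_of_lt (Cardinal.cantor ν)) hpow hA hf
  have h1 : Order.succ ν ≤ Cardinal.sum (fun c : Γ => #{w | g w = c}) := sum_fibres g
  have h2 : Cardinal.sum (fun c : Γ => #{w | g w = c}) ≤ ν := by
    refine (Cardinal.sum_le_sum _ (fun _ => ν) ?_).trans ?_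
    · intro c
      exact Order.lt_succ_iff.mp ((hg c).trans_le (hlam c))
    · rw [Cardinal.sum_const']
      calc #Γ * ν ≤ ν * ν := mul_le_mul_left hΓ ν
        _ = ν := Cardinal.mul_eq_self hν
  exact absurd (h1.trans h2) (not_le.mpr (Order.lt_succ ν))

/-- the homogeneous set version -/
theorem er_given {A Γ : Type u} {ν : Cardinal.{u}} (hν : ℵ₀ ≤ ν) (hA : 2 ^ ν < #A) (hΓ : #Γ ≤ ν)
    (f : Finset A → Γ) : ∃ (c : Γ) (Y : Set A), #Y = Order.succ ν ∧
      ∀ s : Finset A, s.card = 2 → (↑s : Set A) ⊆ Y → f s = c := by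
  by_contra hcon
  push Not at hcon
  refine er_false (lam := fun _ => Order.succ ν) (f := f) hν hA hΓ (fun _ => le_rfl) ?_
  intro c Y hY
  exact hcon c Y hY

/-- `τ⁺ → ((τ)_m, (σ)_γ)²` for strong limit `τ`, `m < cf τ`, `γ, σ < τ` -/
theorem succ_sing_false {A Γ : Type u} {τ : Cardinal.{u}} (hτ : ℵ₀ < τ)
    (hsl : ∀ x < τ, (2 : Cardinal.{u}) ^ x < τ) (hA : τ < #A) (hΓ : #Γ < τ)
    {lam : Γ → Cardinal.{u}} (hlam : ∀ c, lam c ≤ τ) {σ : Cardinal.{u}} (hσ : σ < τ)
    (hlam2 : ∀ c, lam c ≠ τ → lam c ≤ σ) (hm : #{c | lam c = τ} < τ.ord.cof) {f : Finset A → Γ}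
    (hf : NA lam 2 f) : False := by
  have hpow : ∀ x < τ, #Γ ^ x ≤ τ := by
    intro x hx
    have h1 : max (max #Γ x) ℵ₀ < τ := max_lt (max_lt hΓ hx) hτ
    calc #Γ ^ x ≤ (max (max #Γ x) ℵ₀) ^ x :=
          Cardinal.power_le_power_right ((le_max_left _ _).trans (le_max_left _ _))
      _ ≤ (max (max #Γ x) ℵ₀) ^ (max (max #Γ x) ℵ₀) :=
          Cardinal.power_le_power_left
            (Cardinal.aleph0_pos.trans_le (le_max_right _ _)).ne' ((le_max_right _ _).trans (le_max_left _ _))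
      _ = 2 ^ (max (max #Γ x) ℵ₀) := Cardinal.power_self_eq (le_max_right _ _)
      _ ≤ τ := (hsl _ h1).le
  obtain ⟨g, hg⟩ := eh_classes (μ := τ) (B := τ) hτ.le le_rfl hpow hA hf
  have hsup : (⨆ c : {c | lam c = τ}, #{w | g w = c.1}) < τ := by
    refine Cardinal.iSup_lt_of_lt_cof_ord hm ?_
    intro c
    exact (hg c.1).trans_le (hlam c.1)
  have hbd : ∀ c : Γ, #{w | g w = c} ≤ max (⨆ c : {c | lam c = τ}, #{w | g w = c.1}) σ := by
    intro c
    by_cases hc : lam c = τ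
    · exact (le_ciSup (f := fun c : {c | lam c = τ} => #{w | g w = c.1})
        (Cardinal.bddAbove_range _) ⟨c, hc⟩).trans (le_max_left _ _)
    · exact ((hg c).le.trans (hlam2 c hc)).trans (le_max_right _ _)
  have h2 : Cardinal.sum (fun c : Γ => #{w | g w = c}) < τ := by
    refine lt_of_le_of_lt (Cardinal.sum_le_sum _ _ hbd) ?_
    rw [Cardinal.sum_const']
    exact Cardinal.mul_lt_of_lt hτ.le hΓ (max_lt hsup hσ)
  exact absurd (sum_fibres g) (not_le.mpr h2)

end Pool.Agent.H330
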