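import Mathlib
import Pool.Agent.H330.Tree
import Pool.Agent.H330.Cof

open Cardinal Set

universe u

namespace Pool.Agent.H330

/-- unbounded entries below `τ`: their product (with smaller factors) exceeds `τ` -/
theorem unbounded_prod {K : Type u} {lam : K → Cardinal.{u}} {τ : Cardinal.{u}} (hτ : ℵ₀ < τ)
    (hlt : ∀ k, lam k < τ) (h3 : ∀ k, 2 ≤ lam k) (hnr : ∀ k, ¬ (lam k).IsRegular)
    (hunb : ∀ c < τ, ∃ k, c < lam k) :
    ∃ μ : K → Cardinal.{u}, (∀ k, μ k < lam k) ∧ τ < Cardinal.prod μ := by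
  classical
  -- `P k c`: `c` is an infinite entry and `lam k` is the next entry
  let P : K → Cardinal.{u} → Prop := fun k c => ℵ₀ ≤ c ∧ c < lam k ∧ (∃ j, lam j = c) ∧
    ∀ j, c < lam j → lam k ≤ lam j
  let m : K → Cardinal.{u} := fun k => if h : ∃ c, P k c then h.choose else 0
  have hm : ∀ k, (∃ c, P k c) → P k (m k) := by
    intro k h
    simp only [m, dif_pos h]
    exact h.choose_spec
  have hsucc : ∀ k, Order.succ (m k) < lam k := by
    intro k
    by_cases h : ∃ c, P k c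
    · obtain ⟨h1, h2, _, _⟩ := hm k h
      refine lt_of_le_of_ne (Order.succ_le_of_lt h2) ?_
      intro h'
      exact hnr k (by rw [← h']; exact Cardinal.isRegular_succ h1)
    · simp only [m, dif_neg h, Cardinal.succ_zero]
      exact lt_of_lt_of_le (by norm_num) (h3 k)
  refine ⟨fun k => Order.succ (m k), hsucc, ?_⟩
  have hsum : τ ≤ Cardinal.sum m := by
    apply le_of_forall_lt
    intro t ht
    obtain ⟨j, hj⟩ := hunb (max t ℵ₀) (max_lt ht hτ)
    -- the next entry above `lam j`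
    have hne : {c : Cardinal.{u} | lam j < c ∧ ∃ k, lam k = c}.Nonempty := by
      obtain ⟨k, hk⟩ := hunb (lam j) (hlt j)
      exact ⟨lam k, hk, k, rfl⟩
    obtain ⟨h1, k, hk⟩ := (wellFounded_lt (α := Cardinal.{u})).min_mem _ hne
    have hmin : ∀ i, lam j < lam i → lam k ≤ lam i := by
      intro i hi
      rw [hk]
      exact not_lt.mp ((wellFounded_lt (α := Cardinal.{u})).not_lt_min
        {c : Cardinal.{u} | lam j < c ∧ ∃ k, lam k = c} ⟨hi, i, rfl⟩)
    rw [← hk] at h1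
    have hP : P k (lam j) := ⟨(le_max_right _ _).trans hj.le, h1, ⟨j, rfl⟩, hmin⟩
    obtain ⟨g1, g2, ⟨i, hi⟩, g4⟩ := hm k ⟨_, hP⟩
    have heq : m k = lam j := by
      rcases lt_trichotomy (m k) (lam j) with h | h | h
      · exact absurd (g4 j h) (not_le.mpr h1)
      · exact h
      · rw [← hi] at h g2
        exact absurd (hmin i h) (not_le.mpr g2)
    calc t ≤ max t ℵ₀ := le_max_left _ _
      _ < lam j := hj
      _ = m k := heq.symm
      _ ≤ Cardinal.sum m := Cardinal.le_sum m k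
  exact lt_of_le_of_lt hsum (Cardinal.sum_lt_prod _ _ (fun k => Order.lt_succ (m k)))

/-- many entries equal to `τ` -/
theorem cof_prod {K : Type u} {τ : Cardinal.{u}} (hτ : ℵ₀ ≤ τ)
    (hlim : ∀ c < τ, Order.succ c < τ) (hK : τ.ord.cof ≤ #K) :
    ∃ μ : K → Cardinal.{u}, (∀ k, μ k < τ) ∧ τ < Cardinal.prod μ := by
  classical
  obtain ⟨m, _, hm1, hm2⟩ := cofmap τ
  have hcard : #(τ.ord.cof.ord.ToType) ≤ #K := by rw [Cardinal.mk_ord_toType]; exact hK
  obtain ⟨e⟩ := hcard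
  let n : K → Cardinal.{u} := fun k => if h : ∃ i, e i = k then m h.choose else 0
  have hn : ∀ k, n k < τ := by
    intro k
    by_cases h : ∃ i, e i = k
    · simp only [n, dif_pos h]; exact hm1 _
    · simp only [n, dif_neg h]; exact Cardinal.aleph0_pos.trans_le hτ
  have hne : ∀ i, n (e i) = m i := by
    intro i
    have h : ∃ j, e j = e i := ⟨i, rfl⟩
    simp only [n, dif_pos h]
    rw [e.injective h.choose_spec]
  refine ⟨fun k => Order.succ (n k), fun k => hlim _ (hn k), ?_⟩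
  refine lt_of_le_of_lt ?_ (Cardinal.sum_lt_prod _ _ (fun k => Order.lt_succ (n k)))
  apply le_of_forall_lt
  intro t ht
  obtain ⟨i, hi⟩ := hm2 _ (hlim t ht)
  calc t < Order.succ t := Order.lt_succ t
    _ ≤ m i := hi
    _ = n (e i) := (hne i).symm
    _ ≤ Cardinal.sum n := Cardinal.le_sum n (e i)

/-- `GCH`, limit cardinals are strong limits -/
theorem gch_strong {κ : Cardinal.{u}} (gch : ∀ c : Cardinal.{u}, ℵ₀ ≤ c → 2 ^ c = Order.succ c)
    (hκ : ℵ₀ < κ) (hlim : ∀ c < κ, Order.succ c < κ) : ∀ x < κ, (2 : Cardinal.{u}) ^ x < κ := by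
  intro x hx
  rcases lt_or_ge x ℵ₀ with h | h
  · exact (Cardinal.power_lt_aleph0 (by exact_mod_cast Cardinal.natCast_lt_aleph0 (n := 2)) h).trans hκ
  · rw [gch x h]; exact hlim x hx

/-- a singular cardinal is a limit -/
theorem sing_lim {κ : Cardinal.{u}} (hκ : ℵ₀ ≤ κ) (hs : κ.ord.cof < κ) :
    ∀ c < κ, Order.succ c < κ := by
  intro c hc
  rcases lt_or_ge c ℵ₀ with h | h
  · have : ℵ₀ < κ := by
      refine lt_of_le_of_ne hκ ?_
      rintro rfl
      rw [Cardinal.ord_aleph0, Ordinal.cof_omega0] at hs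
      exact lt_irrefl _ hs
    refine lt_of_le_of_lt (Order.succ_le_of_lt h) this
  · refine lt_of_le_of_ne (Order.succ_le_of_lt hc) ?_
    rintro rfl
    exact absurd (Cardinal.isRegular_succ h).cof_ord (by
      intro h'; rw [h'] at hs; exact lt_irrefl _ hs)

/-- small sets are bounded -/
theorem bounded_of_lt_cof {ρ : Cardinal.{u}} {S : Set ρ.ord.ToType} (hS : #S < ρ.ord.cof) :
    ∃ b, ∀ x ∈ S, x < b := by
  by_contra hcon
  push Not at hcon
  have h1 : IsCofinal S := fun b => by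
    obtain ⟨x, hx, hb⟩ := hcon b
    exact ⟨x, hx, hb⟩
  have h2 := Order.cof_le h1
  rw [Ordinal.cof_toType] at h2
  exact absurd hS (not_lt.mpr h2)

/-- `GCH`: `ρ ^ ν ≤ ρ` for `ν < cof ρ` -/
theorem gch_pow {ρ ν : Cardinal.{u}} (gch : ∀ c : Cardinal.{u}, ℵ₀ ≤ c → 2 ^ c = Order.succ c)
    (hρ : ℵ₀ ≤ ρ) (hν : ν < ρ.ord.cof) : ρ ^ ν ≤ ρ := by
  classical
  have hνρ : ν < ρ := hν.trans_le (Ordinal.cof_ord_le ρ)
  have h1 : ρ ^ ν = #(ν.ord.ToType → ρ.ord.ToType) := by
    rw [← Cardinal.power_def, Cardinal.mk_ord_toType, Cardinal.mk_ord_toType]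
  have hb : ∀ h : ν.ord.ToType → ρ.ord.ToType, ∃ b, ∀ n, h n < b := by
    intro h
    obtain ⟨b, hb⟩ := bounded_of_lt_cof (S := range h) (by
      refine lt_of_le_of_lt Cardinal.mk_range_le ?_
      rw [Cardinal.mk_ord_toType]; exact hν)
    exact ⟨b, fun n => hb _ ⟨n, rfl⟩⟩
  choose b hb using hb
  have h2 : #(ν.ord.ToType → ρ.ord.ToType) ≤
      Cardinal.sum (fun b : ρ.ord.ToType => #(ν.ord.ToType → Iio b)) := by
    rw [← Cardinal.mk_sigma]
    refine Cardinal.mk_le_of_injective (f := fun h => (⟨b h, fun n => ⟨h n, hb h n⟩⟩ :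
      Σ b : ρ.ord.ToType, (ν.ord.ToType → Iio b))) ?_
    intro h h' hh
    have key : ∀ (b b' : ρ.ord.ToType) (p : ν.ord.ToType → Iio b) (q : ν.ord.ToType → Iio b'),
        (⟨b, p⟩ : Σ b : ρ.ord.ToType, (ν.ord.ToType → Iio b)) = ⟨b', q⟩ →
        ∀ n, (p n : ρ.ord.ToType) = q n := by
      intro b b' p q hpq n
      cases hpq
      rfl
    funext n
    exact key _ _ _ _ hh n
  have h3 : ∀ b : ρ.ord.ToType, #(ν.ord.ToType → Iio b) ≤ ρ := by
    intro b
    rw [← Cardinal.power_def, Cardinal.mk_ord_toType]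
    have hx : #(Iio b) < ρ := Cardinal.mk_Iio_toType_ord_lt b
    rcases hρ.lt_or_eq with h | h
    · have hy : max (max #(Iio b) ν) ℵ₀ < ρ := max_lt (max_lt hx hνρ) h
      calc #(Iio b) ^ ν ≤ (max (max #(Iio b) ν) ℵ₀) ^ ν :=
            Cardinal.power_le_power_right ((le_max_left _ _).trans (le_max_left _ _))
        _ ≤ (max (max #(Iio b) ν) ℵ₀) ^ (max (max #(Iio b) ν) ℵ₀) :=
            Cardinal.power_le_power_left (Cardinal.aleph0_pos.trans_le (le_max_right _ _)).ne'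
              ((le_max_right _ _).trans (le_max_left _ _))
        _ = 2 ^ (max (max #(Iio b) ν) ℵ₀) := Cardinal.power_self_eq (le_max_right _ _)
        _ = Order.succ (max (max #(Iio b) ν) ℵ₀) := gch _ (le_max_right _ _)
        _ ≤ ρ := Order.succ_le_of_lt hy
    · have hx' : #(Iio b) < ℵ₀ := by rw [h]; exact hx
      have hν' : ν < ℵ₀ := by rw [h]; exact hνρ
      exact (Cardinal.power_lt_aleph0 hx' hν').le.trans hρ
  rw [h1]
  refine h2.trans ((Cardinal.sum_le_sum _ _ h3).trans ?_)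
  rw [Cardinal.sum_const', Cardinal.mk_ord_toType, Cardinal.mul_eq_self hρ]

end Pool.Agent.H330
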