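import Mathlib
import Pool.Agent.H330.Tree
import Pool.Agent.H330.GchA

open Cardinal Set

universe u

namespace Pool.Agent.H330



/-- a monotone cofinal family below an infinite cardinal, indexed by the cofinality -/
theorem cofinal_family (κ : Cardinal.{u}) :
    ∃ m : κ.ord.cof.ord.ToType → Cardinal.{u}, Monotone m ∧ (∀ i, m i < κ) ∧
      ∀ c < κ, ∃ i, c ≤ m i := by
  obtain ⟨s, hs, hs'⟩ := Ordinal.exists_ord_cof_eq κ.ord.ToType
  rw [Ordinal.cof_toType] at hs'
  have h1 : Ordinal.type (α := κ.ord.cof.ord.ToType) (· < ·) = Ordinal.type (α := s) (· < ·) := by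
    rw [Ordinal.type_toType]; exact hs'.symm
  obtain ⟨φ⟩ := Ordinal.type_eq.mp h1
  refine ⟨fun i => #(Iio ((φ i : s) : κ.ord.ToType)), ?_, ?_, ?_⟩
  · intro i j hij
    apply mk_le_mk_of_subset
    apply Iio_subset_Iio
    rcases hij.eq_or_lt with h | h
    · rw [h]
    · exact (φ.map_rel_iff.mpr h).le
  · intro i
    have := Cardinal.mk_Iio_lt (φ i : κ.ord.ToType) (by simp)
    simpa using this
  · intro c hc
    have h2 : c.ord < Ordinal.type (α := κ.ord.ToType) (· < ·) := by
      rw [Ordinal.type_toType]; exact ord_lt_ord.mpr hc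
    set x : κ.ord.ToType := Ordinal.enum (α := κ.ord.ToType) (· < ·) ⟨c.ord, h2⟩ with hx
    have h3 : Ordinal.typein (α := κ.ord.ToType) (· < ·) x = c.ord := Ordinal.typein_enum _ h2
    have h4 : #(Iio x) = c := by
      have h5 := Ordinal.card_typein (r := fun a b : κ.ord.ToType => a < b) x
      rw [h3, card_ord] at h5
      exact h5.symm
    obtain ⟨y, hy, hxy⟩ := hs x
    obtain ⟨i, hi⟩ := φ.surjective ⟨y, hy⟩
    refine ⟨i, ?_⟩
    show c ≤ #(Iio ((φ i : s) : κ.ord.ToType))
    rw [← h4, hi]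
    exact mk_le_mk_of_subset (Iio_subset_Iio hxy)

open Classical in
theorem canon_core {κ : Cardinal.{u}} (hκ : ℵ₀ ≤ κ) (θ : Cardinal.{u}) (hθ : κ.ord.cof = θ)
    (hs : θ < κ)
    (hsl : ∀ x < κ, (2 : Cardinal.{u}) ^ x < κ) {A Γ : Type u} (hA : #A = κ) (hΓ : #Γ < κ)
    {lam : Γ → Cardinal.{u}} {ν₀ : Γ} (h0 : lam ν₀ = κ) {σ : Cardinal.{u}} (hσ : σ < κ)
    (hlam : ∀ ν, ν ≠ ν₀ → lam ν ≤ σ) {f : Finset A → Γ} (hf : NA lam 2 f)
    (I : Type u) [LinearOrder I] [WellFoundedLT I] (hIcard : #I = θ)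
    (hIio : ∀ i : I, #(Iio i) < θ)
    (m : I → Cardinal.{u}) (hmono : Monotone m) (hmlt : ∀ i, m i < κ)
    (hmcof : ∀ c < κ, ∃ i, c ≤ m i) :
    ∃ f' : Finset I → Γ, NA (fun ν => if ν = ν₀ then θ else lam ν) 2 f' := by
  have hlim : Order.IsSuccLimit κ.ord := isSuccLimit_ord hκ
  have hθ0 : ℵ₀ ≤ θ := by rw [← hθ]; exact Ordinal.aleph0_le_cof.mpr hlim
  have hκ1 : ℵ₀ < κ := lt_of_le_of_lt hθ0 hs
  set g0 : Cardinal.{u} := max #Γ ℵ₀ with hg0
  have hg0κ : g0 < κ := max_lt hΓ hκ1
  -- the sizes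
  set n : I → Cardinal.{u} := WellFounded.fix (C := fun _ => Cardinal.{u}) (wellFounded_lt (α := I))
    (fun i rec => Order.succ (2 ^ (m i + g0 + σ + θ + Cardinal.sum (fun j : Iio i => rec j.1 j.2))))
    with hn
  set s : I → Cardinal.{u} := fun i => m i + g0 + σ + θ + Cardinal.sum (fun j : Iio i => n j.1)
    with hsdef
  have hns : ∀ i, n i = Order.succ (2 ^ s i) := by
    intro i
    rw [hn, WellFounded.fix_eq]
  have hnlt : ∀ i, n i < κ ∧ s i < κ := by
    intro i
    induction i using WellFoundedLT.induction with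
    | ind i ih =>
      have h1 : s i < κ := by
        simp only [hsdef]
        refine add_lt_of_lt hκ (add_lt_of_lt hκ (add_lt_of_lt hκ (add_lt_of_lt hκ (hmlt i) hg0κ)
          hσ) hs) ?_
        refine (sum_le_mk_mul_iSup _).trans_lt (mul_lt_of_lt hκ ((hIio i).trans hs) ?_)
        exact iSup_lt_of_lt_cof_ord (by rw [hθ]; exact hIio i) fun j => (ih j.1 j.2).1
      refine ⟨?_, h1⟩
      rw [hns]
      have h2 := hsl _ h1
      exact lt_of_le_of_lt (Order.succ_le_of_lt (cantor _)) (hsl _ h2)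
  have hs0 : ∀ i, ℵ₀ ≤ s i := fun i => by
    simp only [hsdef]
    exact hθ0.trans ((self_le_add_left _ _).trans (self_le_add_right _ _))
  have hsm : ∀ i, m i ≤ s i := fun i => by
    simp only [hsdef]
    exact (self_le_add_right _ _).trans ((self_le_add_right _ _).trans
      ((self_le_add_right _ _).trans (self_le_add_right _ _)))
  have hsg : ∀ i, g0 ≤ s i := fun i => by
    simp only [hsdef]
    exact (self_le_add_left _ _).trans ((self_le_add_right _ _).trans
      ((self_le_add_right _ _).trans (self_le_add_right _ _)))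
  have hsσ : ∀ i, σ ≤ s i := fun i => by
    simp only [hsdef]
    exact (self_le_add_left _ _).trans ((self_le_add_right _ _).trans (self_le_add_right _ _))
  have hsθ : ∀ i, θ ≤ s i := fun i => by
    simp only [hsdef]
    exact (self_le_add_left _ _).trans (self_le_add_right _ _)
  have hssum : ∀ i, Cardinal.sum (fun j : Iio i => n j.1) ≤ s i := fun i => by
    simp only [hsdef]
    exact self_le_add_left _ _
  have hreg : ∀ i, (n i).IsRegular := fun i => by
    rw [hns]
    exact isRegular_succ ((hs0 i).trans (cantor _).le)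
  have h2n : ∀ i, 2 ^ s i < n i := fun i => by rw [hns]; exact Order.lt_succ _
  have hpow : ∀ i (c : Cardinal.{u}), c ≤ s i → #Γ ^ c < n i := by
    intro i c hc
    refine lt_of_le_of_lt ?_ (h2n i)
    calc #Γ ^ c ≤ (2 ^ g0) ^ c :=
          power_le_power_right ((le_max_left _ _).trans (cantor g0).le)
      _ = 2 ^ (g0 * c) := by rw [power_mul]
      _ ≤ 2 ^ s i := by
          refine power_le_power_left two_ne_zero ?_
          calc g0 * c ≤ s i * s i := mul_le_mul' (hsg i) hc
            _ = s i := mul_eq_self (hs0 i)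
  -- the embedding
  set X : I → Type u := fun i => (n i).out with hX
  have hXc : ∀ i, #(X i) = n i := fun i => mk_out _
  have hemb : #(Σ i, X i) ≤ #A := by
    rw [mk_sigma, hA]
    refine (sum_le_mk_mul_iSup _).trans ?_
    refine (mul_le_mul' (hIcard.le.trans hs.le) (ciSup_le' fun i => ?_)).trans (mul_eq_self hκ).le
    rw [hXc]
    exact (hnlt i).1.le
  obtain ⟨e⟩ := hemb
  -- step 1
  have step1 : ∀ j : I, ∃ (g : (Σ i : Iio j, X i.1) → Γ) (Y : Set (X j)), n j ≤ #Y ∧
      ∀ y ∈ Y, ∀ p : (Σ i : Iio j, X i.1), f {e ⟨p.1.1, p.2⟩, e ⟨j, y⟩} = g p := by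
    intro j
    obtain ⟨g, hg⟩ := infinite_pigeonhole_card
      (fun (y : X j) (p : (Σ i : Iio j, X i.1)) => f {e ⟨p.1.1, p.2⟩, e ⟨j, y⟩}) (n j)
      (hXc j).ge (hreg j).aleph0_le (by
        rw [(hreg j).cof_ord, ← power_def, mk_sigma]
        exact hpow j _ ((Cardinal.sum_le_sum (fun i : Iio j => #(X i.1)) (fun i : Iio j => n i.1)
          fun i => (hXc i.1).le).trans (hssum j)))
    refine ⟨g, _, hg, ?_⟩
    intro y hy p
    have := congrFun hy p
    exact this
  choose Gf X1 hX1 hG using step1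
  -- step 2
  have step2 : ∀ i : I, ∃ (c : I → Γ) (Y : Set (X i)), Y ⊆ X1 i ∧ n i ≤ #Y ∧
      ∀ x ∈ Y, ∀ j (h : i < j), Gf j ⟨⟨i, h⟩, x⟩ = c j := by
    intro i
    obtain ⟨c, t, ht, hc, hh⟩ := infinite_pigeonhole_set (s := X1 i)
      (fun (x : X1 i) (j : I) => if h : i < j then Gf j ⟨⟨i, h⟩, x.1⟩ else ν₀) (n i)
      (hX1 i) (hreg i).aleph0_le (by
        rw [(hreg i).cof_ord, ← power_def, hIcard]
        exact hpow i _ (hsθ i))
    refine ⟨c, t, ht, hc, ?_⟩
    intro x hx j h
    have := congrFun (hh hx) j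
    simp only [dif_pos h] at this
    exact this
  choose c X2 hX21 hX2 hc using step2
  -- step 3
  have step3 : ∀ i : I, ∃ (d : Γ) (K : Set (X i)), K ⊆ X2 i ∧ #K = Order.succ (s i) ∧
      ∀ x ∈ K, ∀ y ∈ K, x ≠ y → f {e ⟨i, x⟩, e ⟨i, y⟩} = d := by
    intro i
    obtain ⟨d, Y, hY, hd⟩ := er_given (A := X2 i) (hs0 i) ((h2n i).trans_le (hX2 i))
      ((le_max_left _ _).trans (hsg i)) (fun t => f (t.image fun x => e ⟨i, x.1⟩))
    refine ⟨d, Subtype.val '' Y, ?_, ?_, ?_⟩
    · rintro _ ⟨x, _, rfl⟩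
      exact x.2
    · rw [mk_image_eq Subtype.val_injective]
      exact hY
    · rintro _ ⟨x, hx, rfl⟩ _ ⟨y, hy, rfl⟩ hxy
      have hxy' : x ≠ y := fun h => hxy (by rw [h])
      have := hd {x, y} (Finset.card_pair hxy') (by
        intro z hz
        simp only [Finset.coe_insert, Finset.coe_singleton, mem_insert_iff,
          mem_singleton_iff] at hz
        rcases hz with rfl | rfl
        · exact hx
        · exact hy)
      rw [Finset.image_insert, Finset.image_singleton] at this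
      exact this
  choose d K hK2 hKc hd using step3
  have einj : ∀ i (x y : X i), e ⟨i, x⟩ = e ⟨i, y⟩ → x = y := by
    intro i x y h
    have := e.injective h
    simpa using this
  have hd0 : ∀ i, d i = ν₀ := by
    intro i
    by_contra hne
    have h1 : lam (d i) ≤ #((fun x => e ⟨i, x⟩) '' K i) := by
      rw [mk_image_eq (fun x y h => einj i x y h), hKc]
      exact ((hlam _ hne).trans (hsσ i)).trans (Order.le_succ _)
    obtain ⟨Z, hZ, hZc⟩ := le_mk_iff_exists_subset.mp h1
    obtain ⟨t, ht, htZ, htf⟩ := hf (d i) Z hZc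
    obtain ⟨a, b, hab, rfl⟩ := Finset.card_eq_two.mp ht
    obtain ⟨x, hx, rfl⟩ := hZ (htZ (by simp : a ∈ ((({a, b} : Finset A)) : Set A)))
    obtain ⟨y, hy, rfl⟩ := hZ (htZ (by simp : b ∈ ((({e ⟨i, x⟩, b} : Finset A)) : Set A)))
    exact htf (hd i x hx y hy fun h => hab (by rw [h]))
  have hcr : ∀ i j (h : i < j), ∀ x ∈ K i, ∀ y ∈ K j, f {e ⟨i, x⟩, e ⟨j, y⟩} = c i j := by
    intro i j h x hx y hy
    rw [← hc i x (hK2 i hx) j h]
    exact hG j y (hX21 j (hK2 j hy)) ⟨⟨i, h⟩, x⟩
  -- the colouring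
  refine ⟨fun t => if h : t.Nonempty then c (t.min' h) (t.max' h) else ν₀, ?_⟩
  have hf' : ∀ i j : I, i < j →
      (if h : ({i, j} : Finset I).Nonempty then c (({i, j} : Finset I).min' h)
        (({i, j} : Finset I).max' h) else ν₀) = c i j := by
    intro i j hij
    have hne : ({i, j} : Finset I).Nonempty := ⟨i, by simp⟩
    rw [dif_pos hne]
    congr 1
    · rw [Finset.min'_pair]; exact min_eq_left hij.le
    · rw [Finset.max'_pair]; exact max_eq_right hij.le
  intro ν J hJ
  by_contra hcon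
  push Not at hcon
  have hcJ : ∀ i ∈ J, ∀ j ∈ J, i < j → c i j = ν := by
    intro i hi j hj hij
    rw [← hf' i j hij]
    apply hcon {i, j} (Finset.card_pair hij.ne)
    intro z hz
    simp only [Finset.coe_insert, Finset.coe_singleton, mem_insert_iff, mem_singleton_iff] at hz
    rcases hz with rfl | rfl
    · exact hi
    · exact hj
  by_cases hν : ν = ν₀
  · subst hν
    simp only [if_true] at hJ
    set Y : Set A := {a | ∃ i ∈ J, ∃ x ∈ K i, e ⟨i, x⟩ = a} with hY
    have hbig : κ ≤ #Y := by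
      by_contra hlt
      push Not at hlt
      obtain ⟨i, hi⟩ := hmcof _ hlt
      -- J is unbounded
      have hub : ∃ j ∈ J, i ≤ j := by
        by_contra hb
        push Not at hb
        have h1 : #J ≤ #(Iio i) := mk_le_mk_of_subset fun j hj => hb j hj
        rw [hJ] at h1
        exact absurd h1 (not_le.mpr (hIio i))
      obtain ⟨j, hj, hij⟩ := hub
      have h2 : #(K j) ≤ #Y := by
        refine mk_le_of_injective (f := fun x : K j => (⟨e ⟨j, x.1⟩, j, hj, x.1, x.2, rfl⟩ : Y)) ?_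
        intro x y hxy
        have := congrArg Subtype.val hxy
        exact Subtype.ext (einj j _ _ this)
      rw [hKc] at h2
      have h3 : m i ≤ s j := (hmono hij).trans (hsm j)
      exact absurd (h2.trans (hi.trans h3)) (not_le.mpr (Order.lt_succ _))
    rw [← h0] at hbig
    obtain ⟨Z, hZ, hZc⟩ := le_mk_iff_exists_subset.mp hbig
    obtain ⟨t, ht, htZ, htf⟩ := hf _ Z hZc
    obtain ⟨a, b, hab, rfl⟩ := Finset.card_eq_two.mp ht
    obtain ⟨i, hi, x, hx, rfl⟩ := hZ (htZ (by simp : a ∈ ((({a, b} : Finset A)) : Set A)))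
    obtain ⟨j, hj, y, hy, rfl⟩ := hZ (htZ (by simp : b ∈ ((({e ⟨i, x⟩, b} : Finset A)) : Set A)))
    apply htf
    rcases lt_trichotomy i j with h | h | h
    · rw [hcr i j h x hx y hy]
      exact hcJ i hi j hj h
    · subst h
      rw [hd i x hx y hy fun h => hab (by rw [h])]
      exact hd0 i
    · rw [Finset.pair_comm, hcr j i h y hy x hx]
      exact hcJ j hj i hi h
  · simp only [if_neg hν] at hJ
    have hne : ∀ i, ∃ x, x ∈ K i := by
      intro i
      by_contra h
      push Not at h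
      have h1 : K i = ∅ := eq_empty_iff_forall_notMem.mpr h
      have h2 := hKc i
      rw [h1, mk_emptyCollection] at h2
      exact absurd h2.symm (Order.succ_ne_bot _)
    choose k hk using hne
    have hkinj : Function.Injective fun i : I => e ⟨i, k i⟩ := by
      intro i j h
      have := e.injective h
      exact congrArg Sigma.fst this
    obtain ⟨t, ht, htZ, htf⟩ := hf ν ((fun i : I => e ⟨i, k i⟩) '' J) (by
      rw [mk_image_eq hkinj]; exact hJ)
    obtain ⟨a, b, hab, rfl⟩ := Finset.card_eq_two.mp ht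
    obtain ⟨i, hi, rfl⟩ := htZ (by simp : a ∈ ((({a, b} : Finset A)) : Set A))
    obtain ⟨j, hj, hb⟩ := htZ (by simp : b ∈ ((({e ⟨i, k i⟩, b} : Finset A)) : Set A))
    simp only at hb
    subst hb
    apply htf
    rcases lt_trichotomy i j with h | h | h
    · rw [hcr i j h _ (hk i) _ (hk j)]
      exact hcJ i hi j hj h
    · subst h
      exact absurd rfl hab
    · rw [Finset.pair_comm, hcr j i h _ (hk j) _ (hk i)]
      exact hcJ j hj i hi h

open Classical in
/-- TARGET 1: canonization: a negative relation at a strong limit singular cardinal goes down to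
the cofinality -/
theorem canon_down {κ : Cardinal.{u}} (hκ : ℵ₀ ≤ κ) (hs : κ.ord.cof < κ)
    (hsl : ∀ x < κ, (2 : Cardinal.{u}) ^ x < κ) {A Γ : Type u} (hA : #A = κ) (hΓ : #Γ < κ)
    {lam : Γ → Cardinal.{u}} {ν₀ : Γ} (h0 : lam ν₀ = κ) {σ : Cardinal.{u}} (hσ : σ < κ)
    (hlam : ∀ ν, ν ≠ ν₀ → lam ν ≤ σ) {f : Finset A → Γ} (hf : NA lam 2 f) :
    ∃ f' : Finset κ.ord.cof.ord.ToType → Γ,
      NA (fun ν => if ν = ν₀ then κ.ord.cof else lam ν) 2 f' := by
  obtain ⟨m, hmono, hmlt, hmcof⟩ := cofinal_family κ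
  have hIcard : #κ.ord.cof.ord.ToType = κ.ord.cof := by rw [mk_toType, card_ord]
  refine canon_core hκ κ.ord.cof rfl hs hsl hA hΓ h0 hσ hlam hf κ.ord.cof.ord.ToType hIcard ?_
    m hmono hmlt hmcof
  intro i
  have := Cardinal.mk_Iio_lt i (by simp)
  rwa [hIcard] at this

end Pool.Agent.H330
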