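import Mathlib
import Pool.Agent.H330.Tree

open Cardinal Set

universe u

namespace Pool.Agent.H330


/-- TARGET 1 (closure): if `x ^ ν < θ` for all `x < θ`, `θ` regular, every
assignment `F` of small sets to sets of size `≤ ν` has a small closed set `D`. -/
theorem small_closed {θ ν : Cardinal.{u}} (hθ : θ.IsRegular) (hν : ℵ₀ ≤ ν)
    (hpow : ∀ x < θ, x ^ ν < θ) {Θ : Type u}
    (F : Set Θ → Set Θ) (hF : ∀ A : Set Θ, #A ≤ ν → #(F A) < θ) :
    ∃ D : Set Θ, #D < θ ∧ ∀ A : Set Θ, A ⊆ D → #A ≤ ν → F A ⊆ D := by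
  classical
  have h0θ : ℵ₀ ≤ θ := hθ.1
  have h2 : (2 : Cardinal.{u}) < θ :=
    lt_of_lt_of_le (by exact_mod_cast natCast_lt_aleph0 (n := 2)) h0θ
  have h2ν : (2 : Cardinal.{u}) ^ ν < θ := hpow 2 h2
  have hsθ : Order.succ ν < θ := lt_of_le_of_lt (Order.succ_le_of_lt (cantor ν)) h2ν
  have hνθ : ν < θ := lt_trans (Order.lt_succ ν) hsθ
  let step : Set Θ → Set Θ := fun X => X ∪ ⋃ A ∈ {A : Set Θ | A ⊆ X ∧ #A ≤ ν}, F A
  have hstep : ∀ X : Set Θ, #X < θ → #(step X) < θ := by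
    intro X hX
    refine lt_of_le_of_lt (mk_union_le _ _) (add_lt_of_lt h0θ hX ?_)
    have hc : #({A : Set Θ | A ⊆ X ∧ #A ≤ ν} : Set (Set Θ)) < θ := by
      refine lt_of_le_of_lt (mk_bounded_subset_le X ν) (hpow _ ?_)
      exact max_lt hX (lt_of_le_of_lt hν hνθ)
    rw [card_biUnion_lt_iff_forall_of_isRegular hθ hc]
    rintro A ⟨-, hA⟩
    exact hF A hA
  have hsucc : (Order.succ ν).IsRegular := isRegular_succ hν
  let W := (Order.succ ν).ord.ToType
  have hW : #W = Order.succ ν := by simp [W]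
  have hcof : Order.cof W = Order.succ ν := by
    simp only [W]
    rw [Ordinal.cof_toType, hsucc.cof_ord]
  let D : W → Set Θ := (wellFounded_lt : WellFounded ((· < ·) : W → W → Prop)).fix
    (fun w ih => ⋃ v : {v // v < w}, step (ih v.1 v.2))
  have hD : ∀ w, D w = ⋃ v : {v // v < w}, step (D v.1) := by
    intro w
    exact WellFounded.fix_eq _ _ _
  have hmono : ∀ v w, v < w → step (D v) ⊆ D w := by
    intro v w h
    rw [hD w]
    exact subset_iUnion (fun v : {v // v < w} => step (D v.1)) ⟨v, h⟩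
  have hsub : ∀ X : Set Θ, X ⊆ step X := fun X => subset_union_left
  have hcard : ∀ w, #(D w) < θ := by
    intro w
    induction w using WellFoundedLT.induction with
    | ind w ih =>
      rw [hD w]
      have h1 : #{v // v < w} < θ := by
        refine lt_of_le_of_lt (mk_subtype_le _) ?_
        rw [hW]; exact hsθ
      rw [card_iUnion_lt_iff_forall_of_isRegular hθ h1]
      intro v
      exact hstep _ (ih v.1 v.2)
  refine ⟨⋃ w, D w, ?_, ?_⟩
  · have h1 : #W < θ := by rw [hW]; exact hsθ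
    rw [card_iUnion_lt_iff_forall_of_isRegular hθ h1]
    exact hcard
  · intro A hA hAν
    have h1 : ∀ a : A, ∃ w, a.1 ∈ D w := fun a => by
      have := hA a.2
      simpa using this
    choose w hw using h1
    have h2 : ¬ IsCofinal (range w) := by
      intro hc
      have h3 := Order.cof_le hc
      rw [hcof] at h3
      have h4 : #(range w) ≤ ν := mk_range_le.trans hAν
      exact absurd (h3.trans h4) (not_le.2 (Order.lt_succ ν))
    simp only [IsCofinal, not_forall, not_exists, not_and, mem_range] at h2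
    obtain ⟨x, hx⟩ := h2
    have hAx : A ⊆ D x := by
      intro a ha
      have h5 : w ⟨a, ha⟩ < x := by
        have := hx (w ⟨a, ha⟩) ⟨_, rfl⟩
        exact not_le.1 this
      exact hmono _ _ h5 (hsub _ (hw ⟨a, ha⟩))
    -- a larger element
    have h3 : ∃ y, x < y := by
      by_contra hcon
      push Not at hcon
      have h4 : IsCofinal ({x} : Set W) := fun y => ⟨x, rfl, hcon y⟩
      have h5 := Order.cof_le h4
      rw [hcof, mk_singleton] at h5
      exact absurd (h5.trans (one_lt_aleph0.le.trans hν)) (not_le.2 (Order.lt_succ ν))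
    obtain ⟨y, hy⟩ := h3
    intro z hz
    refine mem_iUnion.2 ⟨y, hmono x y hy ?_⟩
    refine Or.inr ?_
    exact mem_biUnion (show A ∈ {A : Set Θ | A ⊆ D x ∧ #A ≤ ν} from ⟨hAx, hAν⟩) hz


/-- subsets of a set maximal among the homogeneous ones -/
theorem exists_max_hom {Θ : Type u} (R : Θ → Θ → Prop) (hR : ∀ x y, R x y → R y x) (T : Set Θ) :
    ∃ Z : Set Θ, Z ⊆ T ∧ (∀ x ∈ Z, ∀ y ∈ Z, x ≠ y → R x y) ∧
      ∀ x ∈ T, x ∉ Z → ∃ y ∈ Z, ¬ R y x := by
  obtain ⟨Z, hZ⟩ := zorn_subset {Z : Set Θ | Z ⊆ T ∧ ∀ x ∈ Z, ∀ y ∈ Z, x ≠ y → R x y} (by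
    intro c hc hchain
    refine ⟨⋃₀ c, ⟨?_, ?_⟩, fun s hs => subset_sUnion_of_mem hs⟩
    · exact sUnion_subset fun s hs => (hc hs).1
    · rintro x ⟨s, hs, hxs⟩ y ⟨t, ht, hyt⟩ hxy
      rcases hchain.total hs ht with h | h
      · exact (hc ht).2 x (h hxs) y hyt hxy
      · exact (hc hs).2 x hxs y (h hyt) hxy)
  refine ⟨Z, hZ.prop.1, hZ.prop.2, fun x hx hxZ => ?_⟩
  by_contra hcon
  push Not at hcon
  have h1 : insert x Z ⊆ Z := hZ.le_of_ge (y := insert x Z) ⟨insert_subset hx hZ.prop.1, by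
    intro a ha b hb hab
    rcases mem_insert_iff.1 ha with h1 | h1
    · rcases mem_insert_iff.1 hb with h2 | h2
      · exact absurd (h1.trans h2.symm) hab
      · exact h1 ▸ hR _ _ (hcon b h2)
    · rcases mem_insert_iff.1 hb with h2 | h2
      · exact h2 ▸ hcon a h1
      · exact hZ.prop.2 a h1 b h2 hab⟩ (subset_insert x Z)
  exact hxZ (h1 (mem_insert x Z))

/-- TARGET 2: `θ → (θ, (ν⁺)_ν)²` for regular `θ` with `x ^ ν < θ` for all `x < θ`. -/
theorem reg_pos {θ ν : Cardinal.{u}} (hθ : θ.IsRegular) (hν : ℵ₀ ≤ ν)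
    (hpow : ∀ x < θ, x ^ ν < θ) {Θ Γ : Type u} (hΘ : #Θ = θ) (hΓ : #Γ ≤ ν)
    {lam : Γ → Cardinal.{u}} {ν₀ : Γ} (h0 : lam ν₀ ≤ θ)
    (hlam : ∀ c, c ≠ ν₀ → lam c ≤ Order.succ ν) {f : Finset Θ → Γ} (hf : NA lam 2 f) : False := by
  classical
  have h0θ : ℵ₀ ≤ θ := hθ.1
  have h2 : (2 : Cardinal.{u}) < θ :=
    lt_of_lt_of_le (by exact_mod_cast natCast_lt_aleph0 (n := 2)) h0θ
  have h2ν : (2 : Cardinal.{u}) ^ ν < θ := hpow 2 h2
  have hsθ : Order.succ ν < θ := lt_of_le_of_lt (Order.succ_le_of_lt (cantor ν)) h2ν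
  have hνθ : ν < θ := lt_trans (Order.lt_succ ν) hsθ
  -- homogeneous sets are small
  have key : ∀ (c : Γ) (Z : Set Θ), (∀ x ∈ Z, ∀ y ∈ Z, x ≠ y → f {x, y} = c) → #Z < lam c := by
    intro c Z hZ
    by_contra hcon
    rw [not_lt, Cardinal.le_mk_iff_exists_subset] at hcon
    obtain ⟨Y, hYZ, hY⟩ := hcon
    obtain ⟨s, hs2, hsY, hfs⟩ := hf c Y hY
    obtain ⟨x, y, hxy, rfl⟩ := Finset.card_eq_two.1 hs2
    refine hfs (hZ x (hYZ (hsY ?_)) y (hYZ (hsY ?_)) hxy) <;> simp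
  have hsymm : ∀ x y : Θ, f {x, y} = f {y, x} := fun x y => by rw [Finset.pair_comm]
  let T : (A : Set Θ) → (A → Γ) → Set Θ := fun A g => {x | x ∉ A ∧ ∀ a : A, f {a.1, x} = g a}
  have hex : ∀ (A : Set Θ) (g : A → Γ), ∃ Z : Set Θ, Z ⊆ T A g ∧
      (∀ x ∈ Z, ∀ y ∈ Z, x ≠ y → f {x, y} = ν₀) ∧
      ∀ x ∈ T A g, x ∉ Z → ∃ y ∈ Z, ¬ f {y, x} = ν₀ := fun A g =>
    exists_max_hom (fun x y => f {x, y} = ν₀) (fun x y h => by rw [hsymm]; exact h) (T A g)
  choose Y hY1 hY2 hY3 using hex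
  obtain ⟨D, hDθ, hD⟩ := small_closed hθ hν hpow (fun A => ⋃ g : A → Γ, Y A g) (by
    intro A hA
    have h1 : #(A → Γ) < θ := by
      have hν0 : ν ≠ 0 := (lt_of_lt_of_le aleph0_pos hν).ne'
      have : #(A → Γ) ≤ ν ^ ν := by
        simp only [mk_pi, prod_const, lift_id]
        exact (power_le_power_right hΓ).trans (power_le_power_left hν0 hA)
      exact lt_of_le_of_lt this (hpow ν hνθ)
    rw [card_iUnion_lt_iff_forall_of_isRegular hθ h1]
    intro g
    exact lt_of_lt_of_le (key ν₀ _ (hY2 A g)) h0)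
  obtain ⟨δ, hδ⟩ : ∃ δ, δ ∉ D := by
    by_contra hcon
    push Not at hcon
    have : D = Set.univ := eq_univ_of_forall hcon
    rw [this, mk_univ, hΘ] at hDθ
    exact lt_irrefl _ hDθ
  obtain ⟨A, hA⟩ := zorn_subset {A : Set Θ | A ⊆ D ∧ (∀ a ∈ A, f {a, δ} ≠ ν₀) ∧
      ∀ a ∈ A, ∀ b ∈ A, a ≠ b → f {a, δ} = f {b, δ} → f {a, b} = f {a, δ}} (by
    intro c hc hchain
    refine ⟨⋃₀ c, ⟨?_, ?_, ?_⟩, fun s hs => subset_sUnion_of_mem hs⟩
    · exact sUnion_subset fun s hs => (hc hs).1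
    · rintro a ⟨s, hs, has⟩
      exact (hc hs).2.1 a has
    · rintro x ⟨s, hs, hxs⟩ y ⟨t, ht, hyt⟩ hxy
      rcases hchain.total hs ht with h | h
      · exact (hc ht).2.2 x (h hxs) y hyt hxy
      · exact (hc hs).2.2 x hxs y (h hyt) hxy)
  obtain ⟨hAD, hA1, hA2⟩ := hA.prop
  have hAbig : ν < #A := by
    by_contra hcon
    rw [not_lt] at hcon
    let g : A → Γ := fun a => f {a.1, δ}
    have hδT : δ ∈ T A g := ⟨fun h => hδ (hAD h), fun a => rfl⟩
    have hYD : Y A g ⊆ D := (subset_iUnion (fun g => Y A g) g).trans (hD A hAD hcon)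
    obtain ⟨y, hy, hyδ⟩ := hY3 A g δ hδT (fun h => hδ (hYD h))
    have hyT := hY1 A g hy
    have h1 : insert y A ⊆ A := hA.le_of_ge (y := insert y A) ⟨insert_subset (hYD hy) hAD, by
      intro a ha
      rcases mem_insert_iff.1 ha with rfl | ha
      · exact hyδ
      · exact hA1 a ha, by
      intro a ha b hb hab hfab
      rcases mem_insert_iff.1 ha with rfl | ha
      · rcases mem_insert_iff.1 hb with rfl | hb
        · exact absurd rfl hab
        · rw [hsymm, hfab]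
          exact hyT.2 ⟨b, hb⟩
      · rcases mem_insert_iff.1 hb with h2 | h2
        · rw [h2]; exact hyT.2 ⟨a, ha⟩
        · exact hA2 a ha b h2 hab hfab⟩ (subset_insert y A)
    exact hyT.1 (h1 (mem_insert y A))
  have hsν : Order.succ ν ≤ #A := Order.succ_le_of_lt hAbig
  have hsreg : (Order.succ ν).IsRegular := isRegular_succ hν
  obtain ⟨c, t, htA, htc, htf⟩ := infinite_pigeonhole_set (fun a : A => f {a.1, δ})
    (Order.succ ν) hsν hsreg.1 (by
      rw [hsreg.cof_ord]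
      exact lt_of_le_of_lt hΓ (Order.lt_succ ν))
  have hcν : c ≠ ν₀ := by
    have : (t : Set Θ).Nonempty := by
      rw [← Set.nonempty_coe_sort, ← mk_ne_zero_iff]
      exact (lt_of_lt_of_le (lt_of_lt_of_le aleph0_pos hsreg.1) htc).ne'
    obtain ⟨x, hx⟩ := this
    rw [← htf hx]
    exact hA1 x (htA hx)
  have hlt := key c t (by
    intro x hx y hy hxy
    have hx' := htf hx
    have hy' := htf hy
    simp only at hx' hy'
    rw [hA2 x (htA hx) y (htA hy) hxy (hx'.trans hy'.symm)]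
    exact hx')
  exact absurd (lt_of_lt_of_le hlt ((hlam c hcν).trans htc)) (lt_irrefl _)

end Pool.Agent.H330
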