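import Mathlib

open Cardinal Set

universe u

namespace Pool.Agent.H330

theorem aux_exists_mk_Iio {W : Type u} [LinearOrder W] [WellFoundedLT W] {c : Cardinal.{u}}
    (hc : c < #W) : ∃ y : W, #(Iio y) = c := by
  have h : c.ord < Ordinal.type (fun a b : W => a < b) := by
    by_contra hcon
    push Not at hcon
    have := Ordinal.card_le_card hcon
    rw [Cardinal.card_ord, Ordinal.card_type] at this
    exact absurd hc (not_lt.2 this)
  refine ⟨Ordinal.enum (fun a b : W => a < b) ⟨c.ord, h⟩, ?_⟩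
  have h1 := Ordinal.typein_enum (fun a b : W => a < b) h
  have h2 := Ordinal.card_typein (r := fun a b : W => a < b)
    (Ordinal.enum (fun a b : W => a < b) ⟨c.ord, h⟩)
  rw [h1, Cardinal.card_ord] at h2
  exact h2.symm

theorem aux_P {W : Type u} [LinearOrder W] [WellFoundedLT W] {Y : Set W} {c : Cardinal.{u}}
    (hc : c < #Y) : ∃ y ∈ Y, c ≤ #{x : W | x ∈ Y ∧ x < y} := by
  obtain ⟨y, hy⟩ := aux_exists_mk_Iio hc
  refine ⟨y.1, y.2, ?_⟩
  rw [← hy]
  refine Cardinal.mk_le_of_injective (f := fun z : Iio y => (⟨z.1.1, z.1.2, z.2⟩ :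
    {x : W | x ∈ Y ∧ x < y.1})) ?_
  intro a b hab
  have : a.1.1 = b.1.1 := Subtype.mk.inj hab
  exact Subtype.ext (Subtype.ext this)

theorem aux_succ_lt {κ : Cardinal.{u}} (hκ : ℵ₀ ≤ κ) (hs : κ.ord.cof < κ) {c : Cardinal.{u}}
    (hc : c < κ) : Order.succ c < κ := by
  refine lt_of_le_of_ne (Order.succ_le_of_lt hc) ?_
  intro h
  rcases lt_or_ge c ℵ₀ with h1 | h1
  · have : Order.succ c < ℵ₀ := Cardinal.isSuccLimit_aleph0.succ_lt h1
    rw [h] at this
    exact absurd hκ (not_le.2 this)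
  · have := (Cardinal.isRegular_succ h1).cof_ord
    rw [h] at this
    exact absurd hs (by rw [this]; exact lt_irrefl _)

/-- TARGET 1 (blocks): `κ` singular, `Θ` of size `cof κ`: a block map from a type of size `κ` to `Θ`
such that fewer than `cof κ` blocks have together fewer than `κ` elements -/
theorem exists_block {κ : Cardinal.{u}} (hκ : ℵ₀ ≤ κ) (hs : κ.ord.cof < κ) {A Θ : Type u}
    (hA : #A = κ) (hΘ : #Θ = κ.ord.cof) :
    ∃ bl : A → Θ, ∀ S : Set Θ, #S < κ.ord.cof → #(bl ⁻¹' S) < κ := by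
  obtain ⟨e⟩ : Nonempty (A ≃ κ.ord.ToType) := Cardinal.eq.1 (by rw [hA]; simp)
  obtain ⟨s, hscof, hscard⟩ := Order.exists_cof_eq κ.ord.ToType
  rw [Ordinal.cof_toType, ← hΘ] at hscard
  obtain ⟨φ⟩ : Nonempty (Θ ≃ s) := (Cardinal.eq.1 hscard.symm)
  let m : Θ → Cardinal.{u} := fun θ => #(Iio (φ θ).1)
  have hm : ∀ θ, m θ < κ := fun θ => by
    have := Cardinal.mk_Iio_lt (φ θ).1 (by simp)
    simpa using this
  have hex : ∀ a : A, ∃ θ, #(Iio (e a)) ≤ m θ := by
    intro a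
    obtain ⟨b, hb, hab⟩ := hscof (e a)
    refine ⟨φ.symm ⟨b, hb⟩, ?_⟩
    simp only [m, Equiv.apply_symm_apply]
    exact Cardinal.mk_le_mk_of_subset (Iio_subset_Iio hab)
  choose bl hbl using hex
  refine ⟨bl, fun S hS => ?_⟩
  set t : Cardinal.{u} := ⨆ θ : S, m θ.1 with ht
  have ht1 : t < κ := Cardinal.iSup_lt_of_lt_cof_ord hS (fun i => hm i.1)
  have ht2 : Order.succ t < κ := aux_succ_lt hκ hs ht1
  obtain ⟨y, hy⟩ := aux_exists_mk_Iio (W := κ.ord.ToType) (c := Order.succ t) (by simpa using ht2)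
  have hsub : ∀ a ∈ bl ⁻¹' S, e a < y := by
    intro a ha
    by_contra hcon
    push Not at hcon
    have h1 : #(Iio y) ≤ #(Iio (e a)) := Cardinal.mk_le_mk_of_subset (Iio_subset_Iio hcon)
    have h2 : #(Iio (e a)) ≤ t := (hbl a).trans
      (le_ciSup (f := fun θ : S => m θ.1) (Cardinal.bddAbove_of_small) ⟨bl a, ha⟩)
    rw [hy] at h1
    exact absurd (Order.lt_succ t) (not_lt.2 (h1.trans h2))
  calc #(bl ⁻¹' S) ≤ #(Iio y) := by
        refine Cardinal.mk_le_of_injective (f := fun a : bl ⁻¹' S => (⟨e a.1, hsub a.1 a.2⟩ : Iio y)) ?_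
        intro a b hab
        have : e a.1 = e b.1 := congrArg Subtype.val hab
        exact Subtype.ext (e.injective this)
    _ = Order.succ t := hy
    _ < κ := ht2

theorem aux_triple {W : Type u} [LinearOrder W] {x y z : W} (hxy : x < y) (hyz : y < z)
    (h : ({x, y, z} : Finset W).card = 3) :
    ({x, y, z} : Finset W).orderEmbOfFin h 0 = x ∧
    ({x, y, z} : Finset W).orderEmbOfFin h 1 = y ∧
    ({x, y, z} : Finset W).orderEmbOfFin h 2 = z := by
  have := Finset.orderEmbOfFin_unique (s := ({x, y, z} : Finset W)) h (f := ![x, y, z])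
    (by intro i; fin_cases i <;> simp) (by
      rw [Fin.strictMono_iff_lt_succ]
      intro i
      fin_cases i
      · exact hxy
      · exact hyz)
  refine ⟨?_, ?_, ?_⟩
  · rw [← this]; rfl
  · rw [← this]; rfl
  · rw [← this]; rfl

theorem aux_card {W : Type u} [LinearOrder W] {x y z : W} (hxy : x < y) (hyz : y < z) :
    ({x, y, z} : Finset W).card = 3 := by
  rw [Finset.card_insert_of_notMem, Finset.card_insert_of_notMem, Finset.card_singleton]
  · simpa using ne_of_lt hyz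
  · simp only [Finset.mem_insert, Finset.mem_singleton, not_or]
    exact ⟨ne_of_lt hxy, ne_of_lt (hxy.trans hyz)⟩

theorem aux_main {κ : Cardinal.{u}} (hκ : ℵ₀ ≤ κ) (hs : κ.ord.cof < κ) {Γ : Type u} (ν₀ : Γ)
    (hinf : ℵ₀ ≤ #{ν : Γ // ν ≠ ν₀}) (hpow : κ.ord.cof ≤ 2 ^ #{ν : Γ // ν ≠ ν₀})
    {W : Type u} [LinearOrder W] [WellFoundedLT W] (hW : ∀ y : W, #(Iio y) ≤ κ) :
    ∃ g : Finset W → Γ,
      (∀ Y : Set W, κ ≤ #Y → ∃ s : Finset W, s.card = 3 ∧ (↑s : Set W) ⊆ Y ∧ g s ≠ ν₀) ∧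
      (∀ ν, ν ≠ ν₀ → ∀ Y : Set W, 4 ≤ #Y →
        ∃ s : Finset W, s.card = 3 ∧ (↑s : Set W) ⊆ Y ∧ g s ≠ ν) := by
  classical
  obtain ⟨bl, hbl⟩ := exists_block hκ hs (A := κ.out) (Θ := κ.ord.cof.out) (by simp) (by simp)
  have hcof : ℵ₀ ≤ κ.ord.cof := by
    rw [Ordinal.aleph0_le_cof]
    exact Cardinal.isSuccLimit_ord hκ
  have : Nonempty κ.ord.cof.out := by
    rw [← Cardinal.mk_ne_zero_iff, Cardinal.mk_out]
    exact (Cardinal.aleph0_pos.trans_le hcof).ne'
  have hh : ∀ y : W, Nonempty (Iio y ↪ κ.out) := fun y => by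
    rw [← Cardinal.le_def, Cardinal.mk_out]; exact hW y
  let h : ∀ y : W, Iio y ↪ κ.out := fun y => Classical.choice (hh y)
  let d : W → W → κ.ord.cof.out := fun x y => if hxy : x < y then bl (h y ⟨x, hxy⟩)
    else Classical.arbitrary _
  have hd : ∀ x y (hxy : x < y), d x y = bl (h y ⟨x, hxy⟩) := fun x y hxy => by
    simp only [d, dif_pos hxy]
  have hN : ∀ y v, #{x : W | x < y ∧ d x y = v} ≤ #(bl ⁻¹' {v}) := by
    intro y v
    refine Cardinal.mk_le_of_injective (f := fun x : {x : W | x < y ∧ d x y = v} =>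
      (⟨h y ⟨x.1, x.2.1⟩, by
        rw [Set.mem_preimage, Set.mem_singleton_iff, ← hd x.1 y x.2.1]; exact x.2.2⟩ :
        bl ⁻¹' {v})) ?_
    intro a b hab
    have h1 := Subtype.mk.inj hab
    have h2 := (h y).injective h1
    exact Subtype.ext (Subtype.mk.inj h2)
  -- the injection j
  have hGinf : Infinite {ν : Γ // ν ≠ ν₀} := Cardinal.infinite_iff.2 hinf
  obtain ⟨j⟩ : Nonempty (κ.ord.cof.out ↪ Set {ν : Γ // ν ≠ ν₀}) := by
    rw [← Cardinal.le_def, Cardinal.mk_out, Cardinal.mk_set]; exact hpow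
  have hjex : ∀ a b : κ.ord.cof.out, a ≠ b → ∃ n, ¬ (n ∈ j a ↔ n ∈ j b) := by
    intro a b hab
    by_contra hcon
    push Not at hcon
    exact hab (j.injective (Set.ext hcon))
  let e : κ.ord.cof.out → κ.ord.cof.out → {ν : Γ // ν ≠ ν₀} := fun a b =>
    if hab : ∃ n, ¬ (n ∈ j a ↔ n ∈ j b) then hab.choose else Classical.arbitrary _
  have he : ∀ a b, a ≠ b → ¬ (e a b ∈ j a ↔ e a b ∈ j b) := by
    intro a b hab
    have h1 := hjex a b hab
    simp only [e, dif_pos h1]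
    exact h1.choose_spec
  obtain ⟨c⟩ : Nonempty ({ν : Γ // ν ≠ ν₀} ⊕ {ν : Γ // ν ≠ ν₀} ≃ {ν : Γ // ν ≠ ν₀}) := by
    rw [← Cardinal.eq, Cardinal.mk_sum, Cardinal.lift_id]
    exact Cardinal.add_eq_self hinf
  let col : W → W → W → Γ := fun x y z =>
    if d x z ≠ d y z then (c (Sum.inl (e (d x z) (d y z)))).1
    else if d x y ≠ d x z then (c (Sum.inr (e (d x y) (d x z)))).1 else ν₀
  let g : Finset W → Γ := fun s => if hs : s.card = 3 then
    col (s.orderEmbOfFin hs 0) (s.orderEmbOfFin hs 1) (s.orderEmbOfFin hs 2) else ν₀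
  have hg : ∀ x y z, x < y → y < z → g {x, y, z} = col x y z := by
    intro x y z hxy hyz
    have h3 := aux_card hxy hyz
    obtain ⟨h0, h1, h2⟩ := aux_triple hxy hyz h3
    simp only [g, dif_pos h3, h0, h1, h2]
  have hsub : ∀ (Y : Set W) x y z, x ∈ Y → y ∈ Y → z ∈ Y →
      (↑({x, y, z} : Finset W) : Set W) ⊆ Y := by
    intro Y x y z hx hy hz w hw
    simp only [Finset.coe_insert, Finset.coe_singleton, Set.mem_insert_iff,
      Set.mem_singleton_iff] at hw
    rcases hw with rfl | rfl | rfl <;> assumption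
  have hcol1 : ∀ n x y z, col x y z = (c (Sum.inl n)).1 → ¬ (n ∈ j (d x z) ↔ n ∈ j (d y z)) := by
    intro n x y z hc
    simp only [col] at hc
    split_ifs at hc with h1 h2
    · have := c.injective (Subtype.ext hc)
      rw [Sum.inl.injEq] at this
      rw [← this]
      exact he _ _ h1
    · have := c.injective (Subtype.ext hc)
      cases this
    · exact absurd hc.symm (c (Sum.inl n)).2
  have hcol2 : ∀ n x y z, col x y z = (c (Sum.inr n)).1 → ¬ (n ∈ j (d x y) ↔ n ∈ j (d x z)) := by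
    intro n x y z hc
    simp only [col] at hc
    split_ifs at hc with h1 h2
    · have := c.injective (Subtype.ext hc)
      cases this
    · have := c.injective (Subtype.ext hc)
      rw [Sum.inr.injEq] at this
      rw [← this]
      exact he _ _ h2
    · exact absurd hc.symm (c (Sum.inr n)).2
  have hcol0 : ∀ x y z, col x y z = ν₀ → d x z = d y z ∧ d x y = d x z := by
    intro x y z hc
    simp only [col] at hc
    split_ifs at hc with h1 h2
    · exact absurd hc (c _).2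
    · exact absurd hc (c _).2
    · push Not at h1 h2
      exact ⟨h1, h2⟩
  refine ⟨g, ?_, ?_⟩
  · intro Y hY
    by_contra hcon
    push Not at hcon
    have hT : ∀ x ∈ Y, ∀ y ∈ Y, ∀ z ∈ Y, x < y → y < z → d x z = d y z ∧ d x y = d x z := by
      intro x hx y hy z hz hxy hyz
      have h1 := hcon {x, y, z} (aux_card hxy hyz) (hsub Y x y z hx hy hz)
      rw [hg x y z hxy hyz] at h1
      exact hcol0 x y z h1
    have hconst : ∃ v, ∀ x ∈ Y, ∀ y ∈ Y, x < y → d x y = v := by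
      by_cases hne : ∃ x ∈ Y, ∃ y ∈ Y, x < y
      · have hYne : Y.Nonempty := ⟨_, hne.choose_spec.1⟩
        obtain ⟨x0, hx0, hmin0⟩ := WellFounded.has_min (wellFounded_lt (α := W)) Y hYne
        have hY1 : {y ∈ Y | x0 < y}.Nonempty := by
          obtain ⟨x, hx, y, hy, hxy⟩ := hne
          exact ⟨y, hy, lt_of_le_of_lt (not_lt.1 (hmin0 x hx)) hxy⟩
        obtain ⟨x1, ⟨hx1, h01⟩, hmin1⟩ := WellFounded.has_min (wellFounded_lt (α := W)) _ hY1
        refine ⟨d x0 x1, ?_⟩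
        have hA : ∀ y ∈ Y, x0 < y → d x0 y = d x0 x1 := by
          intro y hy h0y
          rcases lt_or_eq_of_le (not_lt.1 (hmin1 y ⟨hy, h0y⟩)) with h1 | h1
          · exact (hT x0 hx0 x1 hx1 y hy h01 h1).2.symm
          · rw [h1]
        intro x hx y hy hxy
        rcases lt_or_eq_of_le (not_lt.1 (hmin0 x hx)) with h1 | h1
        · rw [← (hT x0 hx0 x hx y hy h1 hxy).1]
          exact hA y hy (h1.trans hxy)
        · rw [← h1]
          exact hA y hy (h1 ▸ hxy)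
      · push Not at hne
        exact ⟨Classical.arbitrary _, fun x hx y hy hxy =>
          absurd hxy (not_lt.2 (hne x hx y hy))⟩
    obtain ⟨v, hv⟩ := hconst
    have hk : #(bl ⁻¹' {v}) < κ := hbl {v} (by
      rw [Cardinal.mk_singleton]
      exact Cardinal.one_lt_aleph0.trans_le hcof)
    have hk2 := aux_succ_lt hκ hs hk
    obtain ⟨y, hy, hcy⟩ := aux_P (Y := Y) (hk2.trans_le hY)
    have h1 : #{x : W | x ∈ Y ∧ x < y} ≤ #{x : W | x < y ∧ d x y = v} :=
      Cardinal.mk_le_mk_of_subset (fun x hx => ⟨hx.2, hv x hx.1 y hy hx.2⟩)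
    exact absurd (Order.lt_succ (#(bl ⁻¹' {v}))) (not_lt.2 (hcy.trans (h1.trans (hN y v))))
  · intro ν hν Y hY
    by_contra hcon
    push Not at hcon
    obtain ⟨t, ht⟩ := Cardinal.exists_finset_eq_card (α := Y) (n := 4) (by exact_mod_cast hY)
    let f := t.orderEmbOfFin ht.symm
    have hT : ∀ a b c' : Fin 4, a < b → b < c' →
        col (f a).1 (f b).1 (f c').1 = ν := by
      intro a b c' hab hbc
      have h1 : (f a).1 < (f b).1 := f.strictMono hab
      have h2 : (f b).1 < (f c').1 := f.strictMono hbc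
      rw [← hg _ _ _ h1 h2]
      exact hcon _ (aux_card h1 h2) (hsub Y _ _ _ (f a).2 (f b).2 (f c').2)
    rcases hc' : c.symm ⟨ν, hν⟩ with n | n
    · have hn : ν = (c (Sum.inl n)).1 := by rw [← hc']; simp
      have h1 := hcol1 n _ _ _ ((hT 0 1 3 (by decide) (by decide)).trans hn)
      have h2 := hcol1 n _ _ _ ((hT 0 2 3 (by decide) (by decide)).trans hn)
      have h3 := hcol1 n _ _ _ ((hT 1 2 3 (by decide) (by decide)).trans hn)
      tauto
    · have hn : ν = (c (Sum.inr n)).1 := by rw [← hc']; simp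
      have h1 := hcol2 n _ _ _ ((hT 0 1 2 (by decide) (by decide)).trans hn)
      have h2 := hcol2 n _ _ _ ((hT 0 1 3 (by decide) (by decide)).trans hn)
      have h3 := hcol2 n _ _ _ ((hT 0 2 3 (by decide) (by decide)).trans hn)
      tauto

/-- TARGET 2: `κ⁺ ↛ (κ, (4)_ι)³` for singular `κ` with `cof κ ≤ 2 ^ ι`, `ι` infinite -/
theorem normal_colouring {κ : Cardinal.{u}} (hκ : ℵ₀ ≤ κ) (hs : κ.ord.cof < κ) {Γ : Type u} (ν₀ : Γ)
    (hinf : ℵ₀ ≤ #{ν : Γ // ν ≠ ν₀}) (hpow : κ.ord.cof ≤ 2 ^ #{ν : Γ // ν ≠ ν₀})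
    {V : Type u} (hV : #V = Order.succ κ) :
    ∃ g : Finset V → Γ,
      (∀ Y : Set V, κ ≤ #Y → ∃ s : Finset V, s.card = 3 ∧ (↑s : Set V) ⊆ Y ∧ g s ≠ ν₀) ∧
      (∀ ν, ν ≠ ν₀ → ∀ Y : Set V, 4 ≤ #Y →
        ∃ s : Finset V, s.card = 3 ∧ (↑s : Set V) ⊆ Y ∧ g s ≠ ν) := by
  classical
  obtain ⟨e⟩ : Nonempty (V ≃ (Order.succ κ).ord.ToType) := Cardinal.eq.1 (by rw [hV]; simp)
  obtain ⟨g, hg1, hg2⟩ := aux_main hκ hs ν₀ hinf hpow (W := (Order.succ κ).ord.ToType) (by
    intro y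
    have := Cardinal.mk_Iio_lt y (by simp)
    rw [Cardinal.mk_ord_toType] at this
    exact Order.le_of_lt_succ this)
  have key : ∀ (ν : Γ) (Y : Set V), (∃ s : Finset (Order.succ κ).ord.ToType, s.card = 3 ∧
      (↑s : Set _) ⊆ e '' Y ∧ g s ≠ ν) → ∃ s : Finset V, s.card = 3 ∧ (↑s : Set V) ⊆ Y ∧
      g (s.map e.toEmbedding) ≠ ν := by
    rintro ν Y ⟨s, h1, h2, h3⟩
    refine ⟨s.map e.symm.toEmbedding, by rw [Finset.card_map]; exact h1, ?_, ?_⟩
    · intro x hx
      simp only [Finset.coe_map, Equiv.coe_toEmbedding, Set.mem_image, Finset.mem_coe] at hx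
      obtain ⟨w, hw, rfl⟩ := hx
      obtain ⟨y, hy, rfl⟩ := h2 hw
      simpa using hy
    · rw [Finset.map_map]
      have : e.symm.toEmbedding.trans e.toEmbedding = Function.Embedding.refl _ := by
        ext x; simp
      rw [this, Finset.map_refl]
      exact h3
  refine ⟨fun s => g (s.map e.toEmbedding), ?_, ?_⟩
  · intro Y hY
    exact key ν₀ Y (hg1 (e '' Y) (by rw [Cardinal.mk_image_eq e.injective]; exact hY))
  · intro ν hν Y hY
    exact key ν Y (hg2 ν hν (e '' Y) (by rw [Cardinal.mk_image_eq e.injective]; exact hY))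

end Pool.Agent.H330
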