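import Mathlib
import Pool.Agent.H330.Tree

open Cardinal Set

universe u

namespace Pool.Agent.H330


/-- bounded sets in the well-order of type `μ⁺` -/
theorem lg_bdd {μ : Cardinal.{u}} (hμ : ℵ₀ ≤ μ) {α : Type u} (hα : #α ≤ μ)
    (s : α → (Order.succ μ).ord.ToType) : ∃ w, ∀ a, s a < w := by
  by_contra hcon
  push Not at hcon
  have hU : (⋃ a, Set.Iic (s a)) = (Set.univ : Set (Order.succ μ).ord.ToType) := by
    ext w
    simp only [mem_iUnion, mem_Iic, mem_univ, iff_true]
    exact hcon w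
  have hI : ∀ w : (Order.succ μ).ord.ToType, #(Set.Iic w) ≤ μ := by
    intro w
    have h1 : #(Set.Iio w) < Order.succ μ := by simpa using Cardinal.mk_Iio_lt w
    have h2 : #(Set.Iio w) ≤ μ := Order.lt_succ_iff.mp h1
    have h3 : Set.Iic w ⊆ insert w (Set.Iio w) := by
      intro v hv
      rcases lt_or_eq_of_le (show v ≤ w from hv) with h | h
      · exact Or.inr h
      · exact Or.inl h
    calc #(Set.Iic w) ≤ #(insert w (Set.Iio w) : Set _) := Cardinal.mk_le_mk_of_subset h3
      _ ≤ #(Set.Iio w) + 1 := Cardinal.mk_insert_le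
      _ ≤ μ + 1 := by gcongr
      _ = μ := Cardinal.add_one_eq hμ
  have h1 : #(Order.succ μ).ord.ToType = Order.succ μ := Cardinal.mk_ord_toType _
  have h2 : #(⋃ a, Set.Iic (s a)) ≤ #α * ⨆ a, #(Set.Iic (s a)) := Cardinal.mk_iUnion_le _
  rw [hU, Cardinal.mk_univ, h1] at h2
  have h3 : (⨆ a, #(Set.Iic (s a))) ≤ μ := by
    apply ciSup_le' 
    intro a
    exact hI _
  have h4 : Order.succ μ ≤ μ := by
    calc Order.succ μ ≤ #α * ⨆ a, #(Set.Iic (s a)) := h2
      _ ≤ μ * μ := mul_le_mul' hα h3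
      _ = μ := Cardinal.mul_eq_self hμ
  exact absurd (Order.lt_succ μ) (not_lt.mpr h4)

/-- the core: the sequence is eventually constant -/
theorem lg_core {μ : Cardinal.{u}} (hμ : ℵ₀ ≤ μ) {I R : Type u} [LinearOrder I] [WellFoundedLT I]
    [LinearOrder R] [WellFoundedLT R] (hI : #I ≤ μ)
    (x : (Order.succ μ).ord.ToType → I → R)
    (hx : Function.Injective x)
    (h : (∀ a b, a < b → ∀ i, (∀ j < i, x a j = x b j) → x b i ≤ x a i) ∨
      (#R ≤ μ ∧ ∀ a b, a < b → ∀ i, (∀ j < i, x a j = x b j) → x a i ≤ x b i)) : False := by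
  have hne0 : Nonempty (Order.succ μ).ord.ToType := by
    rw [← Cardinal.mk_ne_zero_iff, Cardinal.mk_ord_toType]
    exact (Order.bot_lt_succ μ).ne'
  have key : ∀ i : I, ∃ w, ∀ y, w ≤ y → x y i = x w i := by
    intro i
    induction i using WellFoundedLT.induction with
    | ind i ih =>
      choose! f hf using ih
      obtain ⟨w, hw⟩ := lg_bdd hμ (α := Set.Iio i)
        ((Cardinal.mk_le_mk_of_subset (Set.subset_univ _)).trans (by rw [Cardinal.mk_univ]; exact hI))
        (fun j => f j.1)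
      have hagree : ∀ y z, w ≤ y → w ≤ z → ∀ j < i, x y j = x z j := by
        intro y z hy hz j hj
        have h1 := hf j hj y ((hw ⟨j, hj⟩).le.trans hy)
        have h2 := hf j hj z ((hw ⟨j, hj⟩).le.trans hz)
        rw [h1, h2]
      rcases h with h | ⟨hR, h⟩
      · have hne : ((fun y => x y i) '' Set.Ici w).Nonempty := ⟨_, w, le_refl w, rfl⟩
        obtain ⟨m, ⟨y0, hy0, rfl⟩, hmin⟩ := WellFounded.has_min (wellFounded_lt (α := R)) _ hne
        refine ⟨y0, fun y hy => ?_⟩
        have hy0' : w ≤ y0 := hy0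
        rcases eq_or_lt_of_le hy with rfl | hlt
        · rfl
        · have h1 := h y0 y hlt i (hagree y0 y hy0' (hy0'.trans hy))
          have h2 := hmin (x y i) ⟨y, hy0'.trans hy, rfl⟩
          exact le_antisymm h1 (not_lt.mp h2)
      · classical
        obtain ⟨w', hw'⟩ := lg_bdd hμ hR
          (fun r : R => if hr : ∃ y, w ≤ y ∧ x y i = r then hr.choose else w)
        have hww' : w ≤ w' := by
          have h1 := hw' (x w i)
          have h2 : ∃ y, w ≤ y ∧ x y i = x w i := ⟨w, le_rfl, rfl⟩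
          simp only [h2, dite_true] at h1
          exact h2.choose_spec.1.trans h1.le
        refine ⟨w', fun y hy => ?_⟩
        have h1 := hw' (x y i)
        have h2 : ∃ z, w ≤ z ∧ x z i = x y i := ⟨y, hww'.trans hy, rfl⟩
        simp only [h2, dite_true] at h1
        obtain ⟨h3, h4⟩ := h2.choose_spec
        have h5 := h _ _ h1 i (hagree _ _ h3 hww')
        rw [h4] at h5
        refine le_antisymm h5 ?_
        rcases eq_or_lt_of_le hy with rfl | hlt
        · exact le_rfl
        · exact h _ _ hlt i (hagree _ _ hww' (hww'.trans hy))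
  choose g hg using key
  obtain ⟨w, hw⟩ := lg_bdd hμ hI g
  obtain ⟨w', hw'⟩ := lg_bdd hμ (α := PUnit.{u+1}) (by simpa using (Cardinal.one_le_aleph0.trans hμ))
    (fun _ => w)
  have hlt : w < w' := hw' PUnit.unit
  have heq : x w = x w' := by
    funext i
    rw [hg i w (hw i).le, hg i w' ((hw i).le.trans hlt.le)]
  exact hlt.ne (hx heq)

/-- embedding the order type of a successor cardinal -/
theorem lg_embed {T : Type u} [LinearOrder T] [WellFoundedLT T] {κ : Cardinal.{u}} {Y : Set T}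
    (hY : κ ≤ #Y) : ∃ g : κ.ord.ToType → T, (∀ a, g a ∈ Y) ∧ ∀ a b, a < b → g a < g b := by
  have h1 : κ.ord ≤ Ordinal.type (α := Y) (· < ·) :=
    (Cardinal.ord_le_ord.mpr hY).trans (Cardinal.ord_le_type _)
  rw [← Ordinal.type_toType κ.ord] at h1
  obtain ⟨f⟩ := Ordinal.type_le_iff'.mp h1
  exact ⟨fun a => (f a).1, fun a => (f a).2, fun a b hab => f.map_rel_iff.mpr hab⟩

/-- TARGET 1: the lexicographic (Sierpinski) graph on a set of size `ρ⁺`: cliques have size
`≤ cof ρ`, independent sets have size `≤ ρ`. -/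
theorem lex_graph {ρ : Cardinal.{u}} (hρ : ℵ₀ ≤ ρ) {Θ : Type u} (hΘ : #Θ = Order.succ ρ) :
    ∃ E : Θ → Θ → Prop, (∀ x y, E x y → E y x) ∧
      (∀ Y : Set Θ, (∀ x ∈ Y, ∀ y ∈ Y, x ≠ y → E x y) → #Y ≤ ρ.ord.cof) ∧
      (∀ Y : Set Θ, (∀ x ∈ Y, ∀ y ∈ Y, x ≠ y → ¬ E x y) → #Y ≤ ρ) := by
  have hχρ : ρ.ord.cof ≤ ρ := by
    have := Ordinal.cof_le_card ρ.ord
    simpa using this
  have hχ : ℵ₀ ≤ ρ.ord.cof := by
    exact Ordinal.aleph0_le_cof_iff.mpr (Ordinal.one_lt_cof_iff.mpr (Cardinal.isSuccLimit_ord hρ))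
  -- transport
  have hT : #Θ = #(Order.succ ρ).ord.ToType := by rw [hΘ, Cardinal.mk_ord_toType]
  obtain ⟨e⟩ := Cardinal.eq.mp hT
  -- the injection
  have hinj : #Θ ≤ #((ρ.ord.cof).ord.ToType → ρ.ord.ToType) := by
    rw [hΘ, ← Cardinal.power_def, Cardinal.mk_ord_toType, Cardinal.mk_ord_toType]
    exact Order.succ_le_of_lt (Cardinal.lt_power_cof_ord hρ)
  obtain ⟨x⟩ := hinj
  let F : Θ → Θ → Prop := fun a b => e a < e b ∧ ∃ i, (∀ j < i, x a j = x b j) ∧ x b i < x a i
  refine ⟨fun a b => F a b ∨ F b a, fun a b h => h.symm, ?_, ?_⟩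
  · intro Y hY
    by_contra hlt
    have h1 : Order.succ ρ.ord.cof ≤ #Y := Order.succ_le_of_lt (not_le.mp hlt)
    have h2 : #(e '' Y) = #Y := Cardinal.mk_image_eq e.injective
    rw [← h2] at h1
    obtain ⟨g, hgY, hg⟩ := lg_embed h1
    have hgY' : ∀ a, e.symm (g a) ∈ Y := by
      intro a
      obtain ⟨y, hy, hye⟩ := hgY a
      rw [← hye, Equiv.symm_apply_apply]
      exact hy
    have hginj : Function.Injective g := by
      intro a b hab
      rcases lt_trichotomy a b with h | h | h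
      · exact absurd hab (hg _ _ h).ne
      · exact h
      · exact absurd hab (hg _ _ h).ne'
    refine lg_core hχ (I := (ρ.ord.cof).ord.ToType) (R := ρ.ord.ToType)
      (by rw [Cardinal.mk_ord_toType]) (fun a => x (e.symm (g a))) ?_ (Or.inl ?_)
    · intro a b hab
      exact hginj (e.symm.injective (x.injective hab))
    · intro a b hab i hi
      have hlt := hg a b hab
      have hne : e.symm (g a) ≠ e.symm (g b) := fun h => hlt.ne (e.symm.injective h)
      rcases hY _ (hgY' a) _ (hgY' b) hne with h | h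
      · obtain ⟨_, i', h3, h4⟩ := h
        rcases lt_trichotomy i i' with hii | hii | hii
        · exact (h3 i hii).ge
        · subst hii; exact h4.le
        · exact absurd (hi i' hii) h4.ne'
      · have h5 := h.1
        simp only [Equiv.apply_symm_apply] at h5
        exact absurd h5 hlt.le.not_gt
  · intro Y hY
    by_contra hlt
    have h1 : Order.succ ρ ≤ #Y := Order.succ_le_of_lt (not_le.mp hlt)
    have h2 : #(e '' Y) = #Y := Cardinal.mk_image_eq e.injective
    rw [← h2] at h1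
    obtain ⟨g, hgY, hg⟩ := lg_embed h1
    have hgY' : ∀ a, e.symm (g a) ∈ Y := by
      intro a
      obtain ⟨y, hy, hye⟩ := hgY a
      rw [← hye, Equiv.symm_apply_apply]
      exact hy
    have hginj : Function.Injective g := by
      intro a b hab
      rcases lt_trichotomy a b with h | h | h
      · exact absurd hab (hg _ _ h).ne
      · exact h
      · exact absurd hab (hg _ _ h).ne'
    refine lg_core hρ (I := (ρ.ord.cof).ord.ToType) (R := ρ.ord.ToType)
      (by rw [Cardinal.mk_ord_toType]; exact hχρ) (fun a => x (e.symm (g a))) ?_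
      (Or.inr ⟨by rw [Cardinal.mk_ord_toType], ?_⟩)
    · intro a b hab
      exact hginj (e.symm.injective (x.injective hab))
    · intro a b hab i hi
      have hlt := hg a b hab
      have hne : e.symm (g a) ≠ e.symm (g b) := fun h => hlt.ne (e.symm.injective h)
      by_contra hcon
      apply hY _ (hgY' a) _ (hgY' b) hne
      left
      refine ⟨?_, i, hi, not_le.mp hcon⟩
      simpa only [Equiv.apply_symm_apply] using hlt

/-- TARGET 2: colouring pairs by blocks, given the block map `bl` -/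
theorem block_colouring {κ θ : Cardinal.{u}} {A Θ Γ : Type u} (hA : #A = κ) (hκ : ℵ₀ ≤ κ)
    (bl : A → Θ) (hbl : ∀ S : Set Θ, #S < θ → #(bl ⁻¹' S) < κ)
    {lam : Γ → Cardinal.{u}} (h2 : ∀ ν, 2 ≤ lam ν) {ν₀ ν₁ : Γ} (hne : ν₀ ≠ ν₁) (h0 : lam ν₀ = κ)
    (E : Θ → Θ → Prop) (hE : ∀ x y, E x y → E y x)
    (hcl : ∀ Y : Set Θ, (∀ x ∈ Y, ∀ y ∈ Y, x ≠ y → E x y) → #Y < lam ν₁)
    (hind : ∀ Y : Set Θ, (∀ x ∈ Y, ∀ y ∈ Y, x ≠ y → ¬ E x y) → #Y < θ) :
    ∃ f : Finset A → Γ, NA lam 2 f := by
  classical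
  let P : Finset A → Prop := fun s => ∃ x y, s = {x, y} ∧ x ≠ y ∧ bl x ≠ bl y ∧ E (bl x) (bl y)
  refine ⟨fun s => if P s then ν₁ else ν₀, ?_⟩
  intro ν Y hY
  by_contra hcon
  push Not at hcon
  -- two distinct points in Y
  have h2Y : 2 ≤ #Y := by rw [hY]; exact h2 ν
  obtain ⟨⟨a, ha⟩, ⟨b, hb⟩, hab'⟩ := Cardinal.two_le_iff.mp h2Y
  have hab : a ≠ b := fun h => hab' (Subtype.ext h)
  have hpair : ∀ c d : A, c ∈ Y → d ∈ Y → c ≠ d → (if P {c, d} then ν₁ else ν₀) = ν := by
    intro c d hc hd hcd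
    apply hcon {c, d} (Finset.card_pair hcd)
    intro z hz
    simp only [Finset.coe_insert, Finset.coe_singleton, Set.mem_insert_iff,
      Set.mem_singleton_iff] at hz
    rcases hz with rfl | rfl
    · exact hc
    · exact hd
  have hPiff : ∀ c d : A, c ≠ d → (P {c, d} ↔ (bl c ≠ bl d ∧ E (bl c) (bl d))) := by
    intro c d hcd
    constructor
    · rintro ⟨x, y, hxy, hne', h3, h4⟩
      have hx : x = c ∨ x = d := by
        have : x ∈ ({c, d} : Finset A) := by rw [hxy]; simp
        simpa using this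
      have hy : y = c ∨ y = d := by
        have : y ∈ ({c, d} : Finset A) := by rw [hxy]; simp
        simpa using this
      rcases hx with rfl | rfl <;> rcases hy with rfl | rfl
      · exact absurd rfl hne'
      · exact ⟨h3, h4⟩
      · exact ⟨h3.symm, hE _ _ h4⟩
      · exact absurd rfl hne'
    · rintro ⟨h3, h4⟩
      exact ⟨c, d, rfl, hcd, h3, h4⟩
  by_cases hPab : P {a, b}
  · -- colour ν₁
    have hν : ν = ν₁ := by
      have := hpair a b ha hb hab
      rw [if_pos hPab] at this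
      exact this.symm
    have hall : ∀ c ∈ Y, ∀ d ∈ Y, c ≠ d → bl c ≠ bl d ∧ E (bl c) (bl d) := by
      intro c hc d hd hcd
      rw [← hPiff c d hcd]
      by_contra hP
      have := hpair c d hc hd hcd
      rw [if_neg hP, hν] at this
      exact hne this
    have hinj : Set.InjOn bl Y := by
      intro c hc d hd hcd
      by_contra hne'
      exact (hall c hc d hd hne').1 hcd
    have hcard : #(bl '' Y) = #Y := Cardinal.mk_image_eq_of_injOn _ _ hinj
    have hlt := hcl (bl '' Y) (by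
      rintro _ ⟨c, hc, rfl⟩ _ ⟨d, hd, rfl⟩ hcd
      have hcd' : c ≠ d := fun h => hcd (by rw [h])
      exact (hall c hc d hd hcd').2)
    rw [hcard, hY, hν] at hlt
    exact lt_irrefl _ hlt
  · -- colour ν₀
    have hν : ν = ν₀ := by
      have := hpair a b ha hb hab
      rw [if_neg hPab] at this
      exact this.symm
    have hall : ∀ c ∈ Y, ∀ d ∈ Y, c ≠ d → bl c ≠ bl d → ¬ E (bl c) (bl d) := by
      intro c hc d hd hcd hbcd hEcd
      have hP : P {c, d} := (hPiff c d hcd).mpr ⟨hbcd, hEcd⟩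
      have := hpair c d hc hd hcd
      rw [if_pos hP, hν] at this
      exact hne this.symm
    have hlt := hind (bl '' Y) (by
      rintro _ ⟨c, hc, rfl⟩ _ ⟨d, hd, rfl⟩ hcd
      have hcd' : c ≠ d := fun h => hcd (by rw [h])
      exact hall c hc d hd hcd' hcd)
    have h3 := hbl _ hlt
    have h4 : #Y ≤ #(bl ⁻¹' (bl '' Y)) := Cardinal.mk_le_mk_of_subset (Set.subset_preimage_image _ _)
    have h5 := h4.trans_lt h3
    rw [hY, hν, h0] at h5
    exact lt_irrefl _ h5

/-- TARGET 3: colouring pairs through an injection into a product -/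
theorem prod_colouring {L K Γ : Type u} {lam : Γ → Cardinal.{u}} (h2 : ∀ ν, 2 ≤ lam ν)
    (ι : K → Γ) (μ : K → Cardinal.{u}) (hι : Function.Injective ι) (hμ : ∀ k, μ k < lam (ι k))
    (hL : #L ≤ Cardinal.prod μ) (ν₁ : Γ) :
    ∃ f : Finset L → Γ, NA lam 2 f := by
  classical
  have hL' : #L ≤ #(∀ k, (μ k).out) := by
    rw [Cardinal.mk_pi]
    simpa using hL
  obtain ⟨p⟩ := hL'
  let P : Finset L → K → Prop := fun s k => ∃ x y, s = {x, y} ∧ x ≠ y ∧ p x k ≠ p y k
  have hP : ∀ x y : L, x ≠ y → ∃ k, P {x, y} k := by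
    intro x y hxy
    have h1 : p x ≠ p y := fun h => hxy (p.injective h)
    obtain ⟨k, hk⟩ := Function.ne_iff.mp h1
    exact ⟨k, x, y, rfl, hxy, hk⟩
  have hPiff : ∀ c d : L, ∀ k, P {c, d} k → p c k ≠ p d k := by
    rintro c d k ⟨x, y, hxy, hne', h3⟩
    have hx : x = c ∨ x = d := by
      have : x ∈ ({c, d} : Finset L) := by rw [hxy]; simp
      simpa using this
    have hy : y = c ∨ y = d := by
      have : y ∈ ({c, d} : Finset L) := by rw [hxy]; simp
      simpa using this
    rcases hx with rfl | rfl <;> rcases hy with rfl | rfl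
    · exact absurd rfl hne'
    · exact h3
    · exact h3.symm
    · exact absurd rfl hne'
  refine ⟨fun s => if h : ∃ k, P s k then ι h.choose else ν₁, ?_⟩
  intro ν Y hY
  by_contra hcon
  push Not at hcon
  have h2Y : 2 ≤ #Y := by rw [hY]; exact h2 ν
  obtain ⟨⟨a, ha⟩, ⟨b, hb⟩, hab'⟩ := Cardinal.two_le_iff.mp h2Y
  have hab : a ≠ b := fun h => hab' (Subtype.ext h)
  have hpair : ∀ c d : L, c ∈ Y → d ∈ Y → c ≠ d → ∃ k, ι k = ν ∧ p c k ≠ p d k := by
    intro c d hc hd hcd
    have h3 : ({c, d} : Finset L).card = 2 := Finset.card_pair hcd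
    have h4 := hcon {c, d} h3 (by
      intro z hz
      simp only [Finset.coe_insert, Finset.coe_singleton, Set.mem_insert_iff,
        Set.mem_singleton_iff] at hz
      rcases hz with rfl | rfl
      · exact hc
      · exact hd)
    have h5 : ∃ k, P {c, d} k := hP c d hcd
    rw [dif_pos h5] at h4
    exact ⟨h5.choose, h4, hPiff _ _ _ h5.choose_spec⟩
  obtain ⟨k, hk, _⟩ := hpair a b ha hb hab
  have hinj : Function.Injective (fun y : Y => p y.1 k) := by
    rintro ⟨c, hc⟩ ⟨d, hd⟩ hcd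
    by_contra hne'
    have hcd' : c ≠ d := fun h => hne' (Subtype.ext h)
    obtain ⟨k', hk', h6⟩ := hpair c d hc hd hcd'
    have : k' = k := hι (hk'.trans hk.symm)
    subst this
    exact h6 hcd
  have h7 : #Y ≤ μ k := by
    have := Cardinal.mk_le_of_injective hinj
    rwa [Cardinal.mk_out] at this
  have h8 := hμ k
  rw [hk, ← hY] at h8
  exact absurd h7 (not_le.mpr h8)

end Pool.Agent.H330
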