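import Mathlib
import Pool.Agent.H330.Final
import Pool.Agent.H330.GchA
import Pool.Agent.H330.GchB
import Pool.Agent.H330.GchC
import Pool.Agent.H330.GchD
import Pool.Agent.H330.GchE
import Pool.Agent.H330.GchF

open Cardinal Set

universe u

namespace Pool.Agent.H330

/-- the only case left open for pairs under `GCH` -/
def ExcGch (κ : Cardinal.{u}) {Γ : Type u} (lam : Γ → Cardinal.{u}) : Prop :=
  ∃ (ρ : Cardinal.{u}) (ν₀ : Γ), ℵ₀ ≤ ρ ∧ ρ.ord.cof < ρ ∧ κ.ord.cof = Order.succ ρ ∧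
    κ.ord.cof < κ ∧ lam ν₀ = κ ∧ (∀ ν, ν ≠ ν₀ → lam ν < ρ.ord.cof ∧ ¬ (lam ν).IsRegular) ∧
    ρ.ord.cof ≤ #Γ ∧ #Γ < ρ

theorem sup_entries {Γ : Type u} {lam : Γ → Cardinal.{u}} {c : Cardinal.{u}} (hc : c.IsRegular)
    (hΓ : #Γ < c) {p : Γ → Prop} (h : ∀ ν, p ν → lam ν < c) :
    ∃ σ < c, ∀ ν, p ν → lam ν ≤ σ := by
  classical
  refine ⟨⨆ ν : {ν // p ν}, lam ν.1, ?_, ?_⟩
  · refine Cardinal.iSup_lt_of_lt_cof_ord ?_ (fun ν => h ν.1 ν.2)
    rw [hc.cof_ord]
    exact lt_of_le_of_lt (Cardinal.mk_subtype_le _) hΓ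
  · intro ν hν
    exact le_ciSup (f := fun ν : {ν // p ν} => lam ν.1) (Cardinal.bddAbove_range _) ⟨ν, hν⟩

theorem pow_lt_of_strong {θ : Cardinal.{u}} (hsl : ∀ x < θ, (2 : Cardinal.{u}) ^ x < θ)
    {x y : Cardinal.{u}} (hx : x < θ) (hy : y < θ) (h0 : ℵ₀ ≤ y) : x ^ y < θ := by
  have h1 : max x y < θ := max_lt hx hy
  have h2 : ℵ₀ ≤ max x y := h0.trans (le_max_right _ _)
  calc x ^ y ≤ (max x y) ^ y := Cardinal.power_le_power_right (le_max_left _ _)
    _ ≤ (max x y) ^ (max x y) :=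
        Cardinal.power_le_power_left (Cardinal.aleph0_pos.trans_le h2).ne' (le_max_right _ _)
    _ = 2 ^ (max x y) := Cardinal.power_self_eq h2
    _ < θ := hsl _ h1

theorem gch_two (gch : ∀ c : Cardinal.{u}, ℵ₀ ≤ c → 2 ^ c = Order.succ c) {κ : Cardinal.{u}}
    (hκ : ℵ₀ ≤ κ) {Γ : Type u} (hΓ : #Γ < κ) {lam : Γ → Cardinal.{u}}
    (hlam : ∀ ν, (3 : Cardinal) ≤ lam ν ∧ lam ν ≤ κ) {f : Finset κ.ord.ToType → Γ}
    (hf : NA lam 2 f) (hexc : ¬ ExcGch κ lam) :
    ∃ g : Finset ((2 : Cardinal.{u}) ^ κ).ord.ToType → Γ, NA (fun ν => lam ν + 1) 3 g := by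
  classical
  have hlam2 : ∀ ν, (2 : Cardinal) ≤ lam ν := fun ν => by
    refine le_trans ?_ (hlam ν).1; norm_num
  have h12 : ∀ ν, (2 : Cardinal) ≤ lam ν ∧ lam ν ≤ κ := fun ν => ⟨hlam2 ν, (hlam ν).2⟩
  by_cases hfin : ∀ ν, lam ν < ℵ₀
  · exact main_two hκ h12 hf (Or.inl hfin)
  by_cases hreg : ∃ ν, (lam ν).IsRegular
  · exact main_two hκ h12 hf (Or.inr (Or.inl hreg))
  push Not at hfin hreg
  obtain ⟨νi, hνi⟩ := hfin
  have hL : #κ.ord.ToType = κ := Cardinal.mk_ord_toType κ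
  -- lowering the entries
  have low : ∀ lam' : Γ → Cardinal.{u}, (∀ ν, (2 : Cardinal) ≤ lam' ν ∧ lam' ν ≤ lam ν) →
      (∃ ν, (lam' ν).IsRegular) → (∃ f' : Finset κ.ord.ToType → Γ, NA lam' 2 f') →
      ∃ g : Finset ((2 : Cardinal.{u}) ^ κ).ord.ToType → Γ, NA (fun ν => lam ν + 1) 3 g := by
    rintro lam' h1 h2 ⟨f', hf'⟩
    obtain ⟨g, hg⟩ := main_two hκ (fun ν => ⟨(h1 ν).1, (h1 ν).2.trans (hlam ν).2⟩) hf'
      (Or.inr (Or.inl h2))
    exact ⟨g, hg.mono fun ν => add_le_add (h1 ν).2 le_rfl⟩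
  have h2aleph : (2 : Cardinal.{u}) ≤ ℵ₀ := (Cardinal.natCast_lt_aleph0 (n := 2)).le
  have lowprod : ∀ τ : Cardinal.{u}, κ ≤ Order.succ τ → ∀ ν₁, ℵ₀ ≤ lam ν₁ → ∀ S : Set Γ, ν₁ ∉ S →
      (∃ μ : S → Cardinal.{u}, (∀ k, μ k < lam k.1) ∧ τ < Cardinal.prod μ) →
      ∃ g : Finset ((2 : Cardinal.{u}) ^ κ).ord.ToType → Γ, NA (fun ν => lam ν + 1) 3 g := by
    rintro τ hτ ν₁ h1 S hS ⟨μ, hμ, hprod⟩
    refine low (Function.update lam ν₁ ℵ₀) ?_ ⟨ν₁, ?_⟩ ?_
    · intro ν
      by_cases h : ν = ν₁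
      · subst h; rw [Function.update_self]; exact ⟨h2aleph, h1⟩
      · rw [Function.update_of_ne h]; exact ⟨hlam2 ν, le_rfl⟩
    · rw [Function.update_self]; exact Cardinal.isRegular_aleph0
    · refine prod_colouring (K := S) ?_ Subtype.val μ Subtype.val_injective ?_ ?_ ν₁
      · intro ν
        by_cases h : ν = ν₁
        · subst h; rw [Function.update_self]; exact h2aleph
        · rw [Function.update_of_ne h]; exact hlam2 ν
      · intro k
        rw [Function.update_of_ne (fun h => hS (by rw [← h]; exact k.2))]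
        exact hμ k
      · rw [hL]
        exact hτ.trans (Order.succ_le_of_lt hprod)
  have unb : ∀ τ : Cardinal.{u}, ℵ₀ < τ → κ ≤ Order.succ τ → (∀ c < τ, ∃ ν, lam ν < τ ∧ c < lam ν) →
      ∃ g : Finset ((2 : Cardinal.{u}) ^ κ).ord.ToType → Γ, NA (fun ν => lam ν + 1) 3 g := by
    intro τ h0 hτ hub
    refine lowprod τ hτ νi hνi {ν | lam ν < τ ∧ ν ≠ νi} (fun h => h.2 rfl) ?_
    refine unbounded_prod h0 (fun k => k.2.1) (fun k => hlam2 _) (fun k => hreg _) ?_
    intro c hc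
    by_cases h : lam νi < τ
    · obtain ⟨ν, h1, h2⟩ := hub (max c (lam νi)) (max_lt hc h)
      refine ⟨⟨ν, h1, ?_⟩, (le_max_left _ _).trans_lt h2⟩
      rintro rfl
      exact absurd ((le_max_right c (lam ν)).trans_lt h2) (lt_irrefl _)
    · obtain ⟨ν, h1, h2⟩ := hub c hc
      refine ⟨⟨ν, h1, ?_⟩, h2⟩
      rintro rfl
      exact h h1
  have many : ∀ τ : Cardinal.{u}, ℵ₀ ≤ τ → τ.ord.cof < τ → κ ≤ Order.succ τ →
      τ.ord.cof ≤ #{ν | lam ν = τ} →
      ∃ g : Finset ((2 : Cardinal.{u}) ^ κ).ord.ToType → Γ, NA (fun ν => lam ν + 1) 3 g := by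
    intro τ h0 hs hτ hm
    have hcof : ℵ₀ ≤ τ.ord.cof := by
      rw [Ordinal.aleph0_le_cof]; exact Cardinal.isSuccLimit_ord h0
    have hne : {ν | lam ν = τ}.Nonempty := by
      rw [nonempty_iff_ne_empty]
      intro h
      rw [h, Cardinal.mk_emptyCollection] at hm
      exact absurd (hcof.trans hm) (not_le.mpr Cardinal.aleph0_pos)
    obtain ⟨ν₁, hν₁⟩ := hne
    refine lowprod τ hτ ν₁ (by rw [hν₁]; exact h0) ({ν | lam ν = τ} \ {ν₁}) (by simp) ?_
    have hK : τ.ord.cof ≤ #({ν | lam ν = τ} \ {ν₁} : Set Γ) := by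
      by_contra hcon
      push Not at hcon
      have h1 : #{ν | lam ν = τ} ≤ #({ν | lam ν = τ} \ {ν₁} : Set Γ) + #({ν₁} : Set Γ) := by
        refine le_trans (Cardinal.mk_le_mk_of_subset ?_) (Cardinal.mk_union_le _ _)
        intro x hx
        by_cases h : x = ν₁
        · right; exact h
        · left; exact ⟨hx, h⟩
      have h2 := Cardinal.add_lt_of_lt hcof hcon (b := #({ν₁} : Set Γ)) (by
        rw [Cardinal.mk_singleton]; exact Cardinal.one_lt_aleph0.trans_le hcof)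
      exact absurd (hm.trans h1) (not_le.mpr h2)
    obtain ⟨μ, hμ, hp⟩ := cof_prod h0 (sing_lim h0 hs) hK
    exact ⟨μ, fun k => (hμ k).trans_eq k.2.1.symm, hp⟩
  by_cases hκr : κ.IsRegular
  · -- `κ` regular
    have hlt : ∀ ν, lam ν < κ := fun ν => lt_of_le_of_ne (hlam ν).2 (fun h => hreg ν (by rw [h]; exact hκr))
    have hκ' : ℵ₀ < κ := hνi.trans_lt (hlt νi)
    by_cases hlim : ∀ c < κ, Order.succ c < κ
    · exfalso
      have hsl := gch_strong gch hκ' hlim
      obtain ⟨σ, hσ, hle⟩ := sup_entries hκr hΓ (p := fun _ => True) (fun ν _ => hlt ν)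
      have h1 : max (max σ #Γ) ℵ₀ < κ := max_lt (max_lt hσ hΓ) hκ'
      refine er_false (ν := max (max σ #Γ) ℵ₀) (le_max_right _ _) (by rw [hL]; exact hsl _ h1)
        ((le_max_right _ _).trans (le_max_left _ _)) (fun c => ?_) hf
      exact (((hle c trivial).trans (le_max_left _ _)).trans (le_max_left _ _)).trans (Order.le_succ _)
    · push Not at hlim
      obtain ⟨τ, hτ, hτ'⟩ := hlim
      have hκτ : κ = Order.succ τ := le_antisymm hτ' (Order.succ_le_of_lt hτ)
      have hτ0 : ℵ₀ ≤ τ := by rw [hκτ] at hκ'; exact Order.lt_succ_iff.mp hκ'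
      by_cases hτΓ : τ ≤ #Γ
      · refine main_two hκ h12 hf (Or.inr (Or.inr ?_))
        have hu : {ν : Γ | (2 : Cardinal) < lam ν} = Set.univ := by
          ext ν
          simp only [mem_setOf_eq, mem_univ, iff_true]
          refine lt_of_lt_of_le ?_ (hlam ν).1
          norm_num
        rw [hu, Cardinal.mk_univ, hκτ, ← gch τ hτ0]
        exact Cardinal.power_le_power_left two_ne_zero (Cardinal.power_le_power_left two_ne_zero hτΓ)
      · push Not at hτΓ
        have hle : ∀ ν, lam ν ≤ τ := fun ν => by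
          have := hlt ν; rw [hκτ] at this; exact Order.lt_succ_iff.mp this
        by_cases hτr : τ.IsRegular
        · exfalso
          have hlt' : ∀ ν, lam ν < τ := fun ν => lt_of_le_of_ne (hle ν) (fun h => hreg ν (by rw [h]; exact hτr))
          have hτ1 : ℵ₀ < τ := hνi.trans_lt (hlt' νi)
          obtain ⟨σ, hσ, hle⟩ := sup_entries hτr hτΓ (p := fun _ => True) (fun ν _ => hlt' ν)
          have h1 : max (max σ #Γ) ℵ₀ < τ := max_lt (max_lt hσ hτΓ) hτ1
          refine er_false (ν := max (max σ #Γ) ℵ₀) (le_max_right _ _) (by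
            rw [hL, gch _ (le_max_right _ _)]; exact (Order.succ_le_of_lt h1).trans_lt hτ)
            ((le_max_right _ _).trans (le_max_left _ _)) (fun c => ?_) hf
          exact (((hle c trivial).trans (le_max_left _ _)).trans (le_max_left _ _)).trans (Order.le_succ _)
        · have hs : τ.ord.cof < τ := by
            by_contra hcon
            exact hτr ⟨hτ0, not_lt.mp hcon⟩
          have hτ1 : ℵ₀ < τ := by
            refine lt_of_le_of_ne hτ0 ?_
            rintro rfl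
            exact hτr Cardinal.isRegular_aleph0
          by_cases hub : ∀ c < τ, ∃ ν, lam ν < τ ∧ c < lam ν
          · exact unb τ hτ1 hτ' hub
          · push Not at hub
            obtain ⟨σ, hσ, hbd⟩ := hub
            by_cases hm : τ.ord.cof ≤ #{ν | lam ν = τ}
            · exact many τ hτ0 hs hτ' hm
            · exfalso
              push Not at hm
              refine succ_sing_false hτ1 (gch_strong gch hτ1 (sing_lim hτ0 hs)) (by rw [hL]; exact hτ)
                hτΓ hle hσ (fun c hc => hbd c (lt_of_le_of_ne (hle c) hc)) hm hf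
  · -- `κ` singular
    have hs : κ.ord.cof < κ := by
      by_contra hcon
      exact hκr ⟨hκ, not_lt.mp hcon⟩
    have hκ' : ℵ₀ < κ := by
      refine lt_of_le_of_ne hκ ?_
      rintro rfl
      exact hκr Cardinal.isRegular_aleph0
    have hlim := sing_lim hκ hs
    have hsl := gch_strong gch hκ' hlim
    by_cases hub : ∀ c < κ, ∃ ν, lam ν < κ ∧ c < lam ν
    · exact unb κ hκ' (Order.le_succ κ) hub
    push Not at hub
    obtain ⟨σ, hσ, hbd⟩ := hub
    by_cases hm : ∃ ν₀, lam ν₀ = κ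
    swap
    · exfalso
      push Not at hm
      have h1 : max (max σ #Γ) ℵ₀ < κ := max_lt (max_lt hσ hΓ) hκ'
      refine er_false (ν := max (max σ #Γ) ℵ₀) (le_max_right _ _) (by rw [hL]; exact hsl _ h1)
        ((le_max_right _ _).trans (le_max_left _ _)) (fun c => ?_) hf
      exact (((hbd c (lt_of_le_of_ne (hlam c).2 (hm c))).trans (le_max_left _ _)).trans
        (le_max_left _ _)).trans (Order.le_succ _)
    obtain ⟨ν₀, hν₀⟩ := hm
    have hθr : κ.ord.cof.IsRegular := Cardinal.isRegular_cof (Cardinal.isSuccLimit_ord hκ)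
    obtain ⟨bl, hbl⟩ := exists_block hκ hs hL (Cardinal.mk_ord_toType κ.ord.cof)
    by_cases h1 : ∃ ν₁, ν₁ ≠ ν₀ ∧ κ.ord.cof < lam ν₁
    · obtain ⟨ν₁, hne, hν₁⟩ := h1
      refine low (Function.update lam ν₁ (Order.succ κ.ord.cof)) ?_ ⟨ν₁, ?_⟩ ?_
      · intro ν
        by_cases h : ν = ν₁
        · subst h; rw [Function.update_self]
          exact ⟨(h2aleph.trans hθr.aleph0_le).trans (Order.le_succ _), Order.succ_le_of_lt hν₁⟩
        · rw [Function.update_of_ne h]; exact ⟨hlam2 ν, le_rfl⟩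
      · rw [Function.update_self]; exact Cardinal.isRegular_succ hθr.aleph0_le
      · refine block_colouring hL hκ bl hbl ?_ hne.symm ?_ (fun _ _ => True) (fun _ _ _ => trivial)
          ?_ ?_
        · intro ν
          by_cases h : ν = ν₁
          · subst h; rw [Function.update_self]
            exact (h2aleph.trans hθr.aleph0_le).trans (Order.le_succ _)
          · rw [Function.update_of_ne h]; exact hlam2 ν
        · rw [Function.update_of_ne hne.symm]; exact hν₀
        · intro Y _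
          rw [Function.update_self]
          refine lt_of_le_of_lt (Cardinal.mk_set_le Y) ?_
          rw [Cardinal.mk_ord_toType]; exact Order.lt_succ _
        · intro Y hY
          have : #Y ≤ 1 := by
            rw [Cardinal.le_one_iff_subsingleton, Set.subsingleton_coe]
            intro x hx y hy
            by_contra hxy
            exact hY x hx y hy hxy trivial
          exact this.trans_lt (Cardinal.one_lt_aleph0.trans_le hθr.aleph0_le)
    push Not at h1
    have hltθ : ∀ ν, ν ≠ ν₀ → lam ν < κ.ord.cof := fun ν hν =>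
      lt_of_le_of_ne (h1 ν hν) (fun h => hreg ν (by rw [h]; exact hθr))
    by_cases h2 : ℵ₀ ≤ #Γ ∧ κ.ord.cof ≤ 2 ^ #Γ
    · obtain ⟨hΓ0, hpow⟩ := h2
      have hcard : #{ν : Γ // ν ≠ ν₀} = #Γ := by
        have h3 : #({ν₀} : Set Γ) < #Γ := by
          rw [Cardinal.mk_singleton]; exact Cardinal.one_lt_aleph0.trans_le hΓ0
        haveI : Infinite Γ := Cardinal.infinite_iff.mpr hΓ0
        have h4 := Cardinal.mk_compl_of_infinite ({ν₀} : Set Γ) h3
        have h5 : #(({ν₀} : Set Γ)ᶜ : Set Γ) = #{ν : Γ // ν ≠ ν₀} := by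
          refine Cardinal.mk_congr (Equiv.subtypeEquivRight ?_)
          intro x; simp
        rw [← h5]; exact h4
      obtain ⟨g, hg1, hg2⟩ := normal_colouring hκ hs ν₀ (by rw [hcard]; exact hΓ0)
        (by rw [hcard]; exact hpow) (V := ((2 : Cardinal.{u}) ^ κ).ord.ToType)
        (by rw [Cardinal.mk_ord_toType]; exact gch κ hκ)
      refine ⟨g, ?_⟩
      intro ν Y hY
      by_cases h : ν = ν₀
      · subst h
        exact hg1 Y (by rw [hY]; show κ ≤ lam ν + 1; rw [hν₀]; exact self_le_add_right κ 1)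
      · refine hg2 ν h Y ?_
        rw [hY]
        show (4 : Cardinal) ≤ lam ν + 1
        calc (4 : Cardinal) = 3 + 1 := by norm_num
          _ ≤ lam ν + 1 := add_le_add (hlam ν).1 le_rfl
    by_cases h3 : #Γ < ℵ₀ ∧ ∀ ν, ν ≠ ν₀ → lam ν < ℵ₀
    · exfalso
      have := pos_two_edm hf hlam2 (c0 := ν₀) (by rw [hν₀]; exact hκ) (by rw [hL]; exact (hlam ν₀).2)
        h3.2
      have hfinΓ : Finite Γ := Cardinal.lt_aleph0_iff_finite.mp h3.1
      exact this (Set.toFinite _)
    have hfalse : ∀ ν' : Cardinal.{u}, ℵ₀ ≤ ν' → #Γ ≤ ν' → (∀ ν, ν ≠ ν₀ → lam ν ≤ ν') →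
        (∀ x < κ.ord.cof, x ^ ν' < κ.ord.cof) → False := by
      intro ν' g1 g2 g3 g4
      obtain ⟨f', hf'⟩ := canon_down hκ hs hsl hL hΓ hν₀ hs h1 hf
      refine reg_pos hθr g1 g4 (Cardinal.mk_ord_toType _) g2 (ν₀ := ν₀) ?_ ?_ hf'
      · simp
      · intro c hc
        simp only [hc, if_false]
        exact (g3 c hc).trans (Order.le_succ _)
    -- `θ > ℵ₀`
    have hΓinf : ℵ₀ ≤ #Γ → 2 ^ #Γ < κ.ord.cof := by
      intro h
      by_contra hcon
      exact h2 ⟨h, not_lt.mp hcon⟩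
    have hθ1 : ℵ₀ < κ.ord.cof := by
      refine lt_of_le_of_ne hθr.aleph0_le ?_
      intro h
      apply h3
      refine ⟨?_, fun ν hν => by rw [h]; exact hltθ ν hν⟩
      by_contra hcon
      push Not at hcon
      have := hΓinf hcon
      rw [← h] at this
      exact absurd this (not_lt.mpr (hcon.trans (Cardinal.cantor _).le))
    have hΓθ : #Γ < κ.ord.cof := by
      rcases lt_or_ge #Γ ℵ₀ with h | h
      · exact h.trans hθ1
      · exact (Cardinal.cantor _).trans (hΓinf h)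
    by_cases hθlim : ∀ c < κ.ord.cof, Order.succ c < κ.ord.cof
    · exfalso
      have hsl' := gch_strong gch hθ1 hθlim
      obtain ⟨σ', hσ', hle⟩ := sup_entries hθr hΓθ (p := fun ν => ν ≠ ν₀) hltθ
      have h5 : max (max σ' #Γ) ℵ₀ < κ.ord.cof := max_lt (max_lt hσ' hΓθ) hθ1
      refine hfalse (max (max σ' #Γ) ℵ₀) (le_max_right _ _)
        ((le_max_right _ _).trans (le_max_left _ _))
        (fun ν hν => ((hle ν hν).trans (le_max_left _ _)).trans (le_max_left _ _)) ?_
      intro x hx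
      exact pow_lt_of_strong hsl' hx h5 (le_max_right _ _)
    push Not at hθlim
    obtain ⟨ρ, hρ, hρ'⟩ := hθlim
    have hθρ : κ.ord.cof = Order.succ ρ := le_antisymm hρ' (Order.succ_le_of_lt hρ)
    have hρ0 : ℵ₀ ≤ ρ := by rw [hθρ] at hθ1; exact Order.lt_succ_iff.mp hθ1
    have hleρ : ∀ ν, ν ≠ ν₀ → lam ν ≤ ρ := fun ν hν => by
      have := hltθ ν hν; rw [hθρ] at this; exact Order.lt_succ_iff.mp this
    have hΓρ : ℵ₀ ≤ #Γ → #Γ < ρ := by
      intro h
      have := hΓinf h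
      rw [hθρ] at this
      exact (Cardinal.cantor _).trans_le (Order.lt_succ_iff.mp this)
    -- closing the case of a small bound
    have hsmall : ∀ χ : Cardinal.{u}, χ.IsRegular → ℵ₀ < χ → χ ≤ ρ.ord.cof → #Γ < χ →
        (∀ ν, ν ≠ ν₀ → lam ν < χ) → False := by
      intro χ hχ hχ1 hχρ g1 g2
      obtain ⟨σ', hσ', hle⟩ := sup_entries hχ g1 (p := fun ν => ν ≠ ν₀) g2
      have h5 : max (max σ' #Γ) ℵ₀ < χ := max_lt (max_lt hσ' g1) hχ1
      refine hfalse (max (max σ' #Γ) ℵ₀) (le_max_right _ _)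
        ((le_max_right _ _).trans (le_max_left _ _))
        (fun ν hν => ((hle ν hν).trans (le_max_left _ _)).trans (le_max_left _ _)) ?_
      intro x hx
      rw [hθρ] at hx ⊢
      have hx' : x ≤ ρ := Order.lt_succ_iff.mp hx
      refine Order.lt_succ_iff.mpr ?_
      exact (Cardinal.power_le_power_right hx').trans (gch_pow gch hρ0 (h5.trans_le hχρ))
    by_cases hρr : ρ.IsRegular
    · exfalso
      have g2 : ∀ ν, ν ≠ ν₀ → lam ν < ρ := fun ν hν =>
        lt_of_le_of_ne (hleρ ν hν) (fun h => hreg ν (by rw [h]; exact hρr))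
      rcases hρ0.lt_or_eq with h | h
      · refine hsmall ρ hρr h (by rw [hρr.cof_ord]) ?_ g2
        rcases lt_or_ge #Γ ℵ₀ with h' | h'
        · exact h'.trans h
        · exact hΓρ h'
      · apply h3
        refine ⟨?_, fun ν hν => by rw [h]; exact g2 ν hν⟩
        by_contra hcon
        push Not at hcon
        have := hΓρ hcon
        rw [← h] at this
        exact absurd this (not_lt.mpr hcon)
    have hρs : ρ.ord.cof < ρ := by
      by_contra hcon
      exact hρr ⟨hρ0, not_lt.mp hcon⟩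
    have hχr : ρ.ord.cof.IsRegular := Cardinal.isRegular_cof (Cardinal.isSuccLimit_ord hρ0)
    by_cases h4 : ∃ ν₁, ν₁ ≠ ν₀ ∧ ρ.ord.cof < lam ν₁
    · obtain ⟨ν₁, hne, hν₁⟩ := h4
      obtain ⟨E, hE1, hE2, hE3⟩ := lex_graph hρ0 (Θ := κ.ord.cof.ord.ToType)
        (by rw [Cardinal.mk_ord_toType]; exact hθρ)
      refine low (Function.update lam ν₁ (Order.succ ρ.ord.cof)) ?_ ⟨ν₁, ?_⟩ ?_
      · intro ν
        by_cases h : ν = ν₁
        · subst h; rw [Function.update_self]
          exact ⟨(h2aleph.trans hχr.aleph0_le).trans (Order.le_succ _), Order.succ_le_of_lt hν₁⟩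
        · rw [Function.update_of_ne h]; exact ⟨hlam2 ν, le_rfl⟩
      · rw [Function.update_self]; exact Cardinal.isRegular_succ hχr.aleph0_le
      · refine block_colouring hL hκ bl hbl ?_ hne.symm ?_ E hE1 ?_ ?_
        · intro ν
          by_cases h : ν = ν₁
          · subst h; rw [Function.update_self]
            exact (h2aleph.trans hχr.aleph0_le).trans (Order.le_succ _)
          · rw [Function.update_of_ne h]; exact hlam2 ν
        · rw [Function.update_of_ne hne.symm]; exact hν₀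
        · intro Y hY
          rw [Function.update_self]
          exact Order.lt_succ_iff.mpr (hE2 Y hY)
        · intro Y hY
          exact (hE3 Y hY).trans_lt hρ
    push Not at h4
    have g5 : ∀ ν, ν ≠ ν₀ → lam ν < ρ.ord.cof := fun ν hν =>
      lt_of_le_of_ne (h4 ν hν) (fun h => hreg ν (by rw [h]; exact hχr))
    by_cases h5 : ρ.ord.cof ≤ #Γ
    · exfalso
      exact hexc ⟨ρ, ν₀, hρ0, hρs, hθρ, hs, hν₀, fun ν hν => ⟨g5 ν hν, hreg ν⟩, h5,
        hΓρ (hχr.aleph0_le.trans h5)⟩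
    push Not at h5
    exfalso
    rcases hχr.aleph0_le.lt_or_eq with h | h
    · exact hsmall ρ.ord.cof hχr h le_rfl h5 g5
    · apply h3
      refine ⟨by rw [h]; exact h5, fun ν hν => by rw [h]; exact g5 ν hν⟩

end Pool.Agent.H330
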