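import Mathlib

set_option autoImplicit false

open Cardinal Ordinal

namespace H330.OrdConv

universe u

/-- The image of a finite set without its maximum under an embedding of the
initial segment below the maximum. -/
noncomputable def lower {α β : Type u} [LinearOrder α] (p : ∀ a : α, {x : α // x < a} ↪ β)
    (s : Finset α) (hs : s.Nonempty) : Finset β :=
  ((s.erase (s.max' hs)).subtype (fun x => x < s.max' hs)).map (p (s.max' hs))

theorem card_lower {α β : Type u} [LinearOrder α] (p : ∀ a : α, {x : α // x < a} ↪ β)
    (s : Finset α) (hs : s.Nonempty) (n : ℕ) (h : s.card = n + 1) :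
    (lower p s hs).card = n := by
  classical
  unfold lower
  rw [Finset.card_map, Finset.card_subtype, Finset.filter_true_of_mem,
    Finset.card_erase_of_mem (s.max'_mem hs), h]
  · simp
  · intro x hx
    exact lt_of_le_of_ne (s.le_max' x (Finset.mem_of_mem_erase hx)) (Finset.ne_of_mem_erase hx)

theorem lower_insert {α β : Type u} [LinearOrder α]
    (p : ∀ a : α, {x : α // x < a} ↪ β)
    (d : α) (t : Finset {x : α // x < d}) (hs : (insert d (t.map (Function.Embedding.subtype _))).Nonempty) :
    lower p (insert d (t.map (Function.Embedding.subtype _))) hs = t.map (p d) := by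
  have hmax : (insert d (t.map (Function.Embedding.subtype _))).max' hs = d := by
    apply le_antisymm
    · apply Finset.max'_le
      intro y hy
      rw [Finset.mem_insert] at hy
      rcases hy with rfl | hy
      · exact le_rfl
      · rw [Finset.mem_map] at hy
        obtain ⟨z, _, rfl⟩ := hy
        exact z.2.le
    · exact Finset.le_max' _ _ (Finset.mem_insert_self _ _)
  have key : ∀ e : α, e = d →
      (((insert d (t.map (Function.Embedding.subtype _))).erase e).subtype
        (fun x => x < e)).map (p e) = t.map (p d) := by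
    rintro e rfl
    congr 1
    ext ⟨x, hx⟩
    simp only [Finset.mem_subtype, Finset.mem_erase, Finset.mem_insert, Finset.mem_map,
      Function.Embedding.subtype_apply, Subtype.exists, exists_and_right, exists_eq_right]
    constructor
    · rintro ⟨h1, h2 | ⟨_, h2⟩⟩
      · exact absurd h2 h1
      · exact h2
    · intro h2
      exact ⟨hx.ne, Or.inr ⟨hx, h2⟩⟩
  exact key _ hmax

/-- A set of ordinals of cardinality at least `c` contains a set of order type `c.ord`. -/
theorem exists_subset_type {β : Type u} [LinearOrder β] [WellFoundedLT β] (X : Set β)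
    (c : Cardinal.{u}) (hX : c ≤ #X) :
    ∃ Y : Set β, Y ⊆ X ∧ Ordinal.type (fun a b : Y => a < b) = c.ord := by
  have h1 : c.ord ≤ Ordinal.type (fun a b : X => a < b) := by
    rw [Cardinal.ord_le]
    simpa using hX
  have h2 : Ordinal.type (fun a b : c.ord.ToType => a < b) ≤ Ordinal.type (fun a b : X => a < b) := by
    have := Ordinal.type_toType c.ord
    rw [this]; exact h1
  rw [Ordinal.type_le_iff'] at h2
  obtain ⟨e⟩ := h2
  refine ⟨Set.range (fun i => (e i : β)), ?_, ?_⟩
  · rintro _ ⟨i, rfl⟩
    exact (e i).2
  · have h3 : Ordinal.type (fun a b : c.ord.ToType => a < b) = c.ord := Ordinal.type_toType c.ord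
    refine Eq.trans ?_ h3
    rw [Ordinal.type_eq]
    refine ⟨(RelIso.symm ⟨Equiv.ofInjective (fun i => (e i : β)) ?_, ?_⟩)⟩
    · intro i j hij
      exact e.injective (Subtype.ext hij)
    · intro a b
      exact e.map_rel_iff

theorem core {α β : Type u} {Γ : Type u} [LinearOrder α] [WellFoundedLT α] [LinearOrder β]
    [WellFoundedLT β]
    (p : ∀ a : α, {x : α // x < a} ↪ β) (n : ℕ)
    (f : {s : Finset β // s.card = n} → Γ) (k : Γ) (c : Cardinal.{u})
    (H : Set α) (hH : Ordinal.type (fun a b : H => a < b) = Order.succ c.ord)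
    (hom : ∀ (s : Finset α) (hs : s.Nonempty) (hc : s.card = n + 1), (∀ x ∈ s, x ∈ H) →
      f ⟨lower p s hs, card_lower p s hs n hc⟩ = k) :
    ∃ X : Set β, Ordinal.type (fun a b : X => a < b) = c.ord ∧
      ∀ s : {s : Finset β // s.card = n}, (∀ x ∈ s.1, x ∈ X) → f s = k := by
  classical
  have hT : Ordinal.type (fun a b : (Order.succ c.ord).ToType => a < b) = Order.succ c.ord :=
    Ordinal.type_toType _
  have hTH := hT.trans hH.symm
  rw [Ordinal.type_eq] at hTH
  obtain ⟨e⟩ := hTH
  -- the top element
  let t : (Order.succ c.ord).ToType := Ordinal.ToType.mk ⟨c.ord, Set.mem_Iio.mpr (Order.lt_succ c.ord)⟩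
  let d : α := (e t : α)
  have hdH : d ∈ H := (e t).2
  let j : c.ord.ToType → (Order.succ c.ord).ToType := fun i =>
    Ordinal.ToType.mk ⟨(i.toOrd : Ordinal), lt_trans (Set.mem_Iio.mp i.toOrd.2) (Order.lt_succ c.ord)⟩
  have hjt : ∀ i, j i < t := by
    intro i
    apply (Ordinal.ToType.mk (o := Order.succ c.ord)).lt_iff_lt.mpr
    exact i.toOrd.2
  have hjinj : Function.Injective j := by
    intro a b hab
    have := (Ordinal.ToType.mk (o := Order.succ c.ord)).injective hab
    have h2 : (a.toOrd : Ordinal) = b.toOrd := by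
      have := congrArg (fun z : Set.Iio (Order.succ c.ord) => (z : Ordinal)) this
      exact this
    exact (Ordinal.ToType.mk (o := c.ord)).symm.injective (Subtype.ext h2)
  have hlt : ∀ i, ((e (j i) : α)) < d := fun i => e.map_rel_iff.mpr (hjt i)
  let g0 : c.ord.ToType → {x : α // x < d} := fun i => ⟨(e (j i) : α), hlt i⟩
  have hg0 : Function.Injective g0 := by
    intro a b hab
    have h1 : ((e (j a) : α)) = (e (j b) : α) := by
      have := congrArg (fun z : {x : α // x < d} => (z : α)) hab
      exact this
    exact hjinj (e.injective (Subtype.ext h1))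
  have hg0H : ∀ i, ((g0 i : α)) ∈ H := fun i => (e (j i)).2
  let g : c.ord.ToType → β := fun i => p d (g0 i)
  have hg : Function.Injective g := (p d).injective.comp hg0
  have hcard : c ≤ #(Set.range g) := by
    rw [Cardinal.mk_range_eq g hg, Cardinal.mk_ord_toType]
  obtain ⟨Y, hY, hYt⟩ := exists_subset_type (Set.range g) c hcard
  refine ⟨Y, hYt, ?_⟩
  rintro ⟨s, hs⟩ hsY
  -- lift `s`
  have hlift : ∀ x ∈ s, ∃ z : {x : α // x < d}, (z : α) ∈ H ∧ p d z = x := by
    intro x hx
    obtain ⟨i, hi⟩ := hY (hsY x hx)
    exact ⟨g0 i, hg0H i, hi⟩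
  let T : Finset {x : α // x < d} := s.attach.image (fun x => (hlift x.1 x.2).choose)
  have hTs : T.map (p d) = s := by
    ext x
    simp only [T, Finset.mem_map, Finset.mem_image, Finset.mem_attach, true_and, Subtype.exists]
    constructor
    · rintro ⟨a, ha, ⟨b, hb, hab⟩, hx⟩
      have := (hlift b hb).choose_spec.2
      rw [hab] at this
      rw [← hx, this]
      exact hb
    · intro hx
      have := (hlift x hx).choose_spec.2
      exact ⟨_, (hlift x hx).choose.2, ⟨x, hx, rfl⟩, this⟩
  have hTH' : ∀ z ∈ T, (z : α) ∈ H := by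
    intro z hz
    simp only [T, Finset.mem_image, Finset.mem_attach, true_and, Subtype.exists] at hz
    obtain ⟨a, ha, rfl⟩ := hz
    exact (hlift a ha).choose_spec.1
  have hTc : T.card = n := by
    rw [← hs, ← hTs, Finset.card_map]
  have hne : (insert d (T.map (Function.Embedding.subtype (fun x => x < d)))).Nonempty :=
    Finset.insert_nonempty _ _
  have hcard2 : (insert d (T.map (Function.Embedding.subtype (fun x => x < d)))).card = n + 1 := by
    rw [Finset.card_insert_of_notMem, Finset.card_map, hTc]
    intro hd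
    rw [Finset.mem_map] at hd
    obtain ⟨z, _, hz⟩ := hd
    exact absurd hz z.2.ne
  have h1 := hom _ hne hcard2 (by
    intro x hx
    rw [Finset.mem_insert] at hx
    rcases hx with rfl | hx
    · exact hdH
    · rw [Finset.mem_map] at hx
      obtain ⟨z, hz, rfl⟩ := hx
      exact hTH' z hz)
  rw [← h1]
  congr 1
  apply Subtype.ext
  show s = lower p _ hne
  rw [lower_insert p d T hne, hTs]


end H330.OrdConv
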